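import Pool.Agent.Helper97.BD.Stir2

/-!
Block BD-S6 (MP_bd232a_nt, part B). Mellin inversion for `exp (-w)`, `Re w > 0`, `w = exp ζ`, `|Im ζ| < π/2`.

PROOF. `Gamma_strip_bound` (Stir2, may be sorried) gives vertical integrability:
`‖Gamma(σ+it) exp(-ζ(σ+it))‖ ≤ C (1+|t|)^A exp(-(π/2 - |Im ζ|)|t|)` for `|t| ≥ 1`, continuous for all `t`. For real `ζ` the identity is
Mathlib's `mellinInv_mellin_eq` for `f t = exp (-t)` at `x = exp ζ`; both sides are holomorphic in the strip `|Im ζ| < π/2`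
(differentiation under the integral), so the identity theorem gives the general case.
`mellin_exp_rho`: substitute `τ = Im A - ρ t` in `mellin_exp` (with `σ = Re A + ρ c`, `ζ/ρ` for `ζ`):
`A - ρ (-c + i t) = (Re A + ρ c) + i (Im A - ρ t)`, and `ζ (-c + i t) = ζ (A - (σ + i τ))/ρ`.
-/

open Complex MeasureTheory Set Filter Topology

namespace Pool.Agent.Helper19.BD

theorem int_exp_abs (δ : ℝ) (hδ : 0 < δ) : Integrable (fun t : ℝ => Real.exp (-(δ * |t|))) := by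
  rw [← integrableOn_univ, ← Iic_union_Ioi (a := (0:ℝ))]
  refine IntegrableOn.union ?_ ?_
  · refine (integrableOn_exp_mul_Iic hδ 0).congr_fun (fun t ht => ?_) measurableSet_Iic
    simp only [mem_Iic] at ht
    simp [abs_of_nonpos ht]
  · refine (integrableOn_exp_mul_Ioi (neg_lt_zero.mpr hδ) 0).congr_fun (fun t ht => ?_) measurableSet_Ioi
    simp only [mem_Ioi] at ht
    simp [abs_of_pos ht]

theorem gamma_line_cont (σ : ℝ) (hσ : 0 < σ) :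
    Continuous (fun t : ℝ => Gamma ((σ : ℂ) + (t : ℂ) * I)) := by
  rw [continuous_iff_continuousAt]
  intro t
  have h : ContinuousAt Gamma ((σ : ℂ) + (t : ℂ) * I) := by
    refine (differentiableAt_Gamma _ fun m => ?_).continuousAt
    intro h
    have h1 := congrArg re h
    simp at h1
    have : (0:ℝ) ≤ m := m.cast_nonneg
    linarith
  exact ContinuousAt.comp (f := fun t : ℝ => (σ : ℂ) + (t : ℂ) * I) h (by fun_prop)

theorem gamma_line_bound (σ : ℝ) (hσ : 0 < σ) (θ : ℝ) (hθ : θ < Real.pi / 2) :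
    ∃ K : ℝ, 0 ≤ K ∧ ∀ t : ℝ, ‖Gamma ((σ : ℂ) + (t : ℂ) * I)‖ * ‖(σ : ℂ) + (t : ℂ) * I‖ *
      Real.exp (θ * |t|) ≤ K * Real.exp (-((Real.pi / 2 - θ) / 2 * |t|)) := by
  obtain ⟨C, A, hC, hA, hb⟩ := Gamma_strip_bound σ σ
  set δ : ℝ := (Real.pi / 2 - θ) / 2 with hδdef
  have hδ : 0 < δ := by rw [hδdef]; linarith
  have hlim := tendsto_rpow_mul_exp_neg_mul_atTop_nhds_zero (A + 1) δ hδ
  have hev : ∀ᶠ x : ℝ in atTop, x ^ (A + 1) * Real.exp (-δ * x) < 1 := hlim.eventually_lt_const one_pos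
  obtain ⟨X, hX⟩ := eventually_atTop.1 hev
  set X0 : ℝ := max X 1 with hX0
  have hcont : Continuous (fun t : ℝ => ‖Gamma ((σ : ℂ) + (t : ℂ) * I)‖ * ‖(σ : ℂ) + (t : ℂ) * I‖ *
      Real.exp ((θ + δ) * |t|)) := by
    have := gamma_line_cont σ hσ
    fun_prop
  obtain ⟨K2, hK2⟩ := (isCompact_Icc (a := -X0) (b := X0)).bddAbove_image hcont.continuousOn
  have hK : ∀ t : ℝ, ‖Gamma ((σ : ℂ) + (t : ℂ) * I)‖ * ‖(σ : ℂ) + (t : ℂ) * I‖ *
      Real.exp ((θ + δ) * |t|) ≤ max (C * (σ + 1)) K2 := by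
    intro t
    by_cases ht : |t| ≤ X0
    · exact (hK2 (mem_image_of_mem _ (abs_le.1 ht))).trans (le_max_right _ _)
    · push Not at ht
      have h1 : 1 ≤ |t| := (le_max_right _ _).trans ht.le
      have hXt : X ≤ |t| := (le_max_left _ _).trans ht.le
      have hG := hb ((σ : ℂ) + (t : ℂ) * I) (by simp) (by simp) (by simpa using h1)
      have him : ((σ : ℂ) + (t : ℂ) * I).im = t := by simp
      rw [him] at hG
      have hn : ‖(σ : ℂ) + (t : ℂ) * I‖ ≤ (σ + 1) * |t| := by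
        refine (norm_add_le _ _).trans ?_
        simp only [norm_mul, norm_real, Real.norm_eq_abs, norm_I, mul_one]
        rw [abs_of_pos hσ]
        nlinarith
      have ht0 : 0 < |t| := by linarith
      refine le_trans ?_ (le_max_left _ _)
      calc ‖Gamma ((σ : ℂ) + (t : ℂ) * I)‖ * ‖(σ : ℂ) + (t : ℂ) * I‖ * Real.exp ((θ + δ) * |t|)
          ≤ (C * |t| ^ A * Real.exp (-(Real.pi * |t| / 2))) * ((σ + 1) * |t|) *
            Real.exp ((θ + δ) * |t|) := by gcongr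
        _ = C * (σ + 1) * ((|t| ^ (A + 1)) * Real.exp (-δ * |t|)) := by
            rw [Real.rpow_add ht0, Real.rpow_one]
            have : Real.exp (-δ * |t|) = Real.exp (-(Real.pi * |t| / 2)) * Real.exp ((θ + δ) * |t|) := by
              rw [← Real.exp_add]
              congr 1
              rw [hδdef]; ring
            rw [this]; ring
        _ ≤ C * (σ + 1) * 1 := by
            gcongr
            exact (hX |t| hXt).le
        _ = C * (σ + 1) := mul_one _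
  refine ⟨max (C * (σ + 1)) K2, le_trans (by positivity) (le_max_left _ _), fun t => ?_⟩
  have h := hK t
  have h2 : Real.exp ((θ + δ) * |t|) * Real.exp (-(δ * |t|)) = Real.exp (θ * |t|) := by
    rw [← Real.exp_add]; congr 1; ring
  calc ‖Gamma ((σ : ℂ) + (t : ℂ) * I)‖ * ‖(σ : ℂ) + (t : ℂ) * I‖ * Real.exp (θ * |t|)
      = ‖Gamma ((σ : ℂ) + (t : ℂ) * I)‖ * ‖(σ : ℂ) + (t : ℂ) * I‖ *
        Real.exp ((θ + δ) * |t|) * Real.exp (-(δ * |t|)) := by rw [← h2]; ring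
    _ ≤ _ := by gcongr

/-- The integrand. -/
noncomputable def mF (σ : ℝ) (ζ : ℂ) (t : ℝ) : ℂ :=
  Gamma ((σ : ℂ) + (t : ℂ) * I) * exp (-(ζ * ((σ : ℂ) + (t : ℂ) * I)))

noncomputable def mF' (σ : ℝ) (ζ : ℂ) (t : ℝ) : ℂ :=
  Gamma ((σ : ℂ) + (t : ℂ) * I) * (exp (-(ζ * ((σ : ℂ) + (t : ℂ) * I))) * (-((σ : ℂ) + (t : ℂ) * I)))

theorem mF_cont (σ : ℝ) (hσ : 0 < σ) (ζ : ℂ) : Continuous (mF σ ζ) := by
  have := gamma_line_cont σ hσ
  unfold mF
  fun_prop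

theorem mF'_cont (σ : ℝ) (hσ : 0 < σ) (ζ : ℂ) : Continuous (mF' σ ζ) := by
  have := gamma_line_cont σ hσ
  unfold mF'
  fun_prop

theorem norm_exp_le (σ : ℝ) (hσ : 0 < σ) (R θ : ℝ) (ζ : ℂ) (hR : |ζ.re| ≤ R) (hθ : |ζ.im| ≤ θ) (t : ℝ) :
    ‖exp (-(ζ * ((σ : ℂ) + (t : ℂ) * I)))‖ ≤ Real.exp (σ * R) * Real.exp (θ * |t|) := by
  rw [Complex.norm_exp, ← Real.exp_add]
  apply Real.exp_le_exp.2
  simp only [neg_re, mul_re, add_re, ofReal_re, I_re, mul_zero, ofReal_im, I_im, mul_one, sub_self,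
    add_zero, add_im, mul_im, zero_add]
  have h1 : -(ζ.re * σ) ≤ σ * R := by
    have : -ζ.re ≤ R := (neg_le_abs _).trans hR
    nlinarith
  have h2 : ζ.im * t ≤ θ * |t| := by
    calc ζ.im * t ≤ |ζ.im * t| := le_abs_self _
      _ = |ζ.im| * |t| := abs_mul _ _
      _ ≤ θ * |t| := by gcongr
  linarith

theorem mF'_bound (σ : ℝ) (hσ : 0 < σ) (R θ : ℝ) (hθ : θ < Real.pi / 2) :
    ∃ K : ℝ, 0 ≤ K ∧ ∀ ζ : ℂ, |ζ.re| ≤ R → |ζ.im| ≤ θ → ∀ t : ℝ,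
      ‖mF' σ ζ t‖ ≤ K * Real.exp (-((Real.pi / 2 - θ) / 2 * |t|)) := by
  obtain ⟨K, hK0, hK⟩ := gamma_line_bound σ hσ θ hθ
  refine ⟨K * Real.exp (σ * R), by positivity, fun ζ h1 h2 t => ?_⟩
  have h3 := norm_exp_le σ hσ R θ ζ h1 h2 t
  unfold mF'
  rw [norm_mul, norm_mul, norm_neg]
  calc ‖Gamma ((σ : ℂ) + (t : ℂ) * I)‖ * (‖exp (-(ζ * ((σ : ℂ) + (t : ℂ) * I)))‖ * ‖(σ : ℂ) + (t : ℂ) * I‖)
      ≤ ‖Gamma ((σ : ℂ) + (t : ℂ) * I)‖ * ((Real.exp (σ * R) * Real.exp (θ * |t|)) * ‖(σ : ℂ) + (t : ℂ) * I‖) := by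
        gcongr
    _ = Real.exp (σ * R) * (‖Gamma ((σ : ℂ) + (t : ℂ) * I)‖ * ‖(σ : ℂ) + (t : ℂ) * I‖ * Real.exp (θ * |t|)) := by
        ring
    _ ≤ Real.exp (σ * R) * (K * Real.exp (-((Real.pi / 2 - θ) / 2 * |t|))) :=
        mul_le_mul_of_nonneg_left (hK t) (Real.exp_pos _).le
    _ = _ := by ring

theorem mF_norm_le (σ : ℝ) (hσ : 0 < σ) (ζ : ℂ) (t : ℝ) : ‖mF σ ζ t‖ ≤ σ⁻¹ * ‖mF' σ ζ t‖ := by
  have h : σ ≤ ‖(σ : ℂ) + (t : ℂ) * I‖ := by
    have := Complex.re_le_norm ((σ : ℂ) + (t : ℂ) * I)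
    simpa using this
  have h2 : mF' σ ζ t = -(mF σ ζ t * ((σ : ℂ) + (t : ℂ) * I)) := by
    unfold mF mF'; ring
  rw [h2, norm_neg, norm_mul]
  have h3 : ‖mF σ ζ t‖ * σ ≤ ‖mF σ ζ t‖ * ‖(σ : ℂ) + (t : ℂ) * I‖ := by gcongr
  rw [inv_mul_eq_div, le_div_iff₀ hσ]
  exact h3

theorem mF_integrable (σ : ℝ) (hσ : 0 < σ) (ζ : ℂ) (hζ : |ζ.im| < Real.pi / 2) : Integrable (mF σ ζ) := by
  obtain ⟨K, hK0, hK⟩ := mF'_bound σ hσ |ζ.re| |ζ.im| hζ
  have hI := (int_exp_abs ((Real.pi / 2 - |ζ.im|) / 2) (by linarith)).const_mul (σ⁻¹ * K)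
  refine hI.mono' (mF_cont σ hσ ζ).aestronglyMeasurable (Eventually.of_forall fun t => ?_)
  refine (mF_norm_le σ hσ ζ t).trans ?_
  rw [mul_assoc]
  gcongr
  exact hK ζ le_rfl le_rfl t

theorem mF_deriv (σ : ℝ) (hσ : 0 < σ) (ζ : ℂ) (hζ : |ζ.im| < Real.pi / 2) :
    HasDerivAt (fun z => ∫ t : ℝ, mF σ z t) (∫ t : ℝ, mF' σ ζ t) ζ := by
  set θ : ℝ := (|ζ.im| + Real.pi / 2) / 2 with hθdef
  have hθ : θ < Real.pi / 2 := by rw [hθdef]; linarith
  have hθ2 : |ζ.im| < θ := by rw [hθdef]; linarith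
  obtain ⟨K, hK0, hK⟩ := mF'_bound σ hσ (|ζ.re| + 1) θ hθ
  have hI := (int_exp_abs ((Real.pi / 2 - θ) / 2) (by linarith)).const_mul K
  have hopen : {z : ℂ | |z.re| < |ζ.re| + 1 ∧ |z.im| < θ} ∈ 𝓝 ζ := by
    have c1 : Continuous (fun z : ℂ => |z.re|) := by fun_prop
    have c2 : Continuous (fun z : ℂ => |z.im|) := by fun_prop
    exact Filter.inter_mem ((isOpen_lt c1 continuous_const).mem_nhds (by simp))
      ((isOpen_lt c2 continuous_const).mem_nhds hθ2)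
  refine (hasDerivAt_integral_of_dominated_loc_of_deriv_le (F := mF σ) (F' := mF' σ) hopen
    (Eventually.of_forall fun z => (mF_cont σ hσ z).aestronglyMeasurable) (mF_integrable σ hσ ζ hζ)
    (mF'_cont σ hσ ζ).aestronglyMeasurable (Eventually.of_forall fun t z hz => hK z hz.1.le hz.2.le t) hI
    (Eventually.of_forall fun t z _ => ?_)).2
  unfold mF mF'
  have h1 : HasDerivAt (fun z : ℂ => -(z * ((σ : ℂ) + (t : ℂ) * I))) (-((σ : ℂ) + (t : ℂ) * I)) z := by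
    have := ((hasDerivAt_id' z).mul_const ((σ : ℂ) + (t : ℂ) * I)).fun_neg
    rwa [one_mul] at this
  exact (h1.cexp).const_mul _

theorem mF_real (σ : ℝ) (hσ : 0 < σ) (x : ℝ) :
    ∫ t : ℝ, mF σ (x : ℂ) t = 2 * Real.pi * exp (-exp (x : ℂ)) := by
  have hG : ∀ s : ℂ, 0 < s.re → mellin (fun t : ℝ => ((Real.exp (-t) : ℝ) : ℂ)) s = Gamma s := by
    intro s hs
    rw [Gamma_eq_integral hs, GammaIntegral_eq_mellin]
  have hline : ∀ t : ℝ, mellin (fun t : ℝ => ((Real.exp (-t) : ℝ) : ℂ)) ((σ : ℂ) + (t : ℂ) * I) =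
      Gamma ((σ : ℂ) + (t : ℂ) * I) := fun t => hG _ (by simpa using hσ)
  have hconv : MellinConvergent (fun t : ℝ => ((Real.exp (-t) : ℝ) : ℂ)) (σ : ℂ) := by
    have := GammaIntegral_convergent (s := (σ : ℂ)) (by simpa using hσ)
    unfold MellinConvergent
    refine this.congr_fun (fun t ht => ?_) measurableSet_Ioi
    simp [mul_comm]
  have hvert : VerticalIntegrable (mellin (fun t : ℝ => ((Real.exp (-t) : ℝ) : ℂ))) σ := by
    unfold VerticalIntegrable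
    simp_rw [hline]
    have := mF_integrable σ hσ 0 (by simpa using Real.pi_div_two_pos)
    unfold mF at this
    simpa using this
  have hinv := mellinInv_mellin_eq σ (fun t : ℝ => ((Real.exp (-t) : ℝ) : ℂ)) (Real.exp_pos x) hconv hvert
    (by fun_prop)
  unfold mellinInv at hinv
  simp_rw [hline] at hinv
  have h1 : ∀ y : ℝ, ((Real.exp x : ℝ) : ℂ) ^ (-((σ : ℂ) + (y : ℂ) * I)) • Gamma ((σ : ℂ) + (y : ℂ) * I) =
      mF σ (x : ℂ) y := by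
    intro y
    unfold mF
    rw [smul_eq_mul, mul_comm]
    congr 1
    rw [cpow_def_of_ne_zero (by exact_mod_cast (Real.exp_pos x).ne'), ← ofReal_log (Real.exp_pos x).le,
      Real.log_exp]
    congr 1
    ring
  simp_rw [h1] at hinv
  have h2 : (exp (-exp (x : ℂ))) = ((Real.exp (-Real.exp x) : ℝ) : ℂ) := by push_cast; rfl
  rw [h2, ← hinv]
  have hpi : (Real.pi : ℂ) ≠ 0 := by exact_mod_cast Real.pi_ne_zero
  rw [Complex.real_smul]
  push_cast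
  field_simp

theorem mF_strip (σ : ℝ) (hσ : 0 < σ) (ζ : ℂ) (hζ : |ζ.im| < Real.pi / 2) :
    ∫ t : ℝ, mF σ ζ t = 2 * Real.pi * exp (-exp ζ) := by
  set U : Set ℂ := {z : ℂ | |z.im| < Real.pi / 2} with hU
  have hUo : IsOpen U := isOpen_lt (by fun_prop) (by fun_prop)
  have hUc : Convex ℝ U := by
    have : U = Complex.imLm ⁻¹' (Ioo (-(Real.pi / 2)) (Real.pi / 2)) := by
      ext z; simp [hU, abs_lt]
    rw [this]
    exact (convex_Ioo _ _).linear_preimage _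
  have hf : AnalyticOnNhd ℂ (fun z => ∫ t : ℝ, mF σ z t) U := by
    refine DifferentiableOn.analyticOnNhd (fun z hz => ?_) hUo
    exact (mF_deriv σ hσ z hz).differentiableAt.differentiableWithinAt
  have hg : AnalyticOnNhd ℂ (fun z => 2 * (Real.pi : ℂ) * exp (-exp z)) U := by
    refine DifferentiableOn.analyticOnNhd (fun z hz => ?_) hUo
    refine DifferentiableAt.differentiableWithinAt ?_
    fun_prop
  have h0 : (0 : ℂ) ∈ U := by simpa [hU] using Real.pi_div_two_pos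
  have hfr : ∃ᶠ z in 𝓝[≠] (0 : ℂ), (fun z => ∫ t : ℝ, mF σ z t) z = (fun z => 2 * (Real.pi : ℂ) * exp (-exp z)) z := by
    have ht : Tendsto (fun x : ℝ => (x : ℂ)) (𝓝[≠] (0 : ℝ)) (𝓝[≠] (0 : ℂ)) := by
      refine tendsto_nhdsWithin_iff.2 ⟨?_, ?_⟩
      · have : Tendsto (fun x : ℝ => (x : ℂ)) (𝓝 (0 : ℝ)) (𝓝 ((0 : ℝ) : ℂ)) := (by fun_prop : Continuous (fun x : ℝ => (x : ℂ))).tendsto 0
        simpa using this.mono_left nhdsWithin_le_nhds
      · filter_upwards [self_mem_nhdsWithin] with x hx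
        simpa using hx
    exact ht.frequently (Frequently.of_forall fun x => mF_real σ hσ x)
  exact hf.eqOn_of_preconnected_of_frequently_eq hg hUc.isPreconnected h0 hfr hζ

theorem mellin_exp (σ : ℝ) (hσ : 0 < σ) (ζ : ℂ) (hζ : |ζ.im| < Real.pi / 2) :
    Integrable (fun t : ℝ => Gamma ((σ : ℂ) + (t : ℂ) * I) * exp (-(ζ * ((σ : ℂ) + (t : ℂ) * I)))) ∧
    (1 / (2 * Real.pi) : ℂ) * ∫ t : ℝ, Gamma ((σ : ℂ) + (t : ℂ) * I) * exp (-(ζ * ((σ : ℂ) + (t : ℂ) * I))) = exp (-exp ζ) := by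
  refine ⟨mF_integrable σ hσ ζ hζ, ?_⟩
  have h := mF_strip σ hσ ζ hζ
  unfold mF at h
  rw [h]
  have hpi : (Real.pi : ℂ) ≠ 0 := by exact_mod_cast Real.pi_ne_zero
  field_simp

theorem mellin_exp_rho (A : ℂ) (ρ c : ℝ) (hρ : 0 < ρ) (hc : 0 < A.re + ρ * c) (ζ : ℂ) (hζ : |ζ.im| < Real.pi * ρ / 2) :
    Integrable (fun t : ℝ => Gamma (A - ρ * (-(c : ℂ) + (t : ℂ) * I)) * exp (ζ * (-(c : ℂ) + (t : ℂ) * I))) ∧
    (1 / (2 * Real.pi) : ℂ) * ∫ t : ℝ, Gamma (A - ρ * (-(c : ℂ) + (t : ℂ) * I)) * exp (ζ * (-(c : ℂ) + (t : ℂ) * I)) =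
      1 / (ρ : ℂ) * exp (A * ζ / ρ) * exp (-exp (ζ / ρ)) := by
  set σ : ℝ := A.re + ρ * c with hσ
  have hρc : (ρ : ℂ) ≠ 0 := by exact_mod_cast hρ.ne'
  have him : |(ζ / ρ).im| < Real.pi / 2 := by
    have : (ζ / ρ).im = ζ.im / ρ := by simp
    rw [this, abs_div, abs_of_pos hρ, div_lt_iff₀ hρ]
    linarith
  obtain ⟨hI, hE⟩ := mellin_exp σ hc (ζ / ρ) him
  set g : ℝ → ℂ := fun t => Gamma ((σ : ℂ) + (t : ℂ) * I) * exp (-(ζ / ρ * ((σ : ℂ) + (t : ℂ) * I))) with hg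
  have hkey : ∀ t : ℝ, Gamma (A - ρ * (-(c : ℂ) + (t : ℂ) * I)) * exp (ζ * (-(c : ℂ) + (t : ℂ) * I)) =
      exp (A * ζ / ρ) * g (A.im - ρ * t) := by
    intro t
    have h1 : A - ρ * (-(c : ℂ) + (t : ℂ) * I) = (σ : ℂ) + ((A.im - ρ * t : ℝ) : ℂ) * I := by
      apply Complex.ext
      · simp [hσ]
      · simp
    have h2 : exp (ζ * (-(c : ℂ) + (t : ℂ) * I)) =
        exp (A * ζ / ρ) * exp (-(ζ / ρ * ((σ : ℂ) + ((A.im - ρ * t : ℝ) : ℂ) * I))) := by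
      rw [← Complex.exp_add, ← h1]
      congr 1
      field_simp
      ring
    rw [h2, h1, hg]
    ring
  have hIs : Integrable (fun t : ℝ => g (A.im - ρ * t)) := by
    have h1 : Integrable (fun t : ℝ => g (A.im - t)) := hI.comp_sub_left A.im
    exact h1.comp_mul_left' hρ.ne'
  have hint : ∫ t : ℝ, g (A.im - ρ * t) = (ρ : ℂ)⁻¹ * ∫ t : ℝ, g t := by
    have h1 := Measure.integral_comp_mul_left (fun t : ℝ => g (A.im - t)) ρ
    rw [h1, integral_sub_left_eq_self, abs_of_pos (inv_pos.2 hρ), Complex.real_smul]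
    push_cast
    rfl
  simp_rw [hkey]
  refine ⟨hIs.const_mul _, ?_⟩
  rw [integral_const_mul, hint]
  calc (1 / (2 * Real.pi) : ℂ) * (exp (A * ζ / ρ) * ((ρ : ℂ)⁻¹ * ∫ t : ℝ, g t))
      = 1 / (ρ : ℂ) * exp (A * ζ / ρ) * ((1 / (2 * Real.pi) : ℂ) * ∫ t : ℝ, g t) := by ring
    _ = _ := by rw [hE]

end Pool.Agent.Helper19.BD
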