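import Pool.Agent.Helper97.BD.Stir1

/-!
Block BD-S2 (MP_bd232a_nt, part B). Stirling's formula on vertical lines, uniformly for `‖b‖ ≤ M`, and the upper bound in strips.
`stL b τ = i τ (log τ - 1) - π τ/2 + (b - 1/2)(log τ + i π/2) + (1/2) log 2π` (file Base.lean).

PROOF of `stirling_vert` from `stirling_rhp` (BD-S1, may be sorried): let `m : ℕ` with `M ≤ m`, `T = 2 (M + m + 1)` (or larger),
`w = τ I`, `b' = b + m`, `z = w + b'`. Then `Re z ≥ 0`, `‖z‖ ≥ τ - ‖b'‖ ≥ τ/2 ≥ 1`, `log z = log w + log (1 + b'/w)`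
(`Re w ≥ 0`..., `‖b'/w‖ ≤ 1/2`; arguments add up without wrapping since `arg w = π/2` and `Re z ≥ 0`),
`log w = log τ + i π/2`, `log (1+b'/w) = b'/w + O(1/τ^2)` so
`(z - 1/2) log z - z = (w + b' - 1/2) log w + b' - w - b' + O(1/τ)`; and
`Gamma (b + w) = Gamma z / ∏_{j<m} (b + j + w)`, `b + j + w = w (1 + (b+j)/w) = exp (log w + O(1/τ))`.

PROOF of `Gamma_strip_bound`: for `|Im s| ≥ T` from `stirling_vert` with `b = Re s` (real part of the exponent is
`- π τ/2 + (σ - 1/2) log τ + O(1)`), for `Im s < 0` by `Gamma (conj s) = conj (Gamma s)`, for `1 ≤ |Im s| ≤ T` by compactness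
(Gamma is continuous there).
-/

open Complex

namespace Pool.Agent.Helper19.BD

namespace S2

theorem log_tauI {τ : ℝ} (hτ : 0 < τ) :
    log ((τ : ℂ) * I) = (Real.log τ : ℂ) + ((Real.pi / 2 : ℝ) : ℂ) * I := by
  rw [Complex.log_ofReal_mul hτ I_ne_zero, Complex.log_I]
  push_cast
  ring

theorem tauI_ne {τ : ℝ} (hτ : 0 < τ) : (τ : ℂ) * I ≠ 0 :=
  mul_ne_zero (by exact_mod_cast hτ.ne') I_ne_zero

/-- `b + τ I = τ I (1 + u)` with `‖u‖ ≤ 1/2`, `log (b + τ I) = log (τ I) + log (1 + u)`. -/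
theorem split {M τ : ℝ} {b : ℂ} (hM : 0 ≤ M) (hb : ‖b‖ ≤ M) (hτ : 1 ≤ τ) (hT : 2 * M ≤ τ) :
    ∃ u : ℂ, ‖u‖ ≤ M / τ ∧ ‖u‖ ≤ 1 / 2 ∧ (τ : ℂ) * I * u = b ∧
      b + (τ : ℂ) * I = (τ : ℂ) * I * (1 + u) ∧ 1 + u ≠ 0 ∧
      log (b + (τ : ℂ) * I) = log ((τ : ℂ) * I) + log (1 + u) := by
  have hτ0 : 0 < τ := by linarith
  have hw := tauI_ne hτ0
  have hwn : ‖(τ : ℂ) * I‖ = τ := by
    rw [norm_mul, Complex.norm_I, mul_one, Complex.norm_real, Real.norm_eq_abs, abs_of_pos hτ0]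
  have hcan : (τ : ℂ) * I * (b / ((τ : ℂ) * I)) = b := by
    rw [mul_div_assoc', mul_div_cancel_left₀ _ hw]
  refine ⟨b / ((τ : ℂ) * I), ?_, ?_, ?_, ?_, ?_, ?_⟩
  · rw [norm_div, hwn]
    exact div_le_div_of_nonneg_right hb hτ0.le
  · rw [norm_div, hwn, div_le_iff₀ hτ0]
    linarith
  · exact hcan
  · rw [mul_add, hcan]
    ring
  · intro h
    have h1 : b / ((τ : ℂ) * I) = -1 := by linear_combination h
    have h2 : ‖b / ((τ : ℂ) * I)‖ ≤ 1 / 2 := by
      rw [norm_div, hwn, div_le_iff₀ hτ0]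
      linarith
    rw [h1, norm_neg, norm_one] at h2
    norm_num at h2
  · have h2 : ‖b / ((τ : ℂ) * I)‖ ≤ 1 / 2 := by
      rw [norm_div, hwn, div_le_iff₀ hτ0]
      linarith
    have hre : 0 < (1 + b / ((τ : ℂ) * I)).re := by
      have := Complex.abs_re_le_norm (b / ((τ : ℂ) * I))
      have h3 := neg_abs_le (b / ((τ : ℂ) * I)).re
      simp only [add_re, one_re]
      linarith
    have hne : 1 + b / ((τ : ℂ) * I) ≠ 0 := by
      intro h
      rw [h] at hre
      simp at hre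
    have e : b + (τ : ℂ) * I = (τ : ℂ) * I * (1 + b / ((τ : ℂ) * I)) := by
      rw [mul_add, hcan]
      ring
    rw [e]
    rw [Complex.log_mul_eq_add_log_iff hw hne]
    have harg : arg ((τ : ℂ) * I) = Real.pi / 2 := by
      rw [Complex.arg_real_mul I hτ0, Complex.arg_I]
    have ha := Complex.abs_arg_lt_pi_div_two_iff.mpr (Or.inl hre)
    rw [abs_lt] at ha
    rw [harg]
    constructor
    · linarith [ha.1, Real.pi_pos]
    · linarith [ha.2]

theorem aux (m : ℕ) : ∀ M : ℝ, 0 ≤ M → ∃ C T : ℝ, 0 < C ∧ 1 ≤ T ∧ ∀ b : ℂ, ‖b‖ ≤ M → -(m : ℝ) ≤ b.re →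
    ∀ τ : ℝ, T ≤ τ →
    ∃ R : ℂ, ‖R‖ ≤ C / τ ∧ Gamma (b + (τ : ℂ) * I) = exp (stL b τ + R) := by
  induction m with
  | zero =>
    intro M hM
    obtain ⟨C, hC, h⟩ := stirling_rhp
    refine ⟨2 * C + 2 * M ^ 2 + (M + 1) * (2 * M) + 1, 2 * M + 2, by positivity, by linarith, ?_⟩
    intro b hb hbre τ hτ
    have hτ1 : 1 ≤ τ := by linarith
    have hτ0 : 0 < τ := by linarith
    obtain ⟨u, hu1, hu2, hu3, hu4, hu5, hu6⟩ := split hM hb hτ1 (by linarith)
    have hwn : ‖(τ : ℂ) * I‖ = τ := by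
      rw [norm_mul, Complex.norm_I, mul_one, Complex.norm_real, Real.norm_eq_abs, abs_of_pos hτ0]
    have hzn : τ / 2 ≤ ‖b + (τ : ℂ) * I‖ := by
      have h1 : ‖(τ : ℂ) * I‖ ≤ ‖b + (τ : ℂ) * I‖ + ‖b‖ := by
        calc ‖(τ : ℂ) * I‖ = ‖(b + (τ : ℂ) * I) - b‖ := by congr 1; ring
          _ ≤ _ := norm_sub_le _ _
      rw [hwn] at h1
      linarith
    obtain ⟨R, hR, hG⟩ := h (b + (τ : ℂ) * I) (by
      simp only [add_re, mul_re, ofReal_re, I_re, mul_zero, ofReal_im, I_im, mul_one, sub_self, add_zero]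
      simpa using hbre) (by linarith)
    refine ⟨R + ((τ : ℂ) * I * (log (1 + u) - u) + (b - 1 / 2) * log (1 + u)), ?_, ?_⟩
    · have e1 : ‖R‖ ≤ 2 * C / τ := by
        refine hR.trans ?_
        rw [div_le_div_iff₀ (by linarith) hτ0]
        nlinarith
      have e2 : ‖log (1 + u) - u‖ ≤ ‖u‖ ^ 2 := by
        have := Complex.norm_log_one_add_sub_self_le (z := u) (by linarith)
        refine this.trans ?_
        have h3 : (1 - ‖u‖)⁻¹ ≤ 2 := by
          rw [inv_le_comm₀ (by linarith) (by norm_num)]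
          linarith
        have h4 : 0 ≤ ‖u‖ ^ 2 := by positivity
        nlinarith
      have e3 : ‖log (1 + u)‖ ≤ 3 / 2 * ‖u‖ := Complex.norm_log_one_add_half_le_self hu2
      have e4 : ‖b - 1 / 2‖ ≤ M + 1 := by
        have := norm_sub_le b (1 / 2)
        have h5 : ‖(1 / 2 : ℂ)‖ = 1 / 2 := by norm_num
        rw [h5] at this
        linarith
      have hu0 : 0 ≤ ‖u‖ := norm_nonneg u
      have e5 : ‖(τ : ℂ) * I * (log (1 + u) - u)‖ ≤ M ^ 2 / τ := by
        rw [norm_mul, hwn]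
        calc τ * ‖log (1 + u) - u‖ ≤ τ * ‖u‖ ^ 2 := by gcongr
          _ ≤ τ * (M / τ) ^ 2 := by gcongr
          _ = M ^ 2 / τ := by field_simp
      have e6 : ‖(b - 1 / 2) * log (1 + u)‖ ≤ (M + 1) * (2 * M) / τ := by
        rw [norm_mul]
        calc ‖b - 1 / 2‖ * ‖log (1 + u)‖ ≤ (M + 1) * (3 / 2 * ‖u‖) := by gcongr
          _ ≤ (M + 1) * (2 * (M / τ)) := by
            gcongr
            linarith
          _ = (M + 1) * (2 * M) / τ := by ring
      calc ‖R + ((τ : ℂ) * I * (log (1 + u) - u) + (b - 1 / 2) * log (1 + u))‖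
          ≤ ‖R‖ + (‖(τ : ℂ) * I * (log (1 + u) - u)‖ + ‖(b - 1 / 2) * log (1 + u)‖) :=
            (norm_add_le _ _).trans (by gcongr; exact norm_add_le _ _)
        _ ≤ 2 * C / τ + (M ^ 2 / τ + (M + 1) * (2 * M) / τ) := by gcongr
        _ = (2 * C + M ^ 2 + (M + 1) * (2 * M)) / τ := by ring
        _ ≤ (2 * C + 2 * M ^ 2 + (M + 1) * (2 * M) + 1) / τ := by
            gcongr ?_ / τ
            nlinarith [sq_nonneg M]
    · rw [hG]
      congr 1
      rw [hu6, log_tauI hτ0]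
      unfold stL
      push_cast
      have hI : I * I = -1 := I_mul_I
      linear_combination (τ * Real.pi / 2 : ℂ) * hI + hu3
  | succ m ih =>
    intro M hM
    obtain ⟨C, T, hC, hT, h⟩ := ih (M + 1) (by linarith)
    refine ⟨C + 2 * M + 1, T + 2 * M, by positivity, by linarith, ?_⟩
    intro b hb hbre τ hτ
    have hτ1 : 1 ≤ τ := by linarith
    have hτ0 : 0 < τ := by linarith
    obtain ⟨u, hu1, hu2, hu3, hu4, hu5, hu6⟩ := split hM hb hτ1 (by linarith)
    obtain ⟨R, hR, hG⟩ := h (b + 1) (by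
      have := norm_add_le b 1
      rw [norm_one] at this
      linarith) (by
      push_cast at hbre
      simp only [add_re, one_re]
      linarith) τ (by linarith)
    have hne : b + (τ : ℂ) * I ≠ 0 := by
      rw [hu4]
      exact mul_ne_zero (tauI_ne hτ0) hu5
    have hrec := Complex.Gamma_add_one (b + (τ : ℂ) * I) hne
    have e1 : b + (τ : ℂ) * I + 1 = b + 1 + (τ : ℂ) * I := by ring
    rw [e1, hG] at hrec
    have e2 : b + (τ : ℂ) * I = exp (log ((τ : ℂ) * I) + log (1 + u)) := by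
      rw [← hu6, Complex.exp_log hne]
    refine ⟨R - log (1 + u), ?_, ?_⟩
    · have e3 : ‖log (1 + u)‖ ≤ 3 / 2 * ‖u‖ := Complex.norm_log_one_add_half_le_self hu2
      calc ‖R - log (1 + u)‖ ≤ ‖R‖ + ‖log (1 + u)‖ := norm_sub_le _ _
        _ ≤ C / τ + 2 * (M / τ) := by
            have hu0 : 0 ≤ ‖u‖ := norm_nonneg u
            gcongr
            linarith
        _ = (C + 2 * M) / τ := by ring
        _ ≤ (C + 2 * M + 1) / τ := by
            gcongr ?_ / τ
            linarith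
    · have e4 : exp (stL (b + 1) τ + R) = (b + (τ : ℂ) * I) * Gamma (b + (τ : ℂ) * I) := hrec
      have e5 : exp (stL (b + 1) τ + R) = (b + (τ : ℂ) * I) * exp (stL b τ + (R - log (1 + u))) := by
        conv_rhs => rw [e2]
        rw [← Complex.exp_add]
        congr 1
        rw [log_tauI hτ0]
        unfold stL
        ring
      rw [e5] at e4
      exact (mul_left_cancel₀ hne e4).symm

end S2

theorem stirling_vert (M : ℝ) : ∃ C T : ℝ, 0 < C ∧ 1 ≤ T ∧ ∀ b : ℂ, ‖b‖ ≤ M → ∀ τ : ℝ, T ≤ τ →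
    ∃ R : ℂ, ‖R‖ ≤ C / τ ∧ Gamma (b + (τ : ℂ) * I) = exp (stL b τ + R) := by
  obtain ⟨m, hm⟩ := exists_nat_ge |M|
  obtain ⟨C, T, hC, hT, h⟩ := S2.aux m |M| (abs_nonneg M)
  refine ⟨C, T, hC, hT, fun b hb τ hτ => h b (hb.trans (le_abs_self M)) ?_ τ hτ⟩
  have h1 := Complex.abs_re_le_norm b
  have h2 := neg_abs_le b.re
  have h3 := le_abs_self M
  linarith

theorem Gamma_strip_bound (σ₁ σ₂ : ℝ) : ∃ C A : ℝ, 0 < C ∧ 0 ≤ A ∧ ∀ s : ℂ, σ₁ ≤ s.re → s.re ≤ σ₂ → 1 ≤ |s.im| →
    ‖Gamma s‖ ≤ C * |s.im| ^ A * Real.exp (-(Real.pi * |s.im| / 2)) := by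
  set M : ℝ := max |σ₁| |σ₂| with hMdef
  have hM0 : 0 ≤ M := (abs_nonneg σ₁).trans (le_max_left _ _)
  obtain ⟨C, T, hC, hT, h⟩ := stirling_vert M
  -- positive large imaginary part
  have key : ∀ s : ℂ, σ₁ ≤ s.re → s.re ≤ σ₂ → T ≤ s.im →
      ‖Gamma s‖ ≤ Real.exp (C + Real.log (2 * Real.pi) / 2) * s.im ^ (M + 1) *
        Real.exp (-(Real.pi * s.im / 2)) := by
    intro s h1 h2 h3
    have hs0 : 0 < s.im := by linarith
    have hre : |s.re| ≤ M := by
      rw [abs_le]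
      constructor
      · have := neg_abs_le σ₁
        have := le_max_left |σ₁| |σ₂|
        linarith
      · have := le_abs_self σ₂
        have := le_max_right |σ₁| |σ₂|
        linarith
    obtain ⟨R, hR, hG⟩ := h (s.re : ℂ) (by rw [Complex.norm_real]; exact hre) s.im h3
    rw [Complex.re_add_im] at hG
    rw [hG, Complex.norm_exp]
    have hRre : R.re ≤ C := by
      have h4 := (Complex.re_le_norm R).trans hR
      refine h4.trans ?_
      rw [div_le_iff₀ hs0]
      nlinarith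
    have hL : (stL (s.re : ℂ) s.im).re
        = -(Real.pi * s.im / 2) + (s.re - 1 / 2) * Real.log s.im + Real.log (2 * Real.pi) / 2 := by
      unfold stL
      have e0 : ((s.re : ℂ) - 1 / 2) = ((s.re - 1 / 2 : ℝ) : ℂ) := by push_cast; ring
      rw [e0]
      simp only [add_re, sub_re, mul_re, mul_im, ofReal_re, ofReal_im, I_re, I_im, add_im]
      ring
    rw [Complex.add_re, hL]
    rw [Real.rpow_def_of_pos hs0, ← Real.exp_add, ← Real.exp_add, Real.exp_le_exp]
    have hlog : 0 ≤ Real.log s.im := Real.log_nonneg (by linarith)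
    have h5 : (s.re - 1 / 2) * Real.log s.im ≤ Real.log s.im * (M + 1) := by
      have := (abs_le.mp hre).2
      nlinarith
    linarith
  have key2 : ∀ s : ℂ, σ₁ ≤ s.re → s.re ≤ σ₂ → T ≤ |s.im| →
      ‖Gamma s‖ ≤ Real.exp (C + Real.log (2 * Real.pi) / 2) * |s.im| ^ (M + 1) *
        Real.exp (-(Real.pi * |s.im| / 2)) := by
    intro s h1 h2 h3
    rcases le_total 0 s.im with h0 | h0
    · rw [abs_of_nonneg h0] at h3 ⊢
      exact key s h1 h2 h3
    · rw [abs_of_nonpos h0] at h3 ⊢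
      have := key ((starRingEnd ℂ) s) (by simpa using h1) (by simpa using h2) (by simpa using h3)
      rw [Complex.Gamma_conj, RCLike.norm_conj] at this
      simpa using this
  -- compact part
  set K : Set ℂ := {s : ℂ | (σ₁ ≤ s.re ∧ s.re ≤ σ₂) ∧ (1 ≤ |s.im| ∧ |s.im| ≤ T)} with hKdef
  have hKc : IsCompact K := by
    have hcl : IsClosed K := by
      refine IsClosed.inter (IsClosed.inter ?_ ?_) (IsClosed.inter ?_ ?_)
      · exact isClosed_le continuous_const Complex.continuous_re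
      · exact isClosed_le Complex.continuous_re continuous_const
      · exact isClosed_le continuous_const Complex.continuous_im.abs
      · exact isClosed_le Complex.continuous_im.abs continuous_const
    refine Metric.isCompact_of_isClosed_isBounded hcl ?_
    refine (Metric.isBounded_iff_subset_closedBall (0 : ℂ)).mpr ⟨M + T, ?_⟩
    intro s hs
    obtain ⟨⟨h1, h2⟩, h3, h4⟩ := hs
    rw [mem_closedBall_zero_iff]
    have h5 := Complex.norm_le_abs_re_add_abs_im s
    have hre : |s.re| ≤ M := by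
      rw [abs_le]
      constructor
      · have := neg_abs_le σ₁
        have := le_max_left |σ₁| |σ₂|
        linarith
      · have := le_abs_self σ₂
        have := le_max_right |σ₁| |σ₂|
        linarith
    linarith
  have hcont : ContinuousOn Gamma K := by
    intro s hs
    refine (Complex.differentiableAt_Gamma s ?_).continuousAt.continuousWithinAt
    intro m hm
    have h1 : (1 : ℝ) ≤ |s.im| := hs.2.1
    rw [hm] at h1
    simp at h1
    norm_num at h1
  obtain ⟨B, hB⟩ := hKc.exists_bound_of_continuousOn hcont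
  refine ⟨Real.exp (C + Real.log (2 * Real.pi) / 2) + |B| * Real.exp (Real.pi * T / 2), M + 1,
    by positivity, by linarith, ?_⟩
  intro s h1 h2 h3
  rcases le_total T |s.im| with h4 | h4
  · refine (key2 s h1 h2 h4).trans ?_
    gcongr
    have : 0 ≤ |B| * Real.exp (Real.pi * T / 2) := by positivity
    linarith
  · have hb := hB s ⟨⟨h1, h2⟩, h3, h4⟩
    have e1 : 1 ≤ |s.im| ^ (M + 1) := Real.one_le_rpow h3 (by linarith)
    have e2 : 1 ≤ Real.exp (Real.pi * T / 2) * Real.exp (-(Real.pi * |s.im| / 2)) := by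
      rw [← Real.exp_add]
      apply Real.one_le_exp
      have := Real.pi_pos
      nlinarith
    have e3 : (0 : ℝ) ≤ |B| := abs_nonneg B
    calc ‖Gamma s‖ ≤ |B| := hb.trans (le_abs_self B)
      _ = |B| * 1 * 1 := by ring
      _ ≤ |B| * |s.im| ^ (M + 1) * (Real.exp (Real.pi * T / 2) * Real.exp (-(Real.pi * |s.im| / 2))) := by
          gcongr
      _ = (|B| * Real.exp (Real.pi * T / 2)) * |s.im| ^ (M + 1) * Real.exp (-(Real.pi * |s.im| / 2)) := by ring
      _ ≤ _ := by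
          gcongr
          have := Real.exp_pos (C + Real.log (2 * Real.pi) / 2)
          linarith

end Pool.Agent.Helper19.BD
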