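import Pool.Agent.Helper97.BD.Base

/-!
Block BD-S4 (MP_bd232a_nt, part B). Analytic continuation of the functional equation to `Re s < 1`, and elementary facts.

PROOF of `fe_left`: `X` is differentiable on `{Re s < 1}` (`Re (lam (1-s) + conj mu) > 0` there, so `Gamma` is differentiable at it;
`1/Gamma` is entire, `Complex.differentiable_one_div_Gamma`; `Q^(1-2s)`). Let `G s = (s-1)^m F s` (point `entire`). On the convex (hence
preconnected) open set `U = {Re s < 1}` both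
  `s^m * G s / (s-1)^m`   and   `(-1)^m * X s * conj (G (1 - conj s))`
are analytic (`s ↦ conj (G (conj s))` is differentiable), and for `0 < Re s < 1` they agree: `G s/(s-1)^m = F s`,
`conj (G (1 - conj s)) = (-s)^m conj (F (1 - conj s))`, and `D.Holds F` divided by `Q^s ∏ Gamma(lam_j s + mu_j) ≠ 0` says `F s = X s conj F(1 - conj s)`
(`conj (Q^(1 - conj s)) = Q^(1-s)`, `Gamma_conj`). Identity theorem (`AnalyticOnNhd.eqOn_of_preconnected_of_eventuallyEq`).

`F_two`: `F s = exp (LSeries b s)`, `‖LSeries b s‖ ≤ ∑ ‖b n‖ n^(-σ)` for `Re s = σ`.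
-/

open Complex

namespace Pool.Agent.Helper19.BD

theorem FE.X_differentiableAt (D : FE) {s : ℂ} (hs : s.re < 1) : DifferentiableAt ℂ D.X s := by
  unfold FE.X
  have hQ : (D.Q : ℂ) ≠ 0 := by exact_mod_cast D.hQ.ne'
  have h1 : DifferentiableAt ℂ (fun s : ℂ => (D.Q : ℂ) ^ (1 - 2 * s)) s :=
    (DifferentiableAt.const_cpow (by fun_prop) (Or.inl hQ))
  refine (h1.const_mul D.om).mul ?_
  apply DifferentiableAt.fun_finsetProd
  intro j _
  have hre : 0 < (D.lam j * (1 - s) + (starRingEnd ℂ) (D.mu j)).re := by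
    rw [add_re, conj_re, re_ofReal_mul, sub_re, one_re]
    have := D.hlam j
    have h2 := D.hmu j
    have h3 : 0 < D.lam j * (1 - s.re) := mul_pos this (by linarith)
    linarith
  have h2 : DifferentiableAt ℂ (fun s : ℂ => Gamma (D.lam j * (1 - s) + (starRingEnd ℂ) (D.mu j))) s := by
    have hg : DifferentiableAt ℂ Gamma (D.lam j * (1 - s) + (starRingEnd ℂ) (D.mu j)) := by
      apply differentiableAt_Gamma
      intro m hm
      rw [hm] at hre
      simp at hre
      have : (0 : ℝ) ≤ (m : ℝ) := Nat.cast_nonneg m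
      linarith
    have hi : DifferentiableAt ℂ (fun s : ℂ => D.lam j * (1 - s) + (starRingEnd ℂ) (D.mu j)) s := by fun_prop
    exact hg.comp s hi
  have h3 : DifferentiableAt ℂ (fun s : ℂ => (Gamma (D.lam j * s + D.mu j))⁻¹) s := by
    have hg : DifferentiableAt ℂ (fun w : ℂ => (Gamma w)⁻¹) (D.lam j * s + D.mu j) := differentiable_one_div_Gamma _
    have hi : DifferentiableAt ℂ (fun s : ℂ => D.lam j * s + D.mu j) s := by fun_prop
    exact DifferentiableAt.comp (g := fun w : ℂ => (Gamma w)⁻¹) s hg hi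
  simp only [div_eq_mul_inv]
  exact h2.fun_mul h3

/-- the functional equation in the strip, divided by the gamma factor -/
theorem IsSelbergWith.fe_strip {F : ℂ → ℂ} {a : ℕ → ℂ} {D : FE} (h : IsSelbergWith F a D) {s : ℂ} (h0 : 0 < s.re) (h1 : s.re < 1) :
    F s = D.X s * (starRingEnd ℂ) (F (1 - (starRingEnd ℂ) s)) := by
  have hfe := h.fe s h0 h1
  unfold FE.Phi at hfe
  have hQ : (D.Q : ℂ) ≠ 0 := by exact_mod_cast D.hQ.ne'
  have hP : ∏ j, Gamma (D.lam j * s + D.mu j) ≠ 0 := by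
    rw [Finset.prod_ne_zero_iff]
    intro j _
    apply Gamma_ne_zero_of_re_pos
    rw [add_re, re_ofReal_mul]
    have := mul_pos (D.hlam j) h0
    have h2 := D.hmu j
    linarith
  have hQs : (D.Q : ℂ) ^ s ≠ 0 := by
    rw [Ne, cpow_eq_zero_iff]; exact fun h => hQ h.1
  rw [map_mul, map_mul, map_prod] at hfe
  have e1 : (starRingEnd ℂ) ((D.Q : ℂ) ^ (1 - (starRingEnd ℂ) s)) = (D.Q : ℂ) ^ (1 - s) := by
    have harg : (D.Q : ℂ).arg ≠ Real.pi := by
      rw [Complex.arg_ofReal_of_nonneg D.hQ.le]; exact Real.pi_pos.ne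
    have h2 : (1 - (starRingEnd ℂ) s) = (starRingEnd ℂ) (1 - s) := by simp
    rw [h2, cpow_conj _ _ harg]
    simp
  have e2 : ∏ j, (starRingEnd ℂ) (Gamma (D.lam j * (1 - (starRingEnd ℂ) s) + D.mu j)) =
      ∏ j, Gamma (D.lam j * (1 - s) + (starRingEnd ℂ) (D.mu j)) := by
    refine Finset.prod_congr rfl fun j _ => ?_
    rw [← Gamma_conj]
    simp
  rw [e1, e2] at hfe
  unfold FE.X
  rw [Finset.prod_div_distrib]
  have e3 : (D.Q : ℂ) ^ (1 - 2 * s) = (D.Q : ℂ) ^ (1 - s) / (D.Q : ℂ) ^ s := by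
    rw [← cpow_sub _ _ hQ]; congr 1; ring
  rw [e3]
  generalize ∏ j, Gamma (D.lam j * s + D.mu j) = P at *
  generalize ∏ j, Gamma (D.lam j * (1 - s) + (starRingEnd ℂ) (D.mu j)) = P' at *
  field_simp
  linear_combination hfe

theorem IsSelbergWith.fe_left {F : ℂ → ℂ} {a : ℕ → ℂ} {D : FE} (h : IsSelbergWith F a D) {s : ℂ} (hs : s.re < 1) (hs0 : s ≠ 0) :
    F s = D.X s * (starRingEnd ℂ) (F (1 - (starRingEnd ℂ) s)) := by
  obtain ⟨m, G, hG, hGF, _⟩ := h.entire
  set U : Set ℂ := {s : ℂ | s.re < 1} with hU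
  have hUo : IsOpen U := isOpen_lt continuous_re continuous_const
  have hUc : IsPreconnected U := (convex_halfSpace_re_lt 1).isPreconnected
  have hne1 : ∀ z ∈ U, z - 1 ≠ 0 := by
    intro z hz h1
    have : z = 1 := sub_eq_zero.mp h1
    rw [this, hU, Set.mem_ofPred_eq, one_re] at hz
    exact lt_irrefl _ hz
  have hL : AnalyticOnNhd ℂ (fun z => z ^ m * G z / (z - 1) ^ m) U := by
    apply DifferentiableOn.analyticOnNhd _ hUo
    intro z hz
    apply DifferentiableAt.differentiableWithinAt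
    apply DifferentiableAt.fun_div
    · exact (differentiableAt_id.pow m).mul (hG z)
    · fun_prop
    · exact pow_ne_zero _ (hne1 z hz)
  have hR : AnalyticOnNhd ℂ (fun z => (-1) ^ m * (D.X z * (starRingEnd ℂ) (G (1 - (starRingEnd ℂ) z)))) U := by
    apply DifferentiableOn.analyticOnNhd _ hUo
    intro z hz
    apply DifferentiableAt.differentiableWithinAt
    apply DifferentiableAt.const_mul
    apply (D.X_differentiableAt hz).mul
    have h1 : DifferentiableAt ℂ (fun w : ℂ => G (1 - w)) ((starRingEnd ℂ) z) :=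
      (hG _).comp _ (by fun_prop)
    have h2 := h1.conj_conj
    rw [Complex.conj_conj] at h2
    exact h2
  have hstrip : ∀ z : ℂ, 0 < z.re → z.re < 1 → z ^ m * G z / (z - 1) ^ m =
      (-1) ^ m * (D.X z * (starRingEnd ℂ) (G (1 - (starRingEnd ℂ) z))) := by
    intro z h0 h1
    have hz1 : z ≠ 1 := fun h => by rw [h] at h1; simp at h1
    have hw1 : 1 - (starRingEnd ℂ) z ≠ 1 := by
      intro h
      have h2 : (starRingEnd ℂ) z = 0 := by linear_combination -h
      have h3 : z = 0 := by simpa using h2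
      rw [h3] at h0; simp at h0
    rw [hGF z hz1, hGF _ hw1, h.fe_strip h0 h1]
    have h4 : (z - 1) ^ m ≠ 0 := pow_ne_zero _ (sub_ne_zero.mpr hz1)
    have h5 : (starRingEnd ℂ) ((1 - (starRingEnd ℂ) z - 1) ^ m * F (1 - (starRingEnd ℂ) z)) =
        (-z) ^ m * (starRingEnd ℂ) (F (1 - (starRingEnd ℂ) z)) := by
      rw [map_mul, map_pow]; congr 2; simp
    rw [h5, neg_pow z m]
    have h6 : ((-1 : ℂ) ^ m) * (-1) ^ m = 1 := by rw [← mul_pow]; simp
    field_simp
    linear_combination (-(D.X z * (starRingEnd ℂ) (F (1 - (starRingEnd ℂ) z)) * z ^ m)) * h6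
  have hz₀ : (1 / 2 : ℂ) ∈ U := by
    rw [hU, Set.mem_ofPred_eq]; norm_num
  have heq : (fun z => z ^ m * G z / (z - 1) ^ m) =ᶠ[nhds (1 / 2 : ℂ)]
      (fun z => (-1) ^ m * (D.X z * (starRingEnd ℂ) (G (1 - (starRingEnd ℂ) z)))) := by
    have ho : {z : ℂ | 0 < z.re} ∩ U ∈ nhds (1 / 2 : ℂ) := by
      apply IsOpen.mem_nhds
      · exact (isOpen_lt continuous_const continuous_re).inter hUo
      · refine ⟨?_, hz₀⟩
        rw [Set.mem_ofPred_eq]; norm_num
    filter_upwards [ho] with z hz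
    exact hstrip z hz.1 hz.2
  have key := hL.eqOn_of_preconnected_of_eventuallyEq hR hUc hz₀ heq (x := s) hs
  have hs1 : s ≠ 1 := fun h => by rw [h] at hs; simp at hs
  have hw1 : 1 - (starRingEnd ℂ) s ≠ 1 := by
    intro h
    have h2 : (starRingEnd ℂ) s = 0 := by linear_combination -h
    exact hs0 (by simpa using h2)
  simp only at key
  rw [hGF s hs1, hGF _ hw1] at key
  have h4 : (s - 1) ^ m ≠ 0 := pow_ne_zero _ (sub_ne_zero.mpr hs1)
  have h5 : (starRingEnd ℂ) ((1 - (starRingEnd ℂ) s - 1) ^ m * F (1 - (starRingEnd ℂ) s)) =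
      (-s) ^ m * (starRingEnd ℂ) (F (1 - (starRingEnd ℂ) s)) := by
    rw [map_mul, map_pow]; congr 2; simp
  rw [h5, neg_pow s m] at key
  have h6 : ((-1 : ℂ) ^ m) * (-1) ^ m = 1 := by rw [← mul_pow]; simp
  have h7 : s ^ m ≠ 0 := pow_ne_zero _ hs0
  have h8 : s ^ m * ((s - 1) ^ m * F s) / (s - 1) ^ m = s ^ m * F s := by field_simp
  rw [h8] at key
  apply mul_left_cancel₀ h7
  linear_combination key + (D.X s * (starRingEnd ℂ) (F (1 - (starRingEnd ℂ) s)) * s ^ m) * h6

/-- `F` is differentiable away from `1`. -/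
theorem IsSelbergWith.differentiableAt {F : ℂ → ℂ} {a : ℕ → ℂ} {D : FE} (h : IsSelbergWith F a D) {s : ℂ} (hs : s ≠ 1) :
    DifferentiableAt ℂ F s := by
  obtain ⟨m, G, hG, hGF, _⟩ := h.entire
  have h1 : DifferentiableAt ℂ (fun z => G z / (z - 1) ^ m) s := by
    apply (hG s).fun_div
    · fun_prop
    · exact pow_ne_zero _ (sub_ne_zero.mpr hs)
  apply h1.congr_of_eventuallyEq
  filter_upwards [isOpen_ne.mem_nhds hs] with z hz
  have h4 : (z - 1) ^ m ≠ 0 := pow_ne_zero _ (sub_ne_zero.mpr hz)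
  rw [hGF z hz]
  field_simp

/-- on a line `Re s = σ > 1`, `F` is bounded above and below -/
theorem IsSelbergWith.norm_right {F : ℂ → ℂ} {a : ℕ → ℂ} {D : FE} (h : IsSelbergWith F a D) (σ : ℝ) (hσ : 1 < σ) :
    ∃ c C : ℝ, 0 < c ∧ 0 < C ∧ ∀ s : ℂ, σ ≤ s.re → c ≤ ‖F s‖ ∧ ‖F s‖ ≤ C := by
  obtain ⟨b, θ, C, _, _, _, hb⟩ := h.euler
  have hσ' : 1 < ((σ : ℂ)).re := by simpa using hσ
  have hsum := (hb _ hσ').1
  unfold LSeriesSummable at hsum
  set M : ℝ := ∑' n, ‖LSeries.term b (σ : ℂ) n‖ with hM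
  refine ⟨Real.exp (-M), Real.exp M, Real.exp_pos _, Real.exp_pos _, ?_⟩
  intro s hs
  have hs1 : 1 < s.re := lt_of_lt_of_le hσ hs
  obtain ⟨h1, h2⟩ := hb s hs1
  have h3 : ‖LSeries b s‖ ≤ M := by
    unfold LSeries
    unfold LSeriesSummable at h1
    refine (norm_tsum_le_tsum_norm h1.norm).trans ?_
    apply h1.norm.tsum_le_tsum _ hsum.norm
    intro n
    exact LSeries.norm_term_le_of_re_le_re b (by simpa using hs) n
  rw [h2, norm_exp]
  have h4 : |(LSeries b s).re| ≤ M := (abs_re_le_norm _).trans h3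
  have h5 := abs_le.mp h4
  exact ⟨Real.exp_le_exp.mpr h5.1, Real.exp_le_exp.mpr h5.2⟩

/-- two elements of the class which agree for `Re s > 1` agree off `1` -/
theorem eqOff_of_right {F G : ℂ → ℂ} (hF : IsSelberg F) (hG : ∀ s : ℂ, s ≠ 1 → DifferentiableAt ℂ G s)
    (h : ∀ s : ℂ, 1 < s.re → F s = G s) : EqOff F G := by
  obtain ⟨a, D, hD⟩ := hF
  have hU : IsPreconnected ({1}ᶜ : Set ℂ) :=
    (isConnected_compl_singleton_of_one_lt_rank (by rw [Complex.rank_real_complex]; norm_num) 1).isPreconnected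
  have hUo : IsOpen ({1}ᶜ : Set ℂ) := isOpen_compl_singleton
  have h1 : AnalyticOnNhd ℂ F ({1}ᶜ : Set ℂ) :=
    DifferentiableOn.analyticOnNhd (fun z hz => (hD.differentiableAt hz).differentiableWithinAt) hUo
  have h2 : AnalyticOnNhd ℂ G ({1}ᶜ : Set ℂ) :=
    DifferentiableOn.analyticOnNhd (fun z hz => (hG z hz).differentiableWithinAt) hUo
  have hz₀ : (2 : ℂ) ∈ ({1}ᶜ : Set ℂ) := by simp
  have heq : F =ᶠ[nhds (2 : ℂ)] G := by
    have ho : {z : ℂ | 1 < z.re} ∈ nhds (2 : ℂ) := by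
      apply IsOpen.mem_nhds (isOpen_lt continuous_const continuous_re)
      simp
    filter_upwards [ho] with z hz
    exact h z hz
  intro s hs
  exact h1.eqOn_of_preconnected_of_eventuallyEq h2 hU hz₀ heq hs

end Pool.Agent.Helper19.BD
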