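import Pool.Agent.Helper97.BD.Stir2

/-!
Block BD-S3 (MP_bd232a_nt, part B). Asymptotics of the factor `X(s)` of the functional equation on vertical lines.

PROOF of `X_asymp` from `stirling_vert` (BD-S2, may be sorried). For `s = σ + i t`, `lam (1-s) + conj mu = conj (lam (1-σ) + mu + i lam t)`,
so with `Gamma (conj w) = conj (Gamma w)` and `τ = lam_j t`:
  `Gamma (lam(1-s)+conj mu) / Gamma (lam s + mu) = exp (conj (stL (lam(1-σ)+mu) τ) - stL (lam σ + mu) τ + O(1/t))` and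
  `conj (stL b₁ τ) - stL b₂ τ = -2 i τ (log τ - 1) + (conj b₁ - b₂) log τ - i (π/2) (conj b₁ + b₂ - 1)`,
  `conj b₁ - b₂ = lam (1 - 2σ) - 2 i Im mu`, `conj b₁ + b₂ - 1 = lam + 2 Re mu - 1`, `log τ = log t + log lam_j`. Take the product over
`j` (finite product of `exp`), `Q^(1-2s) = exp ((1-2σ) log Q - 2 i t log Q)`:
  `X(σ+it) = c₀ exp(-i d t (log t - 1) + i ℓ t + (d (1/2-σ) - i η) log t + R)`,
  `c₀ = om Q^(1-2σ) ∏_j exp ((lam_j (1-2σ) - 2 i Im mu_j) log lam_j - i (π/2) (lam_j + 2 Re mu_j - 1)) ≠ 0`.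

`X_norm_bounds`: norms of `X_asymp` (t > 0); for `t < 0` apply it to `D.cj` (`FE.X_cj` in Base.lean: `D.cj.X s = conj (D.X (conj s))`).
`X_norm_bounds` upper bound for `1 ≤ |t| ≤ T`: `X` is continuous on the line `Re s = σ < 1` (the numerator has no poles because
`Re (lam (1-σ) + mu) > 0`, and `1/Gamma` is entire: `Complex.differentiable_one_div_Gamma`).

`GX_asymp`: multiply with `stirling_vert` for `Gamma (k + σ + i t)`:
`Gamma(k+s) X(s) = c₁ exp (-i (d-1) t (log t - 1) + i ℓ t - π t/2 + (d (1/2-σ) + k + σ - 1/2 - i η) log t + R)`.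
`GX_bound` : norm bound for all `|t| ≥ 1`.
-/

open Complex

namespace Pool.Agent.Helper19.BD

/-- the exponent of one factor -/
noncomputable def xK (lam σ : ℝ) (mu : ℂ) : ℂ :=
  ((lam * (1 - 2 * σ) : ℝ) : ℂ) * ((Real.log lam : ℝ) : ℂ) - ((2 * mu.im : ℝ) : ℂ) * I * ((Real.log lam : ℝ) : ℂ)
    - ((Real.pi / 2 * (lam + 2 * mu.re - 1) : ℝ) : ℂ) * I

noncomputable def xE (lam σ : ℝ) (mu : ℂ) (t : ℝ) : ℂ :=
  -((2 * lam * t * (Real.log t - 1) : ℝ) : ℂ) * I - ((2 * (lam * Real.log lam) * t : ℝ) : ℂ) * I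
    + (((lam * (1 - 2 * σ) : ℝ) : ℂ) - ((2 * mu.im : ℝ) : ℂ) * I) * ((Real.log t : ℝ) : ℂ) + xK lam σ mu

lemma xE_eq {lam σ t : ℝ} (hlam : 0 < lam) (ht : 0 < t) (mu : ℂ) :
    (starRingEnd ℂ) (stL (((lam * (1 - σ) : ℝ) : ℂ) + mu) (lam * t)) - stL (((lam * σ : ℝ) : ℂ) + mu) (lam * t)
      = xE lam σ mu t := by
  have hmu : mu = (mu.re : ℂ) + (mu.im : ℂ) * I := (re_add_im mu).symm
  have hc : (starRingEnd ℂ) mu = (mu.re : ℂ) - (mu.im : ℂ) * I := by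
    apply Complex.ext <;> simp
  unfold stL xE xK
  simp only [map_add, map_sub, map_mul, conj_ofReal, conj_I, map_div₀, map_one, map_ofNat, hc]
  rw [Real.log_mul hlam.ne' ht.ne']
  conv_lhs => rw [hmu]
  push_cast
  simp only [add_re, add_im, mul_re, mul_im, ofReal_re, ofReal_im, I_re, I_im, mul_zero, mul_one, sub_zero,
    add_zero, zero_add]
  have hI : I ^ 2 = -1 := I_sq
  ring_nf
  try rw [hI]
  try ring_nf

lemma ratio_asymp {lam : ℝ} (hlam : 0 < lam) (mu : ℂ) (σ : ℝ) : ∃ C T : ℝ, 0 < C ∧ 1 ≤ T ∧ ∀ t : ℝ, T ≤ t →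
    ∃ R : ℂ, ‖R‖ ≤ C / t ∧
      Gamma ((lam : ℂ) * (1 - ((σ : ℂ) + (t : ℂ) * I)) + (starRingEnd ℂ) mu) /
        Gamma ((lam : ℂ) * ((σ : ℂ) + (t : ℂ) * I) + mu) = exp (xE lam σ mu t + R) := by
  obtain ⟨C, T, hC, hT, h⟩ := stirling_vert
    (max ‖((lam * (1 - σ) : ℝ) : ℂ) + mu‖ ‖((lam * σ : ℝ) : ℂ) + mu‖)
  refine ⟨2 * C / lam, max 1 (T / lam), by positivity, le_max_left _ _, fun t ht => ?_⟩
  have ht1 : 1 ≤ t := (le_max_left _ _).trans ht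
  have htpos : 0 < t := by linarith
  have hτ : T ≤ lam * t := by
    have := (le_max_right _ _).trans ht
    rwa [div_le_iff₀' hlam] at this
  obtain ⟨R₁, hR₁, h₁⟩ := h _ (le_max_left _ _) _ hτ
  obtain ⟨R₂, hR₂, h₂⟩ := h _ (le_max_right _ _) _ hτ
  refine ⟨(starRingEnd ℂ) R₁ - R₂, ?_, ?_⟩
  · calc ‖(starRingEnd ℂ) R₁ - R₂‖ ≤ ‖(starRingEnd ℂ) R₁‖ + ‖R₂‖ := norm_sub_le _ _
      _ ≤ C / (lam * t) + C / (lam * t) := by
          rw [RCLike.norm_conj]; exact add_le_add hR₁ hR₂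
      _ = 2 * C / lam / t := by field_simp; ring
  · have e1 : (lam : ℂ) * (1 - ((σ : ℂ) + (t : ℂ) * I)) + (starRingEnd ℂ) mu =
        (starRingEnd ℂ) (((lam * (1 - σ) : ℝ) : ℂ) + mu + ((lam * t : ℝ) : ℂ) * I) := by
      simp only [map_add, map_mul, conj_ofReal, conj_I]
      push_cast; ring
    have e2 : (lam : ℂ) * ((σ : ℂ) + (t : ℂ) * I) + mu =
        ((lam * σ : ℝ) : ℂ) + mu + ((lam * t : ℝ) : ℂ) * I := by
      push_cast; ring
    rw [e1, e2, Gamma_conj, h₁, h₂, ← exp_conj, ← exp_sub, ← xE_eq hlam htpos]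
    congr 1
    rw [map_add]; ring

theorem FE.X_asymp (D : FE) (σ : ℝ) : ∃ (c₀ : ℂ) (C T : ℝ), c₀ ≠ 0 ∧ 0 < C ∧ 1 ≤ T ∧ ∀ t : ℝ, T ≤ t →
    ∃ R : ℂ, ‖R‖ ≤ C / t ∧ D.X ((σ : ℂ) + (t : ℂ) * I) =
      c₀ * exp (-((D.deg * t * (Real.log t - 1) : ℝ) : ℂ) * I + ((D.ell * t : ℝ) : ℂ) * I
        + (((D.deg * (1 / 2 - σ) : ℝ) : ℂ) - (D.eta : ℂ) * I) * (Real.log t : ℂ) + R) := by
  choose C T hC hT h using fun j => ratio_asymp (D.hlam j) (D.mu j) σ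
  have hom : D.om ≠ 0 := by
    intro h0
    have := D.hom
    rw [h0, norm_zero] at this
    exact zero_ne_one this
  refine ⟨D.om * exp ((((1 - 2 * σ) * Real.log D.Q : ℝ) : ℂ) + ∑ j, xK (D.lam j) σ (D.mu j)),
    1 + ∑ j, C j, 1 + ∑ j, T j, mul_ne_zero hom (exp_ne_zero _), ?_, ?_, fun t ht => ?_⟩
  · have : 0 ≤ ∑ j, C j := Finset.sum_nonneg fun j _ => (hC j).le
    linarith
  · have : 0 ≤ ∑ j, T j := Finset.sum_nonneg fun j _ => by linarith [hT j]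
    linarith
  have hTj : ∀ j, T j ≤ t := fun j => by
    have : T j ≤ ∑ j, T j := Finset.single_le_sum (f := T) (fun i _ => by linarith [hT i]) (Finset.mem_univ j)
    linarith
  have ht0 : 0 < t := by
    have : 0 ≤ ∑ j, T j := Finset.sum_nonneg fun j _ => by linarith [hT j]
    linarith
  choose R hR hx using fun j => h j t (hTj j)
  refine ⟨∑ j, R j, ?_, ?_⟩
  · calc ‖∑ j, R j‖ ≤ ∑ j, ‖R j‖ := norm_sum_le _ _
      _ ≤ ∑ j, C j / t := Finset.sum_le_sum fun j _ => hR j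
      _ = (∑ j, C j) / t := by rw [Finset.sum_div]
      _ ≤ (1 + ∑ j, C j) / t := by gcongr; linarith
  · unfold FE.X
    rw [Finset.prod_congr rfl fun j _ => hx j, ← exp_sum]
    have hQ : (D.Q : ℂ) ^ (1 - 2 * ((σ : ℂ) + (t : ℂ) * I)) =
        exp ((((1 - 2 * σ) * Real.log D.Q : ℝ) : ℂ) - ((2 * Real.log D.Q * t : ℝ) : ℂ) * I) := by
      rw [cpow_def_of_ne_zero (by exact_mod_cast D.hQ.ne'), ← ofReal_log D.hQ.le]
      congr 1
      push_cast; ring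
    rw [hQ, mul_assoc D.om, ← exp_add, mul_assoc D.om, ← exp_add]
    congr 2
    unfold xE
    simp only [Finset.sum_add_distrib, Finset.sum_sub_distrib, ← Finset.sum_mul, Finset.sum_neg_distrib]
    unfold FE.deg FE.ell FE.eta
    push_cast
    simp only [← Finset.mul_sum, ← Finset.sum_mul]
    ring

lemma ext_bound (f g : ℝ → ℝ) (T C0 : ℝ) (hf : ContinuousOn f {t | 1 ≤ |t|}) (hg : ContinuousOn g {t | 1 ≤ |t|})
    (hgpos : ∀ t, 1 ≤ |t| → 0 < g t) (h : ∀ t, T ≤ |t| → 1 ≤ |t| → f t ≤ C0 * g t) :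
    ∃ C, 0 < C ∧ ∀ t, 1 ≤ |t| → f t ≤ C * g t := by
  have hK : IsCompact {t : ℝ | 1 ≤ |t| ∧ |t| ≤ T} := by
    apply Metric.isCompact_of_isClosed_isBounded
    · exact (isClosed_le continuous_const continuous_abs).inter (isClosed_le continuous_abs continuous_const)
    · refine (Metric.isBounded_Icc (-T) T).subset fun t ht => ?_
      exact abs_le.1 ht.2
  have hc : ContinuousOn (fun t => f t / g t) {t : ℝ | 1 ≤ |t| ∧ |t| ≤ T} := by
    apply ContinuousOn.div (hf.mono fun t ht => ht.1) (hg.mono fun t ht => ht.1)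
    exact fun t ht => (hgpos t ht.1).ne'
  obtain ⟨C1, hC1⟩ := hK.bddAbove_image hc
  refine ⟨|C0| + |C1| + 1, by positivity, fun t ht => ?_⟩
  have hg0 := hgpos t ht
  rcases le_total T |t| with h1 | h1
  · refine (h t h1 ht).trans ?_
    have : C0 ≤ |C0| + |C1| + 1 := by
      have := le_abs_self C0; have := abs_nonneg C1; linarith
    exact mul_le_mul_of_nonneg_right this hg0.le
  · have h2 : f t / g t ≤ C1 := hC1 ⟨t, ⟨ht, h1⟩, rfl⟩
    rw [div_le_iff₀ hg0] at h2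
    refine h2.trans ?_
    have : C1 ≤ |C0| + |C1| + 1 := by
      have := le_abs_self C1; have := abs_nonneg C0; linarith
    exact mul_le_mul_of_nonneg_right this hg0.le

lemma FE.X_norm_pos (D : FE) (σ : ℝ) : ∃ c C T : ℝ, 0 < c ∧ 0 < C ∧ 1 ≤ T ∧
    ∀ t : ℝ, T ≤ t → c * t ^ (D.deg * (1 / 2 - σ)) ≤ ‖D.X ((σ : ℂ) + (t : ℂ) * I)‖ ∧
      ‖D.X ((σ : ℂ) + (t : ℂ) * I)‖ ≤ C * t ^ (D.deg * (1 / 2 - σ)) := by
  obtain ⟨c₀, C, T, hc₀, hC, hT, h⟩ := D.X_asymp σ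
  have hn : 0 < ‖c₀‖ := norm_pos_iff.2 hc₀
  refine ⟨‖c₀‖ * Real.exp (-C), ‖c₀‖ * Real.exp C, T, by positivity, by positivity, hT, fun t ht => ?_⟩
  obtain ⟨R, hR, hx⟩ := h t ht
  have ht1 : 1 ≤ t := hT.trans ht
  have ht0 : 0 < t := by linarith
  have hR' : ‖R‖ ≤ C := hR.trans (div_le_self hC.le ht1)
  have hre := abs_le.1 ((abs_re_le_norm R).trans hR')
  have key : ‖D.X ((σ : ℂ) + (t : ℂ) * I)‖ =
      ‖c₀‖ * (Real.exp R.re * t ^ (D.deg * (1 / 2 - σ))) := by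
    rw [hx, norm_mul, norm_exp]
    congr 1
    rw [Real.rpow_def_of_pos ht0, ← Real.exp_add]
    congr 1
    simp only [add_re, neg_mul, neg_re, mul_re, ofReal_re, ofReal_im, I_re, I_im, sub_re, sub_im, mul_im]
    ring
  rw [key]
  have hp : 0 < t ^ (D.deg * (1 / 2 - σ)) := Real.rpow_pos_of_pos ht0 _
  constructor
  · rw [mul_assoc]
    gcongr
    exact hre.1
  · rw [mul_assoc]
    gcongr
    exact hre.2

lemma FE.X_norm_neg (D : FE) (σ t : ℝ) :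
    ‖D.X ((σ : ℂ) + (t : ℂ) * I)‖ = ‖D.cj.X ((σ : ℂ) + ((-t : ℝ) : ℂ) * I)‖ := by
  rw [D.X_cj, RCLike.norm_conj]
  congr 2
  simp only [map_add, map_mul, conj_ofReal, conj_I]
  push_cast; ring

lemma FE.X_continuous (D : FE) (σ : ℝ) (hσ : σ < 1) :
    Continuous fun t : ℝ => D.X ((σ : ℂ) + (t : ℂ) * I) := by
  unfold FE.X
  have hs : Continuous fun t : ℝ => ((σ : ℂ) + (t : ℂ) * I) := by fun_prop
  refine (continuous_const.mul ?_).mul ?_
  · refine Continuous.const_cpow (by fun_prop) (Or.inl ?_)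
    exact_mod_cast D.hQ.ne'
  · refine continuous_finsetProd _ fun j _ => ?_
    simp only [div_eq_mul_inv]
    refine Continuous.mul ?_ ?_
    · rw [continuous_iff_continuousAt]
      intro t
      have hpos : 0 < ((D.lam j : ℂ) * (1 - ((σ : ℂ) + (t : ℂ) * I)) + (starRingEnd ℂ) (D.mu j)).re := by
        simp only [add_re, mul_re, ofReal_re, sub_re, one_re, ofReal_im, I_re, I_im, conj_re, sub_im, one_im, add_im,
          mul_im]
        have h1 : 0 < D.lam j * (1 - σ) := mul_pos (D.hlam j) (by linarith)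
        have h2 := D.hmu j
        nlinarith
      have hd : DifferentiableAt ℂ Gamma ((D.lam j : ℂ) * (1 - ((σ : ℂ) + (t : ℂ) * I)) + (starRingEnd ℂ) (D.mu j)) := by
        apply differentiableAt_Gamma
        intro m hm
        rw [hm] at hpos
        simp at hpos
        have : (0 : ℝ) ≤ m := Nat.cast_nonneg m
        linarith
      exact ContinuousAt.comp (f := fun t : ℝ => ((D.lam j : ℂ) * (1 - ((σ : ℂ) + (t : ℂ) * I)) + (starRingEnd ℂ) (D.mu j)))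
        hd.continuousAt (by fun_prop)
    · exact differentiable_one_div_Gamma.continuous.comp (by fun_prop : Continuous fun t : ℝ =>
        (D.lam j : ℂ) * ((σ : ℂ) + (t : ℂ) * I) + D.mu j)

theorem FE.X_norm_bounds (D : FE) (σ : ℝ) (hσ : σ < 1) : ∃ c C T : ℝ, 0 < c ∧ 0 < C ∧ 1 ≤ T ∧
    (∀ t : ℝ, T ≤ |t| → c * |t| ^ (D.deg * (1 / 2 - σ)) ≤ ‖D.X ((σ : ℂ) + (t : ℂ) * I)‖) ∧
    (∀ t : ℝ, 1 ≤ |t| → ‖D.X ((σ : ℂ) + (t : ℂ) * I)‖ ≤ C * |t| ^ (D.deg * (1 / 2 - σ))) := by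
  obtain ⟨c₁, C₁, T₁, hc₁, hC₁, hT₁, h₁⟩ := D.X_norm_pos σ
  obtain ⟨c₂, C₂, T₂, hc₂, hC₂, hT₂, h₂⟩ := D.cj.X_norm_pos σ
  rw [FE.cj_deg] at h₂
  have hall : ∀ t : ℝ, max T₁ T₂ ≤ |t| → min c₁ c₂ * |t| ^ (D.deg * (1 / 2 - σ)) ≤ ‖D.X ((σ : ℂ) + (t : ℂ) * I)‖ ∧
      ‖D.X ((σ : ℂ) + (t : ℂ) * I)‖ ≤ max C₁ C₂ * |t| ^ (D.deg * (1 / 2 - σ)) := by
    intro t ht
    have hp : 0 ≤ |t| ^ (D.deg * (1 / 2 - σ)) := Real.rpow_nonneg (abs_nonneg t) _
    rcases le_total 0 t with h0 | h0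
    · rw [abs_of_nonneg h0] at ht hp ⊢
      obtain ⟨ha, hb⟩ := h₁ t ((le_max_left _ _).trans ht)
      exact ⟨(mul_le_mul_of_nonneg_right (min_le_left _ _) hp).trans ha,
        hb.trans (mul_le_mul_of_nonneg_right (le_max_left _ _) hp)⟩
    · rw [abs_of_nonpos h0] at ht hp ⊢
      obtain ⟨ha, hb⟩ := h₂ (-t) ((le_max_right _ _).trans ht)
      rw [← D.X_norm_neg] at ha hb
      exact ⟨(mul_le_mul_of_nonneg_right (min_le_right _ _) hp).trans ha,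
        hb.trans (mul_le_mul_of_nonneg_right (le_max_right _ _) hp)⟩
  obtain ⟨C, hC, hb⟩ := ext_bound (fun t => ‖D.X ((σ : ℂ) + (t : ℂ) * I)‖) (fun t => |t| ^ (D.deg * (1 / 2 - σ)))
    (max T₁ T₂) (max C₁ C₂) (D.X_continuous σ hσ).norm.continuousOn
    (by
      intro t ht
      have ht' : |t| ≠ 0 := by
        have : (1 : ℝ) ≤ |t| := ht
        linarith
      exact ((continuous_abs.continuousAt).rpow_const (Or.inl ht')).continuousWithinAt)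
    (fun t ht => Real.rpow_pos_of_pos (by linarith) _) (fun t ht _ => (hall t ht).2)
  exact ⟨min c₁ c₂, C, max T₁ T₂, lt_min hc₁ hc₂, hC, hT₁.trans (le_max_left _ _), fun t ht => (hall t ht).1, hb⟩

theorem FE.GX_asymp (D : FE) (k : ℕ) (σ : ℝ) : ∃ (c₁ : ℂ) (C T : ℝ), c₁ ≠ 0 ∧ 0 < C ∧ 1 ≤ T ∧ ∀ t : ℝ, T ≤ t →
    ∃ R : ℂ, ‖R‖ ≤ C / t ∧
      Gamma ((k : ℂ) + ((σ : ℂ) + (t : ℂ) * I)) * D.X ((σ : ℂ) + (t : ℂ) * I) =
      c₁ * exp (-(((D.deg - 1) * t * (Real.log t - 1) : ℝ) : ℂ) * I + ((D.ell * t : ℝ) : ℂ) * I - ((Real.pi * t / 2 : ℝ) : ℂ)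
        + (((D.deg * (1 / 2 - σ) + k + σ - 1 / 2 : ℝ) : ℂ) - (D.eta : ℂ) * I) * (Real.log t : ℂ) + R) := by
  obtain ⟨c₀, C, T, hc₀, hC, hT, h⟩ := D.X_asymp σ
  obtain ⟨C', T', hC', hT', h'⟩ := stirling_vert ‖(k : ℂ) + (σ : ℂ)‖
  refine ⟨c₀ * exp (((k : ℂ) + (σ : ℂ) - 1 / 2) * (((Real.pi / 2 : ℝ) : ℂ) * I) + ((Real.log (2 * Real.pi) / 2 : ℝ) : ℂ)),
    C + C', max T T', mul_ne_zero hc₀ (exp_ne_zero _), by positivity, hT.trans (le_max_left _ _), fun t ht => ?_⟩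
  obtain ⟨R, hR, hx⟩ := h t ((le_max_left _ _).trans ht)
  obtain ⟨R', hR', hx'⟩ := h' _ le_rfl t ((le_max_right _ _).trans ht)
  refine ⟨R' + R, ?_, ?_⟩
  · calc ‖R' + R‖ ≤ ‖R'‖ + ‖R‖ := norm_add_le _ _
      _ ≤ C' / t + C / t := add_le_add hR' hR
      _ = (C + C') / t := by ring
  · rw [← add_assoc, hx', hx, mul_left_comm, ← exp_add, mul_assoc c₀, ← exp_add]
    congr 2
    unfold stL
    push_cast
    ring

lemma Gamma_line_bound (k : ℕ) (σ : ℝ) : ∃ C : ℝ, 0 < C ∧ ∀ t : ℝ, 1 ≤ |t| →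
    ‖Gamma ((k : ℂ) + ((σ : ℂ) + (t : ℂ) * I))‖ ≤
      C * (|t| ^ ((k : ℝ) + σ - 1 / 2) * Real.exp (-(Real.pi * |t| / 2))) := by
  obtain ⟨C', T', hC', hT', h'⟩ := stirling_vert ‖(k : ℂ) + (σ : ℂ)‖
  have hpos : ∀ t : ℝ, T' ≤ t → ‖Gamma ((k : ℂ) + ((σ : ℂ) + (t : ℂ) * I))‖ ≤
      Real.exp (C' + Real.log (2 * Real.pi) / 2) * (t ^ ((k : ℝ) + σ - 1 / 2) * Real.exp (-(Real.pi * t / 2))) := by
    intro t ht
    obtain ⟨R, hR, hx⟩ := h' _ le_rfl t ht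
    have ht1 : 1 ≤ t := hT'.trans ht
    have ht0 : 0 < t := by linarith
    have hR' : ‖R‖ ≤ C' := hR.trans (div_le_self hC'.le ht1)
    have hre := (abs_le.1 ((abs_re_le_norm R).trans hR')).2
    rw [← add_assoc, hx, norm_exp, Real.rpow_def_of_pos ht0, ← Real.exp_add, ← Real.exp_add]
    apply Real.exp_le_exp.2
    unfold stL
    simp only [add_re, sub_re, mul_re, ofReal_re, ofReal_im, I_re, I_im, natCast_re, natCast_im, add_im, sub_im, mul_im]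
    norm_num
    linarith
  obtain ⟨C, hC, hb⟩ := ext_bound (fun t => ‖Gamma ((k : ℂ) + ((σ : ℂ) + (t : ℂ) * I))‖)
    (fun t => |t| ^ ((k : ℝ) + σ - 1 / 2) * Real.exp (-(Real.pi * |t| / 2)))
    T' (Real.exp (C' + Real.log (2 * Real.pi) / 2))
    (by
      intro t ht
      have ht' : t ≠ 0 := by
        rintro rfl
        have : (1 : ℝ) ≤ |(0 : ℝ)| := ht
        simp at this
        linarith
      have hd : DifferentiableAt ℂ Gamma ((k : ℂ) + ((σ : ℂ) + (t : ℂ) * I)) := by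
        apply differentiableAt_Gamma
        intro m hm
        have := congrArg Complex.im hm
        simp at this
        exact ht' this
      exact (ContinuousAt.comp (f := fun t : ℝ => ((k : ℂ) + ((σ : ℂ) + (t : ℂ) * I)))
        hd.continuousAt (by fun_prop)).norm.continuousWithinAt)
    (by
      intro t ht
      have ht' : |t| ≠ 0 := by
        have : (1 : ℝ) ≤ |t| := ht
        linarith
      exact (((continuous_abs.continuousAt).rpow_const (Or.inl ht')).mul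
        (by fun_prop : Continuous fun t : ℝ => Real.exp (-(Real.pi * |t| / 2))).continuousAt).continuousWithinAt)
    (fun t ht => mul_pos (Real.rpow_pos_of_pos (by linarith) _) (Real.exp_pos _))
    (by
      intro t ht _
      rcases le_total 0 t with h0 | h0
      · rw [abs_of_nonneg h0] at ht ⊢
        exact hpos t ht
      · rw [abs_of_nonpos h0] at ht ⊢
        have h1 := hpos (-t) ht
        have h2 : ‖Gamma ((k : ℂ) + ((σ : ℂ) + (t : ℂ) * I))‖ =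
            ‖Gamma ((k : ℂ) + ((σ : ℂ) + ((-t : ℝ) : ℂ) * I))‖ := by
          rw [← RCLike.norm_conj, ← Gamma_conj]
          congr 2
          simp only [map_add, map_mul, conj_ofReal, conj_I, map_natCast]
          push_cast; ring
        rw [h2]
        exact h1)
  exact ⟨C, hC, hb⟩

theorem FE.GX_bound (D : FE) (k : ℕ) (σ : ℝ) (hσ : σ < 1) : ∃ C : ℝ, 0 < C ∧ ∀ t : ℝ, 1 ≤ |t| →
      ‖Gamma ((k : ℂ) + ((σ : ℂ) + (t : ℂ) * I)) * D.X ((σ : ℂ) + (t : ℂ) * I)‖ ≤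
      C * |t| ^ (D.deg * (1 / 2 - σ) + k + σ - 1 / 2) * Real.exp (-(Real.pi * |t| / 2)) := by
  obtain ⟨_, C₁, _, _, hC₁, _, _, h₁⟩ := D.X_norm_bounds σ hσ
  obtain ⟨C₂, hC₂, h₂⟩ := Gamma_line_bound k σ
  refine ⟨C₂ * C₁, by positivity, fun t ht => ?_⟩
  have ht0 : 0 < |t| := by linarith
  calc ‖Gamma ((k : ℂ) + ((σ : ℂ) + (t : ℂ) * I)) * D.X ((σ : ℂ) + (t : ℂ) * I)‖
      = ‖Gamma ((k : ℂ) + ((σ : ℂ) + (t : ℂ) * I))‖ * ‖D.X ((σ : ℂ) + (t : ℂ) * I)‖ := norm_mul _ _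
    _ ≤ (C₂ * (|t| ^ ((k : ℝ) + σ - 1 / 2) * Real.exp (-(Real.pi * |t| / 2)))) *
          (C₁ * |t| ^ (D.deg * (1 / 2 - σ))) := by
        gcongr
        · exact h₂ t ht
        · exact h₁ t ht
    _ = C₂ * C₁ * |t| ^ (D.deg * (1 / 2 - σ) + k + σ - 1 / 2) * Real.exp (-(Real.pi * |t| / 2)) := by
        rw [show D.deg * (1 / 2 - σ) + k + σ - 1 / 2 = ((k : ℝ) + σ - 1 / 2) + D.deg * (1 / 2 - σ) by ring,
          Real.rpow_add ht0]
        ring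

end Pool.Agent.Helper19.BD
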