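import Pool.Agent.Helper97.BD.FELeft
import Pool.Agent.Helper97.BD.XAsymp

/-!
Block BD-S5 (MP_bd232a_nt, part B). Polynomial growth of `F` in vertical strips (Phragmen-Lindelof).

PROOF. It suffices to treat `σ₁ < 0`, `σ₂ > 1` (enlarge the strip). `G s = (s-1)^m F s` is entire of finite order. On `Re s = σ₂`: `F` is bounded
(`norm_right`). On `Re s = σ₁ < 0`: `‖F s‖ = ‖X s‖ ‖F (1 - conj s)‖` (`fe_left`), `Re (1 - conj s) = 1 - σ₁ > 1`, so `‖F s‖ ≤ C |t|^(d(1/2-σ₁))` for `|t| ≥ 1`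
(`X_norm_bounds`), and `G` is continuous for `|t| ≤ 1`. Choose a natural `K ≥ m + d (1/2 - σ₁)` and apply `PhragmenLindelof.vertical_strip` to
`G s / (s - σ₁ + 1)^K` (`‖s - σ₁ + 1‖ ≥ max 1 |t|` in the strip): bounded on both lines, growth `exp (A (1+‖s‖)^B) = O(exp (c₁ exp (c |Im s|)))`
for every `c > 0`. So `‖G s‖ ≤ C ‖s - σ₁ + 1‖^K`, and `‖F s‖ = ‖G s‖/‖s-1‖^m ≤ ‖G s‖` for `|Im s| ≥ 1`.
-/

open Complex

namespace Pool.Agent.Helper19.BD

/-- powers are eventually smaller than exponentials (auxiliary form) -/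
lemma growth_aux (A₀ B₀ D c : ℝ) (hc : 0 < c) : ∃ T : ℝ, ∀ y : ℝ, T ≤ y → |A₀| * (D + y) ^ B₀ ≤ Real.exp (c * y) := by
  have h1 := (isLittleO_rpow_exp_pos_mul_atTop B₀ hc)
  have hε : 0 < 1 / (|A₀| + 1) * Real.exp (-(c * D)) := by positivity
  have h2 := h1.def hε
  have h3 : ∀ᶠ y in Filter.atTop, ‖(D + y) ^ B₀‖ ≤ 1 / (|A₀| + 1) * Real.exp (-(c * D)) * ‖Real.exp (c * (D + y))‖ :=
    (Filter.tendsto_atTop_add_const_left Filter.atTop D Filter.tendsto_id).eventually h2
  obtain ⟨T, hT⟩ := Filter.eventually_atTop.mp h3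
  refine ⟨T, fun y hy => ?_⟩
  have h4 := hT y hy
  have h5 : (D + y) ^ B₀ ≤ 1 / (|A₀| + 1) * Real.exp (-(c * D)) * Real.exp (c * (D + y)) := by
    refine (le_abs_self _).trans ?_
    rw [← Real.norm_eq_abs]
    refine h4.trans_eq ?_
    rw [Real.norm_eq_abs, abs_of_pos (Real.exp_pos _)]
  have h6 : 1 / (|A₀| + 1) * Real.exp (-(c * D)) * Real.exp (c * (D + y)) = 1 / (|A₀| + 1) * Real.exp (c * y) := by
    rw [mul_assoc, ← Real.exp_add]; congr 2; ring
  rw [h6] at h5
  calc |A₀| * (D + y) ^ B₀ ≤ |A₀| * (1 / (|A₀| + 1) * Real.exp (c * y)) := by gcongr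
    _ = (|A₀| / (|A₀| + 1)) * Real.exp (c * y) := by ring
    _ ≤ 1 * Real.exp (c * y) := by
        gcongr
        rw [div_le_one (by positivity)]; linarith
    _ = Real.exp (c * y) := one_mul _

theorem IsSelbergWith.growth {F : ℂ → ℂ} {a : ℕ → ℂ} {D : FE} (h : IsSelbergWith F a D) (σ₁ σ₂ : ℝ) :
    ∃ C A : ℝ, 0 < C ∧ 0 ≤ A ∧ ∀ s : ℂ, σ₁ ≤ s.re → s.re ≤ σ₂ → 1 ≤ |s.im| → ‖F s‖ ≤ C * |s.im| ^ A := by
  obtain ⟨p, hp1, hp2⟩ : ∃ p : ℝ, p ≤ σ₁ ∧ p ≤ -1 := ⟨min σ₁ (-1), min_le_left _ _, min_le_right _ _⟩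
  obtain ⟨q, hq1, hq2⟩ : ∃ q : ℝ, σ₂ ≤ q ∧ 2 ≤ q := ⟨max σ₂ 2, le_max_left _ _, le_max_right _ _⟩
  obtain ⟨m, G, hGd, hGF, A₀, B₀, hGr⟩ := h.entire
  obtain ⟨_, Cb, _, hCb, hb⟩ := h.norm_right q (by linarith)
  obtain ⟨_, Ca, _, hCa, ha⟩ := h.norm_right (1 - p) (by linarith)
  obtain ⟨_, CX, _, _, hCX, _, _, hX⟩ := D.X_norm_bounds p (by linarith)
  have hdeg := D.deg_nonneg
  set e : ℝ := D.deg * (1 / 2 - p) with he
  have he0 : 0 ≤ e := by rw [he]; apply mul_nonneg hdeg; linarith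
  obtain ⟨K, hK⟩ := exists_nat_ge ((m : ℝ) + e)
  have hKm : m ≤ K := by
    have : (m : ℝ) ≤ K := by linarith
    exact_mod_cast this
  -- the denominator
  have hre : ∀ s : ℂ, p ≤ s.re → 1 ≤ ‖s - p + 1‖ := fun s hs => by
    have h1 : (s - p + 1).re = s.re - p + 1 := by simp
    have h2 := Complex.abs_re_le_norm (s - p + 1)
    rw [h1] at h2
    have h3 := le_abs_self (s.re - p + 1)
    linarith
  have him : ∀ s : ℂ, |s.im| ≤ ‖s - p + 1‖ := fun s => by
    have h1 : (s - p + 1).im = s.im := by simp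
    have h2 := Complex.abs_im_le_norm (s - p + 1)
    rwa [h1] at h2
  have hs1 : ∀ s : ℂ, p ≤ s.re → ‖s - 1‖ ≤ (1 + |p - 2|) * ‖s - p + 1‖ := fun s hs => by
    have h1 : s - 1 = (s - p + 1) + ((p - 2 : ℝ) : ℂ) := by push_cast; ring
    have h2 : ‖((p - 2 : ℝ) : ℂ)‖ = |p - 2| := by rw [Complex.norm_real, Real.norm_eq_abs]
    calc ‖s - 1‖ = ‖(s - p + 1) + ((p - 2 : ℝ) : ℂ)‖ := by rw [← h1]
      _ ≤ ‖s - p + 1‖ + ‖((p - 2 : ℝ) : ℂ)‖ := norm_add_le _ _
      _ = ‖s - p + 1‖ + |p - 2| * 1 := by rw [h2, mul_one]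
      _ ≤ ‖s - p + 1‖ + |p - 2| * ‖s - p + 1‖ := by
          gcongr
          exact hre s hs
      _ = (1 + |p - 2|) * ‖s - p + 1‖ := by ring
  set W : ℝ := (1 + |p - 2|) ^ m with hW
  have hWpos : 0 < W := by positivity
  -- bound on the left line, compact part
  obtain ⟨M₀, hM₀⟩ : ∃ M₀ : ℝ, ∀ t : ℝ, |t| ≤ 1 → ‖G ((p : ℂ) + (t : ℂ) * I)‖ ≤ M₀ := by
    have hcont : ContinuousOn (fun t : ℝ => ‖G ((p : ℂ) + (t : ℂ) * I)‖) (Set.Icc (-1) 1) := by
      apply Continuous.continuousOn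
      have := hGd.continuous
      fun_prop
    obtain ⟨M₀, hM₀⟩ := (isCompact_Icc.image_of_continuousOn hcont).bddAbove
    exact ⟨M₀, fun t ht => hM₀ ⟨t, abs_le.mp ht, rfl⟩⟩
  set M : ℝ := max M₀ (max (W * (CX * Ca)) (W * Cb)) with hM
  have hMpos : 0 < M := lt_of_lt_of_le (by positivity : 0 < W * Cb) ((le_max_right _ _).trans (le_max_right _ _))
  have hdne : ∀ s : ℂ, p ≤ s.re → (s - p + 1) ^ K ≠ 0 := fun s hs => by
    apply pow_ne_zero
    intro h0
    have := hre s hs
    rw [h0, norm_zero] at this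
    linarith
  set g : ℂ → ℂ := fun s => G s / (s - p + 1) ^ K with hg
  have hgnorm : ∀ s, ‖g s‖ = ‖G s‖ / ‖s - p + 1‖ ^ K := fun s => by
    simp only [hg]; rw [norm_div, norm_pow]
  have hbound : ∀ s : ℂ, p ≤ s.re → s.re ≤ q → ‖g s‖ ≤ M := by
    intro s hsp hsq
    refine PhragmenLindelof.vertical_strip (a := p) (b := q) (f := g) (C := M) ?_ ?_ ?_ ?_ hsp hsq
    · -- DiffContOnCl
      have hcl : closure (re ⁻¹' Set.Ioo p q) = re ⁻¹' Set.Icc p q := by
        rw [Complex.closure_preimage_re, closure_Ioo (by linarith)]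
      refine ⟨fun s hs => ?_, fun s hs => ?_⟩
      · exact ((hGd s).div (((differentiableAt_id.sub_const _).add_const _).pow K)
          (hdne s hs.1.le)).differentiableWithinAt
      · rw [hcl] at hs
        exact ((hGd s).div (((differentiableAt_id.sub_const _).add_const _).pow K)
          (hdne s hs.1)).continuousAt.continuousWithinAt
    · refine ⟨Real.pi / (q - p) / 2, ?_, 1, ?_⟩
      · have : 0 < Real.pi / (q - p) := div_pos Real.pi_pos (by linarith)
        linarith
      · have hc : 0 < Real.pi / (q - p) / 2 := by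
          have : 0 < Real.pi / (q - p) := div_pos Real.pi_pos (by linarith)
          linarith
        obtain ⟨T, hT⟩ := growth_aux A₀ (max B₀ 0) (1 + |p| + |q|) (Real.pi / (q - p) / 2) hc
        apply Asymptotics.IsBigO.of_bound 1
        have hev : ∀ᶠ z in Filter.comap (_root_.abs ∘ im) Filter.atTop ⊓ Filter.principal (re ⁻¹' Set.Ioo p q),
            T ≤ |z.im| ∧ z ∈ re ⁻¹' Set.Ioo p q := by
          apply Filter.Eventually.and
          · apply Filter.Eventually.filter_mono inf_le_left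
            exact Filter.tendsto_comap.eventually (Filter.eventually_ge_atTop T)
          · apply Filter.Eventually.filter_mono inf_le_right
            exact Filter.eventually_principal.mpr fun _ h => h
        filter_upwards [hev] with z hz
        obtain ⟨hzT, hz1, hz2⟩ := hz
        rw [one_mul, one_mul, Real.norm_eq_abs, abs_of_pos (Real.exp_pos _), hgnorm]
        have h1 : 1 ≤ ‖z - p + 1‖ ^ K := one_le_pow₀ (hre z hz1.le)
        have h2 : ‖G z‖ / ‖z - p + 1‖ ^ K ≤ ‖G z‖ := div_le_self (norm_nonneg _) h1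
        refine h2.trans ((hGr z).trans (Real.exp_le_exp.mpr ?_))
        refine le_trans ?_ (hT |z.im| hzT)
        have h3 : ‖z‖ ≤ |p| + |q| + |z.im| := by
          have h4 : ‖z‖ ≤ |z.re| + |z.im| := Complex.norm_le_abs_re_add_abs_im z
          have h5 : |z.re| ≤ |p| + |q| := by
            rw [abs_le]
            constructor
            · have := neg_abs_le p
              have := abs_nonneg q
              linarith
            · have := le_abs_self q
              have := abs_nonneg p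
              linarith
          linarith
        have h6 : 1 ≤ 1 + ‖z‖ := by linarith [norm_nonneg z]
        calc A₀ * (1 + ‖z‖) ^ B₀ ≤ |A₀| * (1 + ‖z‖) ^ B₀ := by
              apply mul_le_mul_of_nonneg_right (le_abs_self _)
              positivity
          _ ≤ |A₀| * (1 + ‖z‖) ^ (max B₀ 0) := by
              apply mul_le_mul_of_nonneg_left _ (abs_nonneg _)
              exact Real.rpow_le_rpow_of_exponent_le h6 (le_max_left _ _)
          _ ≤ |A₀| * (1 + |p| + |q| + |z.im|) ^ (max B₀ 0) := by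
              apply mul_le_mul_of_nonneg_left _ (abs_nonneg _)
              apply Real.rpow_le_rpow (by linarith) (by linarith) (le_max_right _ _)
    · -- left line
      intro z hz
      rw [hgnorm]
      have hN1 : 1 ≤ ‖z - p + 1‖ := hre z hz.ge
      have hzt : z = (p : ℂ) + (z.im : ℂ) * I := by
        rw [← hz]; exact (re_add_im z).symm
      have hKone : 1 ≤ ‖z - p + 1‖ ^ K := one_le_pow₀ hN1
      rcases le_total |z.im| 1 with ht | ht
      · have h1 := hM₀ z.im ht
        rw [← hzt] at h1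
        exact ((div_le_self (norm_nonneg _) hKone).trans h1).trans (le_max_left _ _)
      · have hz1 : z ≠ 1 := by
          intro h0
          rw [h0] at hz
          simp at hz
          linarith
        have hz0 : z ≠ 0 := by
          intro h0
          rw [h0] at hz
          simp at hz
          linarith
        have hFz : ‖F z‖ ≤ CX * |z.im| ^ e * Ca := by
          rw [h.fe_left (by rw [hz]; linarith) hz0, norm_mul, RCLike.norm_conj]
          gcongr
          · have := hX z.im ht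
            rwa [← hzt] at this
          · refine (ha _ ?_).2
            simp [hz]
        have hGz : ‖G z‖ = ‖z - 1‖ ^ m * ‖F z‖ := by rw [hGF z hz1, norm_mul, norm_pow]
        rw [div_le_iff₀ (by positivity)]
        have h5 : |z.im| ^ e ≤ ‖z - p + 1‖ ^ e := Real.rpow_le_rpow (abs_nonneg _) (him z) he0
        have h6 : ‖z - p + 1‖ ^ m * ‖z - p + 1‖ ^ e ≤ ‖z - p + 1‖ ^ K := by
          rw [← Real.rpow_natCast, ← Real.rpow_natCast, ← Real.rpow_add (by linarith)]
          exact Real.rpow_le_rpow_of_exponent_le hN1 hK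
        calc ‖G z‖ = ‖z - 1‖ ^ m * ‖F z‖ := hGz
          _ ≤ ((1 + |p - 2|) * ‖z - p + 1‖) ^ m * (CX * ‖z - p + 1‖ ^ e * Ca) := by
              gcongr
              · exact hs1 z hz.ge
              · exact hFz.trans (by gcongr)
          _ = W * (CX * Ca) * (‖z - p + 1‖ ^ m * ‖z - p + 1‖ ^ e) := by
              rw [mul_pow, hW]; ring
          _ ≤ M * ‖z - p + 1‖ ^ K := by
              gcongr
              exact (le_max_left _ _).trans (le_max_right _ _)
    · -- right line
      intro z hz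
      rw [hgnorm]
      have hzp : p ≤ z.re := by linarith
      have hN1 : 1 ≤ ‖z - p + 1‖ := hre z hzp
      have hz1 : z ≠ 1 := by
        intro h0
        rw [h0] at hz
        simp at hz
        linarith
      have hGz : ‖G z‖ = ‖z - 1‖ ^ m * ‖F z‖ := by rw [hGF z hz1, norm_mul, norm_pow]
      rw [div_le_iff₀ (by positivity)]
      calc ‖G z‖ = ‖z - 1‖ ^ m * ‖F z‖ := hGz
        _ ≤ ((1 + |p - 2|) * ‖z - p + 1‖) ^ m * Cb := by
            gcongr
            · exact hs1 z hzp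
            · exact (hb z hz.ge).2
        _ = W * Cb * ‖z - p + 1‖ ^ m := by
            rw [mul_pow, hW]; ring
        _ ≤ M * ‖z - p + 1‖ ^ K := by
            gcongr
            · exact (le_max_right _ _).trans (le_max_right _ _)
  -- conclusion
  refine ⟨M * (q - p + 2) ^ K, K, ?_, Nat.cast_nonneg K, fun s hs1' hs2' hs3 => ?_⟩
  · have : 0 < q - p + 2 := by linarith
    positivity
  have hsp : p ≤ s.re := by linarith
  have hsq : s.re ≤ q := by linarith
  have hsne : s ≠ 1 := by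
    intro h0
    rw [h0] at hs3
    simp at hs3
    linarith
  have hb1 := hbound s hsp hsq
  rw [hgnorm, div_le_iff₀ (pow_pos (by linarith [hre s hsp]) K), hGF s hsne, norm_mul, norm_pow] at hb1
  have hone : 1 ≤ ‖s - 1‖ ^ m := by
    apply one_le_pow₀
    have h1 : (s - 1).im = s.im := by simp
    have h2 := Complex.abs_im_le_norm (s - 1)
    rw [h1] at h2
    linarith
  have hN : ‖s - p + 1‖ ≤ (q - p + 2) * |s.im| := by
    have h1 := Complex.norm_le_abs_re_add_abs_im (s - p + 1)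
    have h2 : (s - p + 1).re = s.re - p + 1 := by simp
    have h3 : (s - p + 1).im = s.im := by simp
    rw [h2, h3, abs_of_nonneg (by linarith : 0 ≤ s.re - p + 1)] at h1
    nlinarith
  rw [Real.rpow_natCast]
  calc ‖F s‖ ≤ ‖s - 1‖ ^ m * ‖F s‖ := le_mul_of_one_le_left (norm_nonneg _) hone
    _ ≤ M * ‖s - p + 1‖ ^ K := hb1
    _ ≤ M * ((q - p + 2) * |s.im|) ^ K := by gcongr
    _ = M * (q - p + 2) ^ K * |s.im| ^ K := by rw [mul_pow]; ring

end Pool.Agent.Helper19.BD
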