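import Pool.Agent.Helper97.BD.Base

/-!
Block BD-MU (MP_bd232a_nt, part B). Multiplicativity of the coefficients of an element of the Selberg class.

PROOFS. Let `b` be the coefficients of `log F`, `F s = exp (LSeries b s) = LSeries a s` for `Re s > 1`.
`a_one`: let `s → +∞` real: `LSeries a s → a 1` (`LSeries_tendsto_atTop` or similar), `exp (LSeries b s) → exp (b 1) = exp 0 = 1`.
`conv`: differentiate: `F' = F · (LSeries b)'` i.e. `LSeries (log·a) = LSeries a · LSeries (log·b)` (Mathlib `LSeries_deriv`, `LSeries.logMul`, `LSeries_convolution`),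
and Dirichlet series with equal values for large `Re s` have equal coefficients (`LSeries_injOn`, `LSeries.eq_of_...`; for `n ≥ 1`). The abscissas are `≤ 1`.
`mult`: strong induction on `m n`; for coprime `m, n` and a prime power `d ∣ m n` either `d ∣ m` or `d ∣ n` (not both, `d > 1`); so
`a(mn) log(mn) = ∑_{d ∣ mn} b(d) log d a(mn/d) = a(n) ∑_{d∣m} b(d) log d a(m/d) + a(m) ∑_{d∣n} b(d) log d a(n/d) = a(m)a(n)(log m + log n)`
(the terms `d = 1` vanish since `log 1 = 0`; for `m n = 1` use `a 1 = 1`).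
`prime_power_bound`: let `0 ≤ θ' := max θ 0 < 1/2`, `p` prime, `a(p^j) = 0` for `j > e`. From `conv` at `n = p^j`: `j a(p^j) = ∑_{i=1}^j i b(p^i) a(p^{j-i})`.
So the polynomial `P(u) = ∑_{j≤e} a(p^j) u^j` and the power series `R(u) = ∑_{i≥1} b(p^i) u^i` (converging for `|u| < p^(-θ')` as `|b(p^i)| ≤ C p^(iθ)`) satisfy `P' = P R'`
on that disc, `P(0) = 1`; hence `P exp(-R)` is constant `= 1` and `P(u) ≠ 0` for `|u| < p^(-θ')`. If `a(p^e) = 0` nothing to prove. Otherwise the reversed polynomial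
`P*(w) = w^e P(1/w) = ∑ a(p^j) w^(e-j)` is monic of degree `e`, all its roots satisfy `|w| ≤ p^θ'`, its constant coefficient is `a(p^e)` = ± product of the roots
(`Polynomial.coeff_zero_eq_prod_roots_of_monic...`), so `‖a(p^e)‖ ≤ p^(eθ')`.
-/

open Complex

namespace Pool.Agent.Helper19.BD

open Topology Filter in
lemma abscissa_le_one_of {a : ℕ → ℂ} (h : ∀ s : ℂ, 1 < s.re → LSeriesSummable a s) :
    LSeries.abscissaOfAbsConv a ≤ 1 := by
  have := LSeries.abscissaOfAbsConv_le_of_forall_lt_LSeriesSummable (f := a) (x := (1 : ℝ))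
    (fun y hy => h y (by simpa using hy))
  simpa using this

open Topology Filter in
theorem IsSelbergWith.a_one {F : ℂ → ℂ} {a : ℕ → ℂ} {D : FE} (h : IsSelbergWith F a D) : a 1 = 1 := by
  obtain ⟨b, θ, C, hθ, hb0, hbC, hb⟩ := h.euler
  have haA := abscissa_le_one_of h.summable
  have hbA := abscissa_le_one_of fun s hs => (hb s hs).1
  have h1top : (1 : EReal) < ⊤ := EReal.coe_lt_top 1
  have t1 := LSeries.tendsto_atTop (haA.trans_lt h1top)
  have t2 := (continuous_exp.tendsto _).comp (LSeries.tendsto_atTop (hbA.trans_lt h1top))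
  have hb1 : b 1 = 0 := hb0 1 not_isPrimePow_one
  rw [hb1, exp_zero] at t2
  refine tendsto_nhds_unique t1 (t2.congr' ?_)
  filter_upwards [eventually_gt_atTop (1 : ℝ)] with x hx
  have hx' : 1 < (x : ℂ).re := by simpa using hx
  rw [Function.comp, ← h.eq _ hx', (hb _ hx').2]

open Topology Filter in
theorem IsSelbergWith.conv {F : ℂ → ℂ} {a : ℕ → ℂ} {D : FE} (h : IsSelbergWith F a D) {b : ℕ → ℂ}
    (hb0 : ∀ n, ¬ IsPrimePow n → b n = 0)
    (hb : ∀ s : ℂ, 1 < s.re → LSeriesSummable b s ∧ F s = exp (LSeries b s)) {n : ℕ} (hn : 1 ≤ n) :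
    a n * (Real.log n : ℂ) = ∑ d ∈ n.divisors, b d * (Real.log d : ℂ) * a (n / d) := by
  have haA := abscissa_le_one_of h.summable
  have hbA := abscissa_le_one_of fun s hs => (hb s hs).1
  have h1top : (1 : EReal) < ⊤ := EReal.coe_lt_top 1
  have key : ∀ s : ℂ, 1 < s.re → LSeries (LSeries.logMul a) s =
      LSeries (LSeries.convolution (LSeries.logMul b) a) s := by
    intro s hs
    have h1 : LSeries.abscissaOfAbsConv a < s.re := haA.trans_lt (by exact_mod_cast hs)
    have h2 : LSeries.abscissaOfAbsConv b < s.re := hbA.trans_lt (by exact_mod_cast hs)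
    have d1 := LSeries_hasDerivAt h1
    have d2 := (LSeries_hasDerivAt h2).cexp
    have heq : LSeries a =ᶠ[𝓝 s] fun w => exp (LSeries b w) := by
      have : {w : ℂ | 1 < w.re} ∈ 𝓝 s := (isOpen_lt continuous_const continuous_re).mem_nhds hs
      filter_upwards [this] with w hw
      rw [← h.eq w hw]; exact (hb w hw).2
    have d3 := d2.congr_of_eventuallyEq heq
    have h3 := d1.unique d3
    have h2' : LSeries.abscissaOfAbsConv (LSeries.logMul b) < s.re := by
      rw [LSeries.abscissaOfAbsConv_logMul]; exact h2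
    rw [LSeries_convolution h2' h1, ← h.eq s hs, (hb s hs).2]
    rw [mul_neg, neg_inj] at h3
    rw [h3]; ring
  have hA1 : LSeries.abscissaOfAbsConv (LSeries.logMul a) < ⊤ := by
    rw [LSeries.abscissaOfAbsConv_logMul]; exact haA.trans_lt h1top
  have hA2 : LSeries.abscissaOfAbsConv (LSeries.convolution (LSeries.logMul b) a) < ⊤ := by
    refine (LSeries.abscissaOfAbsConv_convolution_le _ _).trans_lt (max_lt ?_ (haA.trans_lt h1top))
    rw [LSeries.abscissaOfAbsConv_logMul]; exact hbA.trans_lt h1top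
  have hev : (fun x : ℝ => LSeries (LSeries.logMul a) x) =ᶠ[atTop]
      fun x : ℝ => LSeries (LSeries.convolution (LSeries.logMul b) a) x := by
    filter_upwards [eventually_gt_atTop (1 : ℝ)] with x hx
    exact key _ (by simpa using hx)
  have h4 := LSeries.eq_of_LSeries_eventually_eq hA1 hA2 hev (n := n) (by omega)
  rw [LSeries.convolution_def] at h4
  simp only [LSeries.logMul] at h4
  rw [Nat.sum_divisorsAntidiagonal (f := fun d e => log (d : ℂ) * b d * a e)] at h4
  rw [← natCast_log, mul_comm] at h4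
  rw [h4]
  refine Finset.sum_congr rfl fun d _ => ?_
  rw [natCast_log]; ring

theorem IsSelbergWith.mult {F : ℂ → ℂ} {a : ℕ → ℂ} {D : FE} (h : IsSelbergWith F a D) {m n : ℕ} (hm : 1 ≤ m) (hn : 1 ≤ n)
    (hmn : Nat.Coprime m n) : a (m * n) = a m * a n := by
  obtain ⟨b, θ, C, hθ, hb0, hbC, hb⟩ := h.euler
  have conv := fun {n : ℕ} (hn : 1 ≤ n) => h.conv hb0 hb hn
  have hlog : ∀ (n : ℕ) (f : ℕ → ℂ), ∑ d ∈ n.divisors, b d * (Real.log d : ℂ) * f d =
      ∑ d ∈ n.divisors with IsPrimePow d, b d * (Real.log d : ℂ) * f d := by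
    intro n f
    rw [Finset.sum_filter]
    refine Finset.sum_congr rfl fun d _ => ?_
    split_ifs with hd
    · rfl
    · rw [hb0 d hd]; ring
  generalize hN : m * n = N
  induction N using Nat.strong_induction_on generalizing m n with
  | _ N ih =>
    rcases Nat.eq_or_lt_of_le (Nat.mul_pos hm hn : 0 < m * n) with h1 | h1
    · have h1' : m * n = 1 := h1.symm
      obtain rfl := Nat.eq_one_of_mul_eq_one_right h1'
      obtain rfl := Nat.eq_one_of_mul_eq_one_left h1'
      subst hN
      simp [h.a_one]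
    · subst hN
      have hc := conv (Nat.mul_pos hm hn : 1 ≤ m * n)
      rw [hlog, Nat.mul_divisors_filter_prime_pow hmn, Finset.filter_union,
        Finset.sum_union (Nat.disjoint_divisors_filter_isPrimePow hmn)] at hc
      have e1 : ∑ d ∈ m.divisors with IsPrimePow d, b d * (Real.log d : ℂ) * a (m * n / d) =
          a m * (Real.log m : ℂ) * a n := by
        rw [conv hm, hlog, Finset.sum_mul]
        refine Finset.sum_congr rfl fun d hd => ?_
        obtain ⟨hd1, hd2⟩ := Finset.mem_filter.1 hd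
        have hdm : d ∣ m := Nat.dvd_of_mem_divisors hd1
        have hd0 : 0 < d := Nat.pos_of_dvd_of_pos hdm hm
        have hd1' : 1 < d := hd2.one_lt
        have e : m * n / d = (m / d) * n := by
          rw [Nat.mul_comm, Nat.mul_div_assoc _ hdm, Nat.mul_comm]
        rw [e, ih ((m / d) * n) ?_ (Nat.div_pos (Nat.le_of_dvd hm hdm) hd0) hn
          (Nat.Coprime.coprime_dvd_left (Nat.div_dvd_of_dvd hdm) hmn) rfl]
        · ring
        · exact Nat.mul_lt_mul_of_pos_right (Nat.div_lt_self hm hd1') hn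
      have e2 : ∑ d ∈ n.divisors with IsPrimePow d, b d * (Real.log d : ℂ) * a (m * n / d) =
          a n * (Real.log n : ℂ) * a m := by
        rw [conv hn, hlog, Finset.sum_mul]
        refine Finset.sum_congr rfl fun d hd => ?_
        obtain ⟨hd1, hd2⟩ := Finset.mem_filter.1 hd
        have hdm : d ∣ n := Nat.dvd_of_mem_divisors hd1
        have hd0 : 0 < d := Nat.pos_of_dvd_of_pos hdm hn
        have hd1' : 1 < d := hd2.one_lt
        have e : m * n / d = m * (n / d) := Nat.mul_div_assoc _ hdm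
        rw [e, ih (m * (n / d)) ?_ hm (Nat.div_pos (Nat.le_of_dvd hn hdm) hd0)
          (Nat.Coprime.coprime_dvd_right (Nat.div_dvd_of_dvd hdm) hmn) rfl]
        · ring
        · exact Nat.mul_lt_mul_of_pos_left (Nat.div_lt_self hn hd1') hm
      rw [e1, e2] at hc
      have hlogne : (Real.log ((m * n : ℕ) : ℝ) : ℂ) ≠ 0 := by
        have : 0 < Real.log ((m * n : ℕ) : ℝ) := Real.log_pos (by exact_mod_cast h1)
        exact_mod_cast this.ne'
      have hsplit : (Real.log ((m * n : ℕ) : ℝ) : ℂ) = (Real.log m : ℂ) + (Real.log n : ℂ) := by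
        rw [← ofReal_add, ← Real.log_mul (by positivity) (by positivity)]
        push_cast; rfl
      apply mul_right_cancel₀ hlogne
      rw [hc, hsplit]; ring

lemma multiset_prod_norm_ge (s : Multiset ℂ) (c : ℝ) (hc : 0 ≤ c) (h : ∀ r ∈ s, c ≤ ‖r‖) :
    c ^ (Multiset.card s) ≤ ‖s.prod‖ := by
  induction s using Multiset.induction_on with
  | empty => simp
  | cons r s ih =>
    rw [Multiset.prod_cons, norm_mul, Multiset.card_cons, pow_succ, mul_comm]
    exact mul_le_mul (h r (Multiset.mem_cons_self r s)) (ih fun r hr => h r (Multiset.mem_cons_of_mem hr))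
      (by positivity) (norm_nonneg _)

open Polynomial Topology Filter in
lemma root_norm_ge (P : Polynomial ℂ) (hP : P ≠ 0) (s : ℕ → ℂ) (ρ : ℝ)
    (hs : ∀ r : ℝ, 0 ≤ r → r < ρ → Summable fun n => ‖s n‖ * r ^ n)
    (hid : ∀ n : ℕ, (n : ℂ) * P.coeff n = ∑ kl ∈ Finset.HasAntidiagonal.antidiagonal n, s kl.1 * P.coeff kl.2)
    (h0 : P.coeff 0 ≠ 0) {r : ℂ} (hr : P.IsRoot r) : ρ ≤ ‖r‖ := by
  by_contra hlt
  push Not at hlt
  have hr0 : r ≠ 0 := by
    rintro rfl
    rw [IsRoot.def, ← coeff_zero_eq_eval_zero] at hr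
    exact h0 hr
  obtain ⟨ρ1, h1, h2⟩ := exists_between hlt
  have hρ1 : 0 ≤ ρ1 := (norm_nonneg r).trans h1.le
  have hsum := hs ρ1 hρ1 h2
  have hident : ∀ u : ℂ, ‖u‖ ≤ ρ1 → u * P.derivative.eval u = (∑' n, s n * u ^ n) * P.eval u := by
    intro u hu
    have hf : Summable fun n => ‖s n * u ^ n‖ := by
      refine Summable.of_nonneg_of_le (fun _ => norm_nonneg _) (fun n => ?_) hsum
      rw [norm_mul, norm_pow]; gcongr
    have hgfin : ∀ n ∉ Finset.range (P.natDegree + 1), P.coeff n * u ^ n = 0 := by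
      intro n hn
      rw [Finset.mem_range, not_lt] at hn
      rw [coeff_eq_zero_of_natDegree_lt (by omega), zero_mul]
    have hg : Summable fun n => ‖P.coeff n * u ^ n‖ := by
      refine summable_of_ne_finset_zero (s := Finset.range (P.natDegree + 1)) fun n hn => ?_
      rw [hgfin n hn, norm_zero]
    have e1 : P.eval u = ∑' n, P.coeff n * u ^ n := by
      rw [eval_eq_sum_range, tsum_eq_sum hgfin]
    rw [e1, tsum_mul_tsum_eq_tsum_sum_antidiagonal_of_summable_norm hf hg]
    have e2 : ∀ n, ∑ kl ∈ Finset.HasAntidiagonal.antidiagonal n, s kl.1 * u ^ kl.1 * (P.coeff kl.2 * u ^ kl.2) =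
        (n : ℂ) * P.coeff n * u ^ n := by
      intro n
      rw [hid n, Finset.sum_mul]
      refine Finset.sum_congr rfl fun kl hkl => ?_
      rw [← Finset.HasAntidiagonal.mem_antidiagonal.1 hkl, pow_add]; ring
    rw [tsum_congr e2, tsum_eq_sum (s := Finset.range (P.natDegree + 1))]
    · rw [derivative_eval, sum_over_range, Finset.mul_sum]
      · refine Finset.sum_congr rfl fun n _ => ?_
        rcases n with _ | n
        · simp
        · rw [Nat.add_sub_cancel, pow_succ]; ring
      · intro n; simp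
    · intro n hn
      rw [mul_assoc, hgfin n hn, mul_zero]
  set B : ℝ := ∑' n, ‖s n‖ * ρ1 ^ n with hB
  have hSb : ∀ u : ℂ, ‖u‖ ≤ ρ1 → ‖∑' n, s n * u ^ n‖ ≤ B := by
    intro u hu
    refine tsum_of_norm_bounded hsum.hasSum fun n => ?_
    rw [norm_mul, norm_pow]; gcongr
  obtain ⟨Q, hPQ, hQ⟩ := exists_eq_pow_rootMultiplicity_mul_and_not_dvd P hP r
  set k := P.rootMultiplicity r with hk
  have hkpos : 0 < k := (rootMultiplicity_pos hP).2 hr
  obtain ⟨k', hk'⟩ : ∃ k', k = k' + 1 := ⟨k - 1, by omega⟩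
  have hQr : Q.eval r ≠ 0 := fun hh => hQ (dvd_iff_isRoot.2 hh)
  have hder : ∀ u : ℂ, P.derivative.eval u = (u - r) ^ k' * ((k : ℂ) * Q.eval u + (u - r) * Q.derivative.eval u) := by
    intro u
    rw [hPQ, hk']
    simp only [derivative_mul, derivative_X_sub_C_pow, eval_add, eval_mul, eval_pow, eval_sub, eval_X, eval_C]
    push_cast

    ring
  have hPe : ∀ u : ℂ, P.eval u = (u - r) ^ k' * ((u - r) * Q.eval u) := by
    intro u
    conv_lhs => rw [hPQ, hk']
    simp only [eval_mul, eval_pow, eval_sub, eval_X, eval_C]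
    ring
  have hev : ∀ᶠ u in 𝓝[≠] r, ‖u * ((k : ℂ) * Q.eval u + (u - r) * Q.derivative.eval u)‖ ≤
      B * (‖u - r‖ * ‖Q.eval u‖) := by
    have hn : ∀ᶠ u in 𝓝[≠] r, ‖u‖ < ρ1 :=
      (continuous_norm.tendsto r |>.eventually_lt_const h1).filter_mono nhdsWithin_le_nhds
    filter_upwards [hn, self_mem_nhdsWithin] with u hu hne
    have hne' : u - r ≠ 0 := sub_ne_zero.2 hne
    have hi := hident u hu.le
    rw [hder, hPe] at hi
    have hi' : u * ((k : ℂ) * Q.eval u + (u - r) * Q.derivative.eval u) =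
        (∑' n, s n * u ^ n) * ((u - r) * Q.eval u) := by
      apply mul_left_cancel₀ (pow_ne_zero k' hne')
      linear_combination hi
    rw [hi', norm_mul, norm_mul]
    exact mul_le_mul_of_nonneg_right (hSb u hu.le) (by positivity)
  have hc1 : Continuous fun u : ℂ => ‖u * ((k : ℂ) * Q.eval u + (u - r) * Q.derivative.eval u)‖ := by
    have := Q.continuous; have := Q.derivative.continuous
    fun_prop
  have hc2 : Continuous fun u : ℂ => B * (‖u - r‖ * ‖Q.eval u‖) := by
    have := Q.continuous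
    fun_prop
  have hlim := le_of_tendsto_of_tendsto ((hc1.tendsto r).mono_left nhdsWithin_le_nhds)
    ((hc2.tendsto r).mono_left nhdsWithin_le_nhds) hev
  simp only [sub_self, zero_mul, add_zero, norm_zero, mul_zero] at hlim
  have hne : r * ((k : ℂ) * Q.eval r) ≠ 0 :=
    mul_ne_zero hr0 (mul_ne_zero (by exact_mod_cast hkpos.ne') hQr)
  exact absurd hlim (not_le.2 (norm_pos_iff.2 hne))

open Polynomial in
theorem IsSelbergWith.prime_power_bound {F : ℂ → ℂ} {a : ℕ → ℂ} {D : FE} (h : IsSelbergWith F a D) :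
    ∃ θ : ℝ, 0 ≤ θ ∧ θ < 1 / 2 ∧ ∀ p : ℕ, p.Prime → ∀ e : ℕ, (∀ j : ℕ, e < j → a (p ^ j) = 0) →
      ‖a (p ^ e)‖ ≤ (p : ℝ) ^ (e * θ : ℝ) := by
  obtain ⟨b, θ, C, hθ, hb0, hbC, hb⟩ := h.euler
  refine ⟨max θ 0, le_max_right _ _, max_lt hθ (by norm_num), fun p hp e hae => ?_⟩
  have hp0 : (0 : ℝ) < p := by exact_mod_cast hp.pos
  have hp1 : (1 : ℝ) < p := by exact_mod_cast hp.one_lt
  by_cases hne : a (p ^ e) = 0
  · rw [hne, norm_zero]; positivity
  set q : ℝ := (p : ℝ) ^ (max θ 0) with hq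
  have hq0 : 0 < q := by positivity
  have hC : 0 ≤ C := by
    have := hbC 1 le_rfl
    simp at this
    exact (norm_nonneg _).trans this
  set P : Polynomial ℂ := ∑ j ∈ Finset.range (e + 1), Polynomial.monomial j (a (p ^ j)) with hPdef
  have hcoeff : ∀ n, P.coeff n = a (p ^ n) := by
    intro n
    rw [hPdef, finsetSum_coeff]
    simp only [coeff_monomial]
    rw [Finset.sum_ite_eq' (Finset.range (e + 1)) n (fun j => a (p ^ j))]
    split_ifs with hn
    · rfl
    · rw [Finset.mem_range, not_lt] at hn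
      rw [hae n (by omega)]
  have hP0 : P.coeff 0 = 1 := by rw [hcoeff, pow_zero, h.a_one]
  have hPne : P ≠ 0 := by
    intro h0; rw [h0] at hP0; simp at hP0
  have hdeg : P.natDegree = e := by
    apply le_antisymm
    · rw [natDegree_le_iff_coeff_eq_zero]
      intro n hn
      rw [hcoeff, hae n hn]
    · apply le_natDegree_of_ne_zero
      rw [hcoeff]; exact hne
  have hlead : P.leadingCoeff = a (p ^ e) := by
    rw [leadingCoeff, hdeg, hcoeff]
  have hlogp : (Real.log p : ℂ) ≠ 0 := by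
    exact_mod_cast (Real.log_pos hp1).ne'
  have hroot : ∀ r ∈ P.roots, q⁻¹ ≤ ‖r‖ := by
    intro r hr
    refine root_norm_ge P hPne (fun n => (n : ℂ) * b (p ^ n)) q⁻¹ ?_ ?_ (by rw [hP0]; exact one_ne_zero)
      (isRoot_of_mem_roots hr)
    · intro x hx0 hx
      have hqx : ‖q * x‖ < 1 := by
        rw [Real.norm_of_nonneg (by positivity)]
        calc q * x < q * q⁻¹ := by gcongr
          _ = 1 := mul_inv_cancel₀ hq0.ne'
      have hs := (summable_pow_mul_geometric_of_norm_lt_one 1 hqx).mul_left C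
      refine Summable.of_nonneg_of_le (fun _ => by positivity) (fun n => ?_) hs
      have hbn := hbC (p ^ n) (Nat.one_le_pow _ _ hp.pos)
      have h3 : ((p ^ n : ℕ) : ℝ) ^ θ ≤ q ^ n := by
        push_cast
        rw [hq, ← Real.rpow_natCast, ← Real.rpow_mul hp0.le, ← Real.rpow_natCast, ← Real.rpow_mul hp0.le,
          mul_comm (n : ℝ) θ]
        apply Real.rpow_le_rpow_of_exponent_le hp1.le
        exact mul_le_mul_of_nonneg_right (le_max_left _ _) (Nat.cast_nonneg n)
      rw [norm_mul, Complex.norm_natCast, pow_one, mul_pow]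
      calc (n : ℝ) * ‖b (p ^ n)‖ * x ^ n ≤ (n : ℝ) * (C * q ^ n) * x ^ n := by
            gcongr
            exact hbn.trans (mul_le_mul_of_nonneg_left h3 hC)
        _ = C * ((n : ℝ) * (q ^ n * x ^ n)) := by ring
    · intro n
      rw [hcoeff]
      have hc := h.conv hb0 hb (n := p ^ n) (Nat.one_le_pow _ _ hp.pos)
      rw [Nat.sum_divisors_prime_pow hp] at hc
      rw [Finset.Nat.sum_antidiagonal_eq_sum_range_succ (fun i j => (i : ℂ) * b (p ^ i) * P.coeff j)]
      apply mul_right_cancel₀ hlogp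
      have hl : ∀ i : ℕ, (Real.log ((p ^ i : ℕ) : ℝ) : ℂ) = (i : ℂ) * (Real.log p : ℂ) := by
        intro i
        rw [Nat.cast_pow, Real.log_pow]; push_cast; rfl
      rw [hl] at hc
      rw [Finset.sum_mul]
      calc (n : ℂ) * a (p ^ n) * (Real.log p : ℂ) = a (p ^ n) * ((n : ℂ) * (Real.log p : ℂ)) := by ring
        _ = _ := hc
        _ = _ := by
          refine Finset.sum_congr rfl fun i hi => ?_
          rw [Finset.mem_range] at hi
          rw [hl, hcoeff, Nat.pow_div (by omega) hp.pos]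
          ring
  have hspl : P.Splits := IsAlgClosed.splits P
  have hcz := hspl.coeff_zero_eq_leadingCoeff_mul_prod_roots
  have hn := congrArg norm hcz
  rw [hP0, norm_mul, norm_mul, norm_pow, norm_neg, norm_one, one_pow, one_mul, hlead] at hn
  have hge := multiset_prod_norm_ge P.roots q⁻¹ (by positivity) hroot
  rw [← hspl.natDegree_eq_card_roots, hdeg] at hge
  have hle : ‖a (p ^ e)‖ * (q⁻¹) ^ e ≤ 1 := by
    calc ‖a (p ^ e)‖ * (q⁻¹) ^ e ≤ ‖a (p ^ e)‖ * ‖P.roots.prod‖ := by gcongr
      _ = 1 := hn.symm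
  have : (p : ℝ) ^ (e * max θ 0 : ℝ) = q ^ e := by
    rw [hq, ← Real.rpow_natCast, ← Real.rpow_mul hp0.le, mul_comm]
  rw [this]
  rw [inv_pow, ← div_eq_mul_inv, div_le_one (by positivity)] at hle
  exact hle

end Pool.Agent.Helper19.BD
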