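import Pool.Agent.Helper97.BD.Base

/-!
Block BD-B3c (MP_bd232a_nt, part B, degree 1). A Riemann sum limit.

PROOF. Put `u(t) = t^{-iη} exp(-2πt) = exp(-iη log t - 2πt)` (`t > 0`); `n^{-iη} exp(-2πnx) = x^{iη} u(nx)` so `x^{1-iη} ∑_n g(n) n^{-iη} exp(-2πnx) = ∑_n g(n) x u(nx)`.
Split into residue classes `r = 1..q` mod `q`: `∑_{m ≥ 0} x u((r + qm) x) = (1/q) ∫_0^∞ u_x(t) dt`, where `u_x(t) = u((r + qm)x)` for `qmx ≤ t < q(m+1)x`.
As `x → 0+`: `u_x(t) → u(t)` for every `t > 0` (continuity; `|(r+qm)x - t| ≤ qx`), `|u_x(t)| ≤ exp(-2π max(0, t - qx)) ≤ exp(2πq) exp(-2πt)` for `x ≤ 1`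
(as `(r+qm)x ≥ qmx ≥ t - qx`). Dominated convergence: the limit is `(1/q) ∫_0^∞ u = (1/q) Gamma(1-iη) (2π)^{-(1-iη)}` (`Complex.integral_cpow_mul_exp_neg_mul_Ioi`).
(Any other proof is fine, e.g. via Abel summation.) `∑_{r=1}^q g(r) = ∑_{j<q} g(j)` by periodicity.
-/

open Complex MeasureTheory Filter Topology

namespace Pool.Agent.Helper19.BD

open Set in
private theorem riem_aux {u : ℝ → ℂ} (hc : ∀ t : ℝ, 0 < t → ContinuousAt u t)
    (hb : ∀ t : ℝ, 0 < t → ‖u t‖ ≤ Real.exp (-(2 * Real.pi * t))) {a : ℝ} (ha : 0 < a) (ha1 : a ≤ 1) :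
    Tendsto (fun h : ℝ => ∑' m : ℕ, (h : ℂ) * u ((a + m) * h)) (𝓝[>] 0) (𝓝 (∫ t in Ioi (0 : ℝ), u t)) := by
  set V : ℝ → ℝ → ℂ := fun h t => u ((a + ((⌈t / h⌉₊ : ℝ) - 1)) * h) with hV
  have hpos : ∀ h : ℝ, 0 < h → ∀ t : ℝ, 0 < t → 1 ≤ ⌈t / h⌉₊ := fun h hh t ht =>
    Nat.one_le_ceil_iff.2 (div_pos ht hh)
  have hlow : ∀ h : ℝ, 0 < h → ∀ t : ℝ, 0 < t → t ≤ (⌈t / h⌉₊ : ℝ) * h := fun h hh t ht => by
    have := Nat.le_ceil (t / h)
    rwa [div_le_iff₀ hh] at this
  have hupp : ∀ h : ℝ, 0 < h → ∀ t : ℝ, 0 < t → ((⌈t / h⌉₊ : ℝ) - 1) * h < t := fun h hh t ht => by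
    have := Nat.ceil_lt_add_one (div_pos ht hh).le
    have h2 : (⌈t / h⌉₊ : ℝ) - 1 < t / h := by linarith
    rwa [lt_div_iff₀ hh] at h2
  have hmeas : ∀ h : ℝ, Measurable (V h) := fun h => by
    have h1 : Measurable (fun t : ℝ => ⌈t / h⌉₊) := Nat.measurable_ceil.comp (measurable_id.div_const h)
    exact (measurable_of_countable (fun k : ℕ => u ((a + ((k : ℝ) - 1)) * h))).comp h1
  have hargpos : ∀ h : ℝ, 0 < h → ∀ t : ℝ, 0 < t → 0 < (a + ((⌈t / h⌉₊ : ℝ) - 1)) * h := fun h hh t ht => by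
    have h1 : (1 : ℝ) ≤ (⌈t / h⌉₊ : ℝ) := by exact_mod_cast hpos h hh t ht
    apply mul_pos _ hh; linarith
  have hbd : ∀ h : ℝ, 0 < h → h ≤ 1 → ∀ t : ℝ, 0 < t →
      ‖V h t‖ ≤ Real.exp (2 * Real.pi) * Real.exp (-(2 * Real.pi * t)) := fun h hh h1 t ht => by
    refine (hb _ (hargpos h hh t ht)).trans ?_
    rw [← Real.exp_add, Real.exp_le_exp]
    have h2 := hlow h hh t ht
    have h3 : t - 1 ≤ (a + ((⌈t / h⌉₊ : ℝ) - 1)) * h := by nlinarith
    nlinarith [Real.pi_pos]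
  have hint : IntegrableOn (fun t : ℝ => Real.exp (2 * Real.pi) * Real.exp (-(2 * Real.pi * t))) (Ioi 0) := by
    have := (integrableOn_exp_mul_Ioi (a := -(2 * Real.pi)) (by have := Real.pi_pos; linarith) 0)
    refine Integrable.const_mul ?_ _
    refine (integrable_congr ?_).1 this
    filter_upwards with t
    congr 1; ring
  -- the sum is an integral
  have hsum : ∀ h : ℝ, 0 < h → h ≤ 1 → ∑' m : ℕ, (h : ℂ) * u ((a + m) * h) = ∫ t in Ioi (0 : ℝ), V h t := by
    intro h hh h1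
    have hU : Ioi (0 : ℝ) = ⋃ m : ℕ, Ioc ((m : ℝ) * h) (((m : ℝ) + 1) * h) := by
      ext t
      simp only [mem_Ioi, mem_iUnion, mem_Ioc]
      constructor
      · intro ht
        refine ⟨⌈t / h⌉₊ - 1, ?_, ?_⟩
        · have := hupp h hh t ht
          have h3 := hpos h hh t ht
          rw [Nat.cast_sub h3]; simpa using this
        · have := hlow h hh t ht
          have h3 := hpos h hh t ht
          rw [Nat.cast_sub h3]; simpa using this
      · rintro ⟨m, hm, -⟩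
        exact lt_of_le_of_lt (by positivity) hm
    have hdisj : Pairwise (Function.onFun Disjoint fun m : ℕ => Ioc ((m : ℝ) * h) (((m : ℝ) + 1) * h)) := by
      intro i j hij
      rw [Function.onFun, Set.disjoint_left]
      rintro t ⟨h1, h2⟩ ⟨h3, h4⟩
      apply hij
      have h5 : (i : ℝ) < j + 1 := by
        by_contra hcon
        push Not at hcon
        nlinarith
      have h6 : (j : ℝ) < i + 1 := by
        by_contra hcon
        push Not at hcon
        nlinarith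
      have h5' : i < j + 1 := by exact_mod_cast h5
      have h6' : j < i + 1 := by exact_mod_cast h6
      omega
    have hi : IntegrableOn (V h) (⋃ m : ℕ, Ioc ((m : ℝ) * h) (((m : ℝ) + 1) * h)) := by
      rw [← hU]
      refine Integrable.mono' hint (hmeas h).aestronglyMeasurable ?_
      filter_upwards [ae_restrict_mem measurableSet_Ioi] with t ht
      exact hbd h hh h1 t ht
    have := (hasSum_integral_iUnion (fun m => measurableSet_Ioc) hdisj hi).tsum_eq
    rw [hU, ← this]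
    refine tsum_congr fun m => ?_
    have hcst : ∀ t ∈ Ioc ((m : ℝ) * h) (((m : ℝ) + 1) * h), V h t = u ((a + m) * h) := by
      intro t ht
      have : ⌈t / h⌉₊ = m + 1 := by
        rw [Nat.ceil_eq_iff (by omega)]
        constructor
        · rw [lt_div_iff₀ hh]; simpa using ht.1
        · rw [div_le_iff₀ hh]; simpa using ht.2
      simp only [hV, this]
      congr 2
      push_cast; ring
    rw [setIntegral_congr_fun measurableSet_Ioc hcst, setIntegral_const, Measure.real, Real.volume_Ioc]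
    rw [ENNReal.toReal_ofReal (by nlinarith)]
    rw [show ((m : ℝ) + 1) * h - m * h = h by ring]
    simp
  have key : Tendsto (fun h : ℝ => ∫ t in Ioi (0 : ℝ), V h t) (𝓝[>] 0) (𝓝 (∫ t in Ioi (0 : ℝ), u t)) := by
    have hev : ∀ᶠ h : ℝ in 𝓝[>] 0, 0 < h ∧ h ≤ 1 := by
      have : Ioc (0 : ℝ) 1 ∈ 𝓝[>] (0 : ℝ) := Ioc_mem_nhdsGT one_pos
      filter_upwards [this] with h hh
      exact hh
    refine tendsto_integral_filter_of_dominated_convergence
      (fun t : ℝ => Real.exp (2 * Real.pi) * Real.exp (-(2 * Real.pi * t))) ?_ ?_ hint ?_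
    · exact Eventually.of_forall fun h => (hmeas h).aestronglyMeasurable
    · filter_upwards [hev] with h hh
      filter_upwards [ae_restrict_mem measurableSet_Ioi] with t ht
      exact hbd h hh.1 hh.2 t ht
    · filter_upwards [ae_restrict_mem measurableSet_Ioi] with t ht
      have ht : 0 < t := ht
      have hlim : Tendsto (fun h : ℝ => (a + ((⌈t / h⌉₊ : ℝ) - 1)) * h) (𝓝[>] 0) (𝓝 t) := by
        have e1 : Tendsto (fun h : ℝ => t - h) (𝓝[>] 0) (𝓝 t) := by
          have : Tendsto (fun h : ℝ => t - h) (𝓝 0) (𝓝 (t - 0)) := (continuous_const.sub continuous_id).tendsto 0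
          rw [sub_zero] at this
          exact this.mono_left nhdsWithin_le_nhds
        have e2 : Tendsto (fun h : ℝ => t + h) (𝓝[>] 0) (𝓝 t) := by
          have : Tendsto (fun h : ℝ => t + h) (𝓝 0) (𝓝 (t + 0)) := (continuous_const.add continuous_id).tendsto 0
          rw [add_zero] at this
          exact this.mono_left nhdsWithin_le_nhds
        refine tendsto_of_tendsto_of_tendsto_of_le_of_le' e1 e2 ?_ ?_
        · filter_upwards [hev] with h hh
          have h1 := hlow h hh.1 t ht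
          nlinarith [hh.1]
        · filter_upwards [hev] with h hh
          have h1 := hupp h hh.1 t ht
          nlinarith [hh.1]
      exact (hc t ht).tendsto.comp hlim
  refine key.congr' ?_
  have : Ioc (0 : ℝ) 1 ∈ 𝓝[>] (0 : ℝ) := Ioc_mem_nhdsGT one_pos
  filter_upwards [this] with h hh
  exact (hsum h hh.1 hh.2).symm

theorem riemann_limit (q : ℕ) (hq : 1 ≤ q) (g : ℕ → ℂ) (hg : ∀ n, g (n + q) = g n) (η : ℝ) :
    Tendsto (fun x : ℝ => (x : ℂ) ^ (1 - (η : ℂ) * I) *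
      ∑' n : ℕ, g (n + 1) * exp (-((η : ℂ) * I * (Real.log ((n : ℝ) + 1) : ℂ))) * exp (-(2 * Real.pi * ((n : ℂ) + 1) * (x : ℂ)))) (𝓝[>] 0)
      (𝓝 (Gamma (1 - (η : ℂ) * I) * (1 / ((2 * Real.pi : ℝ) : ℂ)) ^ (1 - (η : ℂ) * I) * ((1 / (q : ℂ)) * ∑ j ∈ Finset.range q, g j))) := by
  have : NeZero q := ⟨by omega⟩
  have hqR : (0 : ℝ) < q := by exact_mod_cast hq
  have hqC : (q : ℂ) ≠ 0 := by exact_mod_cast hqR.ne'
  set u : ℝ → ℂ := fun t => exp (-((η : ℂ) * I * (Real.log t : ℂ))) * exp (-(2 * Real.pi * (t : ℂ))) with hu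
  have hnorm : ∀ t : ℝ, ‖u t‖ = Real.exp (-(2 * Real.pi * t)) := by
    intro t
    rw [hu]
    simp only [norm_mul, Complex.norm_exp]
    rw [← Real.exp_add]
    congr 1
    simp
  have hcont : ∀ t : ℝ, 0 < t → ContinuousAt u t := by
    intro t ht
    refine ContinuousAt.mul ?_ ?_
    · refine ContinuousAt.cexp ?_
      refine (ContinuousAt.mul continuousAt_const ?_).neg
      exact (continuous_ofReal.continuousAt).comp (Real.continuousAt_log ht.ne')
    · refine ContinuousAt.cexp ?_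
      exact (ContinuousAt.mul continuousAt_const continuous_ofReal.continuousAt).neg
  have hint : ∫ t in Set.Ioi (0 : ℝ), u t =
      Gamma (1 - (η : ℂ) * I) * (1 / ((2 * Real.pi : ℝ) : ℂ)) ^ (1 - (η : ℂ) * I) := by
    have h1 := Complex.integral_cpow_mul_exp_neg_mul_Ioi (a := 1 - (η : ℂ) * I) (r := 2 * Real.pi)
      (by simp) (by positivity)
    rw [mul_comm, ← h1]
    refine setIntegral_congr_fun measurableSet_Ioi fun t ht => ?_
    have ht : 0 < t := ht
    simp only [hu]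
    rw [cpow_def_of_ne_zero (by exact_mod_cast ht.ne')]
    congr 1
    · rw [← ofReal_log ht.le]; congr 1; ring
    · push_cast; ring_nf
  -- pointwise form
  have hx : ∀ x : ℝ, 0 < x → ∀ n : ℕ, (x : ℂ) ^ (1 - (η : ℂ) * I) *
      (exp (-((η : ℂ) * I * (Real.log ((n : ℝ) + 1) : ℂ))) * exp (-(2 * Real.pi * ((n : ℂ) + 1) * (x : ℂ))))
        = (x : ℂ) * u (((n : ℝ) + 1) * x) := by
    intro x hx n
    have hn : (0 : ℝ) < (n : ℝ) + 1 := by positivity
    have hxc : (x : ℂ) ≠ 0 := by exact_mod_cast hx.ne'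
    rw [cpow_sub _ _ hxc, cpow_one, cpow_def_of_ne_zero hxc, ← ofReal_log hx.le]
    simp only [hu]
    rw [Real.log_mul hn.ne' hx.ne', div_mul_eq_mul_div, div_eq_iff (exp_ne_zero _)]
    have e1 : exp (-((η : ℂ) * I * ((Real.log ((n : ℝ) + 1) + Real.log x : ℝ) : ℂ))) * exp ((Real.log x : ℂ) * ((η : ℂ) * I))
        = exp (-((η : ℂ) * I * (Real.log ((n : ℝ) + 1) : ℂ))) := by
      rw [← exp_add]; congr 1; push_cast; ring
    have e2 : (-(2 * (Real.pi : ℂ) * ((n : ℂ) + 1) * (x : ℂ))) = -(2 * Real.pi * ((((n : ℝ) + 1) * x : ℝ) : ℂ)) := by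
      push_cast; ring
    rw [e2, ← e1]; ring
  have hsumm : ∀ x : ℝ, 0 < x → Summable fun n : ℕ => g (n + 1) * ((x : ℂ) * u (((n : ℝ) + 1) * x)) := by
    intro x hx
    obtain ⟨M, hM⟩ : ∃ M : ℝ, ∀ n, ‖g n‖ ≤ M := by
      refine ⟨∑ j ∈ Finset.range q, ‖g j‖, fun n => ?_⟩
      have hp : Function.Periodic g q := hg
      have h1 : g n = g (n % q) := (hp.map_mod_nat n).symm
      rw [h1]
      exact Finset.single_le_sum (f := fun j => ‖g j‖) (fun j _ => norm_nonneg _) (Finset.mem_range.2 (Nat.mod_lt _ hq))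
    refine Summable.of_norm_bounded (g := fun n : ℕ => M * x * (Real.exp (-(2 * Real.pi * x))) ^ n) ?_ ?_
    · refine Summable.mul_left _ (summable_geometric_of_lt_one (Real.exp_pos _).le ?_)
      rw [Real.exp_lt_one_iff]
      have := Real.pi_pos
      have : 0 < 2 * Real.pi * x := by positivity
      linarith
    · intro n
      rw [norm_mul, norm_mul, hnorm, Complex.norm_of_nonneg hx.le, ← Real.exp_nat_mul]
      have h1 : Real.exp (-(2 * Real.pi * (((n : ℝ) + 1) * x))) ≤ Real.exp ((n : ℝ) * -(2 * Real.pi * x)) := by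
        rw [Real.exp_le_exp]
        have : 0 < 2 * Real.pi * x := by have := Real.pi_pos; positivity
        nlinarith
      have hM0 : 0 ≤ M := (norm_nonneg _).trans (hM 0)
      calc ‖g (n + 1)‖ * (x * Real.exp (-(2 * Real.pi * (((n : ℝ) + 1) * x))))
          ≤ M * (x * Real.exp ((n : ℝ) * -(2 * Real.pi * x))) := by
            apply mul_le_mul (hM _) _ (by positivity) hM0
            exact mul_le_mul_of_nonneg_left h1 hx.le
        _ = _ := by ring
  have hlimj : ∀ j : ZMod q, Tendsto (fun x : ℝ => ∑' m : ℕ, (x : ℂ) * u (((j.val + q * m : ℕ) : ℝ) * x + x)) (𝓝[>] 0)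
      (𝓝 ((1 / (q : ℂ)) * ∫ t in Set.Ioi (0 : ℝ), u t)) := by
    intro j
    have hjq : j.val < q := ZMod.val_lt j
    have ha : 0 < ((j.val : ℝ) + 1) / q := by positivity
    have ha1 : ((j.val : ℝ) + 1) / q ≤ 1 := by
      rw [div_le_one hqR]; exact_mod_cast hjq
    have h1 := riem_aux hcont (fun t _ => (hnorm t).le) ha ha1
    have h2 : Tendsto (fun x : ℝ => (q : ℝ) * x) (𝓝[>] 0) (𝓝[>] 0) := by
      refine tendsto_nhdsWithin_iff.2 ⟨?_, ?_⟩
      · have : Tendsto (fun x : ℝ => (q : ℝ) * x) (𝓝 0) (𝓝 ((q : ℝ) * 0)) := (continuous_const.mul continuous_id).tendsto 0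
        rw [mul_zero] at this
        exact this.mono_left nhdsWithin_le_nhds
      · filter_upwards [self_mem_nhdsWithin] with x hx
        exact mul_pos hqR hx
    have h3 := (h1.comp h2).const_mul (1 / (q : ℂ))
    refine h3.congr fun x => ?_
    simp only [Function.comp]
    rw [← tsum_mul_left]
    refine tsum_congr fun m => ?_
    have e1 : (((j.val : ℝ) + 1) / q + m) * (q * x) = ((j.val + q * m : ℕ) : ℝ) * x + x := by
      push_cast; field_simp; ring
    rw [e1]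
    push_cast
    field_simp
  have hfin : Tendsto (fun x : ℝ => ∑ j : ZMod q, g (j.val + 1) * ∑' m : ℕ, (x : ℂ) * u (((j.val + q * m : ℕ) : ℝ) * x + x)) (𝓝[>] 0)
      (𝓝 (∑ j : ZMod q, g (j.val + 1) * ((1 / (q : ℂ)) * ∫ t in Set.Ioi (0 : ℝ), u t))) :=
    tendsto_finsetSum _ fun j _ => (hlimj j).const_mul _
  have hper : ∀ (k m : ℕ), g (k + q * m + 1) = g (k + 1) := by
    intro k m
    have hp : Function.Periodic g q := hg
    have h1 := hp.nat_mul m (k + 1)
    rw [show k + q * m + 1 = k + 1 + m * q by ring]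
    simpa using h1
  have hgs : ∑ j : ZMod q, g (j.val + 1) = ∑ j ∈ Finset.range q, g j := by
    obtain ⟨k, rfl⟩ : ∃ k, q = k + 1 := ⟨q - 1, by omega⟩
    have h1 : ∑ j : ZMod (k + 1), g (j.val + 1) = ∑ j ∈ Finset.range (k + 1), g (j + 1) := by
      rw [Finset.sum_range]
      rfl
    rw [h1]
    have h2 := Finset.sum_range_succ (fun j => g j) (k + 1)
    have h3 := Finset.sum_range_succ' (fun j => g j) (k + 1)
    have h4 : g (k + 1) = g 0 := by simpa using hg 0
    rw [h3] at h2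
    rw [h4] at h2
    exact add_right_cancel h2
  have hval : ∑ j : ZMod q, g (j.val + 1) * ((1 / (q : ℂ)) * ∫ t in Set.Ioi (0 : ℝ), u t) =
      Gamma (1 - (η : ℂ) * I) * (1 / ((2 * Real.pi : ℝ) : ℂ)) ^ (1 - (η : ℂ) * I) * ((1 / (q : ℂ)) * ∑ j ∈ Finset.range q, g j) := by
    rw [← Finset.sum_mul, hgs, hint]; ring
  rw [← hval]
  refine hfin.congr' ?_
  filter_upwards [self_mem_nhdsWithin] with x hxx
  have hxx : 0 < x := hxx
  have e1 : (x : ℂ) ^ (1 - (η : ℂ) * I) *
      ∑' n : ℕ, g (n + 1) * exp (-((η : ℂ) * I * (Real.log ((n : ℝ) + 1) : ℂ))) * exp (-(2 * Real.pi * ((n : ℂ) + 1) * (x : ℂ)))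
      = ∑' n : ℕ, g (n + 1) * ((x : ℂ) * u (((n : ℝ) + 1) * x)) := by
    rw [← tsum_mul_left]
    refine tsum_congr fun n => ?_
    rw [← hx x hxx n]; ring
  rw [e1, Nat.sumByResidueClasses (hsumm x hxx) q]
  refine Finset.sum_congr rfl fun j _ => ?_
  rw [← tsum_mul_left]
  refine tsum_congr fun m => ?_
  rw [hper, add_mul, one_mul]

end Pool.Agent.Helper19.BD
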