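import Pool.Agent.Helper97.BD.B3Lim
import Pool.Agent.Helper97.BD.B3Riem
import Pool.Agent.Helper97.BD.Mult

/-!
Block BD-B3 (MP_bd232a_nt, part B, degree 1): assembly.

PROOF of `deg_one`. Let `η' = D.eta`, `w = 1 - iη'`, `q₀ = 2π exp(-ℓ) > 0`, `f = ffun a 0`, `f(z + i) = f(z)` (termwise).
(1) `limit_formula` (may be sorried) at `α = 1/q₀` (n = 1, `a 1 = 1`): limit `K ≠ 0`; at `α + 1` the limit is the same (periodicity), so it is not `0`, so there is
`n ≥ 1` with `n = q₀ (1/q₀ + 1) = 1 + q₀`: `q₀ = q` is a positive integer.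
(2) for `n ≥ 1`, `α = n/q` and `α + 1 = (n+q)/q`: `n^{-iη'} conj(a_n) = (n+q)^{-iη'} conj(a_{n+q})`; so `c₀ n := a_n n^{iη'}` is `q`-periodic for `n ≥ 1` and defines
`c : ZMod q → ℂ` with `c n = a_n exp(iη' log n)` for all `n ≥ 1` (e.g. `c x := c₀ (x.val + q)`). `c 1 = 1`, multiplicativity from `IsSelbergWith.mult`.
(3) for `b ≥ 1`: `f(x + ib/q) = ∑_n c(n) e(-nb/q) n^{-iη'} exp(-2πnx)`; compare `riemann_limit` with `limit_formula` (`n = b`):
`Gamma(w) (2π)^{-w} (1/q) ∑_j c(j) e(-jb/q) = K b^{-iη'} conj(a_b) = K conj(c b)`. Every class of `ZMod q` is represented by some `b ≥ 1`, and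
`ZMod.dft c b = ∑_j stdAddChar(-(j b)) c j` (`ZMod.dft_apply`, `ZMod.stdAddChar_coe`). `C₂ = K q (2π)^w / Gamma w ≠ 0`. `η := -η'`.
(4) `lfun`: for `Re s > 1`, `F s = ∑ a_n n^{-s} = ∑ c(n) n^{-(s - iη)} = ZMod.LFunction c (s - iη)` (`ZMod.LFunction_eq_LSeries`). Both sides are differentiable at
`s ∉ {1, 1 + iη}` (`ZMod.differentiableAt_LFunction`), a connected open set; so they agree there. If `η ≠ 0`: `F` is differentiable at `1 + iη`, so
`(w - 1) LFunction c w → 0` as `w → 1`, but it tends to `(∑ c)/q` (`ZMod.LFunction_residue_one`): `∑ c = 0`; then `LFunction c` is differentiable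
everywhere and the identity holds for all `s ≠ 1` by continuity. If `η = 0` there is nothing to do.
-/

open Complex MeasureTheory Filter Topology

namespace Pool.Agent.Helper19.BD

/-- The degree 1 form: `F(s) = L(s - iη, c)`, `c` periodic modulo `q` with `dft c = C₂ conj c`. -/
structure Deg1Form (F : ℂ → ℂ) (q : ℕ) [NeZero q] (c : ZMod q → ℂ) (η : ℝ) (C₂ : ℂ) : Prop where
  C_ne : C₂ ≠ 0
  c_one : c 1 = 1
  mult : ∀ m n : ℕ, 1 ≤ m → 1 ≤ n → Nat.Coprime m n → c ((m * n : ℕ) : ZMod q) = c (m : ZMod q) * c (n : ZMod q)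
  coeff : ∃ (a : ℕ → ℂ) (D : FE), IsSelbergWith F a D ∧ D.deg = 1 ∧
    ∀ n : ℕ, 1 ≤ n → a n = exp ((η : ℂ) * I * (Real.log n : ℂ)) * c (n : ZMod q)
  dft : ∀ k : ZMod q, ZMod.dft c k = C₂ * (starRingEnd ℂ) (c k)
  lfun : ∀ s : ℂ, s ≠ 1 → F s = ZMod.LFunction c (s - (η : ℂ) * I)
  sum_zero : η ≠ 0 → ∑ j, c j = 0

theorem ffun_add_I (a : ℕ → ℂ) (k : ℕ) (z : ℂ) : ffun a k (z + I) = ffun a k z := by
  unfold ffun
  refine tsum_congr fun n => ?_
  congr 1
  have h1 : -(2 * (Real.pi : ℂ) * ((n : ℂ) + 1) * (z + I)) =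
      -(2 * Real.pi * ((n : ℂ) + 1) * z) + ((-((n : ℤ) + 1) : ℤ) : ℂ) * (2 * Real.pi * I) := by
    push_cast; ring
  rw [h1, exp_add, exp_int_mul_two_pi_mul_I, mul_one]

/-- Step (1)-(3): integrality of `q₀`, periodicity and the discrete Fourier transform. -/
theorem deg_one_aux {F : ℂ → ℂ} {a : ℕ → ℂ} {D : FE} (h : IsSelbergWith F a D) (hd : D.deg = 1) :
    ∃ (q : ℕ) (_ : NeZero q) (c : ZMod q → ℂ) (C₂ : ℂ), C₂ ≠ 0 ∧
      (∀ n : ℕ, 1 ≤ n → a n = exp (((-D.eta : ℝ) : ℂ) * I * (Real.log n : ℂ)) * c (n : ZMod q)) ∧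
      (∀ k : ZMod q, ZMod.dft c k = C₂ * (starRingEnd ℂ) (c k)) := by
  obtain ⟨K, hK, hlim, hlim0⟩ := limit_formula h hd
  set q₀ : ℝ := 2 * Real.pi * Real.exp (-D.ell) with hq₀
  have hq₀pos : 0 < q₀ := by positivity
  have ha1 : a 1 = 1 := h.a_one
  have hshift : ∀ (x α : ℝ), ffun a 0 ((x : ℂ) + ((α + 1 : ℝ) : ℂ) * I) = ffun a 0 ((x : ℂ) + (α : ℂ) * I) := by
    intro x α
    rw [← ffun_add_I a 0 ((x : ℂ) + (α : ℂ) * I)]
    congr 1
    push_cast; ring
  -- (1)
  obtain ⟨n₁, hn₁, hn₁q⟩ : ∃ n : ℕ, 1 ≤ n ∧ (n : ℝ) = q₀ * (1 / q₀ + 1) := by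
    by_contra hcon
    push Not at hcon
    have h1 := hlim (1 / q₀) 1 (by positivity) le_rfl (by rw [Nat.cast_one]; field_simp)
    have h2 := hlim0 (1 / q₀ + 1) (by positivity) hcon
    have h3 : Tendsto (fun x : ℝ => (x : ℂ) ^ (1 - (D.eta : ℂ) * I) * ffun a 0 ((x : ℂ) + ((1 / q₀ : ℝ) : ℂ) * I)) (𝓝[>] 0) (𝓝 0) := by
      refine h2.congr fun x => ?_
      rw [hshift]
    have h4 := tendsto_nhds_unique h1 h3
    rw [ha1] at h4
    simp at h4
    exact hK h4
  have hn₁' : (n₁ : ℝ) = q₀ + 1 := by rw [hn₁q]; field_simp; ring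
  obtain ⟨q, rfl⟩ : ∃ q, n₁ = q + 1 := ⟨n₁ - 1, by omega⟩
  have hqq : (q : ℝ) = q₀ := by push_cast at hn₁'; linarith
  have hq0 : q ≠ 0 := by
    rintro rfl
    rw [Nat.cast_zero] at hqq; linarith
  have hq1 : 1 ≤ q := Nat.one_le_iff_ne_zero.2 hq0
  have hqR : (0 : ℝ) < q := by rw [hqq]; exact hq₀pos
  have hqC : (q : ℂ) ≠ 0 := by exact_mod_cast hq0
  have inst : NeZero q := ⟨hq0⟩
  set c₀ : ℕ → ℂ := fun n => a n * exp ((D.eta : ℂ) * I * (Real.log n : ℂ)) with hc₀
  have hconjc : ∀ n : ℕ, (starRingEnd ℂ) (c₀ n) = exp (-((D.eta : ℂ) * I * (Real.log n : ℂ))) * (starRingEnd ℂ) (a n) := by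
    intro n
    simp only [hc₀, map_mul, ← exp_conj, conj_I, conj_ofReal]
    rw [mul_comm]; congr 2; ring
  have hlim' : ∀ n : ℕ, 1 ≤ n → Tendsto (fun x : ℝ => (x : ℂ) ^ (1 - (D.eta : ℂ) * I) * ffun a 0 ((x : ℂ) + (((n : ℝ) / q : ℝ) : ℂ) * I)) (𝓝[>] 0)
      (𝓝 (K * (starRingEnd ℂ) (c₀ n))) := by
    intro n hn
    have h1 := hlim ((n : ℝ) / q) n (by positivity) hn (by rw [← hqq]; field_simp)
    rw [hconjc, ← mul_assoc]; exact h1
  -- (2)
  have hper : ∀ n : ℕ, 1 ≤ n → c₀ (n + q) = c₀ n := by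
    intro n hn
    have h1 := hlim' n hn
    have h2 := hlim' (n + q) (by omega)
    have h3 : Tendsto (fun x : ℝ => (x : ℂ) ^ (1 - (D.eta : ℂ) * I) * ffun a 0 ((x : ℂ) + (((n : ℝ) / q : ℝ) : ℂ) * I)) (𝓝[>] 0)
      (𝓝 (K * (starRingEnd ℂ) (c₀ (n + q)))) := by
      refine h2.congr fun x => ?_
      rw [← hshift x ((n : ℝ) / q)]
      congr 4
      push_cast; field_simp
    have h4 := tendsto_nhds_unique h3 h1
    have h5 := mul_left_cancel₀ hK h4
    exact (starRingEnd ℂ).injective h5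
  set g : ℕ → ℂ := fun n => c₀ (n + q) with hg
  have hgper : Function.Periodic g q := by
    intro n
    simp only [hg]
    exact hper (n + q) (by omega)
  have hgeq : ∀ n : ℕ, 1 ≤ n → g n = c₀ n := hper
  set c : ZMod q → ℂ := fun x => g x.val with hc
  have hcn : ∀ n : ℕ, c (n : ZMod q) = g n := by
    intro n
    simp only [hc, ZMod.val_natCast]
    exact hgper.map_mod_nat n
  have hcn1 : ∀ n : ℕ, 1 ≤ n → c (n : ZMod q) = c₀ n := fun n hn => by rw [hcn, hgeq n hn]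
  set w : ℂ := 1 - (D.eta : ℂ) * I with hw
  have hGam : Gamma w ≠ 0 := Gamma_ne_zero_of_re_pos (by simp [hw])
  have h2pi : (1 / ((2 * Real.pi : ℝ) : ℂ)) ^ w ≠ 0 := by
    rw [Ne, cpow_eq_zero_iff]
    push Not
    intro h0
    exfalso
    have : ((2 * Real.pi : ℝ) : ℂ) ≠ 0 := by
      have := Real.pi_pos
      exact_mod_cast (by positivity : (2 * Real.pi : ℝ) ≠ 0)
    exact (one_div_ne_zero this) h0
  set A : ℂ := Gamma w * (1 / ((2 * Real.pi : ℝ) : ℂ)) ^ w with hA
  have hA0 : A ≠ 0 := mul_ne_zero hGam h2pi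
  refine ⟨q, inst, c, K * q / A, by simp [hK, hqC, hA0], ?_, ?_⟩
  · intro n hn
    rw [hcn1 n hn]
    simp only [hc₀]
    rw [mul_comm (a n), ← mul_assoc, ← exp_add]
    have e3 : ((-D.eta : ℝ) : ℂ) * I * (Real.log n : ℂ) + (D.eta : ℂ) * I * (Real.log n : ℂ) = 0 := by
      rw [ofReal_neg]; ring
    rw [e3, exp_zero, one_mul]
  · -- (3)
    intro k
    set b : ℕ := k.val + q with hb
    have hb1 : 1 ≤ b := by omega
    have hbk : (b : ZMod q) = k := by simp [hb]
    set e : ℕ → ℂ := fun n => exp (-(2 * Real.pi * I * (n : ℂ) * (b : ℂ) / (q : ℂ))) with he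
    have heper : ∀ n, e (n + q) = e n := by
      intro n
      simp only [he]
      have h1 : -(2 * (Real.pi : ℂ) * I * ((n + q : ℕ) : ℂ) * (b : ℂ) / (q : ℂ)) =
          -(2 * Real.pi * I * (n : ℂ) * (b : ℂ) / (q : ℂ)) + ((-(b : ℤ) : ℤ) : ℂ) * (2 * Real.pi * I) := by
        push_cast; field_simp; ring
      rw [h1, exp_add, exp_int_mul_two_pi_mul_I, mul_one]
    have h1 := riemann_limit q hq1 (fun n => g n * e n) (fun n => by rw [hgper n, heper n]) D.eta
    have h2 := hlim' b hb1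
    have h3 : Tendsto (fun x : ℝ => (x : ℂ) ^ (1 - (D.eta : ℂ) * I) * ffun a 0 ((x : ℂ) + (((b : ℝ) / q : ℝ) : ℂ) * I)) (𝓝[>] 0)
        (𝓝 (Gamma (1 - (D.eta : ℂ) * I) * (1 / ((2 * Real.pi : ℝ) : ℂ)) ^ (1 - (D.eta : ℂ) * I) * ((1 / (q : ℂ)) * ∑ j ∈ Finset.range q, g j * e j))) := by
      refine h1.congr fun x => ?_
      congr 1
      unfold ffun
      refine tsum_congr fun n => ?_
      have e1 : g (n + 1) * exp (-((D.eta : ℂ) * I * (Real.log ((n : ℝ) + 1) : ℂ))) = a (n + 1) := by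
        rw [hgeq (n + 1) (by omega)]
        simp only [hc₀]
        rw [mul_assoc, ← exp_add]
        push_cast
        rw [show (D.eta : ℂ) * I * (Real.log ((n : ℝ) + 1) : ℂ) + -((D.eta : ℂ) * I * (Real.log ((n : ℝ) + 1) : ℂ)) = 0 by ring, exp_zero, mul_one]
      rw [pow_zero, mul_one, ← e1]
      have e2 : exp (-(2 * Real.pi * ((n : ℂ) + 1) * ((x : ℂ) + (((b : ℝ) / q : ℝ) : ℂ) * I))) =
          e (n + 1) * exp (-(2 * Real.pi * ((n : ℂ) + 1) * (x : ℂ))) := by
        simp only [he]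
        rw [← exp_add]
        congr 1
        push_cast; field_simp; ring
      rw [e2]; ring
    have h4 := tendsto_nhds_unique h3 h2
    have h5 : ∑ j ∈ Finset.range q, g j * e j = K * q / A * (starRingEnd ℂ) (c₀ b) := by
      rw [← hw, ← hA] at h4
      field_simp at h4 ⊢
      linear_combination h4
    have h6 : ZMod.dft c k = ∑ j ∈ Finset.range q, g j * e j := by
      rw [ZMod.dft_apply]
      obtain ⟨k', hk'⟩ : ∃ k', q = k' + 1 := ⟨q - 1, by omega⟩
      have h7 : ∀ j : ZMod q, ZMod.stdAddChar (-(j * k)) • c j = g j.val * e j.val := by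
        intro j
        have h8 : -(j * k) = ((-((j.val : ℤ) * (b : ℤ)) : ℤ) : ZMod q) := by
          push_cast
          rw [ZMod.natCast_zmod_val, hbk]
        rw [h8, ZMod.stdAddChar_coe, smul_eq_mul, mul_comm]
        simp only [hc, he]
        congr 2
        push_cast; ring
      rw [Finset.sum_congr rfl fun j _ => h7 j]
      clear_value c e g
      subst hk'
      rw [Finset.sum_range]
      rfl
    rw [h6, h5, ← hcn1 b hb1, hbk]

theorem deg_one {F : ℂ → ℂ} {a : ℕ → ℂ} {D : FE} (h : IsSelbergWith F a D) (hd : D.deg = 1) :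
    ∃ (q : ℕ) (_ : NeZero q) (c : ZMod q → ℂ) (η : ℝ) (C₂ : ℂ), Deg1Form F q c η C₂ := by
  obtain ⟨q, inst, c, C₂, hC₂, hcoef, hdft⟩ := deg_one_aux h hd
  set η : ℝ := -D.eta with hη
  have hqC : (q : ℂ) ≠ 0 := by exact_mod_cast inst.ne
  have hcval : ∀ n : ℕ, 1 ≤ n → c (n : ZMod q) = exp (-((η : ℂ) * I * (Real.log n : ℂ))) * a n := by
    intro n hn
    rw [hcoef n hn, ← mul_assoc, ← exp_add, neg_add_cancel, exp_zero, one_mul]
  have hc1 : c 1 = 1 := by
    have := hcval 1 le_rfl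
    rw [h.a_one] at this
    simpa using this
  -- right half plane
  have hright : ∀ s : ℂ, 1 < s.re → F s = ZMod.LFunction c (s - (η : ℂ) * I) := by
    intro s hs
    rw [ZMod.LFunction_eq_LSeries c (by simpa using hs), h.eq s hs]
    unfold LSeries
    refine tsum_congr fun n => ?_
    rcases Nat.eq_zero_or_pos n with rfl | hn
    · simp [LSeries.term_zero]
    · have hn0 : n ≠ 0 := hn.ne'
      have hnC : (n : ℂ) ≠ 0 := by exact_mod_cast hn0
      rw [LSeries.term_of_ne_zero hn0, LSeries.term_of_ne_zero hn0, hcoef n hn, cpow_sub _ _ hnC]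
      have e1 : (n : ℂ) ^ ((η : ℂ) * I) = exp ((η : ℂ) * I * (Real.log n : ℂ)) := by
        rw [cpow_def_of_ne_zero hnC, ← natCast_log]; congr 1; ring
      rw [e1]
      have e2 : exp ((η : ℂ) * I * (Real.log n : ℂ)) ≠ 0 := exp_ne_zero _
      field_simp
  -- differentiability
  obtain ⟨m, G, hGd, hG, -⟩ := h.entire
  have hFd : ∀ s : ℂ, s ≠ 1 → DifferentiableAt ℂ F s := by
    intro s hs
    have h1 : DifferentiableAt ℂ (fun z => G z / (z - 1) ^ m) s := by
      refine (hGd s).div ?_ (pow_ne_zero _ (sub_ne_zero.2 hs))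
      fun_prop
    refine h1.congr_of_eventuallyEq ?_
    filter_upwards [isOpen_ne.mem_nhds hs] with z hz
    rw [hG z hz, mul_div_cancel_left₀ _ (pow_ne_zero _ (sub_ne_zero.2 hz))]
  have hLd : ∀ s : ℂ, s ≠ 1 + (η : ℂ) * I → DifferentiableAt ℂ (fun z => ZMod.LFunction c (z - (η : ℂ) * I)) s := by
    intro s hs
    have h1 : DifferentiableAt ℂ (ZMod.LFunction c) (s - (η : ℂ) * I) :=
      ZMod.differentiableAt_LFunction c _ (Or.inl fun h2 => hs (by linear_combination h2))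
    exact h1.comp s (differentiableAt_id.sub_const _)
  set U : Set ℂ := ({1, 1 + (η : ℂ) * I} : Set ℂ)ᶜ with hU
  have hUc : ({1, 1 + (η : ℂ) * I} : Set ℂ).Countable := Set.toFinite _ |>.countable
  have hUo : IsOpen U := by
    rw [hU]; exact (Set.toFinite _).isClosed.isOpen_compl
  have hUp : IsPreconnected U := by
    have := hUc.isConnected_compl_of_one_lt_rank (E := ℂ) (by rw [Complex.rank_real_complex]; exact_mod_cast one_lt_two)
    exact this.isPreconnected
  have hUF : AnalyticOnNhd ℂ F U := by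
    refine DifferentiableOn.analyticOnNhd (fun s hs => ?_) hUo
    have hs' : s ≠ 1 := fun h2 => hs (by simp [h2])
    exact (hFd s hs').differentiableWithinAt
  have hUL : AnalyticOnNhd ℂ (fun z => ZMod.LFunction c (z - (η : ℂ) * I)) U := by
    refine DifferentiableOn.analyticOnNhd (fun s hs => ?_) hUo
    have hs' : s ≠ 1 + (η : ℂ) * I := fun h2 => hs (by simp [h2])
    exact (hLd s hs').differentiableWithinAt
  have hEqU : Set.EqOn F (fun z => ZMod.LFunction c (z - (η : ℂ) * I)) U := by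
    have h2U : (2 : ℂ) ∈ U := by
      simp only [hU, Set.mem_compl_iff, Set.mem_insert_iff, Set.mem_singleton_iff, not_or]
      constructor
      · norm_num
      · intro h2
        have := congrArg Complex.re h2
        simp at this
    refine hUF.eqOn_of_preconnected_of_eventuallyEq hUL hUp h2U ?_
    have : {s : ℂ | 1 < s.re} ∈ 𝓝 (2 : ℂ) :=
      (isOpen_lt continuous_const continuous_re).mem_nhds (by simp)
    filter_upwards [this] with s hs
    exact hright s hs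
  have hsum : η ≠ 0 → ∑ j, c j = 0 := by
    intro hη0
    have hne : (1 : ℂ) + (η : ℂ) * I ≠ 1 := by
      intro h2
      have := congrArg Complex.im h2
      simp at this
      exact hη0 this
    have h1 := ZMod.LFunction_residue_one c
    have hFc : ContinuousAt F (1 + (η : ℂ) * I) := (hFd _ hne).continuousAt
    have h2 : Tendsto (fun s : ℂ => (s - 1) * F (s + (η : ℂ) * I)) (𝓝[≠] 1) (𝓝 0) := by
      have h3 : ContinuousAt (fun s : ℂ => (s - 1) * F (s + (η : ℂ) * I)) 1 := by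
        refine ContinuousAt.mul (by fun_prop) ?_
        exact ContinuousAt.comp (g := F) (f := fun s : ℂ => s + (η : ℂ) * I) hFc (by fun_prop)
      have h4 := h3.tendsto
      simp only [sub_self, zero_mul] at h4
      exact h4.mono_left nhdsWithin_le_nhds
    have h3 : Tendsto (fun s : ℂ => (s - 1) * ZMod.LFunction c s) (𝓝[≠] 1) (𝓝 0) := by
      refine h2.congr' ?_
      have hnb : ∀ᶠ s : ℂ in 𝓝[≠] 1, s + (η : ℂ) * I ≠ 1 := by
        have : {s : ℂ | s + (η : ℂ) * I ≠ 1} ∈ 𝓝 (1 : ℂ) :=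
          (isOpen_ne.preimage (by fun_prop : Continuous fun s : ℂ => s + (η : ℂ) * I)).mem_nhds hne
        exact mem_nhdsWithin_of_mem_nhds this
      filter_upwards [self_mem_nhdsWithin, hnb] with s hs1 hs2
      have hsU : s + (η : ℂ) * I ∈ U := by
        simp only [hU, Set.mem_compl_iff, Set.mem_insert_iff, Set.mem_singleton_iff, not_or]
        refine ⟨hs2, fun h5 => hs1 ?_⟩
        simpa using h5
      rw [hEqU hsU]
      simp
    have h4 := tendsto_nhds_unique h1 h3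
    rw [← Finset.sum_div] at h4
    rcases div_eq_zero_iff.1 h4 with h5 | h5
    · exact h5
    · exact absurd h5 hqC
  refine ⟨q, inst, c, η, C₂, hC₂, hc1, ?_, ⟨a, D, h, hd, hcoef⟩, hdft, ?_, hsum⟩
  · intro m n hm hn hmn
    have hmnp : 1 ≤ m * n := Nat.mul_pos hm hn
    rw [hcval _ hmnp, hcval m hm, hcval n hn, h.mult hm hn hmn, Nat.cast_mul, Real.log_mul (by positivity) (by positivity)]
    have e1 : exp (-((η : ℂ) * I * ((Real.log m + Real.log n : ℝ) : ℂ))) =
        exp (-((η : ℂ) * I * (Real.log m : ℂ))) * exp (-((η : ℂ) * I * (Real.log n : ℂ))) := by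
      rw [← exp_add]; congr 1; push_cast; ring
    rw [e1]; ring
  · intro s hs
    by_cases hs2 : s = 1 + (η : ℂ) * I
    · subst hs2
      have hη0 : η ≠ 0 := by
        rintro h0
        apply hs
        rw [h0]; simp
      have hd1 : ContinuousAt (fun z => ZMod.LFunction c (z - (η : ℂ) * I)) (1 + (η : ℂ) * I) := by
        have : Differentiable ℂ (ZMod.LFunction c) := ZMod.differentiable_LFunction_of_sum_zero (hsum hη0)
        exact (this.continuous.comp (continuous_id.sub continuous_const)).continuousAt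
      have hd2 : ContinuousAt F (1 + (η : ℂ) * I) := (hFd _ hs).continuousAt
      have h1 : Tendsto F (𝓝[≠] (1 + (η : ℂ) * I)) (𝓝 (F (1 + (η : ℂ) * I))) := hd2.tendsto.mono_left nhdsWithin_le_nhds
      have h2 : Tendsto (fun z => ZMod.LFunction c (z - (η : ℂ) * I)) (𝓝[≠] (1 + (η : ℂ) * I))
          (𝓝 (ZMod.LFunction c (1 + (η : ℂ) * I - (η : ℂ) * I))) := hd1.tendsto.mono_left nhdsWithin_le_nhds
      refine tendsto_nhds_unique h1 (h2.congr' ?_)
      have hnb : ∀ᶠ s : ℂ in 𝓝[≠] (1 + (η : ℂ) * I), s ≠ 1 :=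
        mem_nhdsWithin_of_mem_nhds (isOpen_ne.mem_nhds hs)
      filter_upwards [self_mem_nhdsWithin, hnb] with z hz1 hz2
      refine (hEqU ?_).symm
      simp only [hU, Set.mem_compl_iff, Set.mem_insert_iff, Set.mem_singleton_iff, not_or]
      exact ⟨hz2, hz1⟩
    · refine hEqU ?_
      simp only [hU, Set.mem_compl_iff, Set.mem_insert_iff, Set.mem_singleton_iff, not_or]
      exact ⟨hs, hs2⟩

end Pool.Agent.Helper19.BD
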