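import Pool.Agent.Helper97.BD.B4Defs

/-!
Block BD-B4G (MP_bd232a_nt, part B). Geometry of the map `z ↦ G = exp(zet l ρ z / ρ)`.

For `z = x + iy`, `0 < x ≤ ρ y`, `ρ ≤ 1/2`: `arg z = π/2 - ε`, `ε = arctan(x/y) ∈ [c x/y, x/y]`, `ε ≤ ρ`, `y ≤ ‖z‖ ≤ 2y`, `log(2πz) = log(2π‖z‖) + i(π/2 - ε)`,
`zet = (l - log(2π‖z‖)) + i(ε - πρ/2)`. So `‖G‖ = exp(l/ρ) (2π‖z‖)^(-1/ρ)`, `Re G = ‖G‖ cos(ε/ρ - π/2) = ‖G‖ sin(ε/ρ)`, `0 < ε/ρ ≤ 1`, `(1/2)u ≤ sin u ≤ u`: the bounds of `geo_re`.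
`geo_norm`: `Re(Aex * zet) = (1+ρ)/2 Re zet + η Im zet`, `|Im zet| ≤ πρ/2`.

-/

open Complex

namespace Pool.Agent.Helper19.BD

namespace B4G

/-- polar coordinates of `z = x + iy` in the range `0 < x ≤ ρ y`. -/
theorem polar {ρ x y : ℝ} (hρ : 0 < ρ) (hρ2 : ρ ≤ 1 / 2) (hx : 0 < x) (hxy : x ≤ ρ * y) :
    ∃ N ε : ℝ, 0 < y ∧ y ≤ N ∧ N ≤ 2 * y ∧ 0 < ε ∧ x / (2 * y) ≤ ε ∧ ε ≤ x / y ∧
      lz ((x : ℂ) + (y : ℂ) * I) = ((Real.log (2 * Real.pi * N) : ℝ) : ℂ) + ((Real.pi / 2 - ε : ℝ) : ℂ) * I := by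
  have hy : 0 < y := by
    by_contra h
    push Not at h
    have := mul_nonpos_of_nonneg_of_nonpos hρ.le h
    linarith
  set z : ℂ := (x : ℂ) + (y : ℂ) * I with hz
  have hzre : z.re = x := by simp [hz]
  have hzim : z.im = y := by simp [hz]
  have hz0 : z ≠ 0 := by
    intro h
    rw [h] at hzre
    simp at hzre
    linarith
  have hn : 0 < ‖z‖ := norm_pos_iff.mpr hz0
  have hlow : y ≤ ‖z‖ := by
    have := Complex.abs_im_le_norm z
    rw [hzim] at this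
    exact (le_abs_self y).trans this
  have hup : ‖z‖ ≤ 2 * y := by
    have h1 := Complex.norm_le_abs_re_add_abs_im z
    rw [hzre, hzim, abs_of_pos hx, abs_of_pos hy] at h1
    nlinarith
  have harg : |arg z| < Real.pi / 2 := by
    rw [Complex.abs_arg_lt_pi_div_two_iff]
    left
    rw [hzre]; exact hx
  have harg0 : 0 < arg z := by
    rcases (Complex.arg_nonneg_iff.mpr (by rw [hzim]; exact hy.le) : 0 ≤ arg z).lt_or_eq with h | h
    · exact h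
    · exfalso
      have h2 := Complex.sin_arg z
      rw [← h, Real.sin_zero, hzim] at h2
      have : 0 < y / ‖z‖ := by positivity
      linarith
  have h1 := (abs_lt.mp harg).2
  set ε : ℝ := Real.pi / 2 - arg z with hε
  have hε0 : 0 < ε := by rw [hε]; linarith
  have hε1 : ε < Real.pi / 2 := by rw [hε]; linarith
  have hsin : Real.sin ε = x / ‖z‖ := by
    rw [hε, Real.sin_pi_div_two_sub, Complex.cos_arg hz0, hzre]
  have hcos : Real.cos ε = y / ‖z‖ := by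
    rw [hε, Real.cos_pi_div_two_sub, Complex.sin_arg, hzim]
  refine ⟨‖z‖, ε, hy, hlow, hup, hε0, ?_, ?_, ?_⟩
  · calc x / (2 * y) ≤ x / ‖z‖ := by gcongr
      _ = Real.sin ε := hsin.symm
      _ ≤ ε := Real.sin_le hε0.le
  · calc ε ≤ Real.tan ε := Real.le_tan hε0.le hε1
      _ = x / y := by
        rw [Real.tan_eq_sin_div_cos, hsin, hcos]
        field_simp
  · unfold lz
    rw [Complex.log_ofReal_mul (by positivity) hz0]
    unfold Complex.log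
    rw [Real.log_mul (by positivity) hn.ne', hε]
    push_cast
    ring

theorem zet_eq {ρ x y l N ε : ℝ}
    (h : lz ((x : ℂ) + (y : ℂ) * I) = ((Real.log (2 * Real.pi * N) : ℝ) : ℂ) + ((Real.pi / 2 - ε : ℝ) : ℂ) * I) :
    zet l ρ ((x : ℂ) + (y : ℂ) * I) =
      ((l - Real.log (2 * Real.pi * N) : ℝ) : ℂ) + ((ε - Real.pi * ρ / 2 : ℝ) : ℂ) * I := by
  unfold zet
  rw [h]
  push_cast
  ring

theorem N_bound {y N p : ℝ} (hy : 0 < y) (h1 : y ≤ N) (h2 : N ≤ 2 * y) (hp : 0 ≤ p) :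
    (4 * Real.pi) ^ (-p) * y ^ (-p) ≤ (2 * Real.pi * N) ^ (-p) ∧
    (2 * Real.pi * N) ^ (-p) ≤ (2 * Real.pi) ^ (-p) * y ^ (-p) := by
  have hpi := Real.pi_pos
  have hN : 0 < N := by linarith
  constructor
  · rw [← Real.mul_rpow (by positivity) hy.le]
    apply Real.rpow_le_rpow_of_nonpos (by positivity) _ (by linarith)
    nlinarith
  · rw [← Real.mul_rpow (by positivity) hy.le]
    apply Real.rpow_le_rpow_of_nonpos (by positivity) _ (by linarith)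
    gcongr

end B4G

theorem geo_re (ρ l : ℝ) (hρ : 0 < ρ) (hρ2 : ρ ≤ 1 / 2) : ∃ c C : ℝ, 0 < c ∧ 0 < C ∧ ∀ x y : ℝ, 0 < x → x ≤ ρ * y →
    c * (x * y ^ (-(1 + 1 / ρ))) ≤ (exp (zet l ρ ((x : ℂ) + (y : ℂ) * I) / (ρ : ℂ))).re ∧
    (exp (zet l ρ ((x : ℂ) + (y : ℂ) * I) / (ρ : ℂ))).re ≤ C * (x * y ^ (-(1 + 1 / ρ))) := by
  have hpi := Real.pi_pos
  refine ⟨Real.exp (l / ρ) * (4 * Real.pi) ^ (-(1 / ρ)) / (4 * ρ), Real.exp (l / ρ) * (2 * Real.pi) ^ (-(1 / ρ)) / ρ,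
    by positivity, by positivity, fun x y hx hxy => ?_⟩
  obtain ⟨N, ε, hy, hN1, hN2, hε, hε1, hε2, hlz⟩ := B4G.polar hρ hρ2 hx hxy
  have hN : 0 < N := by linarith
  have hzet := B4G.zet_eq (ρ := ρ) (l := l) hlz
  have hre : (exp (zet l ρ ((x : ℂ) + (y : ℂ) * I) / (ρ : ℂ))).re =
      Real.exp (l / ρ) * (2 * Real.pi * N) ^ (-(1 / ρ)) * Real.sin (ε / ρ) := by
    rw [hzet, Complex.exp_re]
    have e1 : ((((l - Real.log (2 * Real.pi * N) : ℝ) : ℂ) + ((ε - Real.pi * ρ / 2 : ℝ) : ℂ) * I) / (ρ : ℂ)).re =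
        l / ρ + Real.log (2 * Real.pi * N) * (-(1 / ρ)) := by
      rw [Complex.div_ofReal_re]
      simp only [add_re, mul_re, ofReal_re, ofReal_im, I_re, I_im]
      field_simp
      ring
    have e2 : ((((l - Real.log (2 * Real.pi * N) : ℝ) : ℂ) + ((ε - Real.pi * ρ / 2 : ℝ) : ℂ) * I) / (ρ : ℂ)).im =
        ε / ρ - Real.pi / 2 := by
      rw [Complex.div_ofReal_im]
      simp only [add_im, mul_im, ofReal_re, ofReal_im, I_re, I_im]
      field_simp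
      ring
    rw [e1, e2, Real.exp_add, Real.cos_sub_pi_div_two, Real.rpow_def_of_pos (by positivity)]
  have hu0 : 0 < ε / ρ := by positivity
  have hu1 : ε / ρ ≤ 1 := by
    rw [div_le_one hρ]
    refine hε2.trans ?_
    rw [div_le_iff₀ hy]
    exact hxy
  have hs1 : x / (4 * ρ * y) ≤ Real.sin (ε / ρ) := by
    have h1 := Real.mul_le_sin hu0.le (by linarith [Real.pi_gt_three])
    have h2 : 1 / 2 * (ε / ρ) ≤ 2 / Real.pi * (ε / ρ) := by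
      have h3 : (1 : ℝ) / 2 ≤ 2 / Real.pi := by
        rw [div_le_div_iff₀ (by norm_num) hpi]
        linarith [Real.pi_le_four]
      gcongr
    have h4 : x / (4 * ρ * y) = 1 / 2 * (x / (2 * y) / ρ) := by
      field_simp
      ring
    rw [h4]
    calc 1 / 2 * (x / (2 * y) / ρ) ≤ 1 / 2 * (ε / ρ) := by gcongr
      _ ≤ _ := h2.trans h1
  have hs2 : Real.sin (ε / ρ) ≤ x / (ρ * y) := by
    calc Real.sin (ε / ρ) ≤ ε / ρ := Real.sin_le hu0.le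
      _ ≤ x / y / ρ := by gcongr
      _ = x / (ρ * y) := by field_simp
  have hs0 : 0 < x / (4 * ρ * y) := by positivity
  obtain ⟨hb1, hb2⟩ := B4G.N_bound hy hN1 hN2 (p := 1 / ρ) (by positivity)
  have hyp : y ^ (-(1 + 1 / ρ)) = y ^ (-(1 / ρ)) / y := by
    rw [show -(1 + 1 / ρ) = -(1 / ρ) - 1 by ring, Real.rpow_sub_one hy.ne']
  rw [hre, hyp]
  have hyq : 0 < y ^ (-(1 / ρ)) := by positivity
  constructor
  · calc Real.exp (l / ρ) * (4 * Real.pi) ^ (-(1 / ρ)) / (4 * ρ) * (x * (y ^ (-(1 / ρ)) / y))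
        = Real.exp (l / ρ) * ((4 * Real.pi) ^ (-(1 / ρ)) * y ^ (-(1 / ρ))) * (x / (4 * ρ * y)) := by
          field_simp
      _ ≤ Real.exp (l / ρ) * (2 * Real.pi * N) ^ (-(1 / ρ)) * Real.sin (ε / ρ) := by
          gcongr
  · calc Real.exp (l / ρ) * (2 * Real.pi * N) ^ (-(1 / ρ)) * Real.sin (ε / ρ)
        ≤ Real.exp (l / ρ) * ((2 * Real.pi) ^ (-(1 / ρ)) * y ^ (-(1 / ρ))) * (x / (ρ * y)) := by
          have : 0 ≤ Real.sin (ε / ρ) := hs0.le.trans hs1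
          gcongr
      _ = _ := by field_simp

theorem geo_norm (ρ η l : ℝ) (hρ : 0 < ρ) (hρ2 : ρ ≤ 1 / 2) : ∃ c C : ℝ, 0 < c ∧ 0 < C ∧ ∀ x y : ℝ, 0 < x → x ≤ ρ * y →
    c * y ^ (-((1 + ρ) / (2 * ρ))) ≤ ‖exp (Aex ρ η * zet l ρ ((x : ℂ) + (y : ℂ) * I) / (ρ : ℂ))‖ ∧
    ‖exp (Aex ρ η * zet l ρ ((x : ℂ) + (y : ℂ) * I) / (ρ : ℂ))‖ ≤ C * y ^ (-((1 + ρ) / (2 * ρ))) := by
  have hpi := Real.pi_pos
  set p : ℝ := (1 + ρ) / (2 * ρ) with hp
  have hp0 : 0 < p := by positivity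
  refine ⟨Real.exp (p * l) * (4 * Real.pi) ^ (-p) * Real.exp (-(|η| * (Real.pi / 2))),
    Real.exp (p * l) * (2 * Real.pi) ^ (-p) * Real.exp (|η| * (Real.pi / 2)),
    by positivity, by positivity, fun x y hx hxy => ?_⟩
  obtain ⟨N, ε, hy, hN1, hN2, hε, hε1, hε2, hlz⟩ := B4G.polar hρ hρ2 hx hxy
  have hN : 0 < N := by linarith
  have hzet := B4G.zet_eq (ρ := ρ) (l := l) hlz
  have hu1 : ε ≤ ρ := by
    refine hε2.trans ?_
    rw [div_le_iff₀ hy]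
    exact hxy
  have hre : ‖exp (Aex ρ η * zet l ρ ((x : ℂ) + (y : ℂ) * I) / (ρ : ℂ))‖ =
      Real.exp (p * l) * (2 * Real.pi * N) ^ (-p) * Real.exp (η * ((ε - Real.pi * ρ / 2) / ρ)) := by
    rw [hzet, Complex.norm_exp, Complex.div_ofReal_re]
    rw [Real.rpow_def_of_pos (by positivity), ← Real.exp_add, ← Real.exp_add]
    congr 1
    unfold Aex
    simp only [add_re, sub_re, sub_im, add_im, mul_re, mul_im, ofReal_re, ofReal_im, I_re, I_im]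
    rw [hp]
    field_simp
    ring
  have hv : |(ε - Real.pi * ρ / 2) / ρ| ≤ Real.pi / 2 := by
    rw [abs_div, abs_of_pos hρ, div_le_iff₀ hρ, abs_le]
    constructor
    · nlinarith
    · nlinarith [Real.pi_gt_three]
  have hw : |η * ((ε - Real.pi * ρ / 2) / ρ)| ≤ |η| * (Real.pi / 2) := by
    rw [abs_mul]
    gcongr
  obtain ⟨hw1, hw2⟩ := abs_le.mp hw
  obtain ⟨hb1, hb2⟩ := B4G.N_bound hy hN1 hN2 (p := p) hp0.le
  rw [hre]
  constructor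
  · calc Real.exp (p * l) * (4 * Real.pi) ^ (-p) * Real.exp (-(|η| * (Real.pi / 2))) * y ^ (-p)
        = Real.exp (p * l) * ((4 * Real.pi) ^ (-p) * y ^ (-p)) * Real.exp (-(|η| * (Real.pi / 2))) := by ring
      _ ≤ _ := by gcongr
  · calc Real.exp (p * l) * (2 * Real.pi * N) ^ (-p) * Real.exp (η * ((ε - Real.pi * ρ / 2) / ρ))
        ≤ Real.exp (p * l) * ((2 * Real.pi) ^ (-p) * y ^ (-p)) * Real.exp (|η| * (Real.pi / 2)) := by gcongr
      _ = _ := by ring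

theorem geo_im (ρ l : ℝ) (hρ : 0 < ρ) (hρ2 : ρ ≤ 1 / 2) {x y : ℝ} (hx : 0 < x) (hxy : x ≤ ρ * y) :
    |(zet l ρ ((x : ℂ) + (y : ℂ) * I)).im| < Real.pi * ρ / 2 := by
  obtain ⟨N, ε, hy, hN1, hN2, hε, hε1, hε2, hlz⟩ := B4G.polar hρ hρ2 hx hxy
  have hzet := B4G.zet_eq (ρ := ρ) (l := l) hlz
  have hu1 : ε ≤ ρ := by
    refine hε2.trans ?_
    rw [div_le_iff₀ hy]
    exact hxy
  have him : (zet l ρ ((x : ℂ) + (y : ℂ) * I)).im = ε - Real.pi * ρ / 2 := by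
    rw [hzet]
    simp only [add_im, mul_im, ofReal_re, ofReal_im, I_re, I_im]
    ring
  rw [him, abs_lt]
  constructor
  · linarith
  · nlinarith [Real.pi_gt_three]

end Pool.Agent.Helper19.BD
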