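import Pool.Agent.Helper97.BD.B4An1
import Pool.Agent.Helper97.BD.B4Geo
import Pool.Agent.Helper97.BD.Mult

/-!
Block BD-B4B (MP_bd232a_nt, part B). The hypotheses `B4H` for an element of degree `1 + ρ`, `0 < ρ ≤ 1/2`. Everything on the line `s = -1/4 + it`.

`b4_app`: `mellin_rep` (k = 0, c = 1/4, M = 3) + `F_left_line`: `f(z) = O(‖z‖^(-(1+δ))) + (1/2π) ∑_n conj(a_n) n^(-1) ∫ Gamma(s) X(s) exp(s(log n - lz z)) dt` (interchange: `∑ ‖a_n‖ n^(-5/4) < ∞` and
`∫ ‖Gamma X‖ exp(t arg z) dt < ∞` by `GX_bound`). Replace `Gamma X` by `C₂ Kfun`: by `mellin_exp_rho` (c = 1/4, `A = Aex`, `ζ = zet + log n`, `|Im zet| < πρ/2`: `geo_im`-type estimate `0 < ε = arctan(x/y) ≤ ρ`,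
`Im zet = ε - πρ/2`) the main term is `(C₂/ρ) Mfun`. Error: `∫ ‖Gamma X - C₂ Kfun‖ exp(t arg z) dt ≤ C (1 + ∫_T^∞ t^(3ρ/4-1) exp(-εt) dt) ≤ C' (1 + ε^(-3ρ/4)) ≤ C'' (y/x)^(3ρ/4)`
(for `t ≤ -1`: `exp((π/2-πρ)|t|) exp(-|t|(π/2-ε)) = exp(-(πρ-ε)|t|)`, `ε ≤ ρ`), times `‖exp(-s lz z)‖`-factor `(2π‖z‖)^(1/4) ≤ C`. `C₃ = C₂/ρ`. `a1` from `IsSelbergWith.a_one`.
(helper64)
-/

open Complex MeasureTheory

namespace Pool.Agent.Helper19.BD

namespace B4B

/-- the line `s = -1/4 + it` -/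
noncomputable def sl (t : ℝ) : ℂ := ((-(1 / 4) : ℝ) : ℂ) + (t : ℂ) * I

theorem sl_re (t : ℝ) : (sl t).re = -(1 / 4) := by unfold sl; simp

theorem sl_im (t : ℝ) : (sl t).im = t := by unfold sl; simp

theorem sl_cont : Continuous sl := by unfold sl; fun_prop

theorem gam_cont : Continuous (fun t : ℝ => Gamma (sl t)) := by
  rw [continuous_iff_continuousAt]
  intro t
  refine ContinuousAt.comp (g := Gamma) ?_ sl_cont.continuousAt
  refine (differentiableAt_Gamma _ fun m => ?_).continuousAt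
  intro h
  have h1 := congrArg Complex.re h
  rw [sl_re] at h1
  have h2 : (m : ℝ) = 1 / 4 := by
    simp at h1
    linarith
  have h3 : ((4 * m : ℕ) : ℝ) = ((1 : ℕ) : ℝ) := by push_cast; linarith
  have h4 : 4 * m = 1 := by exact_mod_cast h3
  omega

theorem X_cont (D : FE) : Continuous (fun t : ℝ => D.X (sl t)) := by
  rw [continuous_iff_continuousAt]
  intro t
  refine ContinuousAt.comp (g := D.X) ?_ sl_cont.continuousAt
  exact (D.X_differentiableAt (by rw [sl_re]; norm_num)).continuousAt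

theorem Aex_re (ρ η : ℝ) : (Aex ρ η).re = (1 + ρ) / 2 := by
  unfold Aex
  simp

theorem K_cont (ρ η l : ℝ) (hρ : 0 < ρ) : Continuous (fun t : ℝ => Kfun ρ η l (sl t)) := by
  unfold Kfun
  refine Continuous.mul ?_ ?_
  · have := sl_cont
    fun_prop
  · rw [continuous_iff_continuousAt]
    intro t
    refine ContinuousAt.comp (g := Gamma) (f := fun t : ℝ => Aex ρ η - (ρ : ℂ) * sl t) ?_ ?_
    · refine (differentiableAt_Gamma _ fun m => ?_).continuousAt
      intro h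
      have h1 := congrArg Complex.re h
      rw [sub_re, Aex_re, re_ofReal_mul, sl_re] at h1
      simp only [neg_re, natCast_re] at h1
      have : (0 : ℝ) ≤ m := m.cast_nonneg
      nlinarith
    · have := sl_cont
      fun_prop

/-- elementary: `ε = π/2 - arg z` -/
theorem arg_bounds {x y ρ : ℝ} (hx : 0 < x) (hρ : 0 < ρ) (hρ2 : ρ ≤ 1 / 2) (hxy : x ≤ ρ * y) :
    ∃ ε : ℝ, arg ((x : ℂ) + (y : ℂ) * I) = Real.pi / 2 - ε ∧ x / (2 * y) ≤ ε ∧ ε ≤ Real.pi * ρ / 2 ∧
      0 < ε ∧ ε < Real.pi / 2 := by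
  have hy : 0 < y := by
    by_contra h
    push Not at h
    have : ρ * y ≤ 0 := mul_nonpos_of_nonneg_of_nonpos hρ.le h
    linarith
  set z : ℂ := (x : ℂ) + (y : ℂ) * I with hz
  have hzre : z.re = x := by simp [hz]
  have hzim : z.im = y := by simp [hz]
  have hz0 : z ≠ 0 := by
    intro h
    rw [h] at hzre
    simp at hzre
    linarith
  have hzn : 0 < ‖z‖ := norm_pos_iff.2 hz0
  have h1 : |arg z| < Real.pi / 2 := by
    rw [abs_arg_lt_pi_div_two_iff]
    left; rw [hzre]; exact hx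
  have h2 : 0 ≤ arg z := by rw [arg_nonneg_iff, hzim]; exact hy.le
  have h3 : arg z ≠ 0 := by
    intro h
    rw [arg_eq_zero_iff] at h
    rw [hzim] at h
    linarith [h.2]
  have h4 : 0 < arg z := lt_of_le_of_ne h2 (Ne.symm h3)
  refine ⟨Real.pi / 2 - arg z, by ring, ?_, ?_, ?_, ?_⟩
  · have hs : Real.sin (Real.pi / 2 - arg z) = x / ‖z‖ := by
      rw [Real.sin_pi_div_two_sub, cos_arg hz0, hzre]
    have h5 : Real.sin (Real.pi / 2 - arg z) ≤ Real.pi / 2 - arg z := by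
      apply Real.sin_le
      have := (abs_lt.1 h1).2
      linarith
    have h6 : ‖z‖ ≤ 2 * y := by
      refine (norm_add_le _ _).trans ?_
      rw [norm_mul, norm_I, mul_one, norm_real, norm_real, Real.norm_of_nonneg hx.le, Real.norm_of_nonneg hy.le]
      nlinarith
    rw [hs] at h5
    refine le_trans ?_ h5
    exact div_le_div_of_nonneg_left hx.le hzn h6
  · have hs : Real.sin (Real.pi / 2 - arg z) = x / ‖z‖ := by
      rw [Real.sin_pi_div_two_sub, cos_arg hz0, hzre]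
    have h5 : 2 / Real.pi * (Real.pi / 2 - arg z) ≤ Real.sin (Real.pi / 2 - arg z) := by
      apply Real.mul_le_sin
      · have := (abs_lt.1 h1).2
        linarith
      · linarith
    rw [hs] at h5
    have h6 : x / ‖z‖ ≤ ρ := by
      rw [div_le_iff₀ hzn]
      have : y ≤ ‖z‖ := by
        have := Complex.abs_im_le_norm z
        rw [hzim] at this
        exact (le_abs_self _).trans this
      nlinarith
    have h7 : 2 / Real.pi * (Real.pi / 2 - arg z) ≤ ρ := h5.trans h6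
    have hpi := Real.pi_pos
    have h8 : Real.pi / 2 * (2 / Real.pi * (Real.pi / 2 - arg z)) ≤ Real.pi / 2 * ρ := by gcongr
    have h9 : Real.pi / 2 * (2 / Real.pi * (Real.pi / 2 - arg z)) = Real.pi / 2 - arg z := by
      field_simp
    rw [h9] at h8
    linarith
  · have := (abs_lt.1 h1).2
    linarith
  · linarith

/-- The error integral. -/
theorem err_int (D : FE) {ρ : ℝ} (hρ : 0 < ρ) (hρ2 : ρ ≤ 1 / 2) (hd : D.deg = 1 + ρ) :
    ∃ C₂ : ℂ, C₂ ≠ 0 ∧ ∃ C : ℝ, 0 < C ∧ ∀ ε : ℝ, 0 < ε → ε ≤ Real.pi * ρ / 2 → ε < Real.pi / 2 →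
      Integrable (fun t : ℝ => ‖Gamma (sl t) * D.X (sl t) - C₂ * Kfun ρ D.eta (D.ell + ρ * Real.log ρ) (sl t)‖ *
        Real.exp (t * (Real.pi / 2 - ε))) ∧
      ∫ t : ℝ, ‖Gamma (sl t) * D.X (sl t) - C₂ * Kfun ρ D.eta (D.ell + ρ * Real.log ρ) (sl t)‖ *
        Real.exp (t * (Real.pi / 2 - ε)) ≤ C * (1 + (1 / ε) ^ (3 * ρ / 4)) := by
  obtain ⟨C₂, C, T, hC₂, hC, hT, hpos⟩ := GX_vs_K D hρ hd
  obtain ⟨C', hC', hneg⟩ := K_neg ρ D.eta (D.ell + ρ * Real.log ρ) hρ
  obtain ⟨C'', hC'', hgx⟩ := D.GX_bound 0 (-(1 / 4)) (by norm_num)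
  refine ⟨C₂, hC₂, ?_⟩
  set l : ℝ := D.ell + ρ * Real.log ρ with hl
  set E : ℝ → ℝ := fun t => ‖Gamma (sl t) * D.X (sl t) - C₂ * Kfun ρ D.eta l (sl t)‖ with hE
  have hEc : Continuous E := ((gam_cont.mul (X_cont D)).sub (continuous_const.mul (K_cont ρ D.eta l hρ))).norm
  obtain ⟨B₀, hB₀⟩ := (isCompact_Icc (a := -T) (b := T)).bddAbove_image hEc.continuousOn
  have hB₀' : ∀ t : ℝ, |t| ≤ T → E t ≤ B₀ := fun t ht => hB₀ (Set.mem_image_of_mem _ (abs_le.1 ht))
  have hB₀0 : 0 ≤ B₀ := (norm_nonneg _).trans (hB₀' 0 (by simp; linarith))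
  have hpi := Real.pi_pos
  have hpi3 := Real.pi_gt_three
  -- decay rate
  set κ : ℝ := Real.pi * ρ / 4 with hκ
  have hκ0 : 0 < κ := by positivity
  set a : ℝ := 3 * ρ / 4 with ha
  have ha0 : 0 < a := by positivity
  have ha1 : a ≤ 1 := by rw [ha]; linarith
  set B : ℝ := B₀ * Real.exp (Real.pi / 2 * T) * Real.exp (κ * T) + (C'' + ‖C₂‖ * C') / κ with hB
  have hBpos : 0 ≤ B := by positivity
  refine ⟨B * (2 / κ) + C * Real.Gamma a + 1, ?_, ?_⟩
  · have := Real.Gamma_pos_of_pos ha0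
    positivity
  intro ε hε hε1 hε2
  -- dominating function
  set g : ℝ → ℝ := fun t => B * Real.exp (-(κ * |t|)) +
    (Set.Ioi (0 : ℝ)).indicator (fun t => C * (t ^ (a - 1) * Real.exp (-(ε * t)))) t with hg
  have hI1 : Integrable (fun t : ℝ => B * Real.exp (-(κ * |t|))) := (int_exp_abs κ hκ0).const_mul B
  have hI2' : IntegrableOn (fun t : ℝ => C * (t ^ (a - 1) * Real.exp (-(ε * t)))) (Set.Ioi 0) := by
    have h1 := integrableOn_rpow_mul_exp_neg_mul_rpow (p := 1) (s := a - 1) (b := ε) (by linarith) one_pos hε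
    refine (h1.congr_fun (fun t _ => ?_) measurableSet_Ioi).const_mul C
    simp only [Real.rpow_one, neg_mul]
  have hI2 : Integrable ((Set.Ioi (0 : ℝ)).indicator (fun t => C * (t ^ (a - 1) * Real.exp (-(ε * t))))) :=
    (integrable_indicator_iff measurableSet_Ioi).2 hI2'
  have hgI : Integrable g := hI1.add hI2
  have hind0 : ∀ t : ℝ, 0 ≤ (Set.Ioi (0 : ℝ)).indicator (fun t => C * (t ^ (a - 1) * Real.exp (-(ε * t)))) t := by
    intro t
    refine Set.indicator_nonneg (fun s hs => ?_) t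
    have : (0 : ℝ) < s := hs
    positivity
  have hpow : ∀ t : ℝ, 1 ≤ |t| → |t| ^ a ≤ 1 / κ * Real.exp (κ * |t|) := by
    intro t ht
    have h1 : |t| ^ a ≤ |t| ^ (1 : ℝ) := Real.rpow_le_rpow_of_exponent_le ht ha1
    rw [Real.rpow_one] at h1
    have h2 : κ * |t| ≤ Real.exp (κ * |t|) := by
      have := Real.add_one_le_exp (κ * |t|)
      linarith
    rw [div_mul_eq_mul_div, one_mul, le_div_iff₀ hκ0]
    calc |t| ^ a * κ ≤ |t| * κ := by gcongr
      _ = κ * |t| := mul_comm _ _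
      _ ≤ _ := h2
  have hdom : ∀ t : ℝ, E t * Real.exp (t * (Real.pi / 2 - ε)) ≤ g t := by
    intro t
    have hgt := hind0 t
    rcases le_or_gt |t| T with h | h
    · have h1 : E t * Real.exp (t * (Real.pi / 2 - ε)) ≤ B₀ * Real.exp (Real.pi / 2 * T) := by
        have h2 : t * (Real.pi / 2 - ε) ≤ Real.pi / 2 * T := by
          calc t * (Real.pi / 2 - ε) ≤ |t| * (Real.pi / 2 - ε) :=
                mul_le_mul_of_nonneg_right (le_abs_self t) (by linarith)
            _ ≤ T * (Real.pi / 2) := by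
                apply mul_le_mul h (by linarith) (by linarith) (by linarith)
            _ = _ := mul_comm _ _
        exact mul_le_mul (hB₀' t h) (Real.exp_le_exp.2 h2) (Real.exp_pos _).le hB₀0
      have h3 : B₀ * Real.exp (Real.pi / 2 * T) ≤ B * Real.exp (-(κ * |t|)) := by
        have h4 : B₀ * Real.exp (Real.pi / 2 * T) * Real.exp (κ * T) ≤ B := by
          rw [hB]
          have : 0 ≤ (C'' + ‖C₂‖ * C') / κ := by positivity
          linarith
        have h5 : 1 ≤ Real.exp (κ * T) * Real.exp (-(κ * |t|)) := by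
          rw [← Real.exp_add, Real.one_le_exp_iff]
          nlinarith
        calc B₀ * Real.exp (Real.pi / 2 * T) = B₀ * Real.exp (Real.pi / 2 * T) * 1 := (mul_one _).symm
          _ ≤ B₀ * Real.exp (Real.pi / 2 * T) * (Real.exp (κ * T) * Real.exp (-(κ * |t|))) := by gcongr
          _ = B₀ * Real.exp (Real.pi / 2 * T) * Real.exp (κ * T) * Real.exp (-(κ * |t|)) := by ring
          _ ≤ _ := by gcongr
      rw [hg]
      simp only
      linarith
    · have ht1 : 1 < |t| := lt_of_le_of_lt hT h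
      rcases le_or_gt 0 t with h0 | h0
      · -- positive side
        rw [abs_of_nonneg h0] at h ht1
        have ht0 : 0 < t := by linarith
        have h1 := hpos t h.le
        have h2 : E t * Real.exp (t * (Real.pi / 2 - ε)) ≤ C * (t ^ (a - 1) * Real.exp (-(ε * t))) := by
          calc E t * Real.exp (t * (Real.pi / 2 - ε))
              ≤ (C * t ^ (3 * ρ / 4 - 1) * Real.exp (-(Real.pi * t / 2))) * Real.exp (t * (Real.pi / 2 - ε)) := by
                gcongr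
                exact h1
            _ = C * (t ^ (a - 1) * (Real.exp (-(Real.pi * t / 2)) * Real.exp (t * (Real.pi / 2 - ε)))) := by
                rw [ha]; ring
            _ = _ := by
                rw [← Real.exp_add]
                congr 3
                ring_nf
        rw [hg]
        simp only
        rw [Set.indicator_of_mem (show t ∈ Set.Ioi (0 : ℝ) from ht0)]
        have : 0 ≤ B * Real.exp (-(κ * |t|)) := by positivity
        linarith
      · -- negative side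
        have habs : |t| = -t := abs_of_neg h0
        have h1 : ‖Gamma (sl t) * D.X (sl t)‖ ≤ C'' * |t| ^ a * Real.exp (-(Real.pi * |t| / 2)) := by
          have h2 := hgx t ht1.le
          have h3 : D.deg * (1 / 2 - -(1 / 4)) + ((0 : ℕ) : ℝ) + -(1 / 4) - 1 / 2 = a := by
            rw [hd, ha]; push_cast; ring
          rw [h3] at h2
          simpa [sl] using h2
        have h2 := hneg t (by linarith)
        have h3 : E t ≤ (C'' + ‖C₂‖ * C') * |t| ^ a * Real.exp ((Real.pi / 2 - Real.pi * ρ) * |t|) := by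
          have h4 : Real.exp (-(Real.pi * |t| / 2)) ≤ Real.exp ((Real.pi / 2 - Real.pi * ρ) * |t|) := by
            apply Real.exp_le_exp.2
            have : 0 ≤ (Real.pi - Real.pi * ρ) * |t| := by
              apply mul_nonneg _ (abs_nonneg _)
              nlinarith
            nlinarith
          calc E t ≤ ‖Gamma (sl t) * D.X (sl t)‖ + ‖C₂ * Kfun ρ D.eta l (sl t)‖ := norm_sub_le _ _
            _ ≤ C'' * |t| ^ a * Real.exp (-(Real.pi * |t| / 2)) +
                ‖C₂‖ * (C' * |t| ^ a * Real.exp ((Real.pi / 2 - Real.pi * ρ) * |t|)) := by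
                rw [norm_mul C₂]
                gcongr
                exact h2
            _ ≤ C'' * |t| ^ a * Real.exp ((Real.pi / 2 - Real.pi * ρ) * |t|) +
                ‖C₂‖ * (C' * |t| ^ a * Real.exp ((Real.pi / 2 - Real.pi * ρ) * |t|)) := by
                gcongr
            _ = _ := by ring
        have h5 : Real.exp ((Real.pi / 2 - Real.pi * ρ) * |t|) * Real.exp (t * (Real.pi / 2 - ε)) ≤
            Real.exp (-(2 * κ * |t|)) := by
          rw [← Real.exp_add]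
          apply Real.exp_le_exp.2
          rw [habs]
          have h6 : (Real.pi / 2 - Real.pi * ρ) * -t + t * (Real.pi / 2 - ε) = -((Real.pi * ρ - ε) * (-t)) := by ring
          rw [h6]
          have h7 : 2 * κ * -t ≤ (Real.pi * ρ - ε) * (-t) := by
            apply mul_le_mul_of_nonneg_right _ (by linarith)
            rw [hκ]; linarith
          linarith
        have h6 : E t * Real.exp (t * (Real.pi / 2 - ε)) ≤ B * Real.exp (-(κ * |t|)) := by
          calc E t * Real.exp (t * (Real.pi / 2 - ε))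
              ≤ ((C'' + ‖C₂‖ * C') * |t| ^ a * Real.exp ((Real.pi / 2 - Real.pi * ρ) * |t|)) *
                Real.exp (t * (Real.pi / 2 - ε)) := by gcongr
            _ = (C'' + ‖C₂‖ * C') * |t| ^ a * (Real.exp ((Real.pi / 2 - Real.pi * ρ) * |t|) *
                Real.exp (t * (Real.pi / 2 - ε))) := by ring
            _ ≤ (C'' + ‖C₂‖ * C') * (1 / κ * Real.exp (κ * |t|)) * Real.exp (-(2 * κ * |t|)) := by
                gcongr
                exact hpow t ht1.le
            _ = (C'' + ‖C₂‖ * C') / κ * (Real.exp (κ * |t|) * Real.exp (-(2 * κ * |t|))) := by ring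
            _ = (C'' + ‖C₂‖ * C') / κ * Real.exp (-(κ * |t|)) := by
                rw [← Real.exp_add]
                congr 2
                ring
            _ ≤ B * Real.exp (-(κ * |t|)) := by
                gcongr
                rw [hB]
                have : 0 ≤ B₀ * Real.exp (Real.pi / 2 * T) * Real.exp (κ * T) := by positivity
                linarith
        rw [hg]
        simp only
        linarith
  have hEI : Integrable (fun t : ℝ => E t * Real.exp (t * (Real.pi / 2 - ε))) := by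
    refine hgI.mono' (by fun_prop) (ae_of_all _ fun t => ?_)
    rw [Real.norm_of_nonneg (mul_nonneg (norm_nonneg _) (Real.exp_pos _).le)]
    exact hdom t
  refine ⟨hEI, ?_⟩
  have h1 : ∫ t : ℝ, E t * Real.exp (t * (Real.pi / 2 - ε)) ≤ ∫ t, g t := by
    refine integral_mono_of_nonneg (Filter.Eventually.of_forall fun t => ?_) hgI (Filter.Eventually.of_forall hdom)
    have : 0 ≤ E t := norm_nonneg _
    positivity
  have h2 : ∫ t, g t = B * (2 / κ) + C * ((1 / ε) ^ a * Real.Gamma a) := by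
    rw [hg]
    rw [integral_add hI1 hI2, integral_indicator measurableSet_Ioi, integral_const_mul, integral_const_mul,
      Real.integral_rpow_mul_exp_neg_mul_Ioi ha0 hε]
    congr 2
    have h3 := integral_comp_abs (f := fun t : ℝ => Real.exp (-(κ * t)))
    rw [h3]
    have h4 := integral_exp_neg_mul_rpow (p := 1) (b := κ) one_pos hκ0
    have h5 : ∫ x : ℝ in Set.Ioi 0, Real.exp (-(κ * x)) = 1 / κ := by
      have h6 := Real.integral_rpow_mul_exp_neg_mul_Ioi (a := 1) (r := κ) one_pos hκ0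
      simpa using h6
    rw [h5]
    ring
  have hG := Real.Gamma_pos_of_pos ha0
  have h3 : 0 ≤ (1 / ε) ^ a := by positivity
  refine h1.trans ?_
  rw [h2]
  have h4 : 0 ≤ B * (2 / κ) := by positivity
  have h5 : 0 ≤ C * Real.Gamma a := by positivity
  nlinarith [mul_nonneg h4 h3, mul_nonneg h5 h3]

end B4B

open B4B in
theorem b4_app {F : ℂ → ℂ} {a : ℕ → ℂ} {D : FE} (h : IsSelbergWith F a D) {ρ : ℝ} (hρ : 0 < ρ) (hρ2 : ρ ≤ 1 / 2) (hd : D.deg = 1 + ρ) :
    ∃ C₃ : ℂ, B4H a ρ D.eta (D.ell + ρ * Real.log ρ) C₃ := by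
  obtain ⟨C₂, hC₂, C, hC, herr⟩ := err_int D hρ hρ2 hd
  set l : ℝ := D.ell + ρ * Real.log ρ with hl
  have hρc : (ρ : ℂ) ≠ 0 := by exact_mod_cast hρ.ne'
  refine ⟨C₂ / ρ, h.a_one, h.ramanujan, hρ, hρ2, div_ne_zero hC₂ hρc, ?_⟩
  intro δ hδ
  obtain ⟨C', hC', hmr⟩ := mellin_rep h 0 (1 / 4) δ 3 (by norm_num) (by
    intro n hn
    have h1 : ((4 * n : ℤ) : ℝ) = ((1 : ℤ) : ℝ) := by push_cast; linarith
    have h2 : 4 * n = 1 := by exact_mod_cast h1
    omega) hδ
  -- the Dirichlet series on the line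
  set S : ℝ → ℂ := fun t => ∑' n : ℕ, (starRingEnd ℂ) (a (n + 1)) *
    exp (-(((1 + 1 / 4 : ℝ) : ℂ) - (t : ℂ) * I) * (Real.log ((n : ℝ) + 1) : ℂ)) with hS
  set u : ℕ → ℝ := fun n => ‖a (n + 1)‖ * Real.exp (-((1 + 1 / 4) * Real.log ((n : ℝ) + 1))) with hu
  have husum : Summable u := summable_coeff h (1 + 1 / 4) (by norm_num)
  have hSn : ∀ (n : ℕ) (t : ℝ), ‖(starRingEnd ℂ) (a (n + 1)) *
      exp (-(((1 + 1 / 4 : ℝ) : ℂ) - (t : ℂ) * I) * (Real.log ((n : ℝ) + 1) : ℂ))‖ = u n := by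
    intro n t
    rw [norm_mul, RCLike.norm_conj, norm_exp, hu]
    congr 2
    simp
    ring
  have hScont : Continuous S := by
    refine continuous_tsum (fun n => by fun_prop) husum (fun n t => (hSn n t).le)
  set A : ℝ := ∑' n, u n with hA
  have hSb : ∀ t, ‖S t‖ ≤ A := by
    intro t
    refine tsum_of_norm_bounded husum.hasSum (fun n => (hSn n t).le)
  have hA0 : 0 ≤ A := (norm_nonneg _).trans (hSb 0)
  refine ⟨C' + (2 * Real.pi * 3) ^ (1 / 4 : ℝ) * A * (3 * C), by positivity, ?_⟩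
  intro x y hx hxy hy2
  have hy : 0 < y := by
    by_contra h0
    push Not at h0
    have : ρ * y ≤ 0 := mul_nonpos_of_nonneg_of_nonpos hρ.le h0
    linarith
  set z : ℂ := (x : ℂ) + (y : ℂ) * I with hz
  have hzre : z.re = x := by simp [hz]
  have hzim : z.im = y := by simp [hz]
  have hzpos : 0 < z.re := by rw [hzre]; exact hx
  have hzy : y ≤ ‖z‖ := by
    have := Complex.abs_im_le_norm z
    rw [hzim] at this
    exact (le_abs_self _).trans this
  have hzn : 0 < ‖z‖ := lt_of_lt_of_le hy hzy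
  have hz3 : ‖z‖ ≤ 3 := by
    refine (norm_add_le _ _).trans ?_
    rw [norm_mul, norm_I, mul_one, norm_real, norm_real, Real.norm_of_nonneg hx.le, Real.norm_of_nonneg hy.le]
    nlinarith
  obtain ⟨hint, hbd⟩ := hmr z hzpos hz3
  obtain ⟨ε, hεarg, hε1, hε2, hε0, hε3⟩ := arg_bounds hx hρ hρ2 hxy
  rw [← hz] at hεarg
  -- shorter names for the functions
  set W : ℝ → ℂ := fun t => exp (-(sl t * lz z)) with hW
  have hWn : ∀ t, ‖W t‖ = (2 * Real.pi * ‖z‖) ^ (1 / 4 : ℝ) * Real.exp (t * (Real.pi / 2 - ε)) := by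
    intro t
    have h1 := exp_lz_norm 0 (sl t) z hzpos
    rw [sl_re, sl_im, hεarg] at h1
    rw [hW]
    simp only
    have h2 : (((0 : ℕ) : ℂ) + sl t) = sl t := by simp
    rw [h2] at h1
    rw [h1]
    congr 2
    norm_num
  have hWcont : Continuous W := by
    have := sl_cont
    rw [hW]
    fun_prop
  have hFline : ∀ t : ℝ, F (sl t) = D.X (sl t) * S t := by
    intro t
    have h1 := F_left_line h (1 / 4) (by norm_num) t
    unfold sl
    exact h1
  set GX : ℝ → ℂ := fun t => Gamma (sl t) * D.X (sl t) with hGX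
  set K : ℝ → ℂ := fun t => Kfun ρ D.eta l (sl t) with hK
  have hform : ∀ t : ℝ, Gamma (((0 : ℕ) : ℂ) + (((-(1 / 4) : ℝ) : ℂ) + (t : ℂ) * I)) * F (((-(1 / 4) : ℝ) : ℂ) + (t : ℂ) * I) *
        exp (-((((0 : ℕ) : ℂ) + (((-(1 / 4) : ℝ) : ℂ) + (t : ℂ) * I)) * lz z)) = GX t * S t * W t := by
    intro t
    have h1 : F (((-(1 / 4) : ℝ) : ℂ) + (t : ℂ) * I) = D.X (sl t) * S t := hFline t
    rw [h1, Nat.cast_zero, zero_add]
    rw [hGX, hW]
    simp only
    unfold sl
    ring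
  simp only [hform] at hint hbd
  -- zeta
  have him : ∀ n : ℕ, |(zet l ρ z + ((Real.log ((n : ℝ) + 1) : ℝ) : ℂ)).im| < Real.pi * ρ / 2 := by
    intro n
    rw [add_im, ofReal_im, add_zero, hz]
    exact geo_im ρ l hρ hρ2 hx hxy
  have hAre : 0 < (Aex ρ D.eta).re + ρ * (1 / 4) := by
    rw [Aex_re]; positivity
  have hmel := fun n => mellin_exp_rho (Aex ρ D.eta) ρ (1 / 4) hρ hAre _ (him n)
  have hsl' : ∀ t : ℝ, (-(((1 / 4 : ℝ)) : ℂ) + (t : ℂ) * I) = sl t := by
    intro t; unfold sl; push_cast; ring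
  simp only [hsl'] at hmel
  -- K W times a power
  have hKW : ∀ (n : ℕ) (t : ℝ), K t * W t * exp (sl t * ((Real.log ((n : ℝ) + 1) : ℝ) : ℂ)) =
      Gamma (Aex ρ D.eta - ρ * sl t) * exp ((zet l ρ z + ((Real.log ((n : ℝ) + 1) : ℝ) : ℂ)) * sl t) := by
    intro n t
    rw [hK, hW]
    simp only
    unfold Kfun zet
    have : exp (((l : ℂ) + ((Real.pi / 2 * (1 - ρ) : ℝ) : ℂ) * I - lz z + ((Real.log ((n : ℝ) + 1) : ℝ) : ℂ)) * sl t) =
        exp (((l : ℂ) + ((Real.pi / 2 * (1 - ρ) : ℝ) : ℂ) * I) * sl t) * exp (-(sl t * lz z)) *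
          exp (sl t * ((Real.log ((n : ℝ) + 1) : ℝ) : ℂ)) := by
      rw [← exp_add, ← exp_add]
      congr 1
      ring
    rw [this]
    ring
  have hKWint : Integrable (fun t : ℝ => K t * W t) := by
    refine (hmel 0).1.congr (ae_of_all _ fun t => ?_)
    have h1 := hKW 0 t
    simp only at h1 ⊢
    rw [← h1]
    simp
  -- the terms
  set Tn : ℕ → ℝ → ℂ := fun n t => K t * W t * ((starRingEnd ℂ) (a (n + 1)) *
    exp (-(((1 + 1 / 4 : ℝ) : ℂ) - (t : ℂ) * I) * (Real.log ((n : ℝ) + 1) : ℂ))) with hTn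
  have hTint : ∀ n, Integrable (Tn n) := by
    intro n
    refine hKWint.mul_bdd (c := u n) ?_ (ae_of_all _ fun t => (hSn n t).le)
    exact (by fun_prop : Continuous fun t : ℝ => (starRingEnd ℂ) (a (n + 1)) *
      exp (-(((1 + 1 / 4 : ℝ) : ℂ) - (t : ℂ) * I) * (Real.log ((n : ℝ) + 1) : ℂ))).aestronglyMeasurable
  have hTsum : Summable fun n => ∫ t, ‖Tn n t‖ := by
    have h1 : ∀ n, ∫ t, ‖Tn n t‖ = (∫ t, ‖K t * W t‖) * u n := by
      intro n
      rw [← integral_mul_const]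
      refine integral_congr_ae (ae_of_all _ fun t => ?_)
      simp only [hTn]
      rw [norm_mul, hSn]
    simp only [h1]
    exact husum.mul_left _
  have hsum := hasSum_integral_of_summable_integral_norm hTint hTsum
  have hT : ∀ t, ∑' n, Tn n t = K t * S t * W t := by
    intro t
    simp only [hTn]
    rw [tsum_mul_left]
    rw [hS]
    ring
  have hTval : ∀ n, (1 / (2 * Real.pi) : ℂ) * ∫ t, Tn n t = 1 / (ρ : ℂ) * (exp (Aex ρ D.eta * zet l ρ z / (ρ : ℂ)) *
      (cn a ρ D.eta (n + 1) * exp (-((((n : ℝ) + 1) ^ (1 / ρ) : ℝ) : ℂ) * exp (zet l ρ z / (ρ : ℂ))))) := by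
    intro n
    have hpos : (0 : ℝ) < (n : ℝ) + 1 := by positivity
    have h1 : ∫ t, Tn n t = ((starRingEnd ℂ) (a (n + 1)) * exp (-((Real.log ((n : ℝ) + 1) : ℝ) : ℂ))) *
        ∫ t, Gamma (Aex ρ D.eta - ρ * sl t) * exp ((zet l ρ z + ((Real.log ((n : ℝ) + 1) : ℝ) : ℂ)) * sl t) := by
      rw [← integral_const_mul]
      refine integral_congr_ae (ae_of_all _ fun t => ?_)
      simp only
      rw [← hKW n t, hTn]
      simp only
      have : exp (-(((1 + 1 / 4 : ℝ) : ℂ) - (t : ℂ) * I) * (Real.log ((n : ℝ) + 1) : ℂ)) =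
          exp (-((Real.log ((n : ℝ) + 1) : ℝ) : ℂ)) * exp (sl t * ((Real.log ((n : ℝ) + 1) : ℝ) : ℂ)) := by
        rw [← exp_add]
        congr 1
        unfold sl
        push_cast
        ring
      rw [this]
      ring
    rw [h1]
    have h2 := (hmel n).2
    have h3 : exp (-exp ((zet l ρ z + ((Real.log ((n : ℝ) + 1) : ℝ) : ℂ)) / (ρ : ℂ))) =
        exp (-((((n : ℝ) + 1) ^ (1 / ρ) : ℝ) : ℂ) * exp (zet l ρ z / (ρ : ℂ))) := by
      congr 1
      rw [add_div, exp_add]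
      have : exp (((Real.log ((n : ℝ) + 1) : ℝ) : ℂ) / (ρ : ℂ)) = ((((n : ℝ) + 1) ^ (1 / ρ) : ℝ) : ℂ) := by
        rw [Real.rpow_def_of_pos hpos]
        push_cast
        congr 1
        ring
      rw [this]
      ring
    have h4 : exp (Aex ρ D.eta * (zet l ρ z + ((Real.log ((n : ℝ) + 1) : ℝ) : ℂ)) / (ρ : ℂ)) *
        exp (-((Real.log ((n : ℝ) + 1) : ℝ) : ℂ)) =
        exp (Aex ρ D.eta * zet l ρ z / (ρ : ℂ)) * exp ((Aex ρ D.eta / (ρ : ℂ) - 1) * (Real.log (((n + 1 : ℕ) : ℝ)) : ℂ)) := by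
      rw [← exp_add, ← exp_add]
      congr 1
      push_cast
      ring
    rw [h3] at h2
    calc (1 / (2 * Real.pi) : ℂ) * (((starRingEnd ℂ) (a (n + 1)) * exp (-((Real.log ((n : ℝ) + 1) : ℝ) : ℂ))) *
          ∫ t, Gamma (Aex ρ D.eta - ρ * sl t) * exp ((zet l ρ z + ((Real.log ((n : ℝ) + 1) : ℝ) : ℂ)) * sl t))
        = ((starRingEnd ℂ) (a (n + 1)) * exp (-((Real.log ((n : ℝ) + 1) : ℝ) : ℂ))) *
          ((1 / (2 * Real.pi) : ℂ) * ∫ t, Gamma (Aex ρ D.eta - ρ * sl t) *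
            exp ((zet l ρ z + ((Real.log ((n : ℝ) + 1) : ℝ) : ℂ)) * sl t)) := by ring
      _ = ((starRingEnd ℂ) (a (n + 1))) * (1 / (ρ : ℂ)) *
          (exp (Aex ρ D.eta * (zet l ρ z + ((Real.log ((n : ℝ) + 1) : ℝ) : ℂ)) / (ρ : ℂ)) *
            exp (-((Real.log ((n : ℝ) + 1) : ℝ) : ℂ))) *
          exp (-((((n : ℝ) + 1) ^ (1 / ρ) : ℝ) : ℂ) * exp (zet l ρ z / (ρ : ℂ))) := by
            rw [h2]; ring
      _ = _ := by
            rw [h4]
            unfold cn
            ring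
  have hmain : (1 / (2 * Real.pi) : ℂ) * ∫ t, K t * S t * W t = 1 / (ρ : ℂ) * Mfun a ρ D.eta l z := by
    rw [← integral_congr_ae (ae_of_all _ hT), ← hsum.tsum_eq, ← tsum_mul_left]
    simp only [hTval]
    rw [tsum_mul_left, tsum_mul_left]
    rfl
  have hKSW : Integrable (fun t : ℝ => K t * S t * W t) := by
    have h1 : Integrable (fun t : ℝ => (K t * W t) * S t) :=
      hKWint.mul_bdd (c := A) hScont.aestronglyMeasurable (ae_of_all _ hSb)
    refine h1.congr (ae_of_all _ fun t => ?_)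
    simp only
    ring
  have hdiff : (1 / (2 * Real.pi) : ℂ) * (∫ t, GX t * S t * W t) - C₂ / ρ * Mfun a ρ D.eta l z =
      (1 / (2 * Real.pi) : ℂ) * ∫ t, (GX t - C₂ * K t) * (S t * W t) := by
    have h1 : C₂ / ρ * Mfun a ρ D.eta l z = C₂ * ((1 / (2 * Real.pi) : ℂ) * ∫ t, K t * S t * W t) := by
      rw [hmain]; ring
    have h2 : ∫ t, (GX t - C₂ * K t) * (S t * W t) = (∫ t, GX t * S t * W t) - C₂ * ∫ t, K t * S t * W t := by
      rw [← integral_const_mul, ← integral_sub hint (hKSW.const_mul C₂)]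
      refine integral_congr_ae (ae_of_all _ fun t => ?_)
      simp only
      ring
    rw [h1, h2]
    ring
  have hzpow : (2 * Real.pi * ‖z‖) ^ (1 / 4 : ℝ) ≤ (2 * Real.pi * 3) ^ (1 / 4 : ℝ) := by
    apply Real.rpow_le_rpow (by positivity) _ (by norm_num)
    have := Real.pi_pos
    gcongr
  have hJ0 : 0 ≤ ∫ t : ℝ, ‖GX t - C₂ * K t‖ * Real.exp (t * (Real.pi / 2 - ε)) := by
    apply integral_nonneg
    intro t
    positivity
  obtain ⟨hI, hJ⟩ := herr ε hε0 hε2 hε3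
  have hnorm : ‖(1 / (2 * Real.pi) : ℂ) * ∫ t, (GX t - C₂ * K t) * (S t * W t)‖ ≤
      (2 * Real.pi * 3) ^ (1 / 4 : ℝ) * A *
        ∫ t : ℝ, ‖GX t - C₂ * K t‖ * Real.exp (t * (Real.pi / 2 - ε)) := by
    have h1 : ‖(1 / (2 * Real.pi) : ℂ)‖ ≤ 1 := by
      have h2 : (1 / (2 * Real.pi) : ℂ) = ((1 / (2 * Real.pi) : ℝ) : ℂ) := by push_cast; ring
      rw [h2, norm_real, Real.norm_of_nonneg (by positivity), div_le_one (by positivity)]
      have := Real.pi_gt_three
      linarith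
    have h2 : ‖∫ t, (GX t - C₂ * K t) * (S t * W t)‖ ≤
        (2 * Real.pi * 3) ^ (1 / 4 : ℝ) * A *
        ∫ t : ℝ, ‖GX t - C₂ * K t‖ * Real.exp (t * (Real.pi / 2 - ε)) := by
      rw [← integral_const_mul]
      refine norm_integral_le_of_norm_le (hI.const_mul _) (ae_of_all _ fun t => ?_)
      rw [norm_mul, norm_mul, hWn]
      calc ‖GX t - C₂ * K t‖ * (‖S t‖ * ((2 * Real.pi * ‖z‖) ^ (1 / 4 : ℝ) * Real.exp (t * (Real.pi / 2 - ε))))
          ≤ ‖GX t - C₂ * K t‖ * (A * ((2 * Real.pi * 3) ^ (1 / 4 : ℝ) * Real.exp (t * (Real.pi / 2 - ε)))) := by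
            gcongr
            exact hSb t
        _ = _ := by ring
    calc ‖(1 / (2 * Real.pi) : ℂ) * ∫ t, (GX t - C₂ * K t) * (S t * W t)‖
        = ‖(1 / (2 * Real.pi) : ℂ)‖ * ‖∫ t, (GX t - C₂ * K t) * (S t * W t)‖ := norm_mul _ _
      _ ≤ 1 * ((2 * Real.pi * 3) ^ (1 / 4 : ℝ) * A *
        ∫ t : ℝ, ‖GX t - C₂ * K t‖ * Real.exp (t * (Real.pi / 2 - ε))) :=
          mul_le_mul h1 h2 (norm_nonneg _) zero_le_one
      _ = _ := one_mul _
  have hxy1 : 1 ≤ y / x := by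
    rw [one_le_div hx]
    nlinarith
  have hae : 0 < 3 * ρ / 4 := by positivity
  have hr1 : 1 ≤ (y / x) ^ (3 * ρ / 4) := Real.one_le_rpow hxy1 hae.le
  have hr2 : (1 / ε) ^ (3 * ρ / 4) ≤ 2 * (y / x) ^ (3 * ρ / 4) := by
    have h1 : 1 / ε ≤ 2 * (y / x) := by
      rw [div_le_iff₀ hε0]
      have h2 : 2 * (y / x) * (x / (2 * y)) = 1 := by field_simp
      calc (1 : ℝ) = 2 * (y / x) * (x / (2 * y)) := h2.symm
        _ ≤ 2 * (y / x) * ε := by gcongr
    calc (1 / ε) ^ (3 * ρ / 4) ≤ (2 * (y / x)) ^ (3 * ρ / 4) := Real.rpow_le_rpow (by positivity) h1 hae.le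
      _ = 2 ^ (3 * ρ / 4) * (y / x) ^ (3 * ρ / 4) := Real.mul_rpow (by norm_num) (by positivity)
      _ ≤ 2 * (y / x) ^ (3 * ρ / 4) := by
          gcongr
          calc (2 : ℝ) ^ (3 * ρ / 4) ≤ 2 ^ (1 : ℝ) := Real.rpow_le_rpow_of_exponent_le (by norm_num) (by linarith)
            _ = 2 := Real.rpow_one 2
  have hJ2 : ∫ t : ℝ, ‖GX t - C₂ * K t‖ * Real.exp (t * (Real.pi / 2 - ε)) ≤ 3 * C * (y / x) ^ (3 * ρ / 4) := by
    refine hJ.trans ?_
    nlinarith
  have hy1 : ‖z‖ ^ (-(((0 : ℕ) : ℝ) + 1 + δ)) ≤ y ^ (-(1 + δ)) := by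
    rw [Nat.cast_zero, zero_add]
    exact Real.rpow_le_rpow_of_nonpos hy hzy (by linarith)
  calc ‖ffun a 0 z - C₂ / ρ * Mfun a ρ D.eta l z‖
      = ‖(ffun a 0 z - (1 / (2 * Real.pi) : ℂ) * (∫ t, GX t * S t * W t)) +
          ((1 / (2 * Real.pi) : ℂ) * (∫ t, GX t * S t * W t) - C₂ / ρ * Mfun a ρ D.eta l z)‖ := by
        congr 1; ring
    _ ≤ ‖ffun a 0 z - (1 / (2 * Real.pi) : ℂ) * (∫ t, GX t * S t * W t)‖ +
          ‖(1 / (2 * Real.pi) : ℂ) * (∫ t, GX t * S t * W t) - C₂ / ρ * Mfun a ρ D.eta l z‖ := norm_add_le _ _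
    _ ≤ C' * y ^ (-(1 + δ)) + (2 * Real.pi * 3) ^ (1 / 4 : ℝ) * A * (3 * C * (y / x) ^ (3 * ρ / 4)) := by
        refine add_le_add (hbd.trans ?_) ?_
        · gcongr
        · rw [hdiff]
          refine hnorm.trans ?_
          gcongr
    _ ≤ (C' + (2 * Real.pi * 3) ^ (1 / 4 : ℝ) * A * (3 * C)) * (y ^ (-(1 + δ)) + (y / x) ^ (3 * ρ / 4)) := by
        have h1 : 0 ≤ y ^ (-(1 + δ)) := by positivity
        have h2 : 0 ≤ (y / x) ^ (3 * ρ / 4) := by positivity
        have h3 : 0 ≤ (2 * Real.pi * 3) ^ (1 / 4 : ℝ) * A * (3 * C) := by positivity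
        nlinarith [mul_nonneg h3 h1, mul_nonneg hC'.le h2]

end Pool.Agent.Helper19.BD
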