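import Mathlib

/-!
Block BD-B4E (MP_bd232a_nt, part B; pure analysis, independent of everything else). The final contradiction.

PROOF. `θ = 1 - ρ²/(1+ρ) - 1/24`, `κ = θ + 1/48`, `s = (κ - 1)/ρ + 1 = 1/(1+ρ) - 1/(48ρ) < 1/(1+ρ)` (use `1 - ρ/(1+ρ) = 1/(1+ρ)`).
(1) `∑ ‖a_n‖² n^(-s) < ∞`: let `T(r)` be the sum in `hT`. `∑_{j ≥ j₀} 2^(-jκ) T(2^(-j)) ≤ C ∑ 2^(-j(κ-θ)) < ∞` (`2^(-j₀) < r₀`). For `n` with `n^(1/ρ) > 2^(j₀)` choose `j > j₀`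
with `2^(j-1) < n^(1/ρ) ≤ 2^j`: `2^(-jκ) exp(-2 n^(1/ρ) 2^(-j)) ≥ e^(-2) (2 n^(1/ρ))^(-κ)`. So for every finite set of such `n`:
`∑ ‖a_n‖² n^(1/ρ-1-κ/ρ) ≤ C'`, and `1/ρ - 1 - κ/ρ = -s`. (All summands are `≥ 0`; `T(r)` is a convergent sum by `ram`, so partial sums are `≤ T(r)`.)
(2) `∑ ‖a_n‖² exp(-4πnx) ≤ sup_n (n^(s⁺) exp(-4πnx)) ∑ ‖a_n‖² n^(-s⁺) ≤ C x^(-s⁺)`, `s⁺ = max s 0 < 1/(1+ρ)` (`u^(s⁺) e^(-4πu) ≤ C`).
(3) With `hS`: `c x^(-1/(1+ρ)) ≤ C x^(-s⁺)` for all small `x`: contradiction as `x → 0+`.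
-/

open Complex

namespace Pool.Agent.Helper19.BD

private theorem T_summable {a : ℕ → ℂ} {ρ : ℝ} (hρ : 0 < ρ) (hρ2 : ρ ≤ 1 / 2)
    (ram : ∀ ε : ℝ, 0 < ε → ∃ C : ℝ, ∀ n : ℕ, 1 ≤ n → ‖a n‖ ≤ C * (n : ℝ) ^ ε) {r : ℝ} (hr : 0 < r) :
    Summable fun n : ℕ => ‖a (n + 1)‖ ^ 2 * ((n : ℝ) + 1) ^ (1 / ρ - 1) * Real.exp (-(2 * ((n : ℝ) + 1) ^ (1 / ρ) * r)) := by
  obtain ⟨C, hC⟩ := ram 1 one_pos
  obtain ⟨k, hk⟩ := exists_nat_ge (2 + (1 / ρ - 1))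
  have h1ρ : 2 ≤ 1 / ρ := by rw [le_div_iff₀ hρ]; linarith
  have hs := (Real.summable_pow_mul_exp_neg_nat_mul k (r := 2 * r) (by positivity)).mul_left (C ^ 2)
  have hs' := (summable_nat_add_iff 1).2 hs
  refine Summable.of_nonneg_of_le (fun n => by positivity) (fun n => ?_) hs'
  have hN : (1 : ℝ) ≤ (n : ℝ) + 1 := by have : (0 : ℝ) ≤ n := by positivity
                                        linarith
  have hN0 : (0 : ℝ) < (n : ℝ) + 1 := by linarith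
  have h1 : ‖a (n + 1)‖ ≤ C * ((n : ℝ) + 1) := by
    have := hC (n + 1) (by omega)
    rw [Real.rpow_one] at this
    push_cast at this; exact this
  have h2 : ‖a (n + 1)‖ ^ 2 ≤ C ^ 2 * ((n : ℝ) + 1) ^ (2 : ℝ) := by
    have := pow_le_pow_left₀ (norm_nonneg _) h1 2
    rw [mul_pow] at this
    rw [Real.rpow_two]; exact this
  have h3 : Real.exp (-(2 * ((n : ℝ) + 1) ^ (1 / ρ) * r)) ≤ Real.exp (-(2 * r) * ((n + 1 : ℕ) : ℝ)) := by
    rw [Real.exp_le_exp]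
    have : (n : ℝ) + 1 ≤ ((n : ℝ) + 1) ^ (1 / ρ) := by
      conv_lhs => rw [← Real.rpow_one ((n : ℝ) + 1)]
      exact Real.rpow_le_rpow_of_exponent_le hN (by linarith)
    push_cast
    nlinarith
  have h4 : ((n : ℝ) + 1) ^ (2 : ℝ) * ((n : ℝ) + 1) ^ (1 / ρ - 1) ≤ (((n + 1 : ℕ) : ℝ)) ^ k := by
    rw [← Real.rpow_add hN0]
    have : ((n + 1 : ℕ) : ℝ) = (n : ℝ) + 1 := by push_cast; ring
    rw [this, ← Real.rpow_natCast]
    exact Real.rpow_le_rpow_of_exponent_le hN hk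
  calc ‖a (n + 1)‖ ^ 2 * ((n : ℝ) + 1) ^ (1 / ρ - 1) * Real.exp (-(2 * ((n : ℝ) + 1) ^ (1 / ρ) * r))
      ≤ (C ^ 2 * ((n : ℝ) + 1) ^ (2 : ℝ)) * ((n : ℝ) + 1) ^ (1 / ρ - 1) * Real.exp (-(2 * r) * ((n + 1 : ℕ) : ℝ)) := by
        gcongr
    _ = C ^ 2 * ((((n : ℝ) + 1) ^ (2 : ℝ) * ((n : ℝ) + 1) ^ (1 / ρ - 1)) * Real.exp (-(2 * r) * ((n + 1 : ℕ) : ℝ))) := by ring
    _ ≤ C ^ 2 * ((((n + 1 : ℕ) : ℝ)) ^ k * Real.exp (-(2 * r) * ((n + 1 : ℕ) : ℝ))) := by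
        gcongr

theorem b4_end {a : ℕ → ℂ} {ρ c x₀ C r₀ : ℝ} (hρ : 0 < ρ) (hρ2 : ρ ≤ 1 / 2)
    (ram : ∀ ε : ℝ, 0 < ε → ∃ C : ℝ, ∀ n : ℕ, 1 ≤ n → ‖a n‖ ≤ C * (n : ℝ) ^ ε) (hc : 0 < c) (hx₀ : 0 < x₀) (hr₀ : 0 < r₀)
    (hS : ∀ x : ℝ, 0 < x → x < x₀ →
      c * x ^ (-(1 / (1 + ρ))) ≤ ∑' n : ℕ, ‖a (n + 1)‖ ^ 2 * Real.exp (-(4 * Real.pi * ((n : ℝ) + 1) * x)))
    (hT : ∀ r : ℝ, 0 < r → r < r₀ →
      ∑' n : ℕ, ‖a (n + 1)‖ ^ 2 * ((n : ℝ) + 1) ^ (1 / ρ - 1) * Real.exp (-(2 * ((n : ℝ) + 1) ^ (1 / ρ) * r))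
        ≤ C * r ^ (-(1 - ρ ^ 2 / (1 + ρ) - 1 / 24))) : False := by
  set θ : ℝ := 1 - ρ ^ 2 / (1 + ρ) - 1 / 24 with hθ
  set κ : ℝ := θ + 1 / 48 with hκ
  set s : ℝ := (κ - 1) / ρ + 1 with hs
  have h1ρ : 0 < 1 + ρ := by linarith
  have hκpos : 0 < κ := by
    have h1 : ρ ^ 2 / (1 + ρ) ≤ 1 / 4 := by
      rw [div_le_iff₀ h1ρ]; nlinarith
    rw [hκ, hθ]; linarith
  have hslt : s < 1 / (1 + ρ) := by
    have h1 : s = 1 / (1 + ρ) - 1 / (48 * ρ) := by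
      rw [hs, hκ, hθ]; field_simp; ring
    have h2 : 0 < 1 / (48 * ρ) := by positivity
    rw [h1]; linarith
  set sp : ℝ := max s 0 with hsp
  have hsp0 : 0 ≤ sp := le_max_right _ _
  have hssp : s ≤ sp := le_max_left _ _
  have hsplt : sp < 1 / (1 + ρ) := max_lt hslt (by positivity)
  have hsp1 : sp ≤ 1 := by
    have : 1 / (1 + ρ) ≤ 1 := by rw [div_le_one h1ρ]; linarith
    linarith
  -- C is nonnegative
  have hC0 : 0 ≤ C := by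
    have h1 := hT (r₀ / 2) (by positivity) (by linarith)
    have h2 : 0 ≤ ∑' n : ℕ, ‖a (n + 1)‖ ^ 2 * ((n : ℝ) + 1) ^ (1 / ρ - 1) * Real.exp (-(2 * ((n : ℝ) + 1) ^ (1 / ρ) * (r₀ / 2))) :=
      tsum_nonneg fun n => by positivity
    have h3 : 0 < (r₀ / 2) ^ (-θ) := by positivity
    by_contra hcon
    push Not at hcon
    nlinarith
  -- the scale j₀
  obtain ⟨j₀, hj₀⟩ : ∃ j₀ : ℕ, (1 / 2 : ℝ) ^ j₀ < r₀ := exists_pow_lt_of_lt_one hr₀ (by norm_num)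
  -- choice of the scale for every n
  have hchoice : ∀ n : ℕ, ∃ J : ℕ, ((n : ℝ) + 1) ^ (1 / ρ) ≤ 2 ^ J ∧ (2 : ℝ) ^ J ≤ 2 * ((n : ℝ) + 1) ^ (1 / ρ) := by
    intro n
    have hN : (1 : ℝ) ≤ (n : ℝ) + 1 := by have : (0 : ℝ) ≤ n := by positivity
                                          linarith
    have h1 : (1 : ℝ) ≤ ((n : ℝ) + 1) ^ (1 / ρ) := Real.one_le_rpow hN (by positivity)
    obtain ⟨m, hm1, hm2⟩ := exists_nat_pow_near h1 (one_lt_two)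
    exact ⟨m + 1, hm2.le, by rw [pow_succ]; linarith⟩
  choose J hJ1 hJ2 using hchoice
  set j : ℕ → ℕ := fun n => j₀ + J n with hj
  set C₃ : ℝ := Real.exp 2 * ((1 / 2 : ℝ) ^ (j₀ + 1)) ^ (-κ) with hC₃
  have hC₃pos : 0 < C₃ := by positivity
  have hkey : ∀ n : ℕ, ((n : ℝ) + 1) ^ (-s) ≤
      C₃ * (((1 / 2 : ℝ) ^ j n) ^ κ * (((n : ℝ) + 1) ^ (1 / ρ - 1) * Real.exp (-(2 * ((n : ℝ) + 1) ^ (1 / ρ) * (1 / 2 : ℝ) ^ j n)))) := by
    intro n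
    have hN : (1 : ℝ) ≤ (n : ℝ) + 1 := by have : (0 : ℝ) ≤ n := by positivity
                                          linarith
    have hN0 : (0 : ℝ) < (n : ℝ) + 1 := by linarith
    set N : ℝ := (n : ℝ) + 1 with hNdef
    have hNρ : 0 < N ^ (1 / ρ) := by positivity
    set r : ℝ := (1 / 2 : ℝ) ^ j n with hr
    have hrJ : r = (1 / 2 : ℝ) ^ j₀ * (1 / 2 : ℝ) ^ J n := by rw [hr, hj, pow_add]
    have hJ' : (1 / 2 : ℝ) ^ J n = ((2 : ℝ) ^ J n)⁻¹ := by rw [one_div, inv_pow]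
    have h2J : (0 : ℝ) < 2 ^ J n := by positivity
    have hle1 : N ^ (1 / ρ) * r ≤ 1 := by
      have h1 : (1 / 2 : ℝ) ^ j₀ ≤ 1 := pow_le_one₀ (by norm_num) (by norm_num)
      have h2 : N ^ (1 / ρ) * (1 / 2 : ℝ) ^ J n ≤ 1 := by
        rw [hJ', ← div_eq_mul_inv, div_le_one h2J]; exact hJ1 n
      calc N ^ (1 / ρ) * r = (1 / 2 : ℝ) ^ j₀ * (N ^ (1 / ρ) * (1 / 2 : ℝ) ^ J n) := by rw [hrJ]; ring
        _ ≤ 1 * 1 := mul_le_mul h1 h2 (by positivity) (by norm_num)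
        _ = 1 := one_mul 1
    have hge : (1 / 2 : ℝ) ^ (j₀ + 1) * (N ^ (1 / ρ))⁻¹ ≤ r := by
      rw [hrJ, hJ', pow_succ, mul_assoc]
      refine mul_le_mul_of_nonneg_left ?_ (by positivity)
      rw [one_div, ← mul_inv]
      exact inv_anti₀ h2J (hJ2 n)
    have hexp : Real.exp (-2) ≤ Real.exp (-(2 * N ^ (1 / ρ) * r)) := by
      rw [Real.exp_le_exp]; nlinarith
    have hpow : ((1 / 2 : ℝ) ^ (j₀ + 1)) ^ κ * N ^ (-(κ / ρ)) ≤ r ^ κ := by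
      have h1 := Real.rpow_le_rpow (by positivity) hge hκpos.le
      rw [Real.mul_rpow (by positivity) (by positivity), Real.inv_rpow hNρ.le, ← Real.rpow_mul hN0.le, ← Real.rpow_neg hN0.le] at h1
      have e : -(1 / ρ * κ) = -(κ / ρ) := by ring
      rwa [e] at h1
    have hs' : N ^ (-s) = N ^ (-(κ / ρ)) * N ^ (1 / ρ - 1) := by
      rw [← Real.rpow_add hN0]
      congr 1
      rw [hs]; field_simp; ring
    have hA : 0 < ((1 / 2 : ℝ) ^ (j₀ + 1)) ^ κ := by positivity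
    have hC₃' : C₃ * (((1 / 2 : ℝ) ^ (j₀ + 1)) ^ κ * Real.exp (-2)) = 1 := by
      rw [hC₃, Real.rpow_neg (by positivity)]
      have e : Real.exp 2 * Real.exp (-2) = 1 := by rw [← Real.exp_add]; simp
      field_simp
      linarith
    calc N ^ (-s) = (C₃ * (((1 / 2 : ℝ) ^ (j₀ + 1)) ^ κ * Real.exp (-2))) * (N ^ (-(κ / ρ)) * N ^ (1 / ρ - 1)) := by
          rw [hC₃', one_mul, hs']
      _ = C₃ * ((((1 / 2 : ℝ) ^ (j₀ + 1)) ^ κ * N ^ (-(κ / ρ))) * (N ^ (1 / ρ - 1) * Real.exp (-2))) := by ring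
      _ ≤ C₃ * (r ^ κ * (N ^ (1 / ρ - 1) * Real.exp (-(2 * N ^ (1 / ρ) * r)))) := by gcongr
  -- finite sums
  set ω : ℝ := (1 / 2 : ℝ) ^ (1 / 48 : ℝ) with hω
  have hω0 : 0 < ω := by positivity
  have hω1 : ω < 1 := Real.rpow_lt_one (by norm_num) (by norm_num) (by norm_num)
  have hgeo : Summable fun m : ℕ => ω ^ m := summable_geometric_of_lt_one hω0.le hω1
  set B : ℝ := C₃ * (C * ∑' m : ℕ, ω ^ m) with hB
  have hB0 : 0 ≤ B := by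
    have : 0 ≤ ∑' m : ℕ, ω ^ m := tsum_nonneg fun m => by positivity
    positivity
  have hfin : ∀ S : Finset ℕ, ∑ n ∈ S, ‖a (n + 1)‖ ^ 2 * ((n : ℝ) + 1) ^ (-s) ≤ B := by
    intro S
    set t : ℕ → ℕ → ℝ := fun m n => ‖a (n + 1)‖ ^ 2 * ((n : ℝ) + 1) ^ (1 / ρ - 1) * Real.exp (-(2 * ((n : ℝ) + 1) ^ (1 / ρ) * (1 / 2 : ℝ) ^ m)) with ht
    have ht0 : ∀ m n, 0 ≤ t m n := fun m n => by positivity
    have h1 : ∑ n ∈ S, ‖a (n + 1)‖ ^ 2 * ((n : ℝ) + 1) ^ (-s) ≤ C₃ * ∑ n ∈ S, ((1 / 2 : ℝ) ^ j n) ^ κ * t (j n) n := by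
      rw [Finset.mul_sum]
      refine Finset.sum_le_sum fun n _ => ?_
      have := mul_le_mul_of_nonneg_left (hkey n) (by positivity : (0 : ℝ) ≤ ‖a (n + 1)‖ ^ 2)
      refine this.trans (le_of_eq ?_)
      simp only [ht]; ring
    have h2 : ∑ n ∈ S, ((1 / 2 : ℝ) ^ j n) ^ κ * t (j n) n ≤ ∑ m ∈ S.image j, C * ω ^ m := by
      rw [← Finset.sum_fiberwise_of_maps_to (g := j) (t := S.image j) (fun n hn => Finset.mem_image_of_mem j hn)]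
      refine Finset.sum_le_sum fun m hm => ?_
      have hmj : j₀ ≤ m := by
        obtain ⟨n, -, rfl⟩ := Finset.mem_image.1 hm
        simp only [hj]; omega
      have hrm : (1 / 2 : ℝ) ^ m < r₀ :=
        (pow_le_pow_of_le_one (by norm_num) (by norm_num) hmj).trans_lt hj₀
      have hrm0 : (0 : ℝ) < (1 / 2 : ℝ) ^ m := by positivity
      have h3 : ∑ n ∈ S with j n = m, ((1 / 2 : ℝ) ^ j n) ^ κ * t (j n) n = ((1 / 2 : ℝ) ^ m) ^ κ * ∑ n ∈ S with j n = m, t m n := by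
        rw [Finset.mul_sum]
        refine Finset.sum_congr rfl fun n hn => ?_
        rw [(Finset.mem_filter.1 hn).2]
      rw [h3]
      have h4 : ∑ n ∈ S with j n = m, t m n ≤ ∑' n, t m n :=
        (T_summable hρ hρ2 ram hrm0).sum_le_tsum _ (fun n _ => ht0 m n)
      have h5 := hT _ hrm0 hrm
      have h6 : ∑ n ∈ S with j n = m, t m n ≤ C * ((1 / 2 : ℝ) ^ m) ^ (-θ) := h4.trans h5
      calc ((1 / 2 : ℝ) ^ m) ^ κ * ∑ n ∈ S with j n = m, t m n ≤ ((1 / 2 : ℝ) ^ m) ^ κ * (C * ((1 / 2 : ℝ) ^ m) ^ (-θ)) := by gcongr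
        _ = C * (((1 / 2 : ℝ) ^ m) ^ κ * ((1 / 2 : ℝ) ^ m) ^ (-θ)) := by ring
        _ = C * ω ^ m := by
          rw [← Real.rpow_add hrm0, hω, ← Real.rpow_natCast ((1 / 2 : ℝ) ^ (1 / 48 : ℝ)), ← Real.rpow_mul (by norm_num),
            ← Real.rpow_natCast (1 / 2 : ℝ) m, ← Real.rpow_mul (by norm_num)]
          congr 2
          rw [hκ]; ring
    have h3 : ∑ m ∈ S.image j, C * ω ^ m ≤ C * ∑' m : ℕ, ω ^ m := by
      rw [← Finset.mul_sum]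
      exact mul_le_mul_of_nonneg_left (hgeo.sum_le_tsum _ (fun m _ => by positivity)) hC0
    calc ∑ n ∈ S, ‖a (n + 1)‖ ^ 2 * ((n : ℝ) + 1) ^ (-s) ≤ C₃ * ∑ n ∈ S, ((1 / 2 : ℝ) ^ j n) ^ κ * t (j n) n := h1
      _ ≤ B := mul_le_mul_of_nonneg_left (h2.trans h3) hC₃pos.le
  -- bound of S(x)
  have hSle : ∀ x : ℝ, 0 < x → ∑' n : ℕ, ‖a (n + 1)‖ ^ 2 * Real.exp (-(4 * Real.pi * ((n : ℝ) + 1) * x)) ≤ x ^ (-sp) * B := by
    intro x hx
    refine tsum_le_of_sum_le' (by positivity) fun S => ?_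
    calc ∑ n ∈ S, ‖a (n + 1)‖ ^ 2 * Real.exp (-(4 * Real.pi * ((n : ℝ) + 1) * x))
        ≤ ∑ n ∈ S, x ^ (-sp) * (‖a (n + 1)‖ ^ 2 * ((n : ℝ) + 1) ^ (-s)) := by
          refine Finset.sum_le_sum fun n _ => ?_
          have hN : (1 : ℝ) ≤ (n : ℝ) + 1 := by have : (0 : ℝ) ≤ n := by positivity
                                                linarith
          have hN0 : (0 : ℝ) < (n : ℝ) + 1 := by linarith
          have h1 : ((n : ℝ) + 1) ^ (-sp) ≤ ((n : ℝ) + 1) ^ (-s) := Real.rpow_le_rpow_of_exponent_le hN (by linarith)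
          have h2 : (((n : ℝ) + 1) * x) ^ sp ≤ Real.exp (4 * Real.pi * ((n : ℝ) + 1) * x) := by
            set u : ℝ := ((n : ℝ) + 1) * x with hu
            have hu0 : 0 < u := by positivity
            have h3 : u ^ sp ≤ 1 + u := by
              rcases le_total u 1 with h | h
              · have := Real.rpow_le_one hu0.le h hsp0
                linarith
              · have := Real.rpow_le_rpow_of_exponent_le h hsp1
                rw [Real.rpow_one] at this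
                linarith
            have h4 : 1 + u ≤ Real.exp u := by have := Real.add_one_le_exp u; linarith
            have h5 : Real.exp u ≤ Real.exp (4 * Real.pi * ((n : ℝ) + 1) * x) := by
              rw [Real.exp_le_exp, mul_assoc, ← hu]
              have := Real.pi_gt_three
              nlinarith
            linarith
          have h3 : Real.exp (-(4 * Real.pi * ((n : ℝ) + 1) * x)) ≤ x ^ (-sp) * ((n : ℝ) + 1) ^ (-sp) := by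
            rw [mul_comm (x ^ (-sp)), ← Real.mul_rpow hN0.le hx.le, Real.rpow_neg (by positivity), Real.exp_neg]
            exact inv_anti₀ (by positivity) h2
          calc ‖a (n + 1)‖ ^ 2 * Real.exp (-(4 * Real.pi * ((n : ℝ) + 1) * x))
              ≤ ‖a (n + 1)‖ ^ 2 * (x ^ (-sp) * ((n : ℝ) + 1) ^ (-s)) := by
                refine mul_le_mul_of_nonneg_left (h3.trans ?_) (by positivity)
                exact mul_le_mul_of_nonneg_left h1 (by positivity)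
            _ = x ^ (-sp) * (‖a (n + 1)‖ ^ 2 * ((n : ℝ) + 1) ^ (-s)) := by ring
      _ = x ^ (-sp) * ∑ n ∈ S, ‖a (n + 1)‖ ^ 2 * ((n : ℝ) + 1) ^ (-s) := by rw [Finset.mul_sum]
      _ ≤ x ^ (-sp) * B := mul_le_mul_of_nonneg_left (hfin S) (by positivity)
  -- contradiction
  set δ : ℝ := 1 / (1 + ρ) - sp with hδ
  have hδ0 : 0 < δ := by rw [hδ]; linarith
  have hfinal : ∀ x : ℝ, 0 < x → x < x₀ → c ≤ B * x ^ δ := by
    intro x hx hxx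
    have h1 := (hS x hx hxx).trans (hSle x hx)
    have h2 : 0 < x ^ (1 / (1 + ρ)) := by positivity
    have h3 := mul_le_mul_of_nonneg_right h1 h2.le
    rw [mul_assoc, ← Real.rpow_add hx, neg_add_cancel, Real.rpow_zero, mul_one] at h3
    calc c ≤ x ^ (-sp) * B * x ^ (1 / (1 + ρ)) := h3
      _ = B * (x ^ (-sp) * x ^ (1 / (1 + ρ))) := by ring
      _ = B * x ^ δ := by rw [← Real.rpow_add hx]; congr 2; rw [hδ]; ring
  have hlim : Filter.Tendsto (fun x : ℝ => B * x ^ δ) (nhdsWithin 0 (Set.Ioi 0)) (nhds (B * 0)) := by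
    refine Filter.Tendsto.const_mul _ ?_
    have h1 : Filter.Tendsto (fun x : ℝ => x ^ δ) (nhds 0) (nhds ((0 : ℝ) ^ δ)) :=
      (Real.continuousAt_rpow_const 0 δ (Or.inr hδ0.le)).tendsto
    rw [Real.zero_rpow hδ0.ne'] at h1
    exact h1.mono_left nhdsWithin_le_nhds
  rw [mul_zero] at hlim
  have h1 : ∀ᶠ x : ℝ in nhdsWithin 0 (Set.Ioi 0), c ≤ B * x ^ δ := by
    filter_upwards [Ioo_mem_nhdsGT hx₀] with x hx
    exact hfinal x hx.1 hx.2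
  have h2 := ge_of_tendsto hlim h1
  linarith

end Pool.Agent.Helper19.BD
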