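import Pool.Agent.Helper97.BD.B4Defs

/-!
Block BD-B4D (MP_bd232a_nt, part B). `Dfun G = cn 1 exp(-G) + O(exp(-2 Re G))` for `Re G ≥ 1`.

PROOF. `‖cn n‖ = ‖a_n‖ n^((1/ρ-1)/2)` (`norm_cn`), `‖a_n‖ ≤ C n`. For `n ≥ 2`, `g = Re G ≥ 1`: `n^(1/ρ) ≥ n² ≥ 4`, so
`n^(1/ρ) g ≥ 2g + (n^(1/ρ) - 2) g ≥ 2g + n²/2` and `‖cn n exp(-n^(1/ρ) G)‖ ≤ C n^(1 + (1/ρ-1)/2) exp(-n²/2) exp(-2g)`; sum over `n ≥ 2`.
Also gives summability of the series defining `Dfun` for `Re G ≥ 1`; `Dfun_summable` for every `Re G > 0`: `n^(1/ρ) ≥ n²`, `‖cn n‖ ≤ C n^K`.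
-/

open Complex

namespace Pool.Agent.Helper19.BD

theorem sq_le_rpow_inv {ρ : ℝ} (hρ : 0 < ρ) (hρ2 : ρ ≤ 1 / 2) {x : ℝ} (hx : 1 ≤ x) : x ^ 2 ≤ x ^ (1 / ρ) := by
  rw [← Real.rpow_natCast]
  apply Real.rpow_le_rpow_of_exponent_le hx
  rw [le_div_iff₀ hρ]
  push_cast
  linarith

theorem Dfun_summable {a : ℕ → ℂ} {ρ η : ℝ} (hρ : 0 < ρ) (hρ2 : ρ ≤ 1 / 2)
    (ram : ∀ ε : ℝ, 0 < ε → ∃ C : ℝ, ∀ n : ℕ, 1 ≤ n → ‖a n‖ ≤ C * (n : ℝ) ^ ε) {r : ℝ} (hr : 0 < r) :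
    Summable fun n : ℕ => ‖cn a ρ η (n + 1)‖ * Real.exp (-(((n : ℝ) + 1) ^ (1 / ρ) * r)) := by
  obtain ⟨C, hC⟩ := ram 1 one_pos
  obtain ⟨K, hK⟩ := exists_nat_ge (1 + (1 / ρ - 1) / 2)
  have hC0 : 0 ≤ C := by
    have := hC 1 le_rfl
    simp only [Nat.cast_one, Real.one_rpow, mul_one] at this
    exact (norm_nonneg _).trans this
  have hs : Summable fun n : ℕ => (((n + 1 : ℕ) : ℝ)) ^ K * Real.exp (-r * ((n + 1 : ℕ) : ℝ)) :=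
    (summable_nat_add_iff 1).mpr (Real.summable_pow_mul_exp_neg_nat_mul K hr)
  refine Summable.of_nonneg_of_le (fun n => by positivity) (fun n => ?_) (hs.mul_left C)
  have h1 : (1 : ℝ) ≤ (n : ℝ) + 1 := by
    have : (0 : ℝ) ≤ (n : ℝ) := by positivity
    linarith
  have h0 : (0 : ℝ) < (n : ℝ) + 1 := by linarith
  rw [norm_cn a hρ]
  have e1 : ‖a (n + 1)‖ * ((n : ℝ) + 1) ^ ((1 / ρ - 1) / 2) ≤ C * ((n : ℝ) + 1) ^ K := by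
    have h2 := hC (n + 1) (by omega)
    push_cast at h2
    calc ‖a (n + 1)‖ * ((n : ℝ) + 1) ^ ((1 / ρ - 1) / 2)
        ≤ (C * ((n : ℝ) + 1) ^ (1 : ℝ)) * ((n : ℝ) + 1) ^ ((1 / ρ - 1) / 2) :=
          mul_le_mul_of_nonneg_right h2 (by positivity)
      _ = C * ((n : ℝ) + 1) ^ (1 + (1 / ρ - 1) / 2) := by
          rw [mul_assoc, ← Real.rpow_add h0]
      _ ≤ C * ((n : ℝ) + 1) ^ (K : ℝ) :=
          mul_le_mul_of_nonneg_left (Real.rpow_le_rpow_of_exponent_le h1 hK) hC0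
      _ = C * ((n : ℝ) + 1) ^ K := by rw [Real.rpow_natCast]
  have e2 : Real.exp (-(((n : ℝ) + 1) ^ (1 / ρ) * r)) ≤ Real.exp (-r * ((n : ℝ) + 1)) := by
    apply Real.exp_le_exp.mpr
    have h3 := sq_le_rpow_inv hρ hρ2 h1
    have h4 : (n : ℝ) + 1 ≤ ((n : ℝ) + 1) ^ (1 / ρ) := by nlinarith
    nlinarith
  push_cast
  calc ‖a (n + 1)‖ * ((n : ℝ) + 1) ^ ((1 / ρ - 1) / 2) * Real.exp (-(((n : ℝ) + 1) ^ (1 / ρ) * r))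
      ≤ (C * ((n : ℝ) + 1) ^ K) * Real.exp (-r * ((n : ℝ) + 1)) :=
        mul_le_mul e1 e2 (Real.exp_pos _).le (by positivity)
    _ = C * (((n : ℝ) + 1) ^ K * Real.exp (-r * ((n : ℝ) + 1))) := by ring

theorem norm_Dfun_term (a : ℕ → ℂ) (ρ η : ℝ) (G : ℂ) (n : ℕ) :
    ‖cn a ρ η (n + 1) * exp (-((((n : ℝ) + 1) ^ (1 / ρ) : ℝ) : ℂ) * G)‖ =
      ‖cn a ρ η (n + 1)‖ * Real.exp (-(((n : ℝ) + 1) ^ (1 / ρ) * G.re)) := by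
  rw [norm_mul, norm_exp, ← ofReal_neg, re_ofReal_mul, neg_mul]

theorem Dfun_approx {a : ℕ → ℂ} {ρ η : ℝ} (hρ : 0 < ρ) (hρ2 : ρ ≤ 1 / 2)
    (ram : ∀ ε : ℝ, 0 < ε → ∃ C : ℝ, ∀ n : ℕ, 1 ≤ n → ‖a n‖ ≤ C * (n : ℝ) ^ ε) :
    ∃ C : ℝ, 0 < C ∧ ∀ G : ℂ, 1 ≤ G.re → ‖Dfun a ρ η G - cn a ρ η 1 * exp (-G)‖ ≤ C * Real.exp (-(2 * G.re)) := by
  have hs1 := Dfun_summable (η := η) hρ hρ2 ram (r := 1) one_pos
  set S : ℝ := ∑' n : ℕ, ‖cn a ρ η (n + 1)‖ * Real.exp (-(((n : ℝ) + 1) ^ (1 / ρ) * 1)) with hS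
  have hS0 : 0 ≤ S := tsum_nonneg fun n => by positivity
  refine ⟨Real.exp 2 * S + 1, by positivity, fun G hG => ?_⟩
  have hG0 : 0 < G.re := by linarith
  have hsn : Summable fun n : ℕ => ‖cn a ρ η (n + 1) * exp (-((((n : ℝ) + 1) ^ (1 / ρ) : ℝ) : ℂ) * G)‖ := by
    simp only [norm_Dfun_term]
    exact Dfun_summable hρ hρ2 ram hG0
  have hsum := hsn.of_norm
  have e0 : Dfun a ρ η G - cn a ρ η 1 * exp (-G) =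
      ∑' n : ℕ, cn a ρ η (n + 1 + 1) * exp (-(((((n + 1 : ℕ) : ℝ) + 1) ^ (1 / ρ) : ℝ) : ℂ) * G) := by
    unfold Dfun
    rw [hsum.tsum_eq_zero_add]
    simp
  rw [e0]
  have hsn1 := (summable_nat_add_iff 1).mpr hsn
  refine (norm_tsum_le_tsum_norm hsn1).trans ?_
  have hs2 : Summable fun n : ℕ => Real.exp 2 * Real.exp (-(2 * G.re)) *
      (‖cn a ρ η (n + 1 + 1)‖ * Real.exp (-((((n + 1 : ℕ) : ℝ) + 1) ^ (1 / ρ) * 1))) :=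
    ((summable_nat_add_iff 1).mpr hs1).mul_left _
  have hle : ∀ n : ℕ, ‖cn a ρ η (n + 1 + 1) * exp (-(((((n + 1 : ℕ) : ℝ) + 1) ^ (1 / ρ) : ℝ) : ℂ) * G)‖ ≤
      Real.exp 2 * Real.exp (-(2 * G.re)) *
      (‖cn a ρ η (n + 1 + 1)‖ * Real.exp (-((((n + 1 : ℕ) : ℝ) + 1) ^ (1 / ρ) * 1))) := by
    intro n
    rw [norm_Dfun_term]
    have h1 : (2 : ℝ) ≤ ((n + 1 : ℕ) : ℝ) + 1 := by
      push_cast
      have : (0 : ℝ) ≤ (n : ℝ) := by positivity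
      linarith
    have h2 := sq_le_rpow_inv hρ hρ2 (x := ((n + 1 : ℕ) : ℝ) + 1) (by linarith)
    have h3 : (2 : ℝ) ≤ (((n + 1 : ℕ) : ℝ) + 1) ^ (1 / ρ) := by nlinarith
    have h4 : Real.exp (-((((n + 1 : ℕ) : ℝ) + 1) ^ (1 / ρ) * G.re)) ≤
        Real.exp 2 * Real.exp (-(2 * G.re)) * Real.exp (-((((n + 1 : ℕ) : ℝ) + 1) ^ (1 / ρ) * 1)) := by
      rw [← Real.exp_add, ← Real.exp_add]
      apply Real.exp_le_exp.mpr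
      nlinarith
    calc ‖cn a ρ η (n + 1 + 1)‖ * Real.exp (-((((n + 1 : ℕ) : ℝ) + 1) ^ (1 / ρ) * G.re))
        ≤ ‖cn a ρ η (n + 1 + 1)‖ * (Real.exp 2 * Real.exp (-(2 * G.re)) *
            Real.exp (-((((n + 1 : ℕ) : ℝ) + 1) ^ (1 / ρ) * 1))) :=
          mul_le_mul_of_nonneg_left h4 (norm_nonneg _)
      _ = _ := by ring
  refine (hsn1.tsum_le_tsum hle hs2).trans ?_
  rw [tsum_mul_left]
  have h5 : ∑' n : ℕ, ‖cn a ρ η (n + 1 + 1)‖ * Real.exp (-((((n + 1 : ℕ) : ℝ) + 1) ^ (1 / ρ) * 1)) ≤ S := by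
    rw [hS, hs1.tsum_eq_zero_add]
    have : 0 ≤ ‖cn a ρ η (0 + 1)‖ * Real.exp (-((((0 : ℕ) : ℝ) + 1) ^ (1 / ρ) * 1)) := by positivity
    linarith
  have h6 : 0 < Real.exp (-(2 * G.re)) := Real.exp_pos _
  have h7 : 0 < Real.exp 2 := Real.exp_pos _
  calc Real.exp 2 * Real.exp (-(2 * G.re)) *
        ∑' n : ℕ, ‖cn a ρ η (n + 1 + 1)‖ * Real.exp (-((((n + 1 : ℕ) : ℝ) + 1) ^ (1 / ρ) * 1))
      ≤ Real.exp 2 * Real.exp (-(2 * G.re)) * S := mul_le_mul_of_nonneg_left h5 (by positivity)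
    _ ≤ (Real.exp 2 * S + 1) * Real.exp (-(2 * G.re)) := by nlinarith

end Pool.Agent.Helper19.BD
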