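import Pool.Agent.Helper97.BD.Base
import Pool.Agent.Helper95.BD.Fub

/-!
Block BD-PA (MP_bd232a_nt, part B). Parseval for an absolutely convergent Fourier series.

PROOF. `ffun a 0 (x+iy) = ∑ u_n exp(-2πi(n+1)y)`, `u_n = a(n+1) exp(-2π(n+1)x)`, `∑ ‖u_n‖ < ∞`. Expand `‖·‖² = ∑_{n,m} u_n conj(u_m) exp(-2πi(n-m)y)` (absolutely summable) and
integrate termwise over `[0,1]` (or use Mathlib's Parseval on `AddCircle`, or `‖f‖² = f conj f` and termwise integration of `∑_n u_n exp(..) conj f`, with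
`∫_0^1 exp(-2πi(n+1)y) conj(f) dy = conj(u_n)`).
-/

open Complex MeasureTheory

namespace Pool.Agent.Helper19.BD

/-- orthogonality -/
theorem integral_exp_int (k : ℤ) : ∫ y in (0 : ℝ)..1, exp (2 * Real.pi * I * k * y) =
    if k = 0 then 1 else 0 := by
  split_ifs with h
  · subst h
    simp
  · have hc : (2 * Real.pi * I * k : ℂ) ≠ 0 := by
      have : (k : ℂ) ≠ 0 := by exact_mod_cast h
      simp [Real.pi_ne_zero, this]
    rw [integral_exp_mul_complex hc]
    have : exp (2 * Real.pi * I * k * ((1 : ℝ) : ℂ)) = 1 := by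
      rw [exp_eq_one_iff]
      exact ⟨k, by push_cast; ring⟩
    rw [this]
    simp

theorem parseval_ffun {a : ℕ → ℂ} {x : ℝ}
    (hs : Summable fun n : ℕ => ‖a (n + 1)‖ * Real.exp (-(2 * Real.pi * ((n : ℝ) + 1) * x))) :
    ∫ y in (0 : ℝ)..1, ‖ffun a 0 ((x : ℂ) + (y : ℂ) * I)‖ ^ 2 =
      ∑' n : ℕ, ‖a (n + 1)‖ ^ 2 * Real.exp (-(4 * Real.pi * ((n : ℝ) + 1) * x)) := by
  set u : ℕ → ℂ := fun n => a (n + 1) * ((Real.exp (-(2 * Real.pi * ((n : ℝ) + 1) * x)) : ℝ) : ℂ) with hu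
  have hun : ∀ n, ‖u n‖ = ‖a (n + 1)‖ * Real.exp (-(2 * Real.pi * ((n : ℝ) + 1) * x)) := by
    intro n
    rw [hu]
    simp only [norm_mul, norm_real, Real.norm_eq_abs, Real.abs_exp]
  have hus : Summable fun n => ‖u n‖ := by simpa only [hun] using hs
  have hW := Helper95.BD.summable_prod_conj hus
  have hf : ∀ y : ℝ, ((‖ffun a 0 ((x : ℂ) + (y : ℂ) * I)‖ ^ 2 : ℝ) : ℂ) =
      ∑' p : ℕ × ℕ, (u p.1 * (starRingEnd ℂ) (u p.2)) *
        exp (2 * Real.pi * I * (((p.2 : ℤ) - (p.1 : ℤ) : ℤ) : ℂ) * y) := by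
    intro y
    have h1 : ffun a 0 ((x : ℂ) + (y : ℂ) * I) =
        ∑' n : ℕ, u n * exp (-(2 * Real.pi * ((n : ℂ) + 1) * y * I)) := by
      unfold ffun
      refine tsum_congr fun n => ?_
      rw [hu, pow_zero, mul_one]
      simp only
      rw [ofReal_exp, mul_assoc (a (n + 1)), ← exp_add]
      congr 2
      push_cast
      ring
    have hn : ∀ n : ℕ, ‖exp (-(2 * Real.pi * ((n : ℂ) + 1) * y * I))‖ = 1 := by
      intro n
      have : -(2 * Real.pi * ((n : ℂ) + 1) * y * I) =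
          ((-(2 * Real.pi * ((n : ℝ) + 1) * y) : ℝ) : ℂ) * I := by push_cast; ring
      rw [this, norm_exp_ofReal_mul_I]
    have hz : Summable fun n => ‖u n * exp (-(2 * Real.pi * ((n : ℂ) + 1) * y * I))‖ := by
      simpa only [norm_mul, hn, mul_one] using hus
    rw [h1, Helper95.BD.normSq_tsum hz]
    refine tsum_congr fun p => ?_
    rw [map_mul, mul_mul_mul_comm, ← exp_conj, ← exp_add]
    congr 2
    simp only [map_neg, map_mul, map_add, map_one, map_ofNat, conj_ofReal, conj_I, map_natCast]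
    push_cast
    ring
  have hint := Helper95.BD.hasSum_integral_bdd hW
    (g := fun (p : ℕ × ℕ) y => exp (2 * Real.pi * I * (((p.2 : ℤ) - (p.1 : ℤ) : ℤ) : ℂ) * y))
    (fun p => by fun_prop) (fun p y => by
      have : (2 * Real.pi * I * (((p.2 : ℤ) - (p.1 : ℤ) : ℤ) : ℂ) * y : ℂ) =
          ((2 * Real.pi * (((p.2 : ℤ) - (p.1 : ℤ) : ℤ) : ℝ) * y : ℝ) : ℂ) * I := by
        push_cast; ring
      rw [this, norm_exp_ofReal_mul_I]) 0 1
  have hcast : ((∫ y in (0 : ℝ)..1, ‖ffun a 0 ((x : ℂ) + (y : ℂ) * I)‖ ^ 2 : ℝ) : ℂ) =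
      ((∑' n : ℕ, ‖a (n + 1)‖ ^ 2 * Real.exp (-(4 * Real.pi * ((n : ℝ) + 1) * x)) : ℝ) : ℂ) := by
    rw [← intervalIntegral.integral_ofReal]
    simp_rw [hf]
    rw [← hint.tsum_eq]
    simp_rw [integral_exp_int]
    have hW' : Summable fun p : ℕ × ℕ => u p.1 * (starRingEnd ℂ) (u p.2) *
        (if ((p.2 : ℤ) - (p.1 : ℤ) : ℤ) = 0 then (1 : ℂ) else 0) := by
      refine Summable.of_norm_bounded hW fun p => ?_
      rw [norm_mul]
      refine mul_le_of_le_one_right (norm_nonneg _) ?_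
      split_ifs <;> simp
    rw [hW'.tsum_prod]
    push_cast
    refine tsum_congr fun n => ?_
    rw [tsum_eq_single n]
    · simp only [sub_self, if_true, mul_one]
      rw [mul_conj', hun]
      push_cast
      rw [mul_pow, ← exp_nat_mul]
      congr 2
      push_cast
      ring
    · intro m hm
      rw [if_neg, mul_zero]
      intro h
      apply hm
      omega
  exact_mod_cast hcast

end Pool.Agent.Helper19.BD
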