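import Pool.Agent.Helper97.BD.B4Geo
import Pool.Agent.Helper97.BD.B4Dfun
import Pool.Agent.Helper97.BD.Pars

/-!
Block BD-B4L (MP_bd232a_nt, part B). The term `n = 1` is visible: lower bound for `f = ffun a 0` near `y = c₀ x^(ρ/(1+ρ))`; mean square.

`b4_low`: `Dfun_approx` (may be sorried; `cn 1 = 1` as `a 1 = 1`): there is `g₁ ≥ 1` with `‖Dfun G‖ ≥ (1/2) exp(-Re G)` for `Re G ≥ g₁`. With `y ∈ [c₀X/2, c₀X]`, `X = x^(ρ/(1+ρ))` one has `x y^(-(1+1/ρ)) ∈ [c₀^(-(1+1/ρ)), 2^(1+1/ρ) c₀^(-(1+1/ρ))]` (because `X^(1+1/ρ) = x`), so by `geo_re`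
`Re G ∈ [g₁, g₂]` if `c₀` is small. By `geo_norm`: `‖Mfun‖ ≥ c y^(-(1+ρ)/(2ρ)) (1/2) exp(-g₂) ≥ c' x^(-1/2)`. The error in `app` (δ = 1/4):
`y^(-5/4) ≤ C x^(-(5/4) ρ/(1+ρ))`, exponent `≥ -5/12 > -1/2`; `(y/x)^(3ρ/4) ≤ C x^(-(3ρ/4)/(1+ρ))`, exponent `≥ -1/4`: both are `≤ (small) x^(-1/2)` for `x < x₀`. (`x ≤ ρ y` for `x < x₀` too.)
`b4_S_lower`: integrate `b4_low` over `[c₀X/2, c₀X] ⊆ [0,1]`: `(c₀X/2) c₂² x^(-1) = c x^(ρ/(1+ρ) - 1) = c x^(-1/(1+ρ))`.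
-/

open Complex MeasureTheory

namespace Pool.Agent.Helper19.BD

/-- thresholds -/
theorem exists_small {s K : ℝ} (hs : 0 < s) (hK : 0 < K) : ∃ x₀ : ℝ, 0 < x₀ ∧ x₀ ≤ 1 ∧
    ∀ x : ℝ, 0 < x → x < x₀ → x ^ s ≤ K := by
  refine ⟨min 1 (K ^ (1 / s)), lt_min one_pos (Real.rpow_pos_of_pos hK _), min_le_left _ _, ?_⟩
  intro x hx hx2
  calc x ^ s ≤ (K ^ (1 / s)) ^ s :=
        Real.rpow_le_rpow hx.le (hx2.le.trans (min_le_right _ _)) hs.le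
    _ = K := by
      rw [← Real.rpow_mul hK.le, one_div_mul_cancel hs.ne', Real.rpow_one]

theorem cn_one {a : ℕ → ℂ} (h : a 1 = 1) (ρ η : ℝ) : cn a ρ η 1 = 1 := by
  simp [cn, h]

theorem Dfun_lower {a : ℕ → ℂ} {ρ η l : ℝ} {C₃ : ℂ} (H : B4H a ρ η l C₃) : ∃ g₁ : ℝ, 1 ≤ g₁ ∧
    ∀ G : ℂ, g₁ ≤ G.re → (1 / 2) * Real.exp (-G.re) ≤ ‖Dfun a ρ η G‖ := by
  obtain ⟨C, hC, h⟩ := Dfun_approx (η := η) H.rho_pos H.rho_le H.ram
  refine ⟨max 1 (Real.log (2 * C)), le_max_left _ _, fun G hG => ?_⟩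
  have h1 := h G ((le_max_left _ _).trans hG)
  rw [cn_one H.a1, one_mul] at h1
  have h2 : C * Real.exp (-(2 * G.re)) ≤ (1 / 2) * Real.exp (-G.re) := by
    have h3 : Real.log (2 * C) ≤ G.re := (le_max_right _ _).trans hG
    have h4 : 2 * C ≤ Real.exp G.re := by
      rw [← Real.exp_log (show (0 : ℝ) < 2 * C by positivity)]
      exact Real.exp_le_exp.mpr h3
    have h5 : Real.exp (-(2 * G.re)) = Real.exp (-G.re) * Real.exp (-G.re) := by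
      rw [← Real.exp_add]; ring_nf
    have h6 : Real.exp G.re * Real.exp (-G.re) = 1 := by
      rw [← Real.exp_add]; simp
    rw [h5]
    have h7 : 0 < Real.exp (-G.re) := Real.exp_pos _
    nlinarith [mul_le_mul_of_nonneg_right h4 h7.le]
  have h3 : ‖exp (-G)‖ = Real.exp (-G.re) := by rw [norm_exp, neg_re]
  have h4 : ‖exp (-G)‖ ≤ ‖Dfun a ρ η G‖ + ‖Dfun a ρ η G - exp (-G)‖ := by
    have := norm_sub_le (Dfun a ρ η G) (Dfun a ρ η G - exp (-G))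
    simpa using this
  rw [h3] at h4
  linarith

theorem b4_low {a : ℕ → ℂ} {ρ η l : ℝ} {C₃ : ℂ} (H : B4H a ρ η l C₃) : ∃ c₀ c₂ x₀ : ℝ, 0 < c₀ ∧ 0 < c₂ ∧ 0 < x₀ ∧
    ∀ x : ℝ, 0 < x → x < x₀ → ∀ y : ℝ, c₀ / 2 * x ^ (ρ / (1 + ρ)) ≤ y → y ≤ c₀ * x ^ (ρ / (1 + ρ)) →
      c₂ * x ^ (-(1 / 2) : ℝ) ≤ ‖ffun a 0 ((x : ℂ) + (y : ℂ) * I)‖ := by
  have hρ := H.rho_pos
  have hρ2 := H.rho_le
  have hρ1 : 0 < 1 + ρ := by linarith
  obtain ⟨g₁, hg1, hD⟩ := Dfun_lower H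
  obtain ⟨cg, Cg, hcg, hCg, hgeo⟩ := geo_re ρ l hρ hρ2
  obtain ⟨cN, CN, hcN, hCN, hnorm⟩ := geo_norm ρ η l hρ hρ2
  obtain ⟨Ca, hCa, happ⟩ := H.app (1 / 4) (by norm_num)
  have hg0 : 0 < g₁ := by linarith
  set κ : ℝ := 1 + 1 / ρ with hκ
  have hκ0 : 0 < κ := by positivity
  set c₀ : ℝ := (g₁ / cg) ^ (-(1 / κ)) with hc₀
  have hc₀p : 0 < c₀ := Real.rpow_pos_of_pos (by positivity) _
  have hc₀κ : c₀ ^ (-κ) = g₁ / cg := by
    rw [hc₀, ← Real.rpow_mul (by positivity)]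
    rw [show -(1 / κ) * -κ = 1 by field_simp, Real.rpow_one]
  set g₂ : ℝ := Cg * (c₀ / 2) ^ (-κ) with hg₂
  set c' : ℝ := cN * c₀ ^ (-((1 + ρ) / (2 * ρ))) * ((1 / 2) * Real.exp (-g₂)) with hc'
  have hc'p : 0 < c' := by
    have := Real.rpow_pos_of_pos hc₀p (-((1 + ρ) / (2 * ρ)))
    positivity
  have hC3 : 0 < ‖C₃‖ := norm_pos_iff.mpr H.C_ne
  set c₂ : ℝ := ‖C₃‖ * c' / 2 with hc₂
  have hc₂p : 0 < c₂ := by positivity
  set Ke : ℝ := Ca * ((c₀ / 2) ^ (-(5 / 4) : ℝ) + c₀ ^ (3 * ρ / 4)) with hKe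
  have hKe0 : 0 < Ke := by
    have h1 := Real.rpow_pos_of_pos (half_pos hc₀p) (-(5 / 4) : ℝ)
    have h2 := Real.rpow_pos_of_pos hc₀p (3 * ρ / 4)
    positivity
  obtain ⟨x₁, hx₁, hx₁1, H1⟩ := exists_small (s := 1 / (1 + ρ)) (K := ρ * (c₀ / 2)) (by positivity)
    (by positivity)
  obtain ⟨x₂, hx₂, hx₂1, H2⟩ := exists_small (s := ρ / (1 + ρ)) (K := 2 / c₀) (by positivity)
    (by positivity)
  obtain ⟨x₃, hx₃, hx₃1, H3⟩ := exists_small (s := 1 / 12) (K := c₂ / Ke) (by norm_num)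
    (by positivity)
  refine ⟨c₀, c₂, min x₁ (min x₂ x₃), hc₀p, hc₂p, lt_min hx₁ (lt_min hx₂ hx₃), ?_⟩
  intro x hx hxx y hy1 hy2
  have hxx1 : x < x₁ := hxx.trans_le (min_le_left _ _)
  have hxx2 : x < x₂ := hxx.trans_le ((min_le_right _ _).trans (min_le_left _ _))
  have hxx3 : x < x₃ := hxx.trans_le ((min_le_right _ _).trans (min_le_right _ _))
  have hx1 : x < 1 := hxx1.trans_le hx₁1
  set X : ℝ := x ^ (ρ / (1 + ρ)) with hX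
  have hXp : 0 < X := Real.rpow_pos_of_pos hx _
  have hXm : ∀ s : ℝ, X ^ s = x ^ (ρ / (1 + ρ) * s) := fun s => by rw [hX, ← Real.rpow_mul hx.le]
  have hy0 : 0 < y := lt_of_lt_of_le (by positivity) hy1
  have hxX : x = x ^ (1 / (1 + ρ)) * X := by
    rw [hX, ← Real.rpow_add hx, show 1 / (1 + ρ) + ρ / (1 + ρ) = 1 by field_simp, Real.rpow_one]
  -- x ≤ ρ y
  have hxy : x ≤ ρ * y := by
    calc x = x ^ (1 / (1 + ρ)) * X := hxX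
      _ ≤ ρ * (c₀ / 2) * X := by gcongr; exact H1 x hx hxx1
      _ = ρ * (c₀ / 2 * X) := by ring
      _ ≤ ρ * y := by gcongr
  have hy2' : y ≤ 2 := by
    calc y ≤ c₀ * X := hy2
      _ ≤ c₀ * (2 / c₀) := by gcongr; exact H2 x hx hxx2
      _ = 2 := by field_simp
  -- powers of y
  have hlow : ∀ s : ℝ, 0 ≤ s → c₀ ^ (-s) * x ^ (-(ρ / (1 + ρ) * s)) ≤ y ^ (-s) := by
    intro s hs
    have : (c₀ * X) ^ (-s) ≤ y ^ (-s) :=
      Real.rpow_le_rpow_of_nonpos hy0 hy2 (by linarith)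
    rw [Real.mul_rpow hc₀p.le hXp.le, hXm, mul_neg] at this
    exact this
  have hup : ∀ s : ℝ, 0 ≤ s → y ^ (-s) ≤ (c₀ / 2) ^ (-s) * x ^ (-(ρ / (1 + ρ) * s)) := by
    intro s hs
    have : y ^ (-s) ≤ (c₀ / 2 * X) ^ (-s) :=
      Real.rpow_le_rpow_of_nonpos (by positivity) hy1 (by linarith)
    rw [Real.mul_rpow (by positivity) hXp.le, hXm, mul_neg] at this
    exact this
  set z : ℂ := (x : ℂ) + (y : ℂ) * I with hz
  obtain ⟨hr1, hr2⟩ := hgeo x y hx hxy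
  rw [← hz] at hr1 hr2
  set G : ℂ := exp (zet l ρ z / (ρ : ℂ)) with hG
  have hxinv : x * x ^ (-(ρ / (1 + ρ) * κ)) = 1 := by
    rw [show ρ / (1 + ρ) * κ = 1 by rw [hκ]; field_simp; ring, Real.rpow_neg_one,
      mul_inv_cancel₀ hx.ne']
  have hG1 : g₁ ≤ G.re := by
    refine le_trans ?_ hr1
    have h1 := hlow κ hκ0.le
    calc g₁ = cg * ((g₁ / cg) * (x * x ^ (-(ρ / (1 + ρ) * κ)))) := by rw [hxinv]; field_simp
      _ = cg * (x * (c₀ ^ (-κ) * x ^ (-(ρ / (1 + ρ) * κ)))) := by rw [hc₀κ]; ring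
      _ ≤ cg * (x * y ^ (-κ)) := by gcongr
  have hG2 : G.re ≤ g₂ := by
    refine hr2.trans ?_
    have h1 := hup κ hκ0.le
    calc Cg * (x * y ^ (-κ)) ≤ Cg * (x * ((c₀ / 2) ^ (-κ) * x ^ (-(ρ / (1 + ρ) * κ)))) := by gcongr
      _ = Cg * (c₀ / 2) ^ (-κ) * (x * x ^ (-(ρ / (1 + ρ) * κ))) := by ring
      _ = g₂ := by rw [hxinv, mul_one]
  have hDl : (1 / 2) * Real.exp (-g₂) ≤ ‖Dfun a ρ η G‖ := by
    refine le_trans ?_ (hD G hG1)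
    gcongr
  -- the main term
  have hM : c' * x ^ (-(1 / 2) : ℝ) ≤ ‖Mfun a ρ η l z‖ := by
    unfold Mfun
    rw [norm_mul]
    obtain ⟨hn1, -⟩ := hnorm x y hx hxy
    have h1 := hlow ((1 + ρ) / (2 * ρ)) (by positivity)
    rw [show ρ / (1 + ρ) * ((1 + ρ) / (2 * ρ)) = 1 / 2 by field_simp] at h1
    calc c' * x ^ (-(1 / 2) : ℝ) = cN * (c₀ ^ (-((1 + ρ) / (2 * ρ))) * x ^ (-(1 / 2) : ℝ)) *
          ((1 / 2) * Real.exp (-g₂)) := by rw [hc']; ring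
      _ ≤ cN * y ^ (-((1 + ρ) / (2 * ρ))) * ((1 / 2) * Real.exp (-g₂)) := by gcongr
      _ ≤ _ := mul_le_mul hn1 hDl (by positivity) (norm_nonneg _)
  -- the error
  have hE : Ca * (y ^ (-(1 + 1 / 4) : ℝ) + (y / x) ^ (3 * ρ / 4)) ≤ c₂ * x ^ (-(1 / 2) : ℝ) := by
    have e1 : y ^ (-(1 + 1 / 4) : ℝ) ≤ (c₀ / 2) ^ (-(5 / 4) : ℝ) * x ^ (-(5 / 12) : ℝ) := by
      have h1 := hup (5 / 4) (by norm_num)
      rw [show (-(1 + 1 / 4) : ℝ) = -(5 / 4) by norm_num]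
      refine h1.trans (mul_le_mul_of_nonneg_left ?_ (by positivity))
      apply Real.rpow_le_rpow_of_exponent_ge hx hx1.le
      rw [neg_le_neg_iff]
      rw [div_mul_eq_mul_div, div_le_div_iff₀ hρ1 (by norm_num)]
      nlinarith
    have e2 : (y / x) ^ (3 * ρ / 4) ≤ c₀ ^ (3 * ρ / 4) * x ^ (-(5 / 12) : ℝ) := by
      have h1 : y / x ≤ c₀ * x ^ (-(1 / (1 + ρ))) := by
        rw [div_le_iff₀ hx]
        calc y ≤ c₀ * X := hy2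
          _ = c₀ * x ^ (-(1 / (1 + ρ))) * x := by
            rw [mul_assoc]
            congr 1
            nth_rewrite 2 [hxX]
            rw [← mul_assoc, ← Real.rpow_add hx, neg_add_cancel, Real.rpow_zero, one_mul]
      calc (y / x) ^ (3 * ρ / 4) ≤ (c₀ * x ^ (-(1 / (1 + ρ)))) ^ (3 * ρ / 4) := by gcongr
        _ = c₀ ^ (3 * ρ / 4) * x ^ (-(1 / (1 + ρ)) * (3 * ρ / 4)) := by
          rw [Real.mul_rpow hc₀p.le (by positivity), ← Real.rpow_mul hx.le]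
        _ ≤ _ := by
          refine mul_le_mul_of_nonneg_left ?_ (by positivity)
          apply Real.rpow_le_rpow_of_exponent_ge hx hx1.le
          rw [neg_mul, neg_le_neg_iff, div_mul_eq_mul_div, one_mul, div_le_iff₀ hρ1]
          linarith
    have e3 : x ^ (-(5 / 12) : ℝ) = x ^ (1 / 12 : ℝ) * x ^ (-(1 / 2) : ℝ) := by
      rw [← Real.rpow_add hx]; norm_num
    have e4 : Ke * x ^ (1 / 12 : ℝ) ≤ c₂ := by
      calc Ke * x ^ (1 / 12 : ℝ) ≤ Ke * (c₂ / Ke) := by gcongr; exact H3 x hx hxx3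
        _ = c₂ := by field_simp
    calc Ca * (y ^ (-(1 + 1 / 4) : ℝ) + (y / x) ^ (3 * ρ / 4))
        ≤ Ca * ((c₀ / 2) ^ (-(5 / 4) : ℝ) * x ^ (-(5 / 12) : ℝ) +
          c₀ ^ (3 * ρ / 4) * x ^ (-(5 / 12) : ℝ)) := by gcongr
      _ = Ke * x ^ (1 / 12 : ℝ) * x ^ (-(1 / 2) : ℝ) := by rw [e3, hKe]; ring
      _ ≤ c₂ * x ^ (-(1 / 2) : ℝ) := by gcongr
  have hfin := happ x y hx hxy hy2'
  rw [← hz] at hfin
  have h1 : ‖C₃ * Mfun a ρ η l z‖ ≤ ‖ffun a 0 z‖ + ‖ffun a 0 z - C₃ * Mfun a ρ η l z‖ := by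
    have := norm_sub_le (ffun a 0 z) (ffun a 0 z - C₃ * Mfun a ρ η l z)
    simpa using this
  rw [norm_mul] at h1
  have h2 : ‖C₃‖ * (c' * x ^ (-(1 / 2) : ℝ)) ≤ ‖C₃‖ * ‖Mfun a ρ η l z‖ := by gcongr
  have h3 : ‖C₃‖ * (c' * x ^ (-(1 / 2) : ℝ)) = 2 * (c₂ * x ^ (-(1 / 2) : ℝ)) := by
    rw [hc₂]; ring
  linarith

theorem summable_ffun {a : ℕ → ℂ} (ram : ∀ ε : ℝ, 0 < ε → ∃ C : ℝ, ∀ n : ℕ, 1 ≤ n → ‖a n‖ ≤ C * (n : ℝ) ^ ε)
    {x : ℝ} (hx : 0 < x) :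
    Summable fun n : ℕ => ‖a (n + 1)‖ * Real.exp (-(2 * Real.pi * ((n : ℝ) + 1) * x)) := by
  obtain ⟨C, hC⟩ := ram 1 one_pos
  have h1 : Summable fun n : ℕ => (n : ℝ) * Real.exp (-(2 * Real.pi * x) * n) := by
    simpa using Real.summable_pow_mul_exp_neg_nat_mul 1 (r := 2 * Real.pi * x) (by positivity)
  have h2 := ((summable_nat_add_iff 1).mpr h1).mul_left C
  refine Summable.of_nonneg_of_le (fun _ => by positivity) (fun n => ?_) h2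
  have h3 := hC (n + 1) (by omega)
  rw [Real.rpow_one] at h3
  calc _ ≤ C * ((n + 1 : ℕ) : ℝ) * Real.exp (-(2 * Real.pi * ((n : ℝ) + 1) * x)) := by gcongr
    _ = _ := by
      rw [mul_assoc]
      congr 2
      push_cast
      ring_nf

theorem continuous_ffun {a : ℕ → ℂ} {x : ℝ}
    (hs : Summable fun n : ℕ => ‖a (n + 1)‖ * Real.exp (-(2 * Real.pi * ((n : ℝ) + 1) * x))) :
    Continuous fun y : ℝ => ffun a 0 ((x : ℂ) + (y : ℂ) * I) := by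
  unfold ffun
  refine continuous_tsum (fun n => by fun_prop) hs fun n y => ?_
  rw [norm_mul, norm_mul, pow_zero, norm_one, mul_one, norm_exp]
  apply le_of_eq
  congr 2
  simp

theorem b4_S_lower {a : ℕ → ℂ} {ρ η l : ℝ} {C₃ : ℂ} (H : B4H a ρ η l C₃) : ∃ c x₀ : ℝ, 0 < c ∧ 0 < x₀ ∧
    ∀ x : ℝ, 0 < x → x < x₀ →
      c * x ^ (-(1 / (1 + ρ))) ≤ ∑' n : ℕ, ‖a (n + 1)‖ ^ 2 * Real.exp (-(4 * Real.pi * ((n : ℝ) + 1) * x)) := by
  have hρ := H.rho_pos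
  obtain ⟨c₀, c₂, x₀, hc₀, hc₂, hx₀, hl⟩ := b4_low H
  obtain ⟨x₂, hx₂, hx₂1, H2⟩ := exists_small (s := ρ / (1 + ρ)) (K := 1 / c₀) (by positivity)
    (by positivity)
  refine ⟨c₀ / 2 * c₂ ^ 2, min x₀ x₂, by positivity, lt_min hx₀ hx₂, ?_⟩
  intro x hx hxx
  have hxx0 : x < x₀ := hxx.trans_le (min_le_left _ _)
  have hxx2 : x < x₂ := hxx.trans_le (min_le_right _ _)
  have hs := summable_ffun H.ram hx
  rw [← parseval_ffun hs]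
  set X : ℝ := x ^ (ρ / (1 + ρ)) with hX
  have hXp : 0 < X := Real.rpow_pos_of_pos hx _
  have hcont : Continuous fun y : ℝ => ‖ffun a 0 ((x : ℂ) + (y : ℂ) * I)‖ ^ 2 :=
    (continuous_ffun hs).norm.pow 2
  have h1 : c₀ * X ≤ 1 := by
    calc c₀ * X ≤ c₀ * (1 / c₀) := by gcongr; exact H2 x hx hxx2
      _ = 1 := by field_simp
  have h2 : c₀ / 2 * X ≤ c₀ * X := by nlinarith
  calc c₀ / 2 * c₂ ^ 2 * x ^ (-(1 / (1 + ρ))) = ∫ y in (c₀ / 2 * X)..(c₀ * X), (c₂ * x ^ (-(1 / 2) : ℝ)) ^ 2 := by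
        rw [intervalIntegral.integral_const, smul_eq_mul, mul_pow, ← Real.rpow_natCast (x ^ (-(1 / 2) : ℝ)),
          ← Real.rpow_mul hx.le]
        have : X * x ^ (-(1 / 2) * ((2 : ℕ) : ℝ)) = x ^ (-(1 / (1 + ρ))) := by
          rw [hX, ← Real.rpow_add hx]
          congr 1
          push_cast
          field_simp
          ring
        rw [← this]
        ring
    _ ≤ ∫ y in (c₀ / 2 * X)..(c₀ * X), ‖ffun a 0 ((x : ℂ) + (y : ℂ) * I)‖ ^ 2 := by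
        apply intervalIntegral.integral_mono_on h2 (by simp) (hcont.intervalIntegrable _ _)
        intro y hy
        have := hl x hx hxx0 y hy.1 hy.2
        gcongr
    _ ≤ _ := by
        apply intervalIntegral.integral_mono_interval (by positivity) h2 h1
        · exact Filter.Eventually.of_forall fun y => by positivity
        · exact hcont.intervalIntegrable _ _

end Pool.Agent.Helper19.BD
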