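import Pool.Agent.Helper97.BD.B4Mean

/-!
Block BD-B4O (MP_bd232a_nt, part B; pure analysis, `offT` is defined in B4Mean.lean). The off-diagonal sum.

`off_bound`: `λ_n = (n+1)^κ`, `κ ≥ 2`. For `n > m`: `n^κ - m^κ ≥ (n-m) n^(κ-1)`, `(nm)^((κ-1)/2+ε') ≤ n^(κ-1+2ε')`; so the sum is
`≤ C ∑_n ∑_{m<n} n^(κ-1+2ε') n^(-2(κ-1)) (n-m)^(-2) e^(-n^κ r) ≤ C ∑_n n^(-1+2ε') e^(-n^κ r)` (as `κ-1 ≥ 1`), and `e^(-n^κ r) ≤ C (n^κ r)^(-ε) ≤ C n^(-2ε) r^(-ε)`; take `ε' = ε/2`... (`∑ n^(-1-ε) < ∞`).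
-/

open Complex

namespace Pool.Agent.Helper19.BD

theorem off_exp_le {ε t : ℝ} (hε : 0 < ε) (ht : 0 < t) :
    Real.exp (-t) ≤ ε ^ ε * t ^ (-ε) := by
  have h1 : t / ε ≤ Real.exp (t / ε) := by
    have := Real.add_one_le_exp (t / ε)
    linarith
  have h2 : t ≤ ε * Real.exp (t / ε) := by
    rw [div_le_iff₀ hε] at h1
    linarith [mul_comm (Real.exp (t / ε)) ε]
  have h3 : t ^ ε ≤ ε ^ ε * Real.exp t := by
    calc t ^ ε ≤ (ε * Real.exp (t / ε)) ^ ε := Real.rpow_le_rpow ht.le h2 hε.le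
      _ = ε ^ ε * (Real.exp (t / ε)) ^ ε := Real.mul_rpow hε.le (Real.exp_pos _).le
      _ = ε ^ ε * Real.exp t := by
        rw [← Real.exp_mul]
        congr 2
        field_simp
  have h4 : (0 : ℝ) < t ^ ε := Real.rpow_pos_of_pos ht ε
  rw [Real.rpow_neg ht.le, Real.exp_neg, ← div_eq_mul_inv, inv_eq_one_div,
    div_le_div_iff₀ (Real.exp_pos _) h4]
  linarith

theorem off_sub_ge {κ x y : ℝ} (hκ : 2 ≤ κ) (hy : 1 ≤ y) (hxy : y < x) :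
    (x - y) * x ^ (κ - 1) ≤ x ^ κ - y ^ κ := by
  have hy0 : (0 : ℝ) < y := by linarith
  have hx0 : (0 : ℝ) < x := by linarith
  have h1 : x ^ κ = x * x ^ (κ - 1) := by
    rw [← Real.rpow_one_add' hx0.le (by linarith)]
    congr 1
    ring
  have h2 : y ^ κ = y * y ^ (κ - 1) := by
    rw [← Real.rpow_one_add' hy0.le (by linarith)]
    congr 1
    ring
  have h3 : y ^ (κ - 1) ≤ x ^ (κ - 1) := Real.rpow_le_rpow hy0.le hxy.le (by linarith)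
  have h4 : y * y ^ (κ - 1) ≤ y * x ^ (κ - 1) := mul_le_mul_of_nonneg_left h3 hy0.le
  rw [h1, h2]
  linarith

theorem off_main {κ ε r x y : ℝ} (hκ : 2 ≤ κ) (hε : 0 < ε) (hr : 0 < r) (hy : 1 ≤ y)
    (hxy : y < x) :
    x ^ ((κ - 1) / 2 + ε / 2) * y ^ ((κ - 1) / 2 + ε / 2)
        * Real.exp (-((x ^ κ + y ^ κ) * r)) / (x ^ κ - y ^ κ) ^ 2
      ≤ ε ^ ε * r ^ (-ε) * (x ^ (-1 - ε) * (1 / (x - y) ^ 2)) := by
  have hy0 : (0 : ℝ) < y := by linarith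
  have hx0 : (0 : ℝ) < x := by linarith
  have hx1 : (1 : ℝ) ≤ x := by linarith
  have hd : 0 < x - y := by linarith
  have hb : (0 : ℝ) ≤ (κ - 1) / 2 + ε / 2 := by linarith
  have hn1 : y ^ ((κ - 1) / 2 + ε / 2) ≤ x ^ ((κ - 1) / 2 + ε / 2) :=
    Real.rpow_le_rpow hy0.le hxy.le hb
  have hn2 : x ^ ((κ - 1) / 2 + ε / 2) * y ^ ((κ - 1) / 2 + ε / 2) ≤ x ^ ((κ - 1) + ε) := by
    calc x ^ ((κ - 1) / 2 + ε / 2) * y ^ ((κ - 1) / 2 + ε / 2)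
        ≤ x ^ ((κ - 1) / 2 + ε / 2) * x ^ ((κ - 1) / 2 + ε / 2) :=
          mul_le_mul_of_nonneg_left hn1 (Real.rpow_nonneg hx0.le _)
      _ = x ^ ((κ - 1) + ε) := by
          rw [← Real.rpow_add hx0]
          congr 1
          ring
  have hxk : 0 < x ^ κ := Real.rpow_pos_of_pos hx0 κ
  have hyk : 0 < y ^ κ := Real.rpow_pos_of_pos hy0 κ
  have he1 : Real.exp (-((x ^ κ + y ^ κ) * r)) ≤ ε ^ ε * (x ^ (-(2 * ε)) * r ^ (-ε)) := by
    calc Real.exp (-((x ^ κ + y ^ κ) * r)) ≤ Real.exp (-(x ^ κ * r)) := by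
          apply Real.exp_le_exp.mpr
          have : 0 < y ^ κ * r := mul_pos hyk hr
          linarith [add_mul (x ^ κ) (y ^ κ) r]
      _ ≤ ε ^ ε * (x ^ κ * r) ^ (-ε) := off_exp_le hε (mul_pos hxk hr)
      _ = ε ^ ε * (x ^ (κ * (-ε)) * r ^ (-ε)) := by
          rw [Real.mul_rpow hxk.le hr.le, ← Real.rpow_mul hx0.le]
      _ ≤ ε ^ ε * (x ^ (-(2 * ε)) * r ^ (-ε)) := by
          apply mul_le_mul_of_nonneg_left _ (Real.rpow_nonneg hε.le _)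
          apply mul_le_mul_of_nonneg_right _ (Real.rpow_nonneg hr.le _)
          apply Real.rpow_le_rpow_of_exponent_le hx1
          nlinarith
  have hden : (x - y) ^ 2 * x ^ (2 * (κ - 1)) ≤ (x ^ κ - y ^ κ) ^ 2 := by
    have h1 := off_sub_ge hκ hy hxy
    have h0 : 0 ≤ (x - y) * x ^ (κ - 1) := mul_nonneg hd.le (Real.rpow_nonneg hx0.le _)
    calc (x - y) ^ 2 * x ^ (2 * (κ - 1)) = ((x - y) * x ^ (κ - 1)) ^ 2 := by
          rw [mul_pow, ← Real.rpow_natCast (x ^ (κ - 1)) 2, ← Real.rpow_mul hx0.le]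
          congr 2
          push_cast
          ring
      _ ≤ (x ^ κ - y ^ κ) ^ 2 := pow_le_pow_left₀ h0 h1 2
  have hden0 : 0 < (x - y) ^ 2 * x ^ (2 * (κ - 1)) :=
    mul_pos (pow_pos hd 2) (Real.rpow_pos_of_pos hx0 _)
  calc x ^ ((κ - 1) / 2 + ε / 2) * y ^ ((κ - 1) / 2 + ε / 2)
        * Real.exp (-((x ^ κ + y ^ κ) * r)) / (x ^ κ - y ^ κ) ^ 2
      ≤ x ^ ((κ - 1) + ε) * (ε ^ ε * (x ^ (-(2 * ε)) * r ^ (-ε)))
          / ((x - y) ^ 2 * x ^ (2 * (κ - 1))) := by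
        apply div_le_div₀ _ _ hden0 hden
        · exact mul_nonneg (Real.rpow_nonneg hx0.le _) (mul_nonneg (Real.rpow_nonneg hε.le _)
            (mul_nonneg (Real.rpow_nonneg hx0.le _) (Real.rpow_nonneg hr.le _)))
        · exact mul_le_mul hn2 he1 (Real.exp_pos _).le (Real.rpow_nonneg hx0.le _)
    _ = ε ^ ε * r ^ (-ε) * (x ^ (-(κ - 1) - ε) * (1 / (x - y) ^ 2)) := by
        have e1 : x ^ (-(κ - 1) - ε) = x ^ ((κ - 1) + ε) * x ^ (-(2 * ε)) / x ^ (2 * (κ - 1)) := by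
          rw [← Real.rpow_add hx0, ← Real.rpow_sub hx0]
          congr 1
          ring
        rw [e1]
        have h2 : x ^ (2 * (κ - 1)) ≠ 0 := (Real.rpow_pos_of_pos hx0 _).ne'
        have h3 : (x - y) ≠ 0 := hd.ne'
        field_simp
    _ ≤ ε ^ ε * r ^ (-ε) * (x ^ (-1 - ε) * (1 / (x - y) ^ 2)) := by
        apply mul_le_mul_of_nonneg_left _ (mul_nonneg (Real.rpow_nonneg hε.le _)
          (Real.rpow_nonneg hr.le _))
        apply mul_le_mul_of_nonneg_right _ (by positivity)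
        apply Real.rpow_le_rpow_of_exponent_le hx1
        linarith

theorem off_summable_G {ε : ℝ} (hε : 0 < ε) :
    Summable fun p : ℕ × ℕ => ((p.1 : ℝ) + 1) ^ (-1 - ε) * (1 / ((p.1 : ℝ) - (p.2 : ℝ)) ^ 2) := by
  have h1 : Summable fun n : ℕ => ((n : ℝ) + 1) ^ (-1 - ε) := by
    have h := (Real.summable_nat_rpow (p := -1 - ε)).mpr (by linarith)
    have h' := (summable_nat_add_iff 1).mpr h
    refine h'.congr fun n => ?_
    push_cast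
    rfl
  have h2 : Summable fun k : ℤ => 1 / (k : ℝ) ^ 2 := Real.summable_one_div_int_pow.mpr (by norm_num)
  have h3 : Summable fun q : ℕ × ℤ => ((q.1 : ℝ) + 1) ^ (-1 - ε) * (1 / (q.2 : ℝ) ^ 2) := by
    apply Summable.mul_of_nonneg h1 h2
    · intro n
      exact Real.rpow_nonneg (by positivity) _
    · intro k
      positivity
  have hinj : Function.Injective fun p : ℕ × ℕ => ((p.1, (p.1 : ℤ) - (p.2 : ℤ)) : ℕ × ℤ) := by
    rintro ⟨a, b⟩ ⟨a', b'⟩ h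
    simp only [Prod.mk.injEq] at h
    obtain ⟨h1, h2⟩ := h
    subst h1
    have : (b : ℤ) = b' := by linarith
    simp only [Prod.mk.injEq, true_and]
    exact_mod_cast this
  have h4 := h3.comp_injective hinj
  refine h4.congr fun p => ?_
  simp only [Function.comp]
  push_cast
  rfl

theorem off_bound {κ : ℝ} (hκ : 2 ≤ κ) {c : ℕ → ℂ}
    (hc : ∀ ε : ℝ, 0 < ε → ∃ C : ℝ, ∀ n : ℕ, ‖c n‖ ≤ C * ((n : ℝ) + 1) ^ ((κ - 1) / 2 + ε)) (ε : ℝ) (hε : 0 < ε) :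
    ∃ C : ℝ, 0 < C ∧ ∀ r : ℝ, 0 < r → r ≤ 1 → Summable (offT c (fun n => ((n : ℝ) + 1) ^ κ) r) ∧
      ∑' p, offT c (fun n => ((n : ℝ) + 1) ^ κ) r p ≤ C * r ^ (-ε) := by
  obtain ⟨C, hC⟩ := hc (ε / 2) (by linarith)
  have hCn : 0 ≤ C := by
    have h0 := (norm_nonneg _).trans (hC 0)
    simpa using h0
  set G : ℕ × ℕ → ℝ := fun p => ((p.1 : ℝ) + 1) ^ (-1 - ε) * (1 / ((p.1 : ℝ) - (p.2 : ℝ)) ^ 2)
    with hG
  have hGs : Summable G := off_summable_G hε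
  have hG0 : ∀ p, 0 ≤ G p := fun p => by
    rw [hG]
    exact mul_nonneg (Real.rpow_nonneg (by positivity) _) (by positivity)
  have hpoint : ∀ r : ℝ, 0 < r → ∀ p, offT c (fun n => ((n : ℝ) + 1) ^ κ) r p
      ≤ (C ^ 2 * (ε ^ ε * r ^ (-ε))) * G p := by
    intro r hr p
    have hK : 0 ≤ C ^ 2 * (ε ^ ε * r ^ (-ε)) := mul_nonneg (by positivity)
      (mul_nonneg (Real.rpow_nonneg hε.le _) (Real.rpow_nonneg hr.le _))
    unfold offT
    by_cases hp : p.1 = p.2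
    · rw [if_pos hp]
      exact mul_nonneg hK (hG0 p)
    · rw [if_neg hp]
      have hc1 := hC p.1
      have hc2 := hC p.2
      have hx1 : (1 : ℝ) ≤ (p.1 : ℝ) + 1 := by
        have : (0 : ℝ) ≤ (p.1 : ℝ) := Nat.cast_nonneg _
        linarith
      have hy1 : (1 : ℝ) ≤ (p.2 : ℝ) + 1 := by
        have : (0 : ℝ) ≤ (p.2 : ℝ) := Nat.cast_nonneg _
        linarith
      have hnum : ‖c p.1‖ * ‖c p.2‖ ≤ C ^ 2 * ((((p.1 : ℝ) + 1) ^ ((κ - 1) / 2 + ε / 2))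
          * (((p.2 : ℝ) + 1) ^ ((κ - 1) / 2 + ε / 2))) := by
        calc ‖c p.1‖ * ‖c p.2‖ ≤ (C * ((p.1 : ℝ) + 1) ^ ((κ - 1) / 2 + ε / 2))
            * (C * ((p.2 : ℝ) + 1) ^ ((κ - 1) / 2 + ε / 2)) :=
              mul_le_mul hc1 hc2 (norm_nonneg _)
                (mul_nonneg hCn (Real.rpow_nonneg (by positivity) _))
          _ = _ := by ring
      have hstep : ‖c p.1‖ * ‖c p.2‖ * Real.exp (-((((p.1 : ℝ) + 1) ^ κ + ((p.2 : ℝ) + 1) ^ κ) * r))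
          / (((p.1 : ℝ) + 1) ^ κ - ((p.2 : ℝ) + 1) ^ κ) ^ 2
          ≤ C ^ 2 * ((((p.1 : ℝ) + 1) ^ ((κ - 1) / 2 + ε / 2))
          * (((p.2 : ℝ) + 1) ^ ((κ - 1) / 2 + ε / 2))
          * Real.exp (-((((p.1 : ℝ) + 1) ^ κ + ((p.2 : ℝ) + 1) ^ κ) * r))
          / (((p.1 : ℝ) + 1) ^ κ - ((p.2 : ℝ) + 1) ^ κ) ^ 2) := by
        rw [← mul_div_assoc, ← mul_assoc (C ^ 2)]
        apply div_le_div_of_nonneg_right _ (sq_nonneg _)
        exact mul_le_mul_of_nonneg_right hnum (Real.exp_pos _).le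
      refine hstep.trans ?_
      rw [mul_assoc (C ^ 2)]
      apply mul_le_mul_of_nonneg_left _ (sq_nonneg C)
      rcases lt_or_gt_of_ne hp with h | h
      · -- p.1 < p.2
        have hlt : (p.1 : ℝ) + 1 < (p.2 : ℝ) + 1 := by
          have : (p.1 : ℝ) < (p.2 : ℝ) := by exact_mod_cast h
          linarith
        have hm := off_main hκ hε hr hx1 hlt
        have e1 : (((p.1 : ℝ) + 1) ^ ((κ - 1) / 2 + ε / 2)) * (((p.2 : ℝ) + 1) ^ ((κ - 1) / 2 + ε / 2))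
          * Real.exp (-((((p.1 : ℝ) + 1) ^ κ + ((p.2 : ℝ) + 1) ^ κ) * r))
          / (((p.1 : ℝ) + 1) ^ κ - ((p.2 : ℝ) + 1) ^ κ) ^ 2
          = (((p.2 : ℝ) + 1) ^ ((κ - 1) / 2 + ε / 2)) * (((p.1 : ℝ) + 1) ^ ((κ - 1) / 2 + ε / 2))
          * Real.exp (-((((p.2 : ℝ) + 1) ^ κ + ((p.1 : ℝ) + 1) ^ κ) * r))
          / (((p.2 : ℝ) + 1) ^ κ - ((p.1 : ℝ) + 1) ^ κ) ^ 2 := by
          rw [mul_comm (((p.1 : ℝ) + 1) ^ ((κ - 1) / 2 + ε / 2)),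
            add_comm (((p.1 : ℝ) + 1) ^ κ), ← neg_sub (((p.2 : ℝ) + 1) ^ κ) (((p.1 : ℝ) + 1) ^ κ),
            neg_sq]
        rw [e1]
        refine hm.trans ?_
        apply mul_le_mul_of_nonneg_left _ (mul_nonneg (Real.rpow_nonneg hε.le _)
          (Real.rpow_nonneg hr.le _))
        rw [hG]
        have e2 : ((p.2 : ℝ) + 1 - ((p.1 : ℝ) + 1)) ^ 2 = ((p.1 : ℝ) - (p.2 : ℝ)) ^ 2 := by ring
        rw [e2]
        apply mul_le_mul_of_nonneg_right _ (by positivity)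
        exact Real.rpow_le_rpow_of_nonpos (by linarith) hlt.le (by linarith)
      · -- p.2 < p.1
        have hlt : (p.2 : ℝ) + 1 < (p.1 : ℝ) + 1 := by
          have : (p.2 : ℝ) < (p.1 : ℝ) := by exact_mod_cast h
          linarith
        have hm := off_main hκ hε hr hy1 hlt
        refine hm.trans (le_of_eq ?_)
        rw [hG]
        have e2 : ((p.1 : ℝ) + 1 - ((p.2 : ℝ) + 1)) ^ 2 = ((p.1 : ℝ) - (p.2 : ℝ)) ^ 2 := by ring
        rw [e2]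
  have hnn : ∀ r : ℝ, ∀ p, 0 ≤ offT c (fun n => ((n : ℝ) + 1) ^ κ) r p := by
    intro r p
    unfold offT
    split_ifs
    · exact le_rfl
    · positivity
  have hT0 : 0 ≤ ∑' p, G p := tsum_nonneg hG0
  refine ⟨C ^ 2 * ε ^ ε * (∑' p, G p) + 1, by
    have : 0 ≤ ε ^ ε := Real.rpow_nonneg hε.le _
    positivity, fun r hr _ => ?_⟩
  have hs : Summable (offT c (fun n => ((n : ℝ) + 1) ^ κ) r) :=
    Summable.of_nonneg_of_le (hnn r) (hpoint r hr) (hGs.mul_left _)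
  refine ⟨hs, ?_⟩
  have hr0 : 0 ≤ r ^ (-ε) := Real.rpow_nonneg hr.le _
  calc ∑' p, offT c (fun n => ((n : ℝ) + 1) ^ κ) r p
      ≤ ∑' p, (C ^ 2 * (ε ^ ε * r ^ (-ε))) * G p := hs.tsum_le_tsum (hpoint r hr) (hGs.mul_left _)
    _ = (C ^ 2 * (ε ^ ε * r ^ (-ε))) * ∑' p, G p := tsum_mul_left
    _ = (C ^ 2 * ε ^ ε * ∑' p, G p) * r ^ (-ε) := by ring
    _ ≤ (C ^ 2 * ε ^ ε * (∑' p, G p) + 1) * r ^ (-ε) := by
        rw [add_mul, one_mul]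
        linarith

end Pool.Agent.Helper19.BD
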