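import Pool.Agent.Helper97.BD.B4D
import Pool.Agent.Helper97.BD.B4Off
import Pool.Agent.Helper97.BD.B4Dfun

/-!
Block BD-B4T (MP_bd232a_nt, part B). Upper bound for the weighted mean square.

PROOF. Apply `mean_square_ineq` with `c n = cn a ρ η (n+1)`, `lam n = (n+1)^(1/ρ)`, `U = L = r^(ρ/(1+ρ)+1/32)`, `g₀ = exp((l - log 2π)/ρ)`, `v₀ = g₀ - 3U` (so `v = g₀ - u`, `u ∈ [U, 3U]`),
`B = C (r^(-(ρ/(1+ρ)+1/16)) + r^(-3ρ/4))` from `b4_D`; `∑' n, c n exp(-(lam n)(r - iv)) = Dfun a ρ η (r - iv)`. The off-diagonal sum: `off_bound` with `κ = 1/ρ ≥ 2`, `ε = 1/16`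
(`norm_cn` : `‖cn (n+1)‖ = ‖a(n+1)‖ (n+1)^((1/ρ-1)/2)`, `H.ram`). `‖cn(n+1)‖² = ‖a(n+1)‖² (n+1)^(1/ρ-1)`. So the left side is
`≤ 2C²(r^(-(2ρ/(1+ρ)+1/8)) + r^(-3ρ/2)) + 4 C r^(-(2ρ/(1+ρ)+1/16)) r^(-1/16)`, and for `0 < r < 1`, `0 < ρ ≤ 1/2` all exponents are `≥ -(1 - ρ²/(1+ρ) - 1/24)`:
`2ρ/(1+ρ) + 1/8 + 1/24 ≤ 1 - ρ²/(1+ρ)` iff `1/6 ≤ (1-ρ-ρ²)/(1+ρ)` (decreasing in ρ, equality at ρ = 1/2), and `3ρ/2 + ρ²/(1+ρ) + 1/24 ≤ 23/24`.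
-/

open Complex

namespace Pool.Agent.Helper19.BD

theorem b4_T {a : ℕ → ℂ} {ρ η l : ℝ} {C₃ : ℂ} (H : B4H a ρ η l C₃) : ∃ C r₀ : ℝ, 0 < C ∧ 0 < r₀ ∧
    ∀ r : ℝ, 0 < r → r < r₀ →
      ∑' n : ℕ, ‖a (n + 1)‖ ^ 2 * ((n : ℝ) + 1) ^ (1 / ρ - 1) * Real.exp (-(2 * ((n : ℝ) + 1) ^ (1 / ρ) * r))
        ≤ C * r ^ (-(1 - ρ ^ 2 / (1 + ρ) - 1 / 24)) := by
  have hρ := H.rho_pos
  have hρ2 := H.rho_le
  obtain ⟨C1, r1, hC1, hr1, hD⟩ := b4_D H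
  have hκ : (2 : ℝ) ≤ 1 / ρ := by
    rw [le_div_iff₀ hρ]; linarith
  have hc : ∀ ε : ℝ, 0 < ε → ∃ C : ℝ, ∀ n : ℕ, ‖cn a ρ η (n + 1)‖ ≤ C * ((n : ℝ) + 1) ^ ((1 / ρ - 1) / 2 + ε) := by
    intro ε hε
    obtain ⟨C, hC⟩ := H.ram ε hε
    refine ⟨C, fun n => ?_⟩
    have hn : (0 : ℝ) < (n : ℝ) + 1 := by positivity
    have h1 := hC (n + 1) (by omega)
    push_cast at h1
    rw [norm_cn a hρ η n, Real.rpow_add hn, mul_comm (((n : ℝ) + 1) ^ ((1 / ρ - 1) / 2)), ← mul_assoc]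
    exact mul_le_mul_of_nonneg_right h1 (by positivity)
  obtain ⟨C2, hC2, hoff⟩ := off_bound hκ (c := fun n => cn a ρ η (n + 1)) hc (1 / 16) (by norm_num)
  refine ⟨4 * C1 ^ 2 + 4 * C2, min r1 1, by positivity, lt_min hr1 one_pos, ?_⟩
  intro r hr hrr
  have hrr1 : r < r1 := lt_of_lt_of_le hrr (min_le_left _ _)
  have hr1' : r < 1 := lt_of_lt_of_le hrr (min_le_right _ _)
  obtain ⟨hsum, hle⟩ := hoff r hr hr1'.le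
  set U : ℝ := r ^ (ρ / (1 + ρ) + 1 / 32) with hU
  have hUpos : 0 < U := Real.rpow_pos_of_pos hr _
  set g₀ : ℝ := Real.exp ((l - Real.log (2 * Real.pi)) / ρ) with hg₀
  have hinj : Function.Injective (fun n : ℕ => ((n : ℝ) + 1) ^ (1 / ρ)) := by
    intro m n hmn
    have h1 : (0 : ℝ) ≤ (m : ℝ) + 1 := by positivity
    have h2 : (0 : ℝ) ≤ (n : ℝ) + 1 := by positivity
    have h3 : (1 / ρ : ℝ) ≠ 0 := by positivity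
    have := (Real.rpow_left_inj h1 h2 h3).mp hmn
    have h4 : (m : ℝ) = n := by linarith
    exact_mod_cast h4
  have key := mean_square_ineq (c := fun n => cn a ρ η (n + 1)) (lam := fun n : ℕ => ((n : ℝ) + 1) ^ (1 / ρ)) (r := r)
    (Dfun_summable hρ hρ2 H.ram hr) hinj hsum (L := U) (v₀ := g₀ - 3 * U)
    (B := C1 * (r ^ (-(ρ / (1 + ρ) + 1 / 16)) + r ^ (-(3 * ρ / 4)))) hUpos (by
      intro v hv1 hv2
      have h1 := hD r hr hrr1 (g₀ - v) (by linarith) (by linarith)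
      have h2 : ((Real.exp ((l - Real.log (2 * Real.pi)) / ρ) - (g₀ - v) : ℝ) : ℂ) = (v : ℂ) := by
        rw [← hg₀]; congr 1; ring
      rw [h2] at h1
      unfold Dfun at h1
      exact h1)
  have hLHS : ∑' n : ℕ, ‖cn a ρ η (n + 1)‖ ^ 2 * Real.exp (-(2 * ((n : ℝ) + 1) ^ (1 / ρ) * r)) =
      ∑' n : ℕ, ‖a (n + 1)‖ ^ 2 * ((n : ℝ) + 1) ^ (1 / ρ - 1) * Real.exp (-(2 * ((n : ℝ) + 1) ^ (1 / ρ) * r)) := by
    refine tsum_congr fun n => ?_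
    have hn : (0 : ℝ) < (n : ℝ) + 1 := by positivity
    rw [norm_cn a hρ η n, mul_pow, ← Real.rpow_natCast (((n : ℝ) + 1) ^ ((1 / ρ - 1) / 2)) 2, ← Real.rpow_mul hn.le]
    congr 3
    push_cast
    ring
  rw [← hLHS]
  refine key.trans ?_
  have hθ : ∀ x : ℝ, x ≤ 1 - ρ ^ 2 / (1 + ρ) - 1 / 24 → r ^ (-x) ≤ r ^ (-(1 - ρ ^ 2 / (1 + ρ) - 1 / 24)) := fun x hx =>
    Real.rpow_le_rpow_of_exponent_ge hr hr1'.le (by linarith)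
  have hd : (0 : ℝ) < 1 + ρ := by linarith
  have e1 : 2 * (ρ / (1 + ρ)) + 1 / 8 ≤ 1 - ρ ^ 2 / (1 + ρ) - 1 / 24 := by
    have : 0 ≤ (1 - ρ ^ 2 / (1 + ρ) - 1 / 24) - (2 * (ρ / (1 + ρ)) + 1 / 8) := by
      have h : (1 - ρ ^ 2 / (1 + ρ) - 1 / 24) - (2 * (ρ / (1 + ρ)) + 1 / 8) = ((5 / 6) * (1 + ρ) - ρ ^ 2 - 2 * ρ) / (1 + ρ) := by
        field_simp
        ring
      rw [h]
      apply div_nonneg _ hd.le
      nlinarith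
    linarith
  have e2 : 3 * ρ / 2 ≤ 1 - ρ ^ 2 / (1 + ρ) - 1 / 24 := by
    have : 0 ≤ (1 - ρ ^ 2 / (1 + ρ) - 1 / 24) - 3 * ρ / 2 := by
      have h : (1 - ρ ^ 2 / (1 + ρ) - 1 / 24) - 3 * ρ / 2 = ((23 / 24 - 3 * ρ / 2) * (1 + ρ) - ρ ^ 2) / (1 + ρ) := by
        field_simp
        ring
      rw [h]
      apply div_nonneg _ hd.le
      nlinarith
    linarith
  have b1 : (C1 * (r ^ (-(ρ / (1 + ρ) + 1 / 16)) + r ^ (-(3 * ρ / 4)))) ^ 2 ≤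
      4 * C1 ^ 2 * r ^ (-(1 - ρ ^ 2 / (1 + ρ) - 1 / 24)) := by
    have p1 : (r ^ (-(ρ / (1 + ρ) + 1 / 16))) ^ 2 ≤ r ^ (-(1 - ρ ^ 2 / (1 + ρ) - 1 / 24)) := by
      rw [← Real.rpow_natCast, ← Real.rpow_mul hr.le]
      have := hθ (2 * (ρ / (1 + ρ)) + 1 / 8) e1
      convert this using 2
      push_cast; ring
    have p2 : (r ^ (-(3 * ρ / 4))) ^ 2 ≤ r ^ (-(1 - ρ ^ 2 / (1 + ρ) - 1 / 24)) := by
      rw [← Real.rpow_natCast, ← Real.rpow_mul hr.le]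
      have := hθ (3 * ρ / 2) e2
      convert this using 2
      push_cast; ring
    have q := sq_nonneg (r ^ (-(ρ / (1 + ρ) + 1 / 16)) - r ^ (-(3 * ρ / 4)))
    have hC1s : 0 ≤ C1 ^ 2 := sq_nonneg _
    calc (C1 * (r ^ (-(ρ / (1 + ρ) + 1 / 16)) + r ^ (-(3 * ρ / 4)))) ^ 2
        = C1 ^ 2 * (r ^ (-(ρ / (1 + ρ) + 1 / 16)) + r ^ (-(3 * ρ / 4))) ^ 2 := by ring
      _ ≤ C1 ^ 2 * (4 * r ^ (-(1 - ρ ^ 2 / (1 + ρ) - 1 / 24))) := by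
          apply mul_le_mul_of_nonneg_left _ hC1s
          nlinarith
      _ = 4 * C1 ^ 2 * r ^ (-(1 - ρ ^ 2 / (1 + ρ) - 1 / 24)) := by ring
  have b2 : 4 / U ^ 2 * ∑' p, offT (fun n => cn a ρ η (n + 1)) (fun n : ℕ => ((n : ℝ) + 1) ^ (1 / ρ)) r p ≤
      4 * C2 * r ^ (-(1 - ρ ^ 2 / (1 + ρ) - 1 / 24)) := by
    have hU2 : 0 ≤ 4 / U ^ 2 := by positivity
    refine (mul_le_mul_of_nonneg_left hle hU2).trans ?_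
    have hU3 : 1 / U ^ 2 * r ^ (-(1 / 16) : ℝ) ≤ r ^ (-(1 - ρ ^ 2 / (1 + ρ) - 1 / 24)) := by
      have h3 : 1 / U ^ 2 = r ^ (-(2 * (ρ / (1 + ρ) + 1 / 32))) := by
        rw [hU, ← Real.rpow_natCast, ← Real.rpow_mul hr.le, one_div, ← Real.rpow_neg hr.le]
        congr 1; push_cast; ring
      rw [h3, ← Real.rpow_add hr]
      have := hθ (2 * (ρ / (1 + ρ)) + 1 / 8) e1
      convert this using 2
      ring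
    calc 4 / U ^ 2 * (C2 * r ^ (-(1 / 16) : ℝ)) = 4 * C2 * (1 / U ^ 2 * r ^ (-(1 / 16) : ℝ)) := by ring
      _ ≤ 4 * C2 * r ^ (-(1 - ρ ^ 2 / (1 + ρ) - 1 / 24)) := mul_le_mul_of_nonneg_left hU3 (by positivity)
  calc _ ≤ 4 * C1 ^ 2 * r ^ (-(1 - ρ ^ 2 / (1 + ρ) - 1 / 24)) + 4 * C2 * r ^ (-(1 - ρ ^ 2 / (1 + ρ) - 1 / 24)) := add_le_add b1 b2
    _ = (4 * C1 ^ 2 + 4 * C2) * r ^ (-(1 - ρ ^ 2 / (1 + ρ) - 1 / 24)) := by ring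

end Pool.Agent.Helper19.BD
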