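import Pool.Agent.Helper97.BD.B2
import Pool.Agent.Helper97.BD.B3
import Pool.Agent.Helper97.BD.B4Low
import Pool.Agent.Helper97.BD.B4T
import Pool.Agent.Helper97.BD.B4End
import Pool.Agent.Helper97.BD.B4An2

/-!
MP_bd232a_nt, part B: assembly. A factorisation of a degree 3 element of the Selberg class has a factor of degree 1 and a factor of degree 2
(or a trivial factor), and the degree 1 factor is `L(s - iη, c)` with `c` periodic.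
-/

open Complex

namespace Pool.Agent.Helper19.BD

theorem no_deg_one_threehalves {F : ℂ → ℂ} {a : ℕ → ℂ} {D : FE} (h : IsSelbergWith F a D) (h1 : 1 < D.deg) (h2 : D.deg ≤ 3 / 2) : False := by
  have hρ : 0 < D.deg - 1 := by linarith
  have hρ2 : D.deg - 1 ≤ 1 / 2 := by linarith
  obtain ⟨C₃, H⟩ := b4_app h hρ hρ2 (by ring)
  obtain ⟨c, x₀, hc, hx₀, hS⟩ := b4_S_lower H
  obtain ⟨C, r₀, _, hr₀, hT⟩ := b4_T H
  exact b4_end hρ hρ2 H.ram hc hx₀ hr₀ hS hT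

theorem partB {F F₁ F₂ : ℂ → ℂ} (hF : IsSelbergDeg F 3) (h₁ : IsSelberg F₁) (h₂ : IsSelberg F₂)
    (hfac : EqOff F (fun s => F₁ s * F₂ s)) (hn₁ : ¬ EqOff F₁ (fun _ => 1)) (hn₂ : ¬ EqOff F₂ (fun _ => 1)) :
    (IsSelbergDeg F₂ 2 ∧ ∃ (q : ℕ) (_ : NeZero q) (c : ZMod q → ℂ) (η : ℝ) (C₂ : ℂ), Deg1Form F₁ q c η C₂) ∨
    (IsSelbergDeg F₁ 2 ∧ ∃ (q : ℕ) (_ : NeZero q) (c : ZMod q → ℂ) (η : ℝ) (C₂ : ℂ), Deg1Form F₂ q c η C₂) := by
  obtain ⟨a, D, hFD, hD⟩ := hF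
  obtain ⟨a₁, D₁, hF₁⟩ := h₁
  obtain ⟨a₂, D₂, hF₂⟩ := h₂
  have hdeg := deg_mul hFD hF₁ hF₂ hfac
  rw [hD] at hdeg
  have g1 : 1 ≤ D₁.deg := by
    by_contra hlt
    exact hn₁ (deg_zero hF₁ (deg_lt_one hF₁ (not_le.mp hlt)))
  have g2 : 1 ≤ D₂.deg := by
    by_contra hlt
    exact hn₂ (deg_zero hF₂ (deg_lt_one hF₂ (not_le.mp hlt)))
  rcases le_total D₁.deg D₂.deg with hle | hle
  · left
    have h1 : D₁.deg = 1 := by
      by_contra hne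
      exact no_deg_one_threehalves hF₁ (lt_of_le_of_ne g1 (Ne.symm hne)) (by linarith)
    exact ⟨⟨a₂, D₂, hF₂, by linarith⟩, deg_one hF₁ h1⟩
  · right
    have h1 : D₂.deg = 1 := by
      by_contra hne
      exact no_deg_one_threehalves hF₂ (lt_of_le_of_ne g2 (Ne.symm hne)) (by linarith)
    exact ⟨⟨a₁, D₁, hF₁, by linarith⟩, deg_one hF₂ h1⟩

end Pool.Agent.Helper19.BD
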