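import Pool.Agent.Helper19.BD.Defs

/-!
MP_bd232a_nt, part B (classification of the elements of the Selberg class of degree `≤ 3/2`): common definitions.

* `FE.X`    : the factor of the functional equation `F(s) = X(s) conj F(1 - conj s)` (`Re s < 1`, `s ≠ 0`).
              At a pole of `Gamma (lam j s + mu j)` Lean's `x / 0 = 0` gives the value of the entire function `1/Gamma`.
* `FE.ell`  : `ℓ = - 2 log Q - 2 ∑ lam_j log lam_j`
* `FE.eta`  : `η = 2 ∑ Im mu_j`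
* `FE.cj`   : the data `(Q, lam, conj mu, conj om)` of `conj F(conj s)`.
* `ffun a k z` : `∑_{n ≥ 1} a_n n^k exp(-2 π n z)`.
* `stL b τ` : main term of `log Gamma(b + i τ)`, `τ → +∞`.
-/

open Complex

namespace Pool.Agent.Helper19.BD

noncomputable def FE.X (D : FE) (s : ℂ) : ℂ :=
  D.om * (D.Q : ℂ) ^ (1 - 2 * s) *
    ∏ j, (Gamma (D.lam j * (1 - s) + (starRingEnd ℂ) (D.mu j)) / Gamma (D.lam j * s + D.mu j))

noncomputable def FE.ell (D : FE) : ℝ := -2 * Real.log D.Q - 2 * ∑ j, D.lam j * Real.log (D.lam j)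

noncomputable def FE.eta (D : FE) : ℝ := 2 * ∑ j, (D.mu j).im

noncomputable def FE.cj (D : FE) : FE where
  Q := D.Q
  k := D.k
  lam := D.lam
  mu := fun j => (starRingEnd ℂ) (D.mu j)
  om := (starRingEnd ℂ) D.om
  hQ := D.hQ
  hlam := D.hlam
  hmu := fun j => by simpa using D.hmu j
  hom := by rw [RCLike.norm_conj]; exact D.hom

noncomputable def ffun (a : ℕ → ℂ) (k : ℕ) (z : ℂ) : ℂ :=
  ∑' n : ℕ, a (n + 1) * ((n : ℂ) + 1) ^ k * exp (-(2 * Real.pi * ((n : ℂ) + 1) * z))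

noncomputable def stL (b : ℂ) (τ : ℝ) : ℂ :=
  ((τ * (Real.log τ - 1) : ℝ) : ℂ) * I - ((Real.pi * τ / 2 : ℝ) : ℂ)
    + (b - 1 / 2) * ((Real.log τ : ℂ) + ((Real.pi / 2 : ℝ) : ℂ) * I) + ((Real.log (2 * Real.pi) / 2 : ℝ) : ℂ)

theorem FE.cj_deg (D : FE) : D.cj.deg = D.deg := rfl

theorem FE.cj_ell (D : FE) : D.cj.ell = D.ell := rfl

theorem FE.cj_eta (D : FE) : D.cj.eta = -D.eta := by
  simp only [FE.eta, FE.cj, conj_im, Finset.sum_neg_distrib, mul_neg]
  rfl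

theorem FE.cj_cj (D : FE) : D.cj.cj = D := by
  cases D; simp [FE.cj]

theorem FE.deg_nonneg (D : FE) : 0 ≤ D.deg := by
  unfold FE.deg
  have : 0 ≤ ∑ j, D.lam j := Finset.sum_nonneg fun j _ => (D.hlam j).le
  linarith

theorem FE.k_eq_zero_of_deg (D : FE) (h : D.deg = 0) : D.k = 0 := by
  by_contra hk
  have : 0 < ∑ j, D.lam j := by
    apply Finset.sum_pos (fun j _ => D.hlam j)
    exact ⟨⟨0, Nat.pos_of_ne_zero hk⟩, Finset.mem_univ _⟩
  unfold FE.deg at h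
  linarith

theorem FE.X_cj (D : FE) (s : ℂ) : D.cj.X s = (starRingEnd ℂ) (D.X ((starRingEnd ℂ) s)) := by
  unfold FE.X
  simp only [FE.cj]
  rw [map_mul, map_mul, map_prod]
  congr 1
  · congr 1
    have h : (starRingEnd ℂ) (1 - 2 * s) = 1 - 2 * (starRingEnd ℂ) s := by
      rw [map_sub, map_mul, map_one, map_ofNat]
    rw [← h, cpow_conj _ _ (by
      rw [Complex.arg_ofReal_of_nonneg D.hQ.le]; exact Real.pi_pos.ne)]
    simp
  · refine Finset.prod_congr rfl fun j _ => ?_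
    rw [map_div₀, ← Gamma_conj, ← Gamma_conj]
    simp

end Pool.Agent.Helper19.BD
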