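import Pool.Agent.Helper97.BD.Base

/-!
Block BD-S7 (MP_bd232a_nt, part B). Shift of a vertical line of integration past a compact set of singularities on the real axis.

PROOF. For `T > 1` Cauchy's theorem (`Complex.integral_boundary_rect_eq_zero_of_differentiableOn`) on the rectangles
`[σ₁, σ₂] × [1, T]` and `[σ₁, σ₂] × [-T, -1]`: the vertical pieces over `1 ≤ |t| ≤ T` differ by the four horizontal pieces; those at height
`± T` are `≤ (σ₂-σ₁) C exp(-κ T) → 0`, those at height `± 1` are `≤ (σ₂ - σ₁) B`; the vertical pieces over `|t| ≤ 1` are `≤ 2 B` each.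
(`∫ over ℝ = lim ∫_{-T}^T` by integrability: `intervalIntegral_tendsto_integral`.)
-/

open Complex MeasureTheory

namespace Pool.Agent.Helper19.BD

/-- Cauchy on one rectangle not meeting the real axis: the two vertical pieces differ by the horizontal ones. -/
theorem contour_rect {g : ℂ → ℂ} {σ₁ σ₂ a b M N : ℝ} (h12 : σ₁ ≤ σ₂) (hab : a ≤ b)
    (h0 : ∀ y : ℝ, a ≤ y → y ≤ b → y ≠ 0)
    (hg : ∀ s : ℂ, σ₁ ≤ s.re → s.re ≤ σ₂ → s.im ≠ 0 → DifferentiableAt ℂ g s)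
    (hM : ∀ s : ℂ, σ₁ ≤ s.re → s.re ≤ σ₂ → s.im = a → ‖g s‖ ≤ M)
    (hN : ∀ s : ℂ, σ₁ ≤ s.re → s.re ≤ σ₂ → s.im = b → ‖g s‖ ≤ N) :
    ‖(∫ t in a..b, g ((σ₂ : ℂ) + (t : ℂ) * I)) - ∫ t in a..b, g ((σ₁ : ℂ) + (t : ℂ) * I)‖ ≤
      (M + N) * (σ₂ - σ₁) := by
  have hre : ∀ x y : ℝ, ((x : ℂ) + (y : ℂ) * I).re = x := fun x y => by simp
  have him : ∀ x y : ℝ, ((x : ℂ) + (y : ℂ) * I).im = y := fun x y => by simp
  have H := Complex.integral_boundary_rect_eq_zero_of_differentiableOn g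
    ((σ₁ : ℂ) + (a : ℂ) * I) ((σ₂ : ℂ) + (b : ℂ) * I) (by
      intro s hs
      rw [hre, hre, him, him, Complex.mem_reProdIm, Set.uIcc_of_le h12, Set.uIcc_of_le hab] at hs
      exact (hg s hs.1.1 hs.1.2 (h0 _ hs.2.1 hs.2.2)).differentiableWithinAt)
  rw [hre, hre, him, him] at H
  have hA : ‖∫ x in σ₁..σ₂, g ((x : ℂ) + (a : ℂ) * I)‖ ≤ M * (σ₂ - σ₁) := by
    have := intervalIntegral.norm_integral_le_of_norm_le_const (a := σ₁) (b := σ₂) (C := M)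
      (f := fun x : ℝ => g ((x : ℂ) + (a : ℂ) * I)) (by
        intro x hx
        rw [Set.uIoc_of_le h12] at hx
        exact hM _ (by rw [hre]; exact hx.1.le) (by rw [hre]; exact hx.2) (him _ _))
    rwa [abs_of_nonneg (sub_nonneg.2 h12)] at this
  have hB : ‖∫ x in σ₁..σ₂, g ((x : ℂ) + (b : ℂ) * I)‖ ≤ N * (σ₂ - σ₁) := by
    have := intervalIntegral.norm_integral_le_of_norm_le_const (a := σ₁) (b := σ₂) (C := N)
      (f := fun x : ℝ => g ((x : ℂ) + (b : ℂ) * I)) (by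
        intro x hx
        rw [Set.uIoc_of_le h12] at hx
        exact hN _ (by rw [hre]; exact hx.1.le) (by rw [hre]; exact hx.2) (him _ _))
    rwa [abs_of_nonneg (sub_nonneg.2 h12)] at this
  have e1 : I * ((∫ t in a..b, g ((σ₂ : ℂ) + (t : ℂ) * I)) -
      ∫ t in a..b, g ((σ₁ : ℂ) + (t : ℂ) * I)) =
      (∫ x in σ₁..σ₂, g ((x : ℂ) + (b : ℂ) * I)) - ∫ x in σ₁..σ₂, g ((x : ℂ) + (a : ℂ) * I) := by
    simp only [smul_eq_mul] at H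
    linear_combination H
  have e2 : ‖(∫ t in a..b, g ((σ₂ : ℂ) + (t : ℂ) * I)) -
      ∫ t in a..b, g ((σ₁ : ℂ) + (t : ℂ) * I)‖ =
      ‖(∫ x in σ₁..σ₂, g ((x : ℂ) + (b : ℂ) * I)) -
        ∫ x in σ₁..σ₂, g ((x : ℂ) + (a : ℂ) * I)‖ := by
    rw [← e1, norm_mul, norm_I, one_mul]
  rw [e2]
  refine (norm_sub_le _ _).trans ?_
  linarith

theorem contour_shift {g : ℂ → ℂ} {σ₁ σ₂ C κ B : ℝ} (h12 : σ₁ ≤ σ₂) (hκ : 0 < κ)
    (hg : ∀ s : ℂ, σ₁ ≤ s.re → s.re ≤ σ₂ → s.im ≠ 0 → DifferentiableAt ℂ g s)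
    (hi1 : Integrable fun t : ℝ => g ((σ₁ : ℂ) + (t : ℂ) * I)) (hi2 : Integrable fun t : ℝ => g ((σ₂ : ℂ) + (t : ℂ) * I))
    (hdec : ∀ s : ℂ, σ₁ ≤ s.re → s.re ≤ σ₂ → 1 ≤ |s.im| → ‖g s‖ ≤ C * Real.exp (-(κ * |s.im|)))
    (hB : ∀ s : ℂ, σ₁ ≤ s.re → s.re ≤ σ₂ → |s.im| = 1 → ‖g s‖ ≤ B)
    (hB1 : ∀ t : ℝ, |t| ≤ 1 → ‖g ((σ₁ : ℂ) + (t : ℂ) * I)‖ ≤ B)
    (hB2 : ∀ t : ℝ, |t| ≤ 1 → ‖g ((σ₂ : ℂ) + (t : ℂ) * I)‖ ≤ B) :
    ‖(∫ t : ℝ, g ((σ₂ : ℂ) + (t : ℂ) * I)) - ∫ t : ℝ, g ((σ₁ : ℂ) + (t : ℂ) * I)‖ ≤ (4 + 2 * (σ₂ - σ₁)) * B := by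
  have hT1 : Filter.Tendsto (fun T : ℝ => ∫ t in (-T)..T, g ((σ₁ : ℂ) + (t : ℂ) * I)) Filter.atTop
      (nhds (∫ t : ℝ, g ((σ₁ : ℂ) + (t : ℂ) * I))) :=
    intervalIntegral_tendsto_integral hi1 Filter.tendsto_neg_atTop_atBot Filter.tendsto_id
  have hT2 : Filter.Tendsto (fun T : ℝ => ∫ t in (-T)..T, g ((σ₂ : ℂ) + (t : ℂ) * I)) Filter.atTop
      (nhds (∫ t : ℝ, g ((σ₂ : ℂ) + (t : ℂ) * I))) :=
    intervalIntegral_tendsto_integral hi2 Filter.tendsto_neg_atTop_atBot Filter.tendsto_id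
  have hlim := (hT2.sub hT1).norm
  have hexp : Filter.Tendsto (fun T : ℝ => (4 + 2 * (σ₂ - σ₁)) * B +
      2 * (σ₂ - σ₁) * (C * Real.exp (-(κ * T)))) Filter.atTop
      (nhds ((4 + 2 * (σ₂ - σ₁)) * B + 2 * (σ₂ - σ₁) * (C * 0))) := by
    refine Filter.Tendsto.const_add _ (Filter.Tendsto.const_mul _ (Filter.Tendsto.const_mul _ ?_))
    refine Real.tendsto_exp_neg_atTop_nhds_zero.comp ?_
    exact Filter.tendsto_id.const_mul_atTop hκ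
  rw [mul_zero, mul_zero, add_zero] at hexp
  refine le_of_tendsto_of_tendsto hlim hexp ?_
  filter_upwards [Filter.eventually_ge_atTop (1 : ℝ)] with T hT
  have hii1 : ∀ a b : ℝ, IntervalIntegrable (fun t : ℝ => g ((σ₁ : ℂ) + (t : ℂ) * I)) volume a b :=
    fun a b => hi1.intervalIntegrable
  have hii2 : ∀ a b : ℝ, IntervalIntegrable (fun t : ℝ => g ((σ₂ : ℂ) + (t : ℂ) * I)) volume a b :=
    fun a b => hi2.intervalIntegrable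
  have hs1 : (∫ t in (-T)..T, g ((σ₁ : ℂ) + (t : ℂ) * I)) =
      (∫ t in (-T)..(-1), g ((σ₁ : ℂ) + (t : ℂ) * I)) +
      (∫ t in (-1 : ℝ)..1, g ((σ₁ : ℂ) + (t : ℂ) * I)) +
      ∫ t in (1 : ℝ)..T, g ((σ₁ : ℂ) + (t : ℂ) * I) := by
    rw [intervalIntegral.integral_add_adjacent_intervals (hii1 _ _) (hii1 _ _),
      intervalIntegral.integral_add_adjacent_intervals (hii1 _ _) (hii1 _ _)]
  have hs2 : (∫ t in (-T)..T, g ((σ₂ : ℂ) + (t : ℂ) * I)) =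
      (∫ t in (-T)..(-1), g ((σ₂ : ℂ) + (t : ℂ) * I)) +
      (∫ t in (-1 : ℝ)..1, g ((σ₂ : ℂ) + (t : ℂ) * I)) +
      ∫ t in (1 : ℝ)..T, g ((σ₂ : ℂ) + (t : ℂ) * I) := by
    rw [intervalIntegral.integral_add_adjacent_intervals (hii2 _ _) (hii2 _ _),
      intervalIntegral.integral_add_adjacent_intervals (hii2 _ _) (hii2 _ _)]
  have hup := contour_rect (g := g) (a := 1) (b := T) (M := B) (N := C * Real.exp (-(κ * T))) h12 hT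
    (fun y h1 _ => by linarith) hg
    (fun s h1 h2 h3 => hB s h1 h2 (by rw [h3, abs_one]))
    (fun s h1 h2 h3 => by
      have h4 : |s.im| = T := by rw [h3, abs_of_nonneg (by linarith)]
      have := hdec s h1 h2 (by rw [h4]; exact hT)
      rwa [h4] at this)
  have hdn := contour_rect (g := g) (a := -T) (b := -1) (M := C * Real.exp (-(κ * T))) (N := B) h12
    (by linarith) (fun y _ h2 => by linarith) hg
    (fun s h1 h2 h3 => by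
      have h4 : |s.im| = T := by rw [h3, abs_neg, abs_of_nonneg (by linarith)]
      have := hdec s h1 h2 (by rw [h4]; exact hT)
      rwa [h4] at this)
    (fun s h1 h2 h3 => hB s h1 h2 (by rw [h3, abs_neg, abs_one]))
  have hm1 : ‖∫ t in (-1 : ℝ)..1, g ((σ₁ : ℂ) + (t : ℂ) * I)‖ ≤ 2 * B := by
    have := intervalIntegral.norm_integral_le_of_norm_le_const (a := -1) (b := 1) (C := B)
      (f := fun t : ℝ => g ((σ₁ : ℂ) + (t : ℂ) * I)) (by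
        intro x hx
        rw [Set.uIoc_of_le (by norm_num)] at hx
        exact hB1 x (abs_le.2 ⟨hx.1.le, hx.2⟩))
    have e : |(1 : ℝ) - -1| = 2 := by norm_num
    rw [e] at this
    linarith
  have hm2 : ‖∫ t in (-1 : ℝ)..1, g ((σ₂ : ℂ) + (t : ℂ) * I)‖ ≤ 2 * B := by
    have := intervalIntegral.norm_integral_le_of_norm_le_const (a := -1) (b := 1) (C := B)
      (f := fun t : ℝ => g ((σ₂ : ℂ) + (t : ℂ) * I)) (by
        intro x hx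
        rw [Set.uIoc_of_le (by norm_num)] at hx
        exact hB2 x (abs_le.2 ⟨hx.1.le, hx.2⟩))
    have e : |(1 : ℝ) - -1| = 2 := by norm_num
    rw [e] at this
    linarith
  rw [hs1, hs2]
  have e : (∫ t in (-T)..(-1), g ((σ₂ : ℂ) + (t : ℂ) * I)) +
      (∫ t in (-1 : ℝ)..1, g ((σ₂ : ℂ) + (t : ℂ) * I)) +
      (∫ t in (1 : ℝ)..T, g ((σ₂ : ℂ) + (t : ℂ) * I)) -
      ((∫ t in (-T)..(-1), g ((σ₁ : ℂ) + (t : ℂ) * I)) +
      (∫ t in (-1 : ℝ)..1, g ((σ₁ : ℂ) + (t : ℂ) * I)) +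
      ∫ t in (1 : ℝ)..T, g ((σ₁ : ℂ) + (t : ℂ) * I)) =
      ((∫ t in (-T)..(-1), g ((σ₂ : ℂ) + (t : ℂ) * I)) -
        ∫ t in (-T)..(-1), g ((σ₁ : ℂ) + (t : ℂ) * I)) +
      ((∫ t in (1 : ℝ)..T, g ((σ₂ : ℂ) + (t : ℂ) * I)) -
        ∫ t in (1 : ℝ)..T, g ((σ₁ : ℂ) + (t : ℂ) * I)) +
      ((∫ t in (-1 : ℝ)..1, g ((σ₂ : ℂ) + (t : ℂ) * I)) -
        ∫ t in (-1 : ℝ)..1, g ((σ₁ : ℂ) + (t : ℂ) * I)) := by ring
  rw [e]
  refine (norm_add_le _ _).trans ?_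
  have h5 := norm_add_le
    ((∫ t in (-T)..(-1), g ((σ₂ : ℂ) + (t : ℂ) * I)) -
        ∫ t in (-T)..(-1), g ((σ₁ : ℂ) + (t : ℂ) * I))
    ((∫ t in (1 : ℝ)..T, g ((σ₂ : ℂ) + (t : ℂ) * I)) -
        ∫ t in (1 : ℝ)..T, g ((σ₁ : ℂ) + (t : ℂ) * I))
  have h6 := norm_sub_le (∫ t in (-1 : ℝ)..1, g ((σ₂ : ℂ) + (t : ℂ) * I))
    (∫ t in (-1 : ℝ)..1, g ((σ₁ : ℂ) + (t : ℂ) * I))
  nlinarith [hup, hdn, hm1, hm2, h5, h6]

end Pool.Agent.Helper19.BD
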