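import Pool.Agent.Helper97.BD.MR

/-!
Block BD-B1 (MP_bd232a_nt, part B). There is no element of the Selberg class of degree `0 < d < 1`; degree additivity.

PROOFS.
`summable_ffun`: `‖a_n‖ ≤ C n`.
`fourier_coeff_bound`: `y ↦ ffun a k (x + i y)` is an absolutely convergent Fourier series with frequencies `-(n+1)`, so
`a_(n+1) (n+1)^k exp(-2π(n+1)x) = ∫_{y0}^{y0+1} ffun a k (x+iy) exp(2πi(n+1)y) dy` (integrate termwise), norm `≤ B`.
`coeff_decay`: let `c = N + 1/2` with `(1-d)(1/2+c) > k + 2`. For `0 < x ≤ 1`, `1 ≤ y ≤ 2`, `z = x+iy`: by `mellin_rep` (δ = 1, M = 3) and `F_left_line`/`fe_left`,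
`‖ffun a k z‖ ≤ C + (1/2π) ∫ ‖Gamma(k-c+it) X(-c+it)‖ ‖F(1+c+it)‖ (2π‖z‖)^(c-k) exp(t arg z) dt` (note `conj`: `F(-c+it) = X(-c+it) conj F(1+c+it)`), `|arg z| < π/2`,
and `GX_bound` with `σ = -c`: `‖Gamma X‖ ≤ C |t|^(d(1/2+c)+k-c-1/2) exp(-π|t|/2)`, exponent `= k - (1-d)(1/2+c) < -2` (`|t| ≥ 1`; continuous and bounded for `|t| ≤ 1`,
no pole of Gamma on the line as `c ∉ ℤ`). So `‖ffun a k z‖ ≤ B` uniformly, `fourier_coeff_bound` gives `‖a_n‖ n^k exp(-2πnx) ≤ B` for all `0 < x ≤ 1`; let `x → 0`.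
`entire_of_decay`: if all `‖a_n‖ n^k` are bounded then `LSeries a` is entire (abscissa `-∞`), `= F` off `1` (identity theorem, `eqOff_of_right`).
`norm_left`: `‖F(-1+it)‖ = ‖X(-1+it)‖ ‖F(2+it)‖` (`fe_left`), `norm_right` with `σ = 2`, `X_norm_bounds` with `σ = -1` (exponent `d (1/2+1)`).
`deg_mul`: compare `norm_left` for `F`, `F₁`, `F₂`: `t^(3d/2) ≍ t^(3(d₁+d₂)/2)` for `t → ∞`.
`deg_lt_one`: `d < 1`: by `coeff_decay` (k = 3) `‖F(-1+it)‖ = ‖LSeries a (-1+it)‖ ≤ ∑ ‖a_n‖ n < ∞`; compare with `norm_left` : `3d/2 ≤ 0`.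
-/

open Complex MeasureTheory

namespace Pool.Agent.Helper19.BD

theorem IsSelbergWith.summable_ffun {F : ℂ → ℂ} {a : ℕ → ℂ} {D : FE} (h : IsSelbergWith F a D) (k : ℕ) {x : ℝ} (hx : 0 < x) :
    Summable fun n : ℕ => ‖a (n + 1)‖ * ((n : ℝ) + 1) ^ k * Real.exp (-(2 * Real.pi * ((n : ℝ) + 1) * x)) := by
  obtain ⟨C, hC⟩ := h.ramanujan 1 one_pos
  have hs := (Real.summable_pow_mul_exp_neg_nat_mul (k + 1) (r := 2 * Real.pi * x) (by positivity)).mul_left C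
  have hs1 := (summable_nat_add_iff 1).2 hs
  refine Summable.of_nonneg_of_le (fun _ => by positivity) (fun n => ?_) hs1
  have h1 := hC (n + 1) (by omega)
  rw [Real.rpow_one] at h1
  have e : Real.exp (-(2 * Real.pi * ((n : ℝ) + 1) * x)) = Real.exp (-(2 * Real.pi * x) * ((n + 1 : ℕ) : ℝ)) := by
    congr 1; push_cast; ring
  rw [e]
  have e2 : C * (((n + 1 : ℕ) : ℝ) ^ (k + 1) * Real.exp (-(2 * Real.pi * x) * ((n + 1 : ℕ) : ℝ))) =
      (C * ((n + 1 : ℕ) : ℝ)) * ((n : ℝ) + 1) ^ k * Real.exp (-(2 * Real.pi * x) * ((n + 1 : ℕ) : ℝ)) := by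
    push_cast; ring
  rw [e2]
  gcongr

theorem fourier_coeff_bound {a : ℕ → ℂ} (k : ℕ) {x y0 B : ℝ}
    (hs : Summable fun n : ℕ => ‖a (n + 1)‖ * ((n : ℝ) + 1) ^ k * Real.exp (-(2 * Real.pi * ((n : ℝ) + 1) * x)))
    (hB : ∀ y : ℝ, y0 ≤ y → y ≤ y0 + 1 → ‖ffun a k ((x : ℂ) + (y : ℂ) * I)‖ ≤ B) (n : ℕ) :
    ‖a (n + 1)‖ * ((n : ℝ) + 1) ^ k * Real.exp (-(2 * Real.pi * ((n : ℝ) + 1) * x)) ≤ B := by
  set G : ℕ → ℝ → ℂ := fun m y => a (m + 1) * ((m : ℂ) + 1) ^ k *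
    exp (-(2 * Real.pi * ((m : ℂ) + 1) * ((x : ℂ) + (y : ℂ) * I))) *
    exp (2 * Real.pi * ((n : ℂ) + 1) * (y : ℂ) * I) with hG
  have hGnorm : ∀ m y, ‖G m y‖ = ‖a (m + 1)‖ * ((m : ℝ) + 1) ^ k * Real.exp (-(2 * Real.pi * ((m : ℝ) + 1) * x)) := by
    intro m y
    have e1 : ‖exp (-(2 * Real.pi * ((m : ℂ) + 1) * ((x : ℂ) + (y : ℂ) * I)))‖ =
        Real.exp (-(2 * Real.pi * ((m : ℝ) + 1) * x)) := by
      rw [norm_exp]; congr 1; simp
    have e2 : ‖exp (2 * Real.pi * ((n : ℂ) + 1) * (y : ℂ) * I)‖ = 1 := by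
      rw [norm_exp]; simp
    have e3 : ‖((m : ℂ) + 1) ^ k‖ = ((m : ℝ) + 1) ^ k := by
      rw [norm_pow]
      congr 1
      have : ((m : ℂ) + 1) = (((m : ℝ) + 1 : ℝ) : ℂ) := by push_cast; rfl
      rw [this, Complex.norm_of_nonneg (by positivity)]
    simp only [hG]
    rw [norm_mul, norm_mul, norm_mul, e1, e2, e3, mul_one]
  have hGcont : ∀ m, Continuous (G m) := by
    intro m
    simp only [hG]
    fun_prop
  have hsumG : ∀ y, Summable fun m => G m y := by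
    intro y
    apply Summable.of_norm
    simpa only [hGnorm] using hs
  have htsum : ∀ y : ℝ, ffun a k ((x : ℂ) + (y : ℂ) * I) * exp (2 * Real.pi * ((n : ℂ) + 1) * (y : ℂ) * I) = ∑' m, G m y := by
    intro y
    rw [ffun, ← tsum_mul_right]
  have hsum := intervalIntegral.hasSum_integral_of_dominated_convergence (μ := volume) (a := y0) (b := y0 + 1) (F := G)
    (f := fun y => ffun a k ((x : ℂ) + (y : ℂ) * I) * exp (2 * Real.pi * ((n : ℂ) + 1) * (y : ℂ) * I))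
    (fun m _ => ‖a (m + 1)‖ * ((m : ℝ) + 1) ^ k * Real.exp (-(2 * Real.pi * ((m : ℝ) + 1) * x)))
    (fun m => (hGcont m).aestronglyMeasurable)
    (fun m => Filter.Eventually.of_forall fun y _ => (hGnorm m y).le)
    (Filter.Eventually.of_forall fun _ _ => hs) intervalIntegrable_const
    (Filter.Eventually.of_forall fun y _ => by
      rw [htsum y]
      exact (hsumG y).hasSum)
  have hint : ∀ m, ∫ y in y0..(y0 + 1), G m y = if m = n then a (n + 1) * ((n : ℂ) + 1) ^ k *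
      exp (-(2 * Real.pi * ((n : ℂ) + 1) * (x : ℂ))) else 0 := by
    intro m
    have e : ∀ y : ℝ, G m y = (a (m + 1) * ((m : ℂ) + 1) ^ k * exp (-(2 * Real.pi * ((m : ℂ) + 1) * (x : ℂ)))) *
        exp ((2 * Real.pi * ((n : ℂ) - (m : ℂ)) * I) * (y : ℂ)) := by
      intro y
      have e0 : exp (-(2 * Real.pi * ((m : ℂ) + 1) * ((x : ℂ) + (y : ℂ) * I))) *
          exp (2 * Real.pi * ((n : ℂ) + 1) * (y : ℂ) * I) =
          exp (-(2 * Real.pi * ((m : ℂ) + 1) * (x : ℂ))) * exp ((2 * Real.pi * ((n : ℂ) - (m : ℂ)) * I) * (y : ℂ)) := by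
        rw [← exp_add, ← exp_add]
        congr 1
        ring
      simp only [hG]
      rw [mul_assoc, e0]
      ring
    rw [intervalIntegral.integral_congr (g := fun y : ℝ => (a (m + 1) * ((m : ℂ) + 1) ^ k *
      exp (-(2 * Real.pi * ((m : ℂ) + 1) * (x : ℂ)))) *
        exp ((2 * Real.pi * ((n : ℂ) - (m : ℂ)) * I) * (y : ℂ))) (fun y _ => e y)]
    rw [intervalIntegral.integral_const_mul]
    split_ifs with hmn
    · subst hmn
      simp
    · have hc : (2 * Real.pi * ((n : ℂ) - (m : ℂ)) * I) ≠ 0 := by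
        have h1 : ((n : ℂ) - (m : ℂ)) ≠ 0 := by
          intro h0
          apply hmn
          have : (n : ℂ) = m := sub_eq_zero.1 h0
          exact (Nat.cast_injective this).symm
        have h2 : (Real.pi : ℂ) ≠ 0 := by exact_mod_cast Real.pi_ne_zero
        simp [h1, h2, I_ne_zero]
      rw [integral_exp_mul_complex hc]
      have hper : exp ((2 * Real.pi * ((n : ℂ) - (m : ℂ)) * I) * ((y0 + 1 : ℝ) : ℂ)) =
          exp ((2 * Real.pi * ((n : ℂ) - (m : ℂ)) * I) * (y0 : ℂ)) := by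
        have : (2 * Real.pi * ((n : ℂ) - (m : ℂ)) * I) * ((y0 + 1 : ℝ) : ℂ) =
            (2 * Real.pi * ((n : ℂ) - (m : ℂ)) * I) * (y0 : ℂ) + (((n : ℤ) - (m : ℤ) : ℤ) : ℂ) * (2 * Real.pi * I) := by
          push_cast; ring
        rw [this, exp_add, exp_int_mul_two_pi_mul_I, mul_one]
      rw [hper, sub_self, zero_div, mul_zero]
  simp only [hint] at hsum
  have huniq := hsum.unique (hasSum_ite_eq n _)
  have hbound : ‖∫ y in y0..(y0 + 1), ffun a k ((x : ℂ) + (y : ℂ) * I) * exp (2 * Real.pi * ((n : ℂ) + 1) * (y : ℂ) * I)‖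
      ≤ B * |y0 + 1 - y0| := by
    refine intervalIntegral.norm_integral_le_of_norm_le_const fun y hy => ?_
    rw [Set.uIoc_of_le (by linarith)] at hy
    have e2 : ‖exp (2 * Real.pi * ((n : ℂ) + 1) * (y : ℂ) * I)‖ = 1 := by
      rw [norm_exp]; simp
    rw [norm_mul, e2, mul_one]
    exact hB y hy.1.le hy.2
  rw [huniq] at hbound
  have h1 : |y0 + 1 - y0| = 1 := by rw [add_sub_cancel_left, abs_one]
  rw [h1, mul_one] at hbound
  refine le_trans (le_of_eq ?_) hbound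
  rw [norm_mul, norm_mul, norm_pow, norm_exp]
  have : ((n : ℂ) + 1) = (((n : ℝ) + 1 : ℝ) : ℂ) := by push_cast; rfl
  rw [this, Complex.norm_of_nonneg (by positivity)]
  congr 2
  simp

lemma lz_norm_bound (c : ℝ) (k : ℕ) : ∃ K : ℝ, 0 < K ∧ ∀ z : ℂ, 0 < z.re → 1 ≤ ‖z‖ → ‖z‖ ≤ 3 → ∀ t : ℝ,
    ‖exp (-(((k : ℂ) + (((-c : ℝ) : ℂ) + (t : ℂ) * I)) * lz z))‖ ≤ K * Real.exp (Real.pi * |t| / 2) := by
  refine ⟨Real.exp (|c - k| * Real.log (2 * Real.pi * 3)), Real.exp_pos _, fun z hz hz1 hz3 t => ?_⟩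
  have hnorm : ‖((2 * Real.pi : ℝ) : ℂ) * z‖ = 2 * Real.pi * ‖z‖ := by
    rw [norm_mul, Complex.norm_of_nonneg (by positivity)]
  have hre : (lz z).re = Real.log (2 * Real.pi * ‖z‖) := by
    rw [lz, log_re, hnorm]
  have him : |(lz z).im| ≤ Real.pi / 2 := by
    rw [lz, log_im, abs_arg_le_pi_div_two_iff, re_ofReal_mul]
    positivity
  have hl0 : 0 ≤ Real.log (2 * Real.pi * ‖z‖) := by
    apply Real.log_nonneg
    have := Real.pi_gt_three
    nlinarith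
  have hl1 : Real.log (2 * Real.pi * ‖z‖) ≤ Real.log (2 * Real.pi * 3) := by
    apply Real.log_le_log (by positivity)
    gcongr
  rw [norm_exp, ← Real.exp_add]
  apply Real.exp_le_exp.2
  have e : (-(((k : ℂ) + (((-c : ℝ) : ℂ) + (t : ℂ) * I)) * lz z)).re =
      (c - k) * (lz z).re + t * (lz z).im := by
    simp
    ring
  rw [e, hre]
  have h1 : (c - k) * Real.log (2 * Real.pi * ‖z‖) ≤ |c - k| * Real.log (2 * Real.pi * 3) :=
    (mul_le_mul_of_nonneg_right (le_abs_self _) hl0).trans (mul_le_mul_of_nonneg_left hl1 (abs_nonneg _))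
  have h2 : t * (lz z).im ≤ Real.pi * |t| / 2 := by
    calc t * (lz z).im ≤ |t * (lz z).im| := le_abs_self _
      _ = |t| * |(lz z).im| := abs_mul _ _
      _ ≤ |t| * (Real.pi / 2) := by gcongr
      _ = Real.pi * |t| / 2 := by ring
  linarith

theorem IsSelbergWith.coeff_decay {F : ℂ → ℂ} {a : ℕ → ℂ} {D : FE} (h : IsSelbergWith F a D) (hd : D.deg < 1) (k : ℕ) :
    ∃ C : ℝ, ∀ n : ℕ, 1 ≤ n → ‖a n‖ * (n : ℝ) ^ k ≤ C := by
  obtain ⟨N, hN⟩ : ∃ N : ℕ, ((k : ℝ) + 2) / (1 - D.deg) < N := exists_nat_gt _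
  have hd' : 0 < 1 - D.deg := by linarith
  rw [div_lt_iff₀ hd'] at hN
  set c : ℝ := (N : ℝ) + 1 / 2 with hc
  have hcpos : 0 < c := by positivity
  have hcZ : ∀ n : ℤ, (n : ℝ) ≠ c := by
    intro n hn
    have h2 : ((2 * n : ℤ) : ℝ) = ((2 * N + 1 : ℤ) : ℝ) := by
      push_cast; rw [hn, hc]; ring
    have h3 : (2 * n : ℤ) = 2 * N + 1 := by exact_mod_cast h2
    omega
  obtain ⟨C0, hC0, hrep⟩ := mellin_rep h k c 1 3 hcpos hcZ one_pos
  obtain ⟨_, C1, _, hC1, hF1⟩ := h.norm_right (1 + c) (by linarith)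
  obtain ⟨C2, hC2, hGX⟩ := D.GX_bound k (-c) (by linarith)
  obtain ⟨K, hK, hlz⟩ := lz_norm_bound c k
  -- the middle part
  have hcontG : ContinuousOn (fun t : ℝ => ‖Gamma ((k : ℂ) + (((-c : ℝ) : ℂ) + (t : ℂ) * I)) *
      F (((-c : ℝ) : ℂ) + (t : ℂ) * I)‖) (Set.Icc (-1) 1) := by
    intro t _
    apply ContinuousAt.continuousWithinAt
    apply ContinuousAt.norm
    apply ContinuousAt.mul
    · have hd : DifferentiableAt ℂ Gamma ((k : ℂ) + (((-c : ℝ) : ℂ) + (t : ℂ) * I)) := by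
        apply differentiableAt_Gamma
        intro m hm
        have h1 := congrArg Complex.re hm
        simp at h1
        apply hcZ ((k : ℤ) + m)
        push_cast; linarith
      exact ContinuousAt.comp (f := fun t : ℝ => ((k : ℂ) + (((-c : ℝ) : ℂ) + (t : ℂ) * I)))
        hd.continuousAt (by fun_prop)
    · have hd : DifferentiableAt ℂ F (((-c : ℝ) : ℂ) + (t : ℂ) * I) := by
        apply h.differentiableAt
        intro hm
        have h1 := congrArg Complex.re hm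
        simp at h1
        linarith
      exact ContinuousAt.comp (f := fun t : ℝ => (((-c : ℝ) : ℂ) + (t : ℂ) * I))
        hd.continuousAt (by fun_prop)
  obtain ⟨C4, hC4⟩ := (isCompact_Icc (a := (-1 : ℝ)) (b := 1)).bddAbove_image hcontG
  have hC4' : ∀ t : ℝ, |t| ≤ 1 → ‖Gamma ((k : ℂ) + (((-c : ℝ) : ℂ) + (t : ℂ) * I)) *
      F (((-c : ℝ) : ℂ) + (t : ℂ) * I)‖ ≤ |C4| := fun t ht =>
    (hC4 ⟨t, abs_le.1 ht, rfl⟩).trans (le_abs_self _)
  set K' : ℝ := 2 * (C2 * C1 * K + |C4| * (K * Real.exp (Real.pi / 2))) with hK'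
  have hK'0 : 0 ≤ K' := by positivity
  have hbig : ∀ z : ℂ, 0 < z.re → 1 ≤ ‖z‖ → ‖z‖ ≤ 3 → ∀ t : ℝ,
      ‖Gamma ((k : ℂ) + (((-c : ℝ) : ℂ) + (t : ℂ) * I)) * F (((-c : ℝ) : ℂ) + (t : ℂ) * I) *
        exp (-(((k : ℂ) + (((-c : ℝ) : ℂ) + (t : ℂ) * I)) * lz z))‖ ≤ K' * (1 + t ^ 2)⁻¹ := by
    intro z hz hz1 hz3 t
    have hl := hlz z hz hz1 hz3 t
    rw [norm_mul]
    rcases le_total |t| 1 with ht | ht
    · have h1 := hC4' t ht
      have h2 : K * Real.exp (Real.pi * |t| / 2) ≤ K * Real.exp (Real.pi / 2) := by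
        gcongr
        have := Real.pi_pos
        nlinarith
      have h3 : (1 : ℝ) ≤ 2 * (1 + t ^ 2)⁻¹ := by
        rw [← div_eq_mul_inv, le_div_iff₀ (by positivity)]
        have : t ^ 2 ≤ 1 := by rw [← sq_abs]; nlinarith [abs_nonneg t]
        linarith
      calc _ ≤ |C4| * (K * Real.exp (Real.pi / 2)) := by
            gcongr
            exact hl.trans h2
        _ = (|C4| * (K * Real.exp (Real.pi / 2))) * 1 := by ring
        _ ≤ (|C4| * (K * Real.exp (Real.pi / 2))) * (2 * (1 + t ^ 2)⁻¹) := by gcongr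
        _ ≤ K' * (1 + t ^ 2)⁻¹ := by
            rw [hK']
            have : 0 ≤ C2 * C1 * K := by positivity
            have h5 : 0 ≤ (1 + t ^ 2)⁻¹ := by positivity
            nlinarith [mul_nonneg this h5]
    · have ht0 : 0 < |t| := by linarith
      have hfe : F (((-c : ℝ) : ℂ) + (t : ℂ) * I) = D.X (((-c : ℝ) : ℂ) + (t : ℂ) * I) *
          (starRingEnd ℂ) (F (1 - (starRingEnd ℂ) (((-c : ℝ) : ℂ) + (t : ℂ) * I))) := by
        apply h.fe_left
        · simp; linarith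
        · intro h0
          have h1 := congrArg Complex.re h0
          simp at h1
          linarith
      have hFb : ‖F (1 - (starRingEnd ℂ) (((-c : ℝ) : ℂ) + (t : ℂ) * I))‖ ≤ C1 := by
        apply (hF1 _ ?_).2
        simp
      have hgx := hGX t ht
      rw [hfe, ← mul_assoc, norm_mul _ ((starRingEnd ℂ) _), RCLike.norm_conj]
      have hexp : |t| ^ (D.deg * (1 / 2 - -c) + k + -c - 1 / 2) ≤ 2 * (1 + t ^ 2)⁻¹ := by
        have h1 : |t| ^ (D.deg * (1 / 2 - -c) + k + -c - 1 / 2) ≤ |t| ^ (-2 : ℝ) := by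
          apply Real.rpow_le_rpow_of_exponent_le ht
          rw [hc]
          nlinarith
        have h2 : |t| ^ (-2 : ℝ) = (t ^ 2)⁻¹ := by
          rw [Real.rpow_neg (abs_nonneg _), Real.rpow_two, sq_abs]
        rw [h2] at h1
        refine h1.trans ?_
        have ht2 : 1 ≤ t ^ 2 := by rw [← sq_abs]; nlinarith
        rw [inv_eq_one_div, ← div_eq_mul_inv, div_le_div_iff₀ (by linarith) (by positivity)]
        linarith
      calc _ ≤ (C2 * |t| ^ (D.deg * (1 / 2 - -c) + k + -c - 1 / 2) * Real.exp (-(Real.pi * |t| / 2))) * C1 *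
            (K * Real.exp (Real.pi * |t| / 2)) := by
            gcongr
        _ = (C2 * C1 * K) * |t| ^ (D.deg * (1 / 2 - -c) + k + -c - 1 / 2) *
            (Real.exp (-(Real.pi * |t| / 2)) * Real.exp (Real.pi * |t| / 2)) := by ring
        _ = (C2 * C1 * K) * |t| ^ (D.deg * (1 / 2 - -c) + k + -c - 1 / 2) := by
            rw [← Real.exp_add, neg_add_cancel, Real.exp_zero, mul_one]
        _ ≤ (C2 * C1 * K) * (2 * (1 + t ^ 2)⁻¹) := by gcongr
        _ ≤ K' * (1 + t ^ 2)⁻¹ := by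
            rw [hK']
            have : 0 ≤ |C4| * (K * Real.exp (Real.pi / 2)) := by positivity
            have h5 : 0 ≤ (1 + t ^ 2)⁻¹ := by positivity
            nlinarith [mul_nonneg this h5]
  -- uniform bound for ffun
  have hpi : (0 : ℝ) < Real.pi := Real.pi_pos
  set B : ℝ := C0 + K' with hB
  have hff : ∀ z : ℂ, 0 < z.re → 1 ≤ ‖z‖ → ‖z‖ ≤ 3 → ‖ffun a k z‖ ≤ B := by
    intro z hz hz1 hz3
    obtain ⟨hI, hE⟩ := hrep z hz hz3
    set J := ∫ t : ℝ, Gamma ((k : ℂ) + (((-c : ℝ) : ℂ) + (t : ℂ) * I)) *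
        F (((-c : ℝ) : ℂ) + (t : ℂ) * I) * exp (-(((k : ℂ) + (((-c : ℝ) : ℂ) + (t : ℂ) * I)) * lz z)) with hJ
    have hJn : ‖J‖ ≤ K' * Real.pi := by
      rw [hJ, ← integral_univ_inv_one_add_sq, ← integral_const_mul]
      exact norm_integral_le_of_norm_le (integrable_inv_one_add_sq.const_mul _)
        (Filter.Eventually.of_forall fun t => hbig z hz hz1 hz3 t)
    have h1 : C0 * ‖z‖ ^ (-(k + 1 + 1) : ℝ) ≤ C0 := by
      have : ‖z‖ ^ (-(k + 1 + 1) : ℝ) ≤ 1 := by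
        apply Real.rpow_le_one_of_one_le_of_nonpos hz1
        have : (0 : ℝ) ≤ k := Nat.cast_nonneg k
        linarith
      nlinarith
    have h2 : ‖(1 / (2 * Real.pi) : ℂ) * J‖ ≤ K' := by
      rw [norm_mul]
      have : ‖(1 / (2 * Real.pi) : ℂ)‖ = 1 / (2 * Real.pi) := by
        rw [norm_div, norm_mul, norm_one, Complex.norm_of_nonneg hpi.le]
        simp
      rw [this]
      calc 1 / (2 * Real.pi) * ‖J‖ ≤ 1 / (2 * Real.pi) * (K' * Real.pi) := by gcongr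
        _ = K' / 2 := by field_simp
        _ ≤ K' := by linarith
    calc ‖ffun a k z‖ = ‖(ffun a k z - (1 / (2 * Real.pi) : ℂ) * J) + (1 / (2 * Real.pi) : ℂ) * J‖ := by
          congr 1; ring
      _ ≤ ‖ffun a k z - (1 / (2 * Real.pi) : ℂ) * J‖ + ‖(1 / (2 * Real.pi) : ℂ) * J‖ := norm_add_le _ _
      _ ≤ C0 + K' := add_le_add (hE.trans h1) h2
  have hcoef : ∀ n : ℕ, ∀ x : ℝ, 0 < x → x ≤ 1 →
      ‖a (n + 1)‖ * ((n : ℝ) + 1) ^ k * Real.exp (-(2 * Real.pi * ((n : ℝ) + 1) * x)) ≤ B := by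
    intro n x hx0 hx1
    refine fourier_coeff_bound (y0 := 1) k (h.summable_ffun k hx0) (fun y hy1 hy2 => ?_) n
    have hre : ((x : ℂ) + (y : ℂ) * I).re = x := by simp
    have him : ((x : ℂ) + (y : ℂ) * I).im = y := by simp
    apply hff
    · rw [hre]; exact hx0
    · calc (1 : ℝ) ≤ |y| := by rw [abs_of_pos (by linarith)]; exact hy1
        _ = |((x : ℂ) + (y : ℂ) * I).im| := by rw [him]
        _ ≤ _ := abs_im_le_norm _
    · calc ‖(x : ℂ) + (y : ℂ) * I‖ ≤ |((x : ℂ) + (y : ℂ) * I).re| + |((x : ℂ) + (y : ℂ) * I).im| :=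
            Complex.norm_le_abs_re_add_abs_im _
        _ = |x| + |y| := by rw [hre, him]
        _ ≤ 3 := by
            rw [abs_of_pos hx0, abs_of_pos (by linarith)]
            linarith
  refine ⟨B, fun n hn => ?_⟩
  obtain ⟨m, rfl⟩ : ∃ m, n = m + 1 := ⟨n - 1, by omega⟩
  have hlim : Filter.Tendsto (fun x : ℝ => ‖a (m + 1)‖ * ((m : ℝ) + 1) ^ k *
      Real.exp (-(2 * Real.pi * ((m : ℝ) + 1) * x))) (nhdsWithin 0 (Set.Ioi 0))
      (nhds (‖a (m + 1)‖ * ((m : ℝ) + 1) ^ k * Real.exp (-(2 * Real.pi * ((m : ℝ) + 1) * 0)))) := by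
    apply Filter.Tendsto.mono_left _ nhdsWithin_le_nhds
    apply Continuous.tendsto
    fun_prop
  have := le_of_tendsto hlim (by
    filter_upwards [Ioo_mem_nhdsGT (show (0 : ℝ) < 1 by norm_num)] with x hx
    exact hcoef m x hx.1 hx.2.le)
  rw [mul_zero, neg_zero, Real.exp_zero, mul_one] at this
  push_cast
  exact this

theorem IsSelbergWith.entire_of_decay {F : ℂ → ℂ} {a : ℕ → ℂ} {D : FE} (h : IsSelbergWith F a D)
    (hdec : ∀ k : ℕ, ∃ C : ℝ, ∀ n : ℕ, 1 ≤ n → ‖a n‖ * (n : ℝ) ^ k ≤ C) :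
    (∀ s : ℂ, LSeriesSummable a s) ∧ ∀ s : ℂ, s ≠ 1 → F s = LSeries a s := by
  have hsum : ∀ s : ℂ, LSeriesSummable a s := by
    intro s
    obtain ⟨k, hk⟩ := exists_nat_gt (2 - s.re)
    obtain ⟨C, hC⟩ := hdec k
    apply LSeriesSummable_of_le_const_mul_rpow (x := 1 - k) (by linarith)
    refine ⟨C, fun n hn => ?_⟩
    have hn' : (0 : ℝ) < n := by exact_mod_cast Nat.pos_of_ne_zero hn
    have h1 := hC n (Nat.pos_of_ne_zero hn)
    have e : (n : ℝ) ^ ((1 : ℝ) - k - 1) = ((n : ℝ) ^ k)⁻¹ := by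
      rw [show (1 : ℝ) - k - 1 = -(k : ℝ) by ring, Real.rpow_neg hn'.le, Real.rpow_natCast]
    rw [e, ← div_eq_mul_inv, le_div_iff₀ (by positivity)]
    exact h1
  refine ⟨hsum, ?_⟩
  apply eqOff_of_right (⟨a, D, h⟩ : IsSelberg F) (G := LSeries a)
  · intro s _
    have : LSeries.abscissaOfAbsConv a < s.re := by
      refine (hsum (s - 1)).abscissaOfAbsConv_le.trans_lt ?_
      simp only [sub_re, one_re]
      exact_mod_cast (by linarith : s.re - 1 < s.re)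
    exact (LSeries_hasDerivAt this).differentiableAt
  · intro s hs
    exact h.eq s hs

theorem IsSelbergWith.norm_left {F : ℂ → ℂ} {a : ℕ → ℂ} {D : FE} (h : IsSelbergWith F a D) :
    ∃ c C T : ℝ, 0 < c ∧ 0 < C ∧ 1 ≤ T ∧ ∀ t : ℝ, T ≤ t →
      c * t ^ (3 * D.deg / 2) ≤ ‖F (-1 + (t : ℂ) * I)‖ ∧ ‖F (-1 + (t : ℂ) * I)‖ ≤ C * t ^ (3 * D.deg / 2) := by
  obtain ⟨c1, C1, hc1, hC1, h1⟩ := h.norm_right 2 (by norm_num)
  obtain ⟨c2, C2, T, hc2, hC2, hT, h2, h3⟩ := D.X_norm_bounds (-1) (by norm_num)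
  refine ⟨c2 * c1, C2 * C1, T, by positivity, by positivity, hT, fun t ht => ?_⟩
  have ht0 : 0 < t := by linarith
  have hfe : F (-1 + (t : ℂ) * I) = D.X (-1 + (t : ℂ) * I) *
      (starRingEnd ℂ) (F (1 - (starRingEnd ℂ) (-1 + (t : ℂ) * I))) := by
    apply h.fe_left
    · simp; try norm_num
    · intro h0
      have h1 := congrArg Complex.re h0
      simp at h1
  have hFb := h1 (1 - (starRingEnd ℂ) (-1 + (t : ℂ) * I)) (by simp; try norm_num)
  have e1 : (((-1 : ℝ) : ℂ) + (t : ℂ) * I) = -1 + (t : ℂ) * I := by push_cast; rfl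
  have h2' := h2 t (by rw [abs_of_pos ht0]; exact ht)
  have h3' := h3 t (by rw [abs_of_pos ht0]; linarith)
  rw [e1, abs_of_pos ht0, show D.deg * (1 / 2 - -1) = 3 * D.deg / 2 by ring] at h2' h3'
  rw [hfe, norm_mul, RCLike.norm_conj]
  have hp : 0 < t ^ (3 * D.deg / 2) := Real.rpow_pos_of_pos ht0 _
  constructor
  · calc c2 * c1 * t ^ (3 * D.deg / 2) = (c2 * t ^ (3 * D.deg / 2)) * c1 := by ring
      _ ≤ _ := by
        apply mul_le_mul h2' hFb.1 hc1.le (norm_nonneg _)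
  · calc _ ≤ (C2 * t ^ (3 * D.deg / 2)) * C1 := by
          apply mul_le_mul h3' hFb.2 (norm_nonneg _) (by positivity)
      _ = C2 * C1 * t ^ (3 * D.deg / 2) := by ring

lemma exponent_le {α β c C T : ℝ} (hc : 0 < c) (h : ∀ t : ℝ, T ≤ t → c * t ^ α ≤ C * t ^ β) : α ≤ β := by
  by_contra hlt
  push Not at hlt
  have ht := tendsto_rpow_atTop (show 0 < α - β by linarith)
  obtain ⟨t, ht1, ht2, ht3⟩ := ((Filter.tendsto_atTop.1 ht (C / c + 1)).and
    ((Filter.eventually_ge_atTop T).and (Filter.eventually_gt_atTop 0))).exists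
  have h1 := h t ht2
  have e : t ^ α = t ^ (α - β) * t ^ β := by
    rw [← Real.rpow_add ht3]; ring_nf
  rw [e, ← mul_assoc] at h1
  have h2 := le_of_mul_le_mul_right h1 (Real.rpow_pos_of_pos ht3 β)
  have h3 : c * (C / c + 1) ≤ c * t ^ (α - β) := by gcongr
  rw [mul_add, mul_div_cancel₀ _ hc.ne', mul_one] at h3
  linarith

theorem deg_mul {F F₁ F₂ : ℂ → ℂ} {a a₁ a₂ : ℕ → ℂ} {D D₁ D₂ : FE} (h : IsSelbergWith F a D) (h₁ : IsSelbergWith F₁ a₁ D₁)
    (h₂ : IsSelbergWith F₂ a₂ D₂) (hfac : EqOff F (fun s => F₁ s * F₂ s)) : D.deg = D₁.deg + D₂.deg := by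
  obtain ⟨c, C, T, hc, hC, hT, hF⟩ := h.norm_left
  obtain ⟨c1, C1, T1, hc1, hC1, hT1, hF1⟩ := h₁.norm_left
  obtain ⟨c2, C2, T2, hc2, hC2, hT2, hF2⟩ := h₂.norm_left
  have hne : ∀ t : ℝ, (-1 + (t : ℂ) * I) ≠ 1 := by
    intro t h0
    have h1 := congrArg Complex.re h0
    simp at h1
    norm_num at h1
  have hm : ∀ t : ℝ, ‖F (-1 + (t : ℂ) * I)‖ = ‖F₁ (-1 + (t : ℂ) * I)‖ * ‖F₂ (-1 + (t : ℂ) * I)‖ := by
    intro t
    rw [hfac _ (hne t), norm_mul]
  have hpow : ∀ t : ℝ, 0 < t → t ^ (3 * D₁.deg / 2) * t ^ (3 * D₂.deg / 2) = t ^ (3 * (D₁.deg + D₂.deg) / 2) := by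
    intro t ht
    rw [← Real.rpow_add ht]; ring_nf
  have l1 : 3 * D.deg / 2 ≤ 3 * (D₁.deg + D₂.deg) / 2 := by
    apply exponent_le (c := c) (C := C1 * C2) (T := max T (max T1 T2)) hc
    intro t ht
    have ht0 := (le_max_left _ _).trans ht
    have ht1 := ((le_max_left _ _).trans (le_max_right _ _)).trans ht
    have ht2 := ((le_max_right _ _).trans (le_max_right _ _)).trans ht
    have htp : 0 < t := by linarith
    calc c * t ^ (3 * D.deg / 2) ≤ ‖F (-1 + (t : ℂ) * I)‖ := (hF t ht0).1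
      _ = ‖F₁ (-1 + (t : ℂ) * I)‖ * ‖F₂ (-1 + (t : ℂ) * I)‖ := hm t
      _ ≤ (C1 * t ^ (3 * D₁.deg / 2)) * (C2 * t ^ (3 * D₂.deg / 2)) :=
          mul_le_mul (hF1 t ht1).2 (hF2 t ht2).2 (norm_nonneg _) (by positivity)
      _ = C1 * C2 * (t ^ (3 * D₁.deg / 2) * t ^ (3 * D₂.deg / 2)) := by ring
      _ = _ := by rw [hpow t htp]
  have l2 : 3 * (D₁.deg + D₂.deg) / 2 ≤ 3 * D.deg / 2 := by
    apply exponent_le (c := c1 * c2) (C := C) (T := max T (max T1 T2)) (by positivity)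
    intro t ht
    have ht0 := (le_max_left _ _).trans ht
    have ht1 := ((le_max_left _ _).trans (le_max_right _ _)).trans ht
    have ht2 := ((le_max_right _ _).trans (le_max_right _ _)).trans ht
    have htp : 0 < t := by linarith
    calc c1 * c2 * t ^ (3 * (D₁.deg + D₂.deg) / 2) =
          (c1 * t ^ (3 * D₁.deg / 2)) * (c2 * t ^ (3 * D₂.deg / 2)) := by
          rw [← hpow t htp]; ring
      _ ≤ ‖F₁ (-1 + (t : ℂ) * I)‖ * ‖F₂ (-1 + (t : ℂ) * I)‖ :=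
          mul_le_mul (hF1 t ht1).1 (hF2 t ht2).1 (by positivity) (norm_nonneg _)
      _ = ‖F (-1 + (t : ℂ) * I)‖ := (hm t).symm
      _ ≤ _ := (hF t ht0).2
  linarith

theorem deg_lt_one {F : ℂ → ℂ} {a : ℕ → ℂ} {D : FE} (h : IsSelbergWith F a D) (hd : D.deg < 1) : D.deg = 0 := by
  obtain ⟨hs, hF⟩ := h.entire_of_decay (h.coeff_decay hd)
  obtain ⟨c, C, T, hc, hC, hT, hn⟩ := h.norm_left
  have hne : ∀ t : ℝ, (-1 + (t : ℂ) * I) ≠ 1 := by
    intro t h0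
    have h1 := congrArg Complex.re h0
    simp at h1
    norm_num at h1
  have hb : ∀ t : ℝ, ‖F (-1 + (t : ℂ) * I)‖ ≤ ∑' n, ‖LSeries.term a (-1) n‖ := by
    intro t
    rw [hF _ (hne t), LSeries]
    have e : ∀ n, ‖LSeries.term a (-1 + (t : ℂ) * I) n‖ = ‖LSeries.term a (-1) n‖ := by
      intro n
      rw [LSeries.norm_term_eq, LSeries.norm_term_eq]
      simp
    refine (norm_tsum_le_tsum_norm ?_).trans (le_of_eq (tsum_congr e))
    simp only [e]
    exact (hs (-1)).norm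
  have h1 : 3 * D.deg / 2 ≤ 0 := by
    apply exponent_le (c := c) (C := ∑' n, ‖LSeries.term a (-1) n‖) (T := T) hc
    intro t ht
    rw [Real.rpow_zero, mul_one]
    exact (hn t ht).1.trans (hb t)
  have := D.deg_nonneg
  linarith

end Pool.Agent.Helper19.BD
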