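import Pool.Agent.Helper97.BD.B1
import Pool.Agent.Helper97.BD.Mult

/-!
Block BD-B2 (MP_bd232a_nt, part B). The only element of degree `0` is `1`.

PROOFS.
`bohr_unique`: if `∑ u_n exp(i θ_n t) = ∑ v_n exp(i φ_n t)` for all real `t`, absolutely summable, then the total coefficients of each frequency `ξ` agree:
multiply by `exp(-i ξ t)`, average over `[-T, T]` and let `T → ∞` (dominated convergence for series; `(1/2T)∫_{-T}^T exp(iλt) dt → 1` if `λ = 0`, else `0`).
`deg_zero`: `D.deg = 0` so `D.k = 0` (`FE.k_eq_zero_of_deg`), and by `coeff_decay`, `entire_of_decay` (B1, may be sorried) `∑ ‖a_n‖ n^(-1/2) < ∞` and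
`F(1/2+it) = ∑ a_n n^(-1/2-it)`. `D.Holds` at `s = 1/2 + it` (`1 - conj s = s`): `Q^s F(s) = om conj(Q^s F(s))`, i.e.
`∑ u_n exp(-it log n) = om ∑ conj(u_n) exp(it(log n - 2 log Q))`, `u_n = a_n n^(-1/2)`.
By `bohr_unique` with `ξ = -log m`: `u_m = om · conj(u_n)` if there is `n ≥ 1` with `m n = Q^2`, and `u_m = 0` if there is none.
`m = 1`: `u_1 = a_1 = 1 ≠ 0`, so `Q^2 = q` is a positive integer and `‖u_q‖ = 1`, i.e. `‖a_q‖ = √q`. Moreover `a_m = 0` unless `m ∣ q`.
If `q > 1`: `q = ∏ p^{e_p}` and `mult` gives `a_q = ∏ a(p^{e_p})` (`Nat.multiplicative_factorization`), `a(p^j) = 0` for `j > e_p`, so by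
`prime_power_bound` `√q = ‖a_q‖ ≤ ∏ p^(e_p θ) = q^θ < √q`, contradiction. So `q = 1`, `a_m = 0` for `m ≥ 2`, `F s = 1` for `Re s > 1` and so off `1` (`entire_of_decay`).
-/

open Complex

namespace Pool.Agent.Helper19.BD

open Filter Topology MeasureTheory in
theorem bohr_kernel_norm_le (l T : ℝ) (hT : 0 < T) :
    ‖((2 * T : ℝ) : ℂ)⁻¹ * ∫ t in (-T)..T, exp (((l * t : ℝ) : ℂ) * I)‖ ≤ 1 := by
  have h1 : ‖∫ t in (-T)..T, exp (((l * t : ℝ) : ℂ) * I)‖ ≤ 1 * |T - (-T)| := by
    apply intervalIntegral.norm_integral_le_of_norm_le_const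
    intro t _
    rw [Complex.norm_exp_ofReal_mul_I]
  have h2 : |T - (-T)| = 2 * T := by rw [abs_of_pos (by linarith)]; ring
  rw [h2, one_mul] at h1
  rw [norm_mul, norm_inv, Complex.norm_real, Real.norm_of_nonneg (by linarith)]
  rw [inv_mul_le_iff₀ (by linarith)]
  linarith

open Filter Topology MeasureTheory in
theorem bohr_kernel_tendsto (l : ℝ) :
    Tendsto (fun T : ℝ => ((2 * T : ℝ) : ℂ)⁻¹ * ∫ t in (-T)..T, exp (((l * t : ℝ) : ℂ) * I)) atTop
      (𝓝 (if l = 0 then 1 else 0)) := by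
  by_cases hl : l = 0
  · subst hl
    rw [if_pos rfl]
    apply tendsto_const_nhds.congr'
    filter_upwards [eventually_gt_atTop 0] with T hT
    simp only [zero_mul, ofReal_zero, exp_zero, intervalIntegral.integral_const]
    have : (T : ℂ) ≠ 0 := by exact_mod_cast hT.ne'
    simp
    field_simp
    ring
  · rw [if_neg hl]
    have hlC : ((l : ℂ) * I) ≠ 0 := mul_ne_zero (by exact_mod_cast hl) I_ne_zero
    have hint : ∀ T : ℝ, ∫ t in (-T)..T, exp (((l * t : ℝ) : ℂ) * I)
        = (exp ((l : ℂ) * I * T) - exp ((l : ℂ) * I * (-T : ℝ))) / ((l : ℂ) * I) := by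
      intro T
      rw [← integral_exp_mul_complex hlC]
      congr 1
      ext t
      congr 1
      push_cast
      ring
    rw [tendsto_zero_iff_norm_tendsto_zero]
    have hb : ∀ᶠ T : ℝ in atTop, ‖((2 * T : ℝ) : ℂ)⁻¹ * ∫ t in (-T)..T, exp (((l * t : ℝ) : ℂ) * I)‖
        ≤ |l|⁻¹ * T⁻¹ := by
      filter_upwards [eventually_gt_atTop 0] with T hT
      rw [hint, norm_mul, norm_inv, norm_div, Complex.norm_real, Real.norm_of_nonneg (by linarith),
        norm_mul, Complex.norm_real, Complex.norm_I, mul_one]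
      have e1 : ‖exp ((l : ℂ) * I * T) - exp ((l : ℂ) * I * (-T : ℝ))‖ ≤ 2 := by
        refine (norm_sub_le _ _).trans ?_
        have a1 : (l : ℂ) * I * T = ((l * T : ℝ) : ℂ) * I := by push_cast; ring
        have a2 : (l : ℂ) * I * (-T : ℝ) = ((l * (-T) : ℝ) : ℂ) * I := by push_cast; ring
        rw [a1, a2, Complex.norm_exp_ofReal_mul_I, Complex.norm_exp_ofReal_mul_I]
        norm_num
      have hl0 : 0 < |l| := abs_pos.mpr hl
      rw [Real.norm_eq_abs]
      calc (2 * T)⁻¹ * (‖exp ((l : ℂ) * I * T) - exp ((l : ℂ) * I * (-T : ℝ))‖ / |l|)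
          ≤ (2 * T)⁻¹ * (2 / |l|) := by gcongr
        _ = |l|⁻¹ * T⁻¹ := by field_simp
    refine squeeze_zero' (Eventually.of_forall fun T => norm_nonneg _) hb ?_
    have := (tendsto_inv_atTop_zero (𝕜 := ℝ)).const_mul (|l|⁻¹)
    simpa using this

open Filter Topology MeasureTheory in
theorem bohr_mean {w : ℕ → ℂ} {ψ : ℕ → ℝ} (hw : Summable fun n => ‖w n‖) (ξ : ℝ) :
    Tendsto (fun T : ℝ => ((2 * T : ℝ) : ℂ)⁻¹ *
      ∫ t in (-T)..T, (∑' n, w n * exp (((ψ n * t : ℝ) : ℂ) * I)) * exp (((-ξ * t : ℝ) : ℂ) * I)) atTop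
      (𝓝 (∑' n, (if ψ n = ξ then w n else 0))) := by
  have hkey : ∀ T : ℝ, 
      ∫ t in (-T)..T, (∑' n, w n * exp (((ψ n * t : ℝ) : ℂ) * I)) * exp (((-ξ * t : ℝ) : ℂ) * I)
      = ∑' n, w n * ∫ t in (-T)..T, exp ((((ψ n - ξ) * t : ℝ) : ℂ) * I) := by
    intro T
    have hs : HasSum (fun n => ∫ t in (-T)..T, w n * exp ((((ψ n - ξ) * t : ℝ) : ℂ) * I))
        (∫ t in (-T)..T, (∑' n, w n * exp (((ψ n * t : ℝ) : ℂ) * I)) * exp (((-ξ * t : ℝ) : ℂ) * I)) := by
      apply intervalIntegral.hasSum_integral_of_dominated_convergence (fun n _ => ‖w n‖)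
      · intro n
        apply Continuous.aestronglyMeasurable
        fun_prop
      · intro n
        filter_upwards with t _
        rw [norm_mul, Complex.norm_exp_ofReal_mul_I, mul_one]
      · filter_upwards with t _
        exact hw
      · exact intervalIntegrable_const
      · filter_upwards with t _
        have hs1 : Summable fun n => w n * exp (((ψ n * t : ℝ) : ℂ) * I) := by
          apply Summable.of_norm
          refine hw.congr fun n => ?_
          rw [norm_mul, Complex.norm_exp_ofReal_mul_I, mul_one]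
        have := hs1.hasSum.mul_right (exp (((-ξ * t : ℝ) : ℂ) * I))
        have h2 : (fun n => w n * exp ((((ψ n - ξ) * t : ℝ) : ℂ) * I))
            = fun n => w n * exp (((ψ n * t : ℝ) : ℂ) * I) * exp (((-ξ * t : ℝ) : ℂ) * I) := by
          funext n
          rw [mul_assoc, ← Complex.exp_add]
          congr 2
          push_cast
          ring
        rw [h2]
        exact this
    rw [← hs.tsum_eq]
    congr 1
    ext n
    exact intervalIntegral.integral_const_mul _ _
  have hT : Tendsto (fun T : ℝ => ∑' n, w n * (((2 * T : ℝ) : ℂ)⁻¹ *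
      ∫ t in (-T)..T, exp ((((ψ n - ξ) * t : ℝ) : ℂ) * I))) atTop
      (𝓝 (∑' n, (if ψ n = ξ then w n else 0))) := by
    apply tendsto_tsum_of_dominated_convergence hw
    · intro n
      have := (bohr_kernel_tendsto (ψ n - ξ)).const_mul (w n)
      convert this using 2
      by_cases h : ψ n = ξ
      · simp [h]
      · have : ψ n - ξ ≠ 0 := sub_ne_zero.mpr h
        simp [h, this]
    · filter_upwards [eventually_gt_atTop 0] with T hT n
      rw [norm_mul]
      have := bohr_kernel_norm_le (ψ n - ξ) T hT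
      calc ‖w n‖ * _ ≤ ‖w n‖ * 1 := by gcongr
        _ = ‖w n‖ := mul_one _
  refine hT.congr fun T => ?_
  rw [hkey T, ← tsum_mul_left]
  congr 1
  ext n
  ring

theorem bohr_unique {u v : ℕ → ℂ} {θ φ : ℕ → ℝ} (hu : Summable fun n => ‖u n‖) (hv : Summable fun n => ‖v n‖)
    (h : ∀ t : ℝ, ∑' n, u n * exp (((θ n * t : ℝ) : ℂ) * I) = ∑' n, v n * exp (((φ n * t : ℝ) : ℂ) * I)) (ξ : ℝ) :
    ∑' n, (if θ n = ξ then u n else 0) = ∑' n, (if φ n = ξ then v n else 0) := by
  have h1 := bohr_mean hu ξ (ψ := θ)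
  have h2 := bohr_mean hv ξ (ψ := φ)
  refine tendsto_nhds_unique h1 (h2.congr fun T => ?_)
  congr 2
  ext t
  rw [h t]

/-- relations between the coefficients given by the functional equation of degree `0` -/
theorem deg_zero_rel {F : ℂ → ℂ} {a : ℕ → ℂ} {D : FE} (h : IsSelbergWith F a D) (hd : D.deg = 0)
    (hs : ∀ s : ℂ, LSeriesSummable a s) (hF : ∀ s : ℂ, s ≠ 1 → F s = LSeries a s) (m : ℕ) (hm : 1 ≤ m) :
    (∀ n : ℕ, 1 ≤ n → (n : ℝ) * m = D.Q ^ 2 →
      a m * ((m : ℂ) ^ (1 / 2 : ℂ))⁻¹ = D.om * (starRingEnd ℂ) (a n * ((n : ℂ) ^ (1 / 2 : ℂ))⁻¹)) ∧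
    ((∀ n : ℕ, 1 ≤ n → (n : ℝ) * m ≠ D.Q ^ 2) → a m = 0) := by
  classical
  have hk : D.k = 0 := D.k_eq_zero_of_deg hd
  have hQ := D.hQ
  set u : ℕ → ℂ := fun n => LSeries.term a (1 / 2 : ℂ) n with hu
  have hunorm : Summable fun n => ‖u n‖ := (hs (1 / 2)).norm
  set v : ℕ → ℂ := fun n => D.om * (starRingEnd ℂ) (u n) with hv
  have hvnorm : Summable fun n => ‖v n‖ := by
    refine hunorm.congr fun n => ?_
    rw [hv]
    simp only [norm_mul, D.hom, one_mul, RCLike.norm_conj]
  -- term at 1/2 + it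
  have hterm : ∀ (t : ℝ) (n : ℕ), LSeries.term a (1 / 2 + (t : ℂ) * I) n
      = u n * exp (((-Real.log n * t : ℝ) : ℂ) * I) := by
    intro t n
    rcases Nat.eq_zero_or_pos n with h0 | h0
    · subst h0; simp [hu]
    · have hn0 : (n : ℂ) ≠ 0 := by exact_mod_cast h0.ne'
      rw [hu]
      simp only
      rw [LSeries.term_of_ne_zero h0.ne', LSeries.term_of_ne_zero h0.ne', cpow_add _ _ hn0, ← div_div,
        div_eq_mul_inv (a n / (n : ℂ) ^ (1 / 2 : ℂ)), cpow_def_of_ne_zero hn0 ((t : ℂ) * I), ← exp_neg]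
      congr 2
      rw [← ofReal_natCast, ← ofReal_log (by positivity)]
      push_cast
      try ring
  have hsum : ∀ t : ℝ, F (1 / 2 + (t : ℂ) * I) = ∑' n, u n * exp (((-Real.log n * t : ℝ) : ℂ) * I) := by
    intro t
    rw [hF _ (by
      intro h1
      have := congrArg Complex.re h1
      simp at this)]
    unfold LSeries
    exact tsum_congr fun n => hterm t n
  have hQ0 : (D.Q : ℂ) ≠ 0 := by exact_mod_cast hQ.ne'
  have hPhi : ∀ s : ℂ, D.Phi F s = (D.Q : ℂ) ^ s * F s := by
    intro s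
    unfold FE.Phi
    have : IsEmpty (Fin D.k) := by rw [hk]; infer_instance
    rw [Finset.univ_eq_empty, Finset.prod_empty, mul_one]
  have hid : ∀ t : ℝ, ∑' n, u n * exp (((-Real.log n * t : ℝ) : ℂ) * I)
      = ∑' n, v n * exp ((((Real.log n - 2 * Real.log D.Q) * t : ℝ) : ℂ) * I) := by
    intro t
    have h1 := h.fe (1 / 2 + (t : ℂ) * I) (by simp) (by simp; norm_num)
    rw [hPhi, hPhi] at h1
    have h2 : (1 : ℂ) - (starRingEnd ℂ) (1 / 2 + (t : ℂ) * I) = 1 / 2 + (t : ℂ) * I := by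
      simp only [map_add, map_mul, conj_I, conj_ofReal, map_div₀, map_one, map_ofNat]
      ring
    rw [h2, hsum t] at h1
    have hQs : (D.Q : ℂ) ^ (1 / 2 + (t : ℂ) * I) = ((Real.sqrt D.Q : ℝ) : ℂ) * exp (((Real.log D.Q * t : ℝ) : ℂ) * I) := by
      rw [cpow_add _ _ hQ0, cpow_def_of_ne_zero hQ0 ((t : ℂ) * I), ← ofReal_log hQ.le]
      congr 1
      · rw [Real.sqrt_eq_rpow, ofReal_cpow hQ.le]
        norm_num
      · congr 1; push_cast; ring
    rw [hQs, map_mul, map_mul, conj_ofReal, ← exp_conj, map_mul, conj_ofReal, conj_I, conj_tsum] at h1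
    have hsq : ((Real.sqrt D.Q : ℝ) : ℂ) ≠ 0 := by
      exact_mod_cast (Real.sqrt_pos.mpr hQ).ne'
    have hexp : exp (((Real.log D.Q * t : ℝ) : ℂ) * I) ≠ 0 := exp_ne_zero _
    have h3 : ∑' n, u n * exp (((-Real.log n * t : ℝ) : ℂ) * I)
        = D.om * (exp (((Real.log D.Q * t : ℝ) : ℂ) * -I) * exp (((Real.log D.Q * t : ℝ) : ℂ) * -I))
          * ∑' n, (starRingEnd ℂ) (u n * exp (((-Real.log n * t : ℝ) : ℂ) * I)) := by
      have h4 : exp (((Real.log D.Q * t : ℝ) : ℂ) * I) * exp (((Real.log D.Q * t : ℝ) : ℂ) * -I) = 1 := by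
        rw [← exp_add]; simp
      apply mul_left_cancel₀ (mul_ne_zero hsq hexp)
      rw [h1]
      linear_combination (-D.om * ((Real.sqrt D.Q : ℝ) : ℂ) * exp (((Real.log D.Q * t : ℝ) : ℂ) * -I) *
        ∑' n, (starRingEnd ℂ) (u n * exp (((-Real.log n * t : ℝ) : ℂ) * I))) * h4
    rw [h3, ← tsum_mul_left]
    refine tsum_congr fun n => ?_
    rw [hv]
    simp only [map_mul, ← exp_conj, conj_ofReal, conj_I]
    have h5 : exp (((Real.log D.Q * t : ℝ) : ℂ) * -I) * exp (((Real.log D.Q * t : ℝ) : ℂ) * -I)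
        * exp (((-Real.log n * t : ℝ) : ℂ) * -I)
        = exp ((((Real.log n - 2 * Real.log D.Q) * t : ℝ) : ℂ) * I) := by
      rw [← exp_add, ← exp_add]
      congr 1
      push_cast
      ring
    rw [← h5]
    ring
  have hu0 : u 0 = 0 := by simp [hu]
  have hv0 : v 0 = 0 := by simp [hv, hu0]
  have hbu := bohr_unique hunorm hvnorm hid (-Real.log m)
  have hm0 : (0 : ℝ) < m := by exact_mod_cast hm
  have hL : ∑' n : ℕ, (if -Real.log (n : ℝ) = -Real.log m then u n else 0) = u m := by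
    rw [tsum_eq_single m]
    · simp
    · intro n hn
      rcases Nat.eq_zero_or_pos n with h0 | h0
      · subst h0; simp [hu0]
      · rw [if_neg]
        intro h1
        apply hn
        have hn0 : (0 : ℝ) < n := by exact_mod_cast h0
        have h2 := Real.log_injOn_pos (Set.mem_Ioi.mpr hn0) (Set.mem_Ioi.mpr hm0) (neg_injective h1)
        exact_mod_cast h2
  have hcond : ∀ n : ℕ, 1 ≤ n → (Real.log n - 2 * Real.log D.Q = -Real.log m ↔ (n : ℝ) * m = D.Q ^ 2) := by
    intro n hn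
    have hn0 : (0 : ℝ) < n := by exact_mod_cast hn
    constructor
    · intro h1
      have h2 : Real.log ((n : ℝ) * m) = Real.log (D.Q ^ 2) := by
        rw [Real.log_mul hn0.ne' hm0.ne', Real.log_pow]
        push_cast
        linarith
      exact Real.log_injOn_pos (Set.mem_Ioi.mpr (by positivity)) (Set.mem_Ioi.mpr (by positivity)) h2
    · intro h1
      have h2 : Real.log ((n : ℝ) * m) = Real.log (D.Q ^ 2) := by rw [h1]
      rw [Real.log_mul hn0.ne' hm0.ne', Real.log_pow] at h2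
      push_cast at h2
      linarith
  rw [hL] at hbu
  have hun : ∀ n : ℕ, 1 ≤ n → u n = a n * ((n : ℂ) ^ (1 / 2 : ℂ))⁻¹ := by
    intro n hn
    rw [hu]
    simp only
    rw [LSeries.term_of_ne_zero (by omega), div_eq_mul_inv]
  constructor
  · intro n hn hnm
    have hR : ∑' j : ℕ, (if Real.log (j : ℝ) - 2 * Real.log D.Q = -Real.log m then v j else 0) = v n := by
      rw [tsum_eq_single n]
      · rw [if_pos ((hcond n hn).mpr hnm)]
      · intro j hj
        rcases Nat.eq_zero_or_pos j with h0 | h0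
        · subst h0; simp [hv0]
        · rw [if_neg]
          intro h1
          rw [hcond j h0, ← hnm] at h1
          apply hj
          have := mul_right_cancel₀ hm0.ne' h1
          exact_mod_cast this
    rw [hR] at hbu
    rw [← hun m hm, hbu, hv, ← hun n hn]
  · intro hno
    have hR : ∑' j : ℕ, (if Real.log (j : ℝ) - 2 * Real.log D.Q = -Real.log m then v j else 0) = 0 := by
      have hz : ∀ j : ℕ, (if Real.log (j : ℝ) - 2 * Real.log D.Q = -Real.log m then v j else 0) = 0 := by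
        intro j
        rcases Nat.eq_zero_or_pos j with h0 | h0
        · subst h0; simp [hv0]
        · rw [if_neg]
          intro h1
          exact hno j h0 ((hcond j h0).mp h1)
      rw [tsum_congr hz, tsum_zero]
    rw [hR, hun m hm] at hbu
    rcases mul_eq_zero.mp hbu with h1 | h1
    · exact h1
    · exfalso
      have hmC : (m : ℂ) ≠ 0 := by exact_mod_cast hm0.ne'
      rw [inv_eq_zero, cpow_eq_zero_iff] at h1
      exact hmC h1.1

theorem deg_zero {F : ℂ → ℂ} {a : ℕ → ℂ} {D : FE} (h : IsSelbergWith F a D) (hd : D.deg = 0) : EqOff F (fun _ => 1) := by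
  classical
  have hdec := fun k => h.coeff_decay (by rw [hd]; norm_num) k
  obtain ⟨hs, hF⟩ := h.entire_of_decay hdec
  have hrel := fun m hm => deg_zero_rel h hd hs hF m hm
  have ha1 := h.a_one
  have hQ := D.hQ
  -- Q ^ 2 is a natural number
  obtain ⟨q, hq1, hqQ⟩ : ∃ q : ℕ, 1 ≤ q ∧ (q : ℝ) = D.Q ^ 2 := by
    by_contra hcon
    push Not at hcon
    have := (hrel 1 le_rfl).2 (by
      intro n hn
      have := hcon n hn
      simpa using this)
    rw [ha1] at this
    exact one_ne_zero this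
  have hq0 : (0 : ℝ) < q := by exact_mod_cast hq1
  have hnd : ∀ m : ℕ, 1 ≤ m → ¬ m ∣ q → a m = 0 := by
    intro m hm hmq
    apply (hrel m hm).2
    intro n hn h1
    rw [← hqQ] at h1
    apply hmq
    refine ⟨n, ?_⟩
    have : ((n * m : ℕ) : ℝ) = q := by push_cast; exact h1
    rw [mul_comm]
    exact_mod_cast this.symm
  have haq : ‖a q‖ = (q : ℝ) ^ (1 / 2 : ℝ) := by
    have h1 := (hrel q hq1).1 1 le_rfl (by rw [← hqQ]; simp)
    rw [ha1] at h1
    have h2 := congrArg norm h1
    rw [norm_mul, norm_inv, norm_mul, D.hom, one_mul, RCLike.norm_conj] at h2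
    have h3 : ‖(q : ℂ) ^ (1 / 2 : ℂ)‖ = (q : ℝ) ^ (1 / 2 : ℝ) := by
      rw [← ofReal_natCast, norm_cpow_eq_rpow_re_of_pos hq0]
      norm_num
    rw [h3] at h2
    simp only [Nat.cast_one, one_cpow, inv_one, mul_one, norm_one] at h2
    have h4 : (q : ℝ) ^ (1 / 2 : ℝ) ≠ 0 := (Real.rpow_pos_of_pos hq0 _).ne'
    field_simp at h2
    exact h2
  -- q = 1
  have hqone : q = 1 := by
    by_contra hne
    have hq2 : 1 < q := by omega
    obtain ⟨θ, hθ0, hθ1, hθ⟩ := h.prime_power_bound
    have hmul : ∀ x y : ℕ, Nat.Coprime x y → a (x * y) = a x * a y := by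
      intro x y hxy
      rcases Nat.eq_zero_or_pos x with h0 | h0
      · subst h0
        have : y = 1 := by simpa using hxy
        subst this
        simp [ha1]
      · rcases Nat.eq_zero_or_pos y with h0' | h0'
        · subst h0'
          have : x = 1 := by simpa using hxy
          subst this
          simp [ha1]
        · exact h.mult h0 h0' hxy
    have hfac : a q = q.factorization.prod fun p k => a (p ^ k) :=
      Nat.multiplicative_factorization a hmul ha1 (by omega)
    have hbound : ‖a q‖ ≤ (q : ℝ) ^ θ := by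
      rw [hfac]
      unfold Finsupp.prod
      rw [norm_prod]
      have hq' : (q : ℝ) ^ θ = ∏ p ∈ q.factorization.support, (p : ℝ) ^ (q.factorization p * θ : ℝ) := by
        conv_lhs => rw [← Nat.prod_factorization_pow_eq_self (show q ≠ 0 by omega)]
        unfold Finsupp.prod
        push_cast
        rw [← Real.finset_prod_rpow _ _ (fun i _ => by positivity)]
        refine Finset.prod_congr rfl fun p _ => ?_
        rw [← Real.rpow_natCast, ← Real.rpow_mul (by positivity)]
      rw [hq']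
      refine Finset.prod_le_prod (fun _ _ => norm_nonneg _) fun p hp => ?_
      have hpp : p.Prime := Nat.prime_of_mem_primeFactors (by simpa using hp)
      apply hθ p hpp
      intro j hj
      apply hnd _ (Nat.one_le_pow _ _ hpp.pos)
      intro hdiv
      have := (hpp.pow_dvd_iff_le_factorization (show q ≠ 0 by omega)).mp hdiv
      omega
    rw [haq] at hbound
    have : (q : ℝ) ^ θ < (q : ℝ) ^ (1 / 2 : ℝ) := Real.rpow_lt_rpow_of_exponent_lt (by exact_mod_cast hq2) hθ1
    linarith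
  -- conclusion
  intro s hs1
  rw [hF s hs1]
  unfold LSeries
  rw [tsum_eq_single 1]
  · rw [LSeries.term_of_ne_zero one_ne_zero, ha1]
    simp
  · intro n hn
    rcases Nat.eq_zero_or_pos n with h0 | h0
    · subst h0; simp
    · rw [LSeries.term_of_ne_zero h0.ne', hnd n h0 (by rw [hqone]; intro h1; exact hn (Nat.dvd_one.mp h1)), zero_div]

end Pool.Agent.Helper19.BD
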