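import Pool.Agent.Helper97.BD.MellinExp
import Pool.Agent.Helper97.BD.Contour
import Pool.Agent.Helper97.BD.Growth

/-!
Block BD-MR (MP_bd232a_nt, part B). Mellin representation of `ffun a k z = ∑_{n≥1} a_n n^k exp(-2πnz)` by an integral over `Re s = -c`.
Throughout `lz z := log (2 π z)` (principal branch, `Re z > 0`), and `(2πz)^(-w)` is written `exp (-(w * lz z))`.

PROOF of `mellin_rep_right` (line `Re s = 1 + δ`): `mellin_exp` (MellinExp, may be sorried) with `σ = k + 1 + δ`, `ζ = lz z + log n`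
(`exp ζ = 2 π n z`, `|Im ζ| = |arg z| < π/2`): `exp(-2πnz) = (1/2π) ∫ Gamma(σ+it) exp(-(lz z)(σ+it)) n^{-(σ+it)} dt`; multiply by `a_n n^k`, sum over `n`;
interchange by `∑ ‖a_n‖ n^{-1-δ} < ∞` (`hasSum_integral_of_summable_integral_norm` or `integral_tsum`); `∑ a_n n^{-(1+δ+it)} = F(1+δ+it)`.
Integrability: `F` is bounded on the line (`norm_right`).

PROOF of `mellin_rep`: `contour_shift` (may be sorried) with `g s = Gamma (k+s) * F s * exp (-((k+s) * lz z))`, `σ₁ = -c`, `σ₂ = 1 + δ`.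
Decay: `Gamma_strip_bound` for `k + s`, `growth`, and `‖exp(-((k+s) lz z))‖ = (2π‖z‖)^(-(k + Re s)) exp(Im s · arg z)`, `|arg z| < π/2`.
The bound `B`: on the boundary of `[-c, 1+δ] × [-1,1]` the function `Gamma(k+s) F(s)` is continuous (no poles: `c ∉ ℤ`, `δ > 0`; so it is bounded by a
constant independent of `z`) and, as `‖z‖ ≤ M` and `-(k+Re s) ≥ -(k+1+δ)`, `(2π‖z‖)^(-(k + Re s)) ≤ C' ‖z‖^(-(k+1+δ))`, `exp(Im s · arg z) ≤ exp(π/2)`.

PROOF of `F_left_line`: `fe_left` at `s = -c + it`, `1 - conj s = 1 + c + it`.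
-/

open Complex MeasureTheory

namespace Pool.Agent.Helper19.BD

noncomputable def lz (z : ℂ) : ℂ := log (((2 * Real.pi : ℝ) : ℂ) * z)

lemma exp_lz {z : ℂ} (hz : 0 < z.re) : exp (lz z) = 2 * Real.pi * z := by
  unfold lz
  rw [exp_log]
  · push_cast; ring
  · apply mul_ne_zero
    · exact_mod_cast (by positivity : (2 * Real.pi : ℝ) ≠ 0)
    · rintro rfl; simp at hz

lemma lz_im (z : ℂ) : (lz z).im = arg z := by
  unfold lz
  rw [log_im, arg_real_mul _ (by positivity)]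

lemma lz_im_lt {z : ℂ} (hz : 0 < z.re) : |(lz z).im| < Real.pi / 2 := by
  rw [lz_im, abs_arg_lt_pi_div_two_iff]
  exact Or.inl hz

lemma lz_re (z : ℂ) : (lz z).re = Real.log (2 * Real.pi * ‖z‖) := by
  unfold lz
  rw [log_re, norm_mul, norm_real, Real.norm_of_nonneg (by positivity)]

lemma cpow_succ (n : ℕ) (s : ℂ) : (((n + 1 : ℕ) : ℂ)) ^ s = exp (s * (Real.log ((n : ℝ) + 1) : ℂ)) := by
  rw [cpow_def_of_ne_zero (by exact_mod_cast Nat.succ_ne_zero n)]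
  congr 1
  rw [ofReal_log (by positivity)]
  push_cast
  ring

lemma norm_exp_log (s : ℂ) (x : ℝ) : ‖exp (-(s * (x : ℂ)))‖ = Real.exp (-(s.re * x)) := by
  rw [norm_exp]
  congr 1
  simp

lemma summable_coeff {F : ℂ → ℂ} {a : ℕ → ℂ} {D : FE} (h : IsSelbergWith F a D) (σ : ℝ) (hσ : 1 < σ) :
    Summable fun n : ℕ => ‖a (n + 1)‖ * Real.exp (-(σ * Real.log ((n : ℝ) + 1))) := by
  have h1 := ((summable_nat_add_iff 1).2 (h.summable (σ : ℂ) (by simpa using hσ))).norm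
  refine h1.congr fun n => ?_
  rw [LSeries.term_of_ne_zero (Nat.succ_ne_zero n), norm_div, cpow_succ, norm_exp, Real.exp_neg, div_eq_mul_inv]
  congr 3
  simp

lemma F_series {F : ℂ → ℂ} {a : ℕ → ℂ} {D : FE} (h : IsSelbergWith F a D) {s : ℂ} (hs : 1 < s.re) :
    HasSum (fun n : ℕ => a (n + 1) * exp (-(s * (Real.log ((n : ℝ) + 1) : ℂ)))) (F s) := by
  have hs' := h.summable s hs
  have h1 : HasSum (fun n : ℕ => LSeries.term a s (n + 1)) (F s) := by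
    rw [h.eq s hs]
    have h2 := hs'.hasSum
    have h3 := (hasSum_nat_add_iff' 1).2 h2
    simpa [LSeries] using h3
  refine h1.congr_fun ?_
  intro n
  rw [LSeries.term_of_ne_zero (Nat.succ_ne_zero n), cpow_succ, exp_neg, div_eq_mul_inv]

lemma integrable_exp_neg_abs {κ : ℝ} (hκ : 0 < κ) : Integrable fun t : ℝ => Real.exp (-(κ * |t|)) := by
  refine (integrable_inv_one_add_sq.const_mul (1 + 2 / κ ^ 2)).mono' (by fun_prop) (ae_of_all _ fun t => ?_)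
  rw [Real.norm_of_nonneg (Real.exp_pos _).le, Real.exp_neg]
  have h1 := Real.quadratic_le_exp_of_nonneg (x := κ * |t|) (by positivity)
  have h2 : (0 : ℝ) ≤ κ * |t| := by positivity
  have h3 : 1 + κ ^ 2 * t ^ 2 / 2 ≤ Real.exp (κ * |t|) := by
    have : (κ * |t|) ^ 2 = κ ^ 2 * t ^ 2 := by rw [mul_pow, sq_abs]
    linarith
  rw [← div_eq_mul_inv, le_div_iff₀ (by positivity), inv_mul_le_iff₀ (Real.exp_pos _)]
  have h4 : (1 + t ^ 2) ≤ (1 + κ ^ 2 * t ^ 2 / 2) * (1 + 2 / κ ^ 2) := by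
    have : (1 + κ ^ 2 * t ^ 2 / 2) * (1 + 2 / κ ^ 2) = 1 + t ^ 2 + 2 / κ ^ 2 + κ ^ 2 * t ^ 2 / 2 := by
      field_simp; ring
    rw [this]
    have h5 : 0 ≤ 2 / κ ^ 2 := by positivity
    have h6 : 0 ≤ κ ^ 2 * t ^ 2 / 2 := by positivity
    linarith
  refine h4.trans ?_
  gcongr

theorem mellin_rep_right {F : ℂ → ℂ} {a : ℕ → ℂ} {D : FE} (h : IsSelbergWith F a D) (k : ℕ) (δ : ℝ) (hδ : 0 < δ) (z : ℂ) (hz : 0 < z.re) :
    Integrable (fun t : ℝ => Gamma ((k : ℂ) + (((1 + δ : ℝ) : ℂ) + (t : ℂ) * I)) * F (((1 + δ : ℝ) : ℂ) + (t : ℂ) * I) *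
      exp (-(((k : ℂ) + (((1 + δ : ℝ) : ℂ) + (t : ℂ) * I)) * lz z))) ∧
    ffun a k z = (1 / (2 * Real.pi) : ℂ) * ∫ t : ℝ, Gamma ((k : ℂ) + (((1 + δ : ℝ) : ℂ) + (t : ℂ) * I)) *
      F (((1 + δ : ℝ) : ℂ) + (t : ℂ) * I) * exp (-(((k : ℂ) + (((1 + δ : ℝ) : ℂ) + (t : ℂ) * I)) * lz z)) := by
  have hσ : (0 : ℝ) < (k : ℝ) + 1 + δ := by positivity
  have harg : ∀ t : ℝ, (((k : ℝ) + 1 + δ : ℝ) : ℂ) + (t : ℂ) * I = (k : ℂ) + (((1 + δ : ℝ) : ℂ) + (t : ℂ) * I) := by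
    intro t; push_cast; ring
  set W : ℝ → ℂ := fun t => Gamma ((k : ℂ) + (((1 + δ : ℝ) : ℂ) + (t : ℂ) * I)) *
    exp (-(((k : ℂ) + (((1 + δ : ℝ) : ℂ) + (t : ℂ) * I)) * lz z)) with hWdef
  have hW : Integrable W := by
    refine (mellin_exp _ hσ (lz z) (lz_im_lt hz)).1.congr (ae_of_all _ fun t => ?_)
    simp only [harg, hWdef]
    rw [mul_comm (lz z)]
  have hre : ∀ t : ℝ, (((1 + δ : ℝ) : ℂ) + (t : ℂ) * I).re = 1 + δ := fun t => by simp
  set T : ℕ → ℝ → ℂ := fun n t => W t * (a (n + 1) *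
    exp (-((((1 + δ : ℝ) : ℂ) + (t : ℂ) * I) * (Real.log ((n : ℝ) + 1) : ℂ)))) with hTdef
  have hTn : ∀ (n : ℕ) (t : ℝ), ‖a (n + 1) * exp (-((((1 + δ : ℝ) : ℂ) + (t : ℂ) * I) * (Real.log ((n : ℝ) + 1) : ℂ)))‖ =
      ‖a (n + 1)‖ * Real.exp (-((1 + δ) * Real.log ((n : ℝ) + 1))) := by
    intro n t
    rw [norm_mul, norm_exp_log, hre]
  have hTint : ∀ n, Integrable (T n) := by
    intro n
    refine hW.mul_bdd (c := ‖a (n + 1)‖ * Real.exp (-((1 + δ) * Real.log ((n : ℝ) + 1)))) ?_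
      (ae_of_all _ fun t => (hTn n t).le)
    exact (by fun_prop : Continuous fun t : ℝ => a (n + 1) *
      exp (-((((1 + δ : ℝ) : ℂ) + (t : ℂ) * I) * (Real.log ((n : ℝ) + 1) : ℂ)))).aestronglyMeasurable
  have hTsum : Summable fun n => ∫ t, ‖T n t‖ := by
    have h1 : ∀ n, ∫ t, ‖T n t‖ = (∫ t, ‖W t‖) * (‖a (n + 1)‖ * Real.exp (-((1 + δ) * Real.log ((n : ℝ) + 1)))) := by
      intro n
      rw [← integral_mul_const]
      refine integral_congr_ae (ae_of_all _ fun t => ?_)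
      simp only [hTdef]
      rw [norm_mul, hTn]
    simp only [h1]
    exact (summable_coeff h (1 + δ) (by linarith)).mul_left _
  have hsum := hasSum_integral_of_summable_integral_norm hTint hTsum
  have hT : ∀ t, ∑' n, T n t = W t * F (((1 + δ : ℝ) : ℂ) + (t : ℂ) * I) := by
    intro t
    exact ((F_series h (by rw [hre]; linarith)).mul_left (W t)).tsum_eq
  have hcont : Continuous fun t : ℝ => F (((1 + δ : ℝ) : ℂ) + (t : ℂ) * I) := by
    rw [continuous_iff_continuousAt]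
    intro t
    have hne : (((1 + δ : ℝ) : ℂ) + (t : ℂ) * I) ≠ 1 := by
      intro h0
      have := congrArg Complex.re h0
      rw [hre] at this
      simp at this
      linarith
    exact ContinuousAt.comp (f := fun t : ℝ => (((1 + δ : ℝ) : ℂ) + (t : ℂ) * I))
      (h.differentiableAt hne).continuousAt (by fun_prop)
  obtain ⟨_, C, _, _, hC⟩ := h.norm_right (1 + δ) (by linarith)
  have hWF : Integrable fun t : ℝ => W t * F (((1 + δ : ℝ) : ℂ) + (t : ℂ) * I) :=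
    hW.mul_bdd (c := C) hcont.aestronglyMeasurable (ae_of_all _ fun t => (hC _ (by rw [hre])).2)
  have hform : ∀ t : ℝ, Gamma ((k : ℂ) + (((1 + δ : ℝ) : ℂ) + (t : ℂ) * I)) * F (((1 + δ : ℝ) : ℂ) + (t : ℂ) * I) *
      exp (-(((k : ℂ) + (((1 + δ : ℝ) : ℂ) + (t : ℂ) * I)) * lz z)) = W t * F (((1 + δ : ℝ) : ℂ) + (t : ℂ) * I) := by
    intro t; simp only [hWdef]; ring
  simp only [hform]
  refine ⟨hWF, ?_⟩
  have hterm : ∀ n : ℕ, a (n + 1) * ((n : ℂ) + 1) ^ k * exp (-(2 * Real.pi * ((n : ℂ) + 1) * z)) =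
      (1 / (2 * Real.pi) : ℂ) * ∫ t, T n t := by
    intro n
    have hpos : (0 : ℝ) < (n : ℝ) + 1 := by positivity
    have hexpL : exp ((Real.log ((n : ℝ) + 1) : ℂ)) = (n : ℂ) + 1 := by
      rw [← ofReal_exp, Real.exp_log hpos]; push_cast; ring
    have hexpk : exp (-((k : ℂ) * (Real.log ((n : ℝ) + 1) : ℂ))) * ((n : ℂ) + 1) ^ k = 1 := by
      rw [exp_neg, exp_nat_mul, hexpL]
      apply inv_mul_cancel₀
      apply pow_ne_zero
      exact_mod_cast hpos.ne'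
    have him : |(lz z + (Real.log ((n : ℝ) + 1) : ℂ)).im| < Real.pi / 2 := by
      rw [add_im, ofReal_im, add_zero]; exact lz_im_lt hz
    have h1 := (mellin_exp _ hσ (lz z + (Real.log ((n : ℝ) + 1) : ℂ)) him).2
    rw [exp_add, exp_lz hz, hexpL] at h1
    rw [show -(2 * Real.pi * ((n : ℂ) + 1) * z) = -(2 * Real.pi * z * ((n : ℂ) + 1)) by ring, ← h1]
    rw [mul_left_comm, mul_assoc, ← mul_assoc (a (n+1)), ← integral_const_mul]
    congr 1
    refine integral_congr_ae (ae_of_all _ fun t => ?_)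
    simp only [hTdef, hWdef, harg]
    have e1 : exp (-((lz z + (Real.log ((n : ℝ) + 1) : ℂ)) * ((k : ℂ) + (((1 + δ : ℝ) : ℂ) + (t : ℂ) * I)))) =
        exp (-(((k : ℂ) + (((1 + δ : ℝ) : ℂ) + (t : ℂ) * I)) * lz z)) *
        (exp (-((k : ℂ) * (Real.log ((n : ℝ) + 1) : ℂ))) *
        exp (-((((1 + δ : ℝ) : ℂ) + (t : ℂ) * I) * (Real.log ((n : ℝ) + 1) : ℂ)))) := by
      rw [← exp_add, ← exp_add]; congr 1; ring
    rw [e1]
    linear_combination (a (n + 1) * Gamma ((k : ℂ) + (((1 + δ : ℝ) : ℂ) + (t : ℂ) * I)) *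
      exp (-(((k : ℂ) + (((1 + δ : ℝ) : ℂ) + (t : ℂ) * I)) * lz z)) *
      exp (-((((1 + δ : ℝ) : ℂ) + (t : ℂ) * I) * (Real.log ((n : ℝ) + 1) : ℂ)))) * hexpk
  unfold ffun
  simp only [hterm]
  rw [tsum_mul_left, hsum.tsum_eq]
  simp only [hT]

lemma exp_lz_norm (k : ℕ) (s z : ℂ) (hz : 0 < z.re) :
    ‖exp (-(((k : ℂ) + s) * lz z))‖ = (2 * Real.pi * ‖z‖) ^ (-((k : ℝ) + s.re)) * Real.exp (s.im * arg z) := by
  have hz0 : 0 < ‖z‖ := norm_pos_iff.2 (by rintro rfl; simp at hz)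
  rw [norm_exp, Real.rpow_def_of_pos (by positivity), ← Real.exp_add]
  congr 1
  rw [neg_re, mul_re, lz_re, lz_im]
  simp only [add_re, add_im, natCast_re, natCast_im]
  ring

lemma Gamma_ne_pole {s : ℂ} (k : ℕ) (hs : s.im ≠ 0) (m : ℕ) : (k : ℂ) + s ≠ -m := by
  intro h
  apply hs
  have := congrArg Complex.im h
  simpa using this

/-- the function `Γ(k+s) F(s)` away from its poles -/
lemma GF_diff {F : ℂ → ℂ} {a : ℕ → ℂ} {D : FE} (h : IsSelbergWith F a D) (k : ℕ) {s : ℂ} (h1 : s ≠ 1)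
    (h2 : ∀ m : ℕ, (k : ℂ) + s ≠ -m) : DifferentiableAt ℂ (fun s => Gamma ((k : ℂ) + s) * F s) s := by
  refine DifferentiableAt.mul ?_ (h.differentiableAt h1)
  exact (differentiableAt_Gamma _ h2).comp s (by fun_prop)

theorem mellin_rep {F : ℂ → ℂ} {a : ℕ → ℂ} {D : FE} (h : IsSelbergWith F a D) (k : ℕ) (c δ M : ℝ) (hc : 0 < c)
    (hcZ : ∀ n : ℤ, (n : ℝ) ≠ c) (hδ : 0 < δ) :
    ∃ C : ℝ, 0 < C ∧ ∀ z : ℂ, 0 < z.re → ‖z‖ ≤ M →
      Integrable (fun t : ℝ => Gamma ((k : ℂ) + (((-c : ℝ) : ℂ) + (t : ℂ) * I)) * F (((-c : ℝ) : ℂ) + (t : ℂ) * I) *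
        exp (-(((k : ℂ) + (((-c : ℝ) : ℂ) + (t : ℂ) * I)) * lz z))) ∧
      ‖ffun a k z - (1 / (2 * Real.pi) : ℂ) * ∫ t : ℝ, Gamma ((k : ℂ) + (((-c : ℝ) : ℂ) + (t : ℂ) * I)) *
        F (((-c : ℝ) : ℂ) + (t : ℂ) * I) * exp (-(((k : ℂ) + (((-c : ℝ) : ℂ) + (t : ℂ) * I)) * lz z))‖
        ≤ C * ‖z‖ ^ (-(k + 1 + δ) : ℝ) := by
  -- line points
  have hre : ∀ σ t : ℝ, ((σ : ℂ) + (t : ℂ) * I).re = σ := fun σ t => by simp
  have him : ∀ σ t : ℝ, ((σ : ℂ) + (t : ℂ) * I).im = t := fun σ t => by simp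
  -- poles
  have hpole_left : ∀ t : ℝ, ∀ m : ℕ, (k : ℂ) + (((-c : ℝ) : ℂ) + (t : ℂ) * I) ≠ -m := by
    intro t m h0
    have h1 := congrArg Complex.re h0
    rw [add_re, hre] at h1
    simp only [natCast_re, neg_re] at h1
    refine hcZ ((k : ℤ) + (m : ℤ)) ?_
    push_cast
    linarith
  have hpole_right : ∀ t : ℝ, ∀ m : ℕ, (k : ℂ) + (((1 + δ : ℝ) : ℂ) + (t : ℂ) * I) ≠ -m := by
    intro t m h0
    have h1 := congrArg Complex.re h0
    rw [add_re, hre] at h1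
    simp only [natCast_re, neg_re] at h1
    have h2 : (0 : ℝ) ≤ k := Nat.cast_nonneg k
    have h3 : (0 : ℝ) ≤ m := Nat.cast_nonneg m
    linarith
  have hne_left : ∀ t : ℝ, (((-c : ℝ) : ℂ) + (t : ℂ) * I) ≠ 1 := by
    intro t h0
    have h1 := congrArg Complex.re h0
    rw [hre] at h1
    simp at h1
    linarith
  have hne_right : ∀ t : ℝ, (((1 + δ : ℝ) : ℂ) + (t : ℂ) * I) ≠ 1 := by
    intro t h0
    have h1 := congrArg Complex.re h0
    rw [hre] at h1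
    simp at h1
    linarith
  have hne_im : ∀ s : ℂ, s.im ≠ 0 → s ≠ 1 := by
    rintro s hs rfl
    simp at hs
  -- compact boundary
  set Hf : ℂ → ℂ := fun s => Gamma ((k : ℂ) + s) * F s with hHf
  have hcompact : ∃ B₀ : ℝ, ∀ s : ℂ,
      ((-c ≤ s.re ∧ s.re ≤ 1 + δ ∧ |s.im| = 1) ∨ (s.re = -c ∧ |s.im| ≤ 1) ∨ (s.re = 1 + δ ∧ |s.im| ≤ 1)) →
        ‖Hf s‖ ≤ B₀ := by
    have hK : IsCompact {s : ℂ | (-c ≤ s.re ∧ s.re ≤ 1 + δ ∧ |s.im| = 1) ∨ (s.re = -c ∧ |s.im| ≤ 1) ∨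
        (s.re = 1 + δ ∧ |s.im| ≤ 1)} := by
      apply Metric.isCompact_of_isClosed_isBounded
      · refine IsClosed.union ?_ (IsClosed.union ?_ ?_)
        · exact (isClosed_le continuous_const continuous_re).inter
            ((isClosed_le continuous_re continuous_const).inter
              (isClosed_eq (continuous_abs.comp continuous_im) continuous_const))
        · exact (isClosed_eq continuous_re continuous_const).inter
            (isClosed_le (continuous_abs.comp continuous_im) continuous_const)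
        · exact (isClosed_eq continuous_re continuous_const).inter
            (isClosed_le (continuous_abs.comp continuous_im) continuous_const)
      · refine (Metric.isBounded_closedBall (x := (0 : ℂ)) (r := (1 + δ + c) + 1)).subset ?_
        intro s hs
        rw [mem_closedBall_zero_iff]
        refine (norm_le_abs_re_add_abs_im s).trans ?_
        have h1 : |s.re| ≤ 1 + δ + c := by
          rw [abs_le]
          rcases hs with ⟨h1, h2, _⟩ | ⟨h1, _⟩ | ⟨h1, _⟩ <;> constructor <;> linarith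
        have h2 : |s.im| ≤ 1 := by
          rcases hs with ⟨_, _, h2⟩ | ⟨_, h2⟩ | ⟨_, h2⟩
          · exact h2.le
          · exact h2
          · exact h2
        linarith
    have hcont : ContinuousOn Hf {s : ℂ | (-c ≤ s.re ∧ s.re ≤ 1 + δ ∧ |s.im| = 1) ∨ (s.re = -c ∧ |s.im| ≤ 1) ∨
        (s.re = 1 + δ ∧ |s.im| ≤ 1)} := by
      intro s hs
      have hs' : s = (s.re : ℂ) + (s.im : ℂ) * I := (re_add_im s).symm
      refine (GF_diff h k ?_ ?_).continuousAt.continuousWithinAt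
      · rcases hs with ⟨_, _, h2⟩ | ⟨h1, _⟩ | ⟨h1, _⟩
        · exact hne_im s (by intro h0; rw [h0] at h2; simp at h2)
        · rw [hs', h1]; exact hne_left _
        · rw [hs', h1]; exact hne_right _
      · rcases hs with ⟨_, _, h2⟩ | ⟨h1, _⟩ | ⟨h1, _⟩
        · exact Gamma_ne_pole k (by intro h0; rw [h0] at h2; simp at h2)
        · rw [hs', h1]; exact hpole_left _
        · rw [hs', h1]; exact hpole_right _
    obtain ⟨B₀, hB₀⟩ := hK.exists_bound_of_continuousOn hcont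
    exact ⟨B₀, fun s hs => hB₀ s hs⟩
  obtain ⟨B₀, hB₀⟩ := hcompact
  -- decay
  obtain ⟨Cg, Ag, hCg, hAg, hg⟩ := Gamma_strip_bound ((k : ℝ) - c) ((k : ℝ) + (1 + δ))
  obtain ⟨Cf, Af, hCf, hAf, hf⟩ := h.growth (-c) (1 + δ)
  set R : ℝ := max 1 (2 * Real.pi * M) with hR
  have hR1 : 1 ≤ R := le_max_left _ _
  set B₁ : ℝ := |B₀| * (R ^ (1 + δ + c) * Real.exp (Real.pi / 2)) with hB₁
  have hRpos : 0 < R ^ (1 + δ + c) := Real.rpow_pos_of_pos (by linarith) _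
  have hB₁0 : 0 ≤ B₁ := by rw [hB₁]; positivity
  have h4pos : 0 ≤ 4 + 2 * ((1 + δ) - (-c)) := by linarith
  refine ⟨1 / (2 * Real.pi) * ((4 + 2 * ((1 + δ) - (-c))) * B₁) + 1,
    add_pos_of_nonneg_of_pos (mul_nonneg (by positivity) (mul_nonneg h4pos hB₁0)) one_pos, fun z hz hzM => ?_⟩
  have hz0 : 0 < ‖z‖ := norm_pos_iff.2 (by rintro rfl; simp at hz)
  have harg := abs_arg_lt_pi_div_two_iff.2 (Or.inl hz : 0 < z.re ∨ z = 0)
  -- bound on the exponential factor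
  have hexp : ∀ s : ℂ, -c ≤ s.re → s.re ≤ 1 + δ →
      ‖exp (-(((k : ℂ) + s) * lz z))‖ ≤ R ^ (1 + δ + c) * ‖z‖ ^ (-(k + 1 + δ) : ℝ) * Real.exp (|s.im| * |arg z|) := by
    intro s h1 h2
    rw [exp_lz_norm k s z hz]
    have e1 : (-((k : ℝ) + s.re)) = (-(k + 1 + δ) : ℝ) + (1 + δ - s.re) := by ring
    have hx : 0 < 2 * Real.pi * ‖z‖ := by positivity
    have hxR : 2 * Real.pi * ‖z‖ ≤ R := by
      refine le_trans ?_ (le_max_right _ _)
      gcongr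
    rw [e1, Real.rpow_add hx]
    have h3 : (2 * Real.pi * ‖z‖) ^ (1 + δ - s.re) ≤ R ^ (1 + δ + c) := by
      calc (2 * Real.pi * ‖z‖) ^ (1 + δ - s.re) ≤ R ^ (1 + δ - s.re) :=
            Real.rpow_le_rpow hx.le hxR (by linarith)
        _ ≤ R ^ (1 + δ + c) := Real.rpow_le_rpow_of_exponent_le hR1 (by linarith)
    have h4 : (2 * Real.pi * ‖z‖) ^ (-(k + 1 + δ) : ℝ) ≤ ‖z‖ ^ (-(k + 1 + δ) : ℝ) := by
      rw [Real.mul_rpow (by positivity) (norm_nonneg z)]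
      have h5 : (2 * Real.pi) ^ (-(k + 1 + δ) : ℝ) ≤ 1 := by
        apply Real.rpow_le_one_of_one_le_of_nonpos
        · have := Real.pi_gt_three; linarith
        · have : (0 : ℝ) ≤ k := Nat.cast_nonneg k
          linarith
      have h6 : 0 ≤ ‖z‖ ^ (-(k + 1 + δ) : ℝ) := Real.rpow_nonneg (norm_nonneg z) _
      nlinarith
    have h7 : Real.exp (s.im * arg z) ≤ Real.exp (|s.im| * |arg z|) := by
      apply Real.exp_le_exp.2
      rw [← abs_mul]
      exact le_abs_self _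
    calc (2 * Real.pi * ‖z‖) ^ (-(k + 1 + δ) : ℝ) * (2 * Real.pi * ‖z‖) ^ (1 + δ - s.re) * Real.exp (s.im * arg z)
        ≤ ‖z‖ ^ (-(k + 1 + δ) : ℝ) * R ^ (1 + δ + c) * Real.exp (|s.im| * |arg z|) := by
          gcongr
      _ = _ := by ring
  set g : ℂ → ℂ := fun s => Gamma ((k : ℂ) + s) * F s * exp (-(((k : ℂ) + s) * lz z)) with hgdef
  set κ : ℝ := (Real.pi / 2 - |arg z|) / 2 with hκdef
  have hκ : 0 < κ := by rw [hκdef]; linarith
  set Bz : ℝ := B₁ * ‖z‖ ^ (-(k + 1 + δ) : ℝ) with hBz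
  have hzp : 0 < ‖z‖ ^ (-(k + 1 + δ) : ℝ) := Real.rpow_pos_of_pos hz0 _
  have hbd : ∀ s : ℂ, ((-c ≤ s.re ∧ s.re ≤ 1 + δ ∧ |s.im| = 1) ∨ (s.re = -c ∧ |s.im| ≤ 1) ∨
      (s.re = 1 + δ ∧ |s.im| ≤ 1)) → ‖g s‖ ≤ Bz := by
    intro s hs
    have h1 := hB₀ s hs
    have h2 : -c ≤ s.re ∧ s.re ≤ 1 + δ := by
      rcases hs with ⟨h1, h2, _⟩ | ⟨h1, _⟩ | ⟨h1, _⟩ <;> constructor <;> linarith
    have h3 : |s.im| ≤ 1 := by
      rcases hs with ⟨_, _, h2⟩ | ⟨_, h2⟩ | ⟨_, h2⟩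
      · exact h2.le
      · exact h2
      · exact h2
    have h4 := hexp s h2.1 h2.2
    have h5 : Real.exp (|s.im| * |arg z|) ≤ Real.exp (Real.pi / 2) := by
      apply Real.exp_le_exp.2
      have := abs_nonneg (arg z)
      nlinarith [abs_nonneg s.im]
    calc ‖g s‖ = ‖Hf s‖ * ‖exp (-(((k : ℂ) + s) * lz z))‖ := by
          simp only [hgdef, hHf, norm_mul]
      _ ≤ |B₀| * (R ^ (1 + δ + c) * ‖z‖ ^ (-(k + 1 + δ) : ℝ) * Real.exp (Real.pi / 2)) := by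
          gcongr
          · exact h1.trans (le_abs_self _)
          · exact h4.trans (by gcongr)
      _ = Bz := by rw [hBz, hB₁]; ring
  have hdecay : ∃ Cd : ℝ, ∀ s : ℂ, -c ≤ s.re → s.re ≤ 1 + δ → 1 ≤ |s.im| → ‖g s‖ ≤ Cd * Real.exp (-(κ * |s.im|)) := by
    -- polynomial times exponential
    obtain ⟨Cp, hCp⟩ : ∃ Cp : ℝ, ∀ x : ℝ, 1 ≤ x → x ^ (Ag + Af) * Real.exp (-(κ * x)) ≤ Cp := by
      have h1 := tendsto_rpow_mul_exp_neg_mul_atTop_nhds_zero (Ag + Af) κ hκ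
      have h2 : ∀ᶠ x : ℝ in Filter.atTop, x ^ (Ag + Af) * Real.exp (-κ * x) ≤ 1 :=
        h1.eventually_le_const (by norm_num)
      obtain ⟨x₀, hx₀⟩ := Filter.eventually_atTop.1 h2
      refine ⟨max 1 ((max 1 x₀) ^ (Ag + Af)), fun x hx => ?_⟩
      rcases le_total x₀ x with h3 | h3
      · refine le_trans ?_ (le_max_left _ _)
        have := hx₀ x h3
        rwa [neg_mul] at this
      · refine le_trans ?_ (le_max_right _ _)
        have h4 : Real.exp (-(κ * x)) ≤ 1 := by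
          apply Real.exp_le_one_iff.2
          have : 0 ≤ κ * x := mul_nonneg hκ.le (by linarith)
          linarith
        have h5 : x ^ (Ag + Af) ≤ (max 1 x₀) ^ (Ag + Af) :=
          Real.rpow_le_rpow (by linarith) (h3.trans (le_max_right _ _)) (by linarith)
        have h6 : 0 ≤ x ^ (Ag + Af) := Real.rpow_nonneg (by linarith) _
        have h7 := Real.exp_pos (-(κ * x))
        nlinarith
    refine ⟨Cg * Cf * (R ^ (1 + δ + c) * ‖z‖ ^ (-(k + 1 + δ) : ℝ)) * Cp, fun s h1 h2 h3 => ?_⟩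
    have hs0 : 0 < |s.im| := by linarith
    have e1 := hg ((k : ℂ) + s) (by simp; linarith) (by simp; linarith) (by simpa using h3)
    have e2 := hf s h1 h2 h3
    have e3 := hexp s h1 h2
    have e1' : ‖Gamma ((k : ℂ) + s)‖ ≤ Cg * |s.im| ^ Ag * Real.exp (-(Real.pi * |s.im| / 2)) := by
      simpa using e1
    have e4 := hCp |s.im| h3
    calc ‖g s‖ = ‖Gamma ((k : ℂ) + s)‖ * ‖F s‖ * ‖exp (-(((k : ℂ) + s) * lz z))‖ := by
          simp only [hgdef, norm_mul]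
      _ ≤ (Cg * |s.im| ^ Ag * Real.exp (-(Real.pi * |s.im| / 2))) * (Cf * |s.im| ^ Af) *
          (R ^ (1 + δ + c) * ‖z‖ ^ (-(k + 1 + δ) : ℝ) * Real.exp (|s.im| * |arg z|)) := by
          gcongr
      _ = Cg * Cf * (R ^ (1 + δ + c) * ‖z‖ ^ (-(k + 1 + δ) : ℝ)) *
          (|s.im| ^ (Ag + Af) * (Real.exp (-(Real.pi * |s.im| / 2)) * Real.exp (|s.im| * |arg z|))) := by
          rw [Real.rpow_add hs0]; ring
      _ = Cg * Cf * (R ^ (1 + δ + c) * ‖z‖ ^ (-(k + 1 + δ) : ℝ)) *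
          ((|s.im| ^ (Ag + Af) * Real.exp (-(κ * |s.im|))) * Real.exp (-(κ * |s.im|))) := by
          congr 1
          rw [mul_assoc (|s.im| ^ (Ag + Af)), ← Real.exp_add, ← Real.exp_add]
          congr 2
          rw [hκdef]; ring
      _ ≤ Cg * Cf * (R ^ (1 + δ + c) * ‖z‖ ^ (-(k + 1 + δ) : ℝ)) * (Cp * Real.exp (-(κ * |s.im|))) := by
          gcongr
      _ = _ := by ring
  obtain ⟨Cd, hCd⟩ := hdecay
  have hi2 := mellin_rep_right h k δ hδ z hz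
  have hgdiff : ∀ s : ℂ, s ≠ 1 → (∀ m : ℕ, (k : ℂ) + s ≠ -m) → DifferentiableAt ℂ g s := by
    intro s h1 h2
    exact (GF_diff h k h1 h2).mul (by fun_prop)
  have hcont1 : Continuous fun t : ℝ => g (((-c : ℝ) : ℂ) + (t : ℂ) * I) := by
    rw [continuous_iff_continuousAt]
    intro t
    exact ContinuousAt.comp (f := fun t : ℝ => (((-c : ℝ) : ℂ) + (t : ℂ) * I))
      (hgdiff _ (hne_left t) (hpole_left t)).continuousAt (by fun_prop)
  have hi1 : Integrable fun t : ℝ => g (((-c : ℝ) : ℂ) + (t : ℂ) * I) := by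
    refine ((integrable_exp_neg_abs hκ).const_mul (|Cd| + Bz * Real.exp κ)).mono' hcont1.aestronglyMeasurable
      (ae_of_all _ fun t => ?_)
    have hBz0 : 0 ≤ Bz := by rw [hBz, hB₁]; positivity
    rcases le_total 1 |t| with h1 | h1
    · have h2 := hCd (((-c : ℝ) : ℂ) + (t : ℂ) * I) (by rw [hre]) (by rw [hre]; linarith) (by rw [him]; exact h1)
      rw [him] at h2
      refine h2.trans ?_
      gcongr
      have := le_abs_self Cd
      have h3 : 0 ≤ Bz * Real.exp κ := by positivity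
      linarith
    · have h2 := hbd (((-c : ℝ) : ℂ) + (t : ℂ) * I) (Or.inr (Or.inl ⟨hre _ _, by rw [him]; exact h1⟩))
      refine h2.trans ?_
      have h3 : 1 ≤ Real.exp κ * Real.exp (-(κ * |t|)) := by
        rw [← Real.exp_add]
        apply Real.one_le_exp
        nlinarith
      calc Bz ≤ Bz * (Real.exp κ * Real.exp (-(κ * |t|))) := le_mul_of_one_le_right hBz0 h3
        _ ≤ (|Cd| + Bz * Real.exp κ) * Real.exp (-(κ * |t|)) := by
          have h4 : 0 ≤ |Cd| * Real.exp (-(κ * |t|)) := by positivity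
          linarith
  refine ⟨hi1, ?_⟩
  have hshift := contour_shift (g := g) (σ₁ := -c) (σ₂ := 1 + δ) (C := Cd) (κ := κ) (B := Bz) (by linarith) hκ
    (fun s _ _ h3 => hgdiff s (hne_im s h3) (Gamma_ne_pole k h3)) hi1 hi2.1 hCd
    (fun s h1 h2 h3 => hbd s (Or.inl ⟨h1, h2, h3⟩))
    (fun t ht => hbd _ (Or.inr (Or.inl ⟨hre _ _, by rw [him]; exact ht⟩)))
    (fun t ht => hbd _ (Or.inr (Or.inr ⟨hre _ _, by rw [him]; exact ht⟩)))
  rw [hi2.2, ← mul_sub, norm_mul]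
  have hn : ‖(1 / (2 * Real.pi) : ℂ)‖ = 1 / (2 * Real.pi) := by
    rw [norm_div, norm_mul, norm_one, norm_real, Real.norm_of_nonneg Real.pi_pos.le]
    norm_num
  rw [hn]
  calc 1 / (2 * Real.pi) * ‖(∫ t : ℝ, g (((1 + δ : ℝ) : ℂ) + (t : ℂ) * I)) - ∫ t : ℝ, g (((-c : ℝ) : ℂ) + (t : ℂ) * I)‖
      ≤ 1 / (2 * Real.pi) * ((4 + 2 * ((1 + δ) - (-c))) * Bz) := by gcongr
    _ = 1 / (2 * Real.pi) * ((4 + 2 * ((1 + δ) - (-c))) * B₁) * ‖z‖ ^ (-(k + 1 + δ) : ℝ) := by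
        rw [hBz]; ring
    _ ≤ _ := by
        rw [add_mul]
        linarith

theorem F_left_line {F : ℂ → ℂ} {a : ℕ → ℂ} {D : FE} (h : IsSelbergWith F a D) (c : ℝ) (hc : 0 < c) (t : ℝ) :
    F (((-c : ℝ) : ℂ) + (t : ℂ) * I) = D.X (((-c : ℝ) : ℂ) + (t : ℂ) * I) *
      ∑' n : ℕ, (starRingEnd ℂ) (a (n + 1)) * exp (-(((1 + c : ℝ) : ℂ) - (t : ℂ) * I) * (Real.log ((n : ℝ) + 1) : ℂ)) := by
  have hre : (((-c : ℝ) : ℂ) + (t : ℂ) * I).re = -c := by simp
  have h1 := h.fe_left (s := ((-c : ℝ) : ℂ) + (t : ℂ) * I) (by rw [hre]; linarith) (by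
    intro h0
    have := congrArg Complex.re h0
    rw [hre] at this
    simp at this
    linarith)
  rw [h1]
  congr 1
  have e1 : 1 - (starRingEnd ℂ) (((-c : ℝ) : ℂ) + (t : ℂ) * I) = ((1 + c : ℝ) : ℂ) + (t : ℂ) * I := by
    simp only [map_add, map_mul, conj_ofReal, conj_I]
    push_cast; ring
  rw [e1]
  have h2 : HasSum _ _ := F_series h (s := ((1 + c : ℝ) : ℂ) + (t : ℂ) * I) (by simp; linarith)
  rw [← h2.tsum_eq, conj_tsum]
  refine tsum_congr fun n => ?_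
  rw [map_mul, ← exp_conj]
  congr 2
  simp only [map_neg, map_mul, map_add, conj_ofReal, conj_I]
  ring

end Pool.Agent.Helper19.BD
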