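import Pool.Agent.Helper97.BD.B3Osc
import Pool.Agent.Helper97.BD.MR

/-!
Block BD-B3b (MP_bd232a_nt, part B, degree 1). Limits of `x^(1-iη) f(x + iα)`, `f = ffun a 0`, `η = D.eta`.

PROOF. `mellin_rep` (k = 0, c = 1/2, δ = 1, M = α + 1) and `F_left_line` (both may be sorried): for `z = x + iα`, `0 < x ≤ 1`,
`f(z) = O(1) + (1/2π) ∫ g(t) ∑_n conj(a_n) n^{-3/2+it} exp(-(-1/2+it) lz z) dt`, `g t = Gamma(-1/2+it) X(-1/2+it)`; interchange (absolute convergence, `osc_bound`,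
`∑ ‖a_n‖ n^{-3/2} < ∞`): `= O(1) + (1/2π) exp(lz z/2) ∑_n conj(a_n) n^{-3/2} ∫ g(t) exp(i t (log n - lz z)) dt`.
`g` satisfies the hypotheses of `osc_limit`: `GX_asymp`, `GX_bound` with `k = 0`, `σ = -1/2`, `D.deg = 1`: the exponent of `t` is `0`; `g` is continuous
(`X_differentiableAt`, no pole of Gamma on the line).
`x^w O(1) → 0`; dominated convergence in `n` (`tendsto_tsum_of_dominated_convergence`, bound `osc_bound`), limit of the n-th term by `osc_limit`, nonzero only if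
`ℓ + log n = log(2πα)`, i.e. `n = q₀ α`, `q₀ = 2π exp(-ℓ)`. For that `n`: `exp(lz z/2) → (2πα)^{1/2} exp(iπ/4)`, and with `α = n/q₀`:
`(1/2π) (2πα)^{1/2} exp(iπ/4) conj(a_n) n^{-3/2} c₁ Gamma(w) α^w = K n^{-iη} conj(a_n)`, `K = (1/2π) exp(ℓ/2) exp(iπ/4) c₁ Gamma(w) q₀^{-w} ≠ 0` (`w = 1 - iη`, `Gamma w ≠ 0`).
-/

open Complex MeasureTheory Filter Topology

namespace Pool.Agent.Helper19.BD

/-- the factor on the line -/
private noncomputable def gg (D : FE) (t : ℝ) : ℂ :=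
  Gamma (((0 : ℕ) : ℂ) + (((-(1 / 2) : ℝ) : ℂ) + (t : ℂ) * I)) * D.X (((-(1 / 2) : ℝ) : ℂ) + (t : ℂ) * I)

private theorem line_re (t : ℝ) : (((-(1 / 2) : ℝ) : ℂ) + (t : ℂ) * I).re = -(1 / 2) := by simp

private theorem gg_cont (D : FE) : Continuous (gg D) := by
  rw [continuous_iff_continuousAt]
  intro t
  have hl : ContinuousAt (fun t : ℝ => ((-(1 / 2) : ℝ) : ℂ) + (t : ℂ) * I) t := by fun_prop
  have hl' : ContinuousAt (fun t : ℝ => ((0 : ℕ) : ℂ) + (((-(1 / 2) : ℝ) : ℂ) + (t : ℂ) * I)) t := by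
    fun_prop
  have hG : ContinuousAt Gamma (((0 : ℕ) : ℂ) + (((-(1 / 2) : ℝ) : ℂ) + (t : ℂ) * I)) := by
    refine (Complex.differentiableAt_Gamma _ fun m hm => ?_).continuousAt
    have h1 := congrArg Complex.re hm
    rw [Nat.cast_zero, zero_add, line_re, neg_re, natCast_re] at h1
    have h2 : (2 * m : ℝ) = 1 := by linarith
    have h3 : (2 * m : ℕ) = 1 := by exact_mod_cast h2
    omega
  have hX : ContinuousAt D.X (((-(1 / 2) : ℝ) : ℂ) + (t : ℂ) * I) :=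
    (D.X_differentiableAt (by rw [line_re]; norm_num)).continuousAt
  exact (ContinuousAt.comp (f := fun t : ℝ => ((0 : ℕ) : ℂ) + (((-(1 / 2) : ℝ) : ℂ) + (t : ℂ) * I))
    hG hl').mul (ContinuousAt.comp (f := fun t : ℝ => ((-(1 / 2) : ℝ) : ℂ) + (t : ℂ) * I) hX hl)

private theorem gg_props (D : FE) (hd : D.deg = 1) : ∃ (c₁ : ℂ) (C T : ℝ), c₁ ≠ 0 ∧ 1 ≤ T ∧
    (∀ t : ℝ, 1 ≤ |t| → ‖gg D t‖ ≤ C * Real.exp (-(Real.pi * |t| / 2))) ∧
    (∀ t : ℝ, T ≤ t → ∃ R : ℂ, ‖R‖ ≤ C / t ∧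
      gg D t = c₁ * exp (((D.ell * t : ℝ) : ℂ) * I - ((Real.pi * t / 2 : ℝ) : ℂ) -
        (D.eta : ℂ) * I * (Real.log t : ℂ) + R)) := by
  obtain ⟨c₁, C, T, hc₁, hC, hT, h⟩ := D.GX_asymp 0 (-(1 / 2))
  obtain ⟨C', hC', h'⟩ := D.GX_bound 0 (-(1 / 2)) (by norm_num)
  refine ⟨c₁, max C C', T, hc₁, hT, fun t ht => ?_, fun t ht => ?_⟩
  · have h1 := h' t ht
    rw [hd] at h1
    have e0 : (1 : ℝ) * (1 / 2 - -(1 / 2)) + ((0 : ℕ) : ℝ) + -(1 / 2) - 1 / 2 = 0 := by norm_num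
    rw [e0, Real.rpow_zero, mul_one] at h1
    refine h1.trans ?_
    exact mul_le_mul_of_nonneg_right (le_max_right _ _) (Real.exp_pos _).le
  · obtain ⟨R, hR, hx⟩ := h t ht
    have ht0 : 0 < t := by linarith
    refine ⟨R, hR.trans (by gcongr; exact le_max_left _ _), ?_⟩
    unfold gg
    rw [hx, hd]
    congr 2
    push_cast
    ring

private noncomputable def bb (a : ℕ → ℂ) (n : ℕ) : ℂ :=
  (starRingEnd ℂ) (a (n + 1)) * exp (-((1 + 1 / 2 : ℝ) : ℂ) * (Real.log ((n : ℝ) + 1) : ℂ))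

private theorem bb_summable {F : ℂ → ℂ} {a : ℕ → ℂ} {D : FE} (h : IsSelbergWith F a D) :
    Summable fun n => ‖bb a n‖ := by
  have h1 : LSeriesSummable a ((1 + 1 / 2 : ℝ) : ℂ) := h.summable _ (by norm_num)
  have h2 : Summable fun n : ℕ => ‖LSeries.term a ((1 + 1 / 2 : ℝ) : ℂ) (n + 1)‖ :=
    (summable_nat_add_iff 1).2 h1.norm
  refine h2.congr fun n => ?_
  rw [LSeries.term_of_ne_zero (Nat.succ_ne_zero n), bb, norm_div, norm_mul, RCLike.norm_conj,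
    div_eq_mul_inv]
  congr 1
  rw [← norm_inv, ← Complex.cpow_neg, Complex.cpow_def_of_ne_zero (by exact_mod_cast Nat.succ_ne_zero n)]
  congr 2
  rw [← Complex.natCast_log]
  push_cast
  ring

private theorem cpow_norm {x : ℝ} (hx : 0 < x) (η : ℝ) : ‖(x : ℂ) ^ (1 - (η : ℂ) * I)‖ = x := by
  rw [Complex.norm_cpow_eq_rpow_re_of_pos hx]
  simp

/-- the integrals -/
private noncomputable def JJ (D : FE) (α μ x : ℝ) : ℂ :=
  ∫ t : ℝ, gg D t * exp ((t : ℂ) * I * ((μ : ℂ) - log (((2 * Real.pi : ℝ) : ℂ) * ((x : ℂ) + (α : ℂ) * I))))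

private theorem formula {F : ℂ → ℂ} {a : ℕ → ℂ} {D : FE} (h : IsSelbergWith F a D) {α : ℝ}
    {x B : ℝ} (hx : 0 < x)
    (hB : ∀ μ : ℝ,
      Integrable (fun t : ℝ => gg D t * exp ((t : ℂ) * I * ((μ : ℂ) - log (((2 * Real.pi : ℝ) : ℂ) * ((x : ℂ) + (α : ℂ) * I))))) ∧
      x * (∫ t : ℝ, ‖gg D t * exp ((t : ℂ) * I * ((μ : ℂ) - log (((2 * Real.pi : ℝ) : ℂ) * ((x : ℂ) + (α : ℂ) * I))))‖) ≤ B) :
    ∫ t : ℝ, Gamma (((0 : ℕ) : ℂ) + (((-(1 / 2) : ℝ) : ℂ) + (t : ℂ) * I)) *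
        F (((-(1 / 2) : ℝ) : ℂ) + (t : ℂ) * I) *
        exp (-((((0 : ℕ) : ℂ) + (((-(1 / 2) : ℝ) : ℂ) + (t : ℂ) * I)) * lz ((x : ℂ) + (α : ℂ) * I))) =
      exp (lz ((x : ℂ) + (α : ℂ) * I) / 2) * ∑' n : ℕ, bb a n * JJ D α (Real.log ((n : ℝ) + 1)) x := by
  set z : ℂ := (x : ℂ) + (α : ℂ) * I with hz
  have e1 : ∀ t : ℝ, Gamma (((0 : ℕ) : ℂ) + (((-(1 / 2) : ℝ) : ℂ) + (t : ℂ) * I)) *
        F (((-(1 / 2) : ℝ) : ℂ) + (t : ℂ) * I) *
        exp (-((((0 : ℕ) : ℂ) + (((-(1 / 2) : ℝ) : ℂ) + (t : ℂ) * I)) * lz z)) =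
      exp (lz z / 2) * ∑' n : ℕ, bb a n * (gg D t *
        exp ((t : ℂ) * I * (((Real.log ((n : ℝ) + 1) : ℝ) : ℂ) - log (((2 * Real.pi : ℝ) : ℂ) * z)))) := by
    intro t
    rw [F_left_line h (1 / 2) (by norm_num) t]
    have e2 : Gamma (((0 : ℕ) : ℂ) + (((-(1 / 2) : ℝ) : ℂ) + (t : ℂ) * I)) *
        (D.X (((-(1 / 2) : ℝ) : ℂ) + (t : ℂ) * I) *
          ∑' n : ℕ, (starRingEnd ℂ) (a (n + 1)) *
            exp (-(((1 + 1 / 2 : ℝ) : ℂ) - (t : ℂ) * I) * (Real.log ((n : ℝ) + 1) : ℂ))) *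
        exp (-((((0 : ℕ) : ℂ) + (((-(1 / 2) : ℝ) : ℂ) + (t : ℂ) * I)) * lz z)) =
        (gg D t * exp (-((((0 : ℕ) : ℂ) + (((-(1 / 2) : ℝ) : ℂ) + (t : ℂ) * I)) * lz z))) *
          ∑' n : ℕ, (starRingEnd ℂ) (a (n + 1)) *
            exp (-(((1 + 1 / 2 : ℝ) : ℂ) - (t : ℂ) * I) * (Real.log ((n : ℝ) + 1) : ℂ)) := by
      unfold gg
      ring
    rw [e2, ← tsum_mul_left, ← tsum_mul_left]
    congr 1
    ext n
    unfold bb lz
    have e3 : exp (-(((1 + 1 / 2 : ℝ) : ℂ) - (t : ℂ) * I) * (Real.log ((n : ℝ) + 1) : ℂ)) =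
        exp (-((1 + 1 / 2 : ℝ) : ℂ) * (Real.log ((n : ℝ) + 1) : ℂ)) *
          exp ((t : ℂ) * I * (Real.log ((n : ℝ) + 1) : ℂ)) := by
      rw [← exp_add]
      congr 1
      ring
    have e4 : exp (-((((0 : ℕ) : ℂ) + (((-(1 / 2) : ℝ) : ℂ) + (t : ℂ) * I)) *
        log (((2 * Real.pi : ℝ) : ℂ) * z))) =
        exp (log (((2 * Real.pi : ℝ) : ℂ) * z) / 2) *
          exp (-((t : ℂ) * I * log (((2 * Real.pi : ℝ) : ℂ) * z))) := by
      rw [← exp_add]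
      congr 1
      push_cast
      ring
    have e5 : exp ((t : ℂ) * I * (((Real.log ((n : ℝ) + 1) : ℝ) : ℂ) -
        log (((2 * Real.pi : ℝ) : ℂ) * z))) =
        exp ((t : ℂ) * I * (Real.log ((n : ℝ) + 1) : ℂ)) *
          exp (-((t : ℂ) * I * log (((2 * Real.pi : ℝ) : ℂ) * z))) := by
      rw [← exp_add]
      congr 1
      ring
    rw [e3, e4, e5]
    ring
  rw [integral_congr_ae (Eventually.of_forall e1), integral_const_mul]
  congr 1
  have hint : ∀ n : ℕ, Integrable (fun t : ℝ => bb a n * (gg D t *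
        exp ((t : ℂ) * I * (((Real.log ((n : ℝ) + 1) : ℝ) : ℂ) - log (((2 * Real.pi : ℝ) : ℂ) * z))))) :=
    fun n => (hB _).1.const_mul _
  have hsum : Summable fun n : ℕ => ∫ t : ℝ, ‖bb a n * (gg D t *
        exp ((t : ℂ) * I * (((Real.log ((n : ℝ) + 1) : ℝ) : ℂ) - log (((2 * Real.pi : ℝ) : ℂ) * z))))‖ := by
    refine Summable.of_nonneg_of_le (fun n => integral_nonneg fun t => norm_nonneg _) (fun n => ?_)
      ((bb_summable h).mul_right (B / x))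
    have e6 : ∫ t : ℝ, ‖bb a n * (gg D t *
        exp ((t : ℂ) * I * (((Real.log ((n : ℝ) + 1) : ℝ) : ℂ) - log (((2 * Real.pi : ℝ) : ℂ) * z))))‖ =
        ‖bb a n‖ * ∫ t : ℝ, ‖gg D t *
        exp ((t : ℂ) * I * (((Real.log ((n : ℝ) + 1) : ℝ) : ℂ) - log (((2 * Real.pi : ℝ) : ℂ) * z)))‖ := by
      rw [← integral_const_mul]
      congr 1
      ext t
      rw [norm_mul]
    rw [e6]
    refine mul_le_mul_of_nonneg_left ?_ (norm_nonneg _)
    rw [le_div_iff₀ hx, mul_comm]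
    exact (hB _).2
  have h7 := hasSum_integral_of_summable_integral_norm hint hsum
  rw [← h7.tsum_eq]
  congr 1
  ext n
  rw [integral_const_mul]
  rfl

private theorem main_limit {F : ℂ → ℂ} {a : ℕ → ℂ} {D : FE} (h : IsSelbergWith F a D)
    {c₁ : ℂ} {C T : ℝ} (hT : 1 ≤ T)
    (hg : ∀ t : ℝ, 1 ≤ |t| → ‖gg D t‖ ≤ C * Real.exp (-(Real.pi * |t| / 2)))
    (hpos : ∀ t : ℝ, T ≤ t → ∃ R : ℂ, ‖R‖ ≤ C / t ∧
      gg D t = c₁ * exp (((D.ell * t : ℝ) : ℂ) * I - ((Real.pi * t / 2 : ℝ) : ℂ) -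
        (D.eta : ℂ) * I * (Real.log t : ℂ) + R)) {α : ℝ} (hα : 0 < α) :
    Tendsto (fun x : ℝ => (x : ℂ) ^ (1 - (D.eta : ℂ) * I) * ffun a 0 ((x : ℂ) + (α : ℂ) * I)) (𝓝[>] 0)
      (𝓝 ((1 / (2 * Real.pi) : ℂ) * (exp (lz ((α : ℂ) * I) / 2) * ∑' n : ℕ, bb a n *
        (if D.ell + Real.log ((n : ℝ) + 1) - Real.log (2 * Real.pi * α) = 0 then
          c₁ * Gamma (1 - (D.eta : ℂ) * I) * (α : ℂ) ^ (1 - (D.eta : ℂ) * I) else 0)))) := by
  obtain ⟨B, hB⟩ := osc_bound (gg_cont D) hg hα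
  obtain ⟨C₂, hC₂, hrep⟩ := mellin_rep h 0 (1 / 2) 1 (1 + α) (by norm_num)
    (fun n hn => by
      have h2 : (2 * n : ℝ) = 1 := by rw [hn]; norm_num
      have h3 : (2 * n : ℤ) = 1 := by exact_mod_cast h2
      omega) (by norm_num)
  set w : ℂ := 1 - (D.eta : ℂ) * I with hw
  have hx1 : ∀ᶠ x : ℝ in 𝓝[>] 0, 0 < x ∧ x ≤ 1 := by
    have : Set.Ioc (0 : ℝ) 1 ∈ 𝓝[>] (0 : ℝ) := Ioc_mem_nhdsGT zero_lt_one
    exact this
  -- the sum
  have hS : Tendsto (fun x : ℝ => ∑' n : ℕ, bb a n * ((x : ℂ) ^ w * JJ D α (Real.log ((n : ℝ) + 1)) x))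
      (𝓝[>] 0) (𝓝 (∑' n : ℕ, bb a n *
        (if D.ell + Real.log ((n : ℝ) + 1) - Real.log (2 * Real.pi * α) = 0 then
          c₁ * Gamma w * (α : ℂ) ^ w else 0))) := by
    refine tendsto_tsum_of_dominated_convergence (bound := fun n => ‖bb a n‖ * B)
      ((bb_summable h).mul_right B) (fun n => ?_) ?_
    · exact (osc_limit (gg_cont D) hT hg hpos hα _).const_mul _
    · filter_upwards [hx1] with x hx n
      rw [norm_mul]
      refine mul_le_mul_of_nonneg_left ?_ (norm_nonneg _)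
      rw [norm_mul, cpow_norm hx.1]
      refine le_trans ?_ (hB x hx.1 hx.2 (Real.log ((n : ℝ) + 1))).2
      exact mul_le_mul_of_nonneg_left (norm_integral_le_integral_norm _) hx.1.le
  -- the prefactor
  have hE : Tendsto (fun x : ℝ => exp (lz ((x : ℂ) + (α : ℂ) * I) / 2)) (𝓝[>] 0)
      (𝓝 (exp (lz ((α : ℂ) * I) / 2))) := by
    have hc : ContinuousAt (fun x : ℝ => exp (lz ((x : ℂ) + (α : ℂ) * I) / 2)) 0 := by
      unfold lz
      have hslit : (((2 * Real.pi : ℝ) : ℂ) * (((0 : ℝ) : ℂ) + (α : ℂ) * I)) ∈ slitPlane := by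
        rw [mem_slitPlane_iff]
        right
        simp only [mul_im, add_im, add_re, ofReal_re, ofReal_im, mul_re, I_re, I_im, mul_zero,
          mul_one, add_zero, zero_add, sub_zero]
        have := Real.pi_pos
        positivity
      have h2 : ContinuousAt (fun x : ℝ => ((2 * Real.pi : ℝ) : ℂ) * ((x : ℂ) + (α : ℂ) * I)) 0 := by
        fun_prop
      have h3 : ContinuousAt (fun x : ℝ => log (((2 * Real.pi : ℝ) : ℂ) * ((x : ℂ) + (α : ℂ) * I))) 0 :=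
        h2.clog hslit
      exact (h3.div_const 2).cexp
    have h4 := hc.tendsto.mono_left (nhdsWithin_le_nhds (s := Set.Ioi (0 : ℝ)))
    simpa using h4
  -- the error
  have hR : Tendsto (fun x : ℝ => (x : ℂ) ^ w * (ffun a 0 ((x : ℂ) + (α : ℂ) * I) -
      (1 / (2 * Real.pi) : ℂ) * (exp (lz ((x : ℂ) + (α : ℂ) * I) / 2) *
        ∑' n : ℕ, bb a n * JJ D α (Real.log ((n : ℝ) + 1)) x))) (𝓝[>] 0) (𝓝 0) := by
    have hx0 : Tendsto (fun x : ℝ => x * (C₂ * α ^ (-((0 : ℕ) + 1 + 1) : ℝ))) (𝓝[>] 0) (𝓝 0) := by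
      have : Tendsto (fun x : ℝ => x * (C₂ * α ^ (-((0 : ℕ) + 1 + 1) : ℝ))) (𝓝 0)
          (𝓝 (0 * (C₂ * α ^ (-((0 : ℕ) + 1 + 1) : ℝ)))) := by
        exact (continuous_id.mul continuous_const).tendsto 0
      rw [zero_mul] at this
      exact this.mono_left nhdsWithin_le_nhds
    refine squeeze_zero_norm' ?_ hx0
    filter_upwards [hx1] with x hx
    rw [norm_mul, cpow_norm hx.1]
    refine mul_le_mul_of_nonneg_left ?_ hx.1.le
    have hzre : ((x : ℂ) + (α : ℂ) * I).re = x := by simp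
    have hzim : ((x : ℂ) + (α : ℂ) * I).im = α := by simp
    have hzn : ‖(x : ℂ) + (α : ℂ) * I‖ ≤ 1 + α := by
      refine (norm_add_le _ _).trans ?_
      rw [norm_mul, norm_I, mul_one, norm_real, norm_real, Real.norm_of_nonneg hx.1.le,
        Real.norm_of_nonneg hα.le]
      linarith [hx.2]
    obtain ⟨-, h5⟩ := hrep ((x : ℂ) + (α : ℂ) * I) (by rw [hzre]; exact hx.1) hzn
    rw [formula h hx.1 (hB x hx.1 hx.2)] at h5
    refine h5.trans ?_
    refine mul_le_mul_of_nonneg_left ?_ hC₂.le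
    apply Real.rpow_le_rpow_of_nonpos hα
    · calc α = |((x : ℂ) + (α : ℂ) * I).im| := by rw [hzim, abs_of_pos hα]
        _ ≤ ‖(x : ℂ) + (α : ℂ) * I‖ := abs_im_le_norm _
    · norm_num
  have hmain := hR.add ((hE.mul hS).const_mul (1 / (2 * Real.pi) : ℂ))
  rw [zero_add] at hmain
  refine hmain.congr' ?_
  filter_upwards [hx1] with x _
  have e8 : ∑' n : ℕ, bb a n * ((x : ℂ) ^ w * JJ D α (Real.log ((n : ℝ) + 1)) x) =
      (x : ℂ) ^ w * ∑' n : ℕ, bb a n * JJ D α (Real.log ((n : ℝ) + 1)) x := by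
    rw [← tsum_mul_left]
    congr 1
    ext n
    ring
  rw [e8]
  ring

theorem limit_formula {F : ℂ → ℂ} {a : ℕ → ℂ} {D : FE} (h : IsSelbergWith F a D) (hd : D.deg = 1) :
    ∃ K : ℂ, K ≠ 0 ∧
      (∀ (α : ℝ) (n : ℕ), 0 < α → 1 ≤ n → (n : ℝ) = 2 * Real.pi * Real.exp (-D.ell) * α →
        Tendsto (fun x : ℝ => (x : ℂ) ^ (1 - (D.eta : ℂ) * I) * ffun a 0 ((x : ℂ) + (α : ℂ) * I)) (𝓝[>] 0)
          (𝓝 (K * exp (-((D.eta : ℂ) * I * (Real.log n : ℂ))) * (starRingEnd ℂ) (a n)))) ∧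
      (∀ α : ℝ, 0 < α → (∀ n : ℕ, 1 ≤ n → (n : ℝ) ≠ 2 * Real.pi * Real.exp (-D.ell) * α) →
        Tendsto (fun x : ℝ => (x : ℂ) ^ (1 - (D.eta : ℂ) * I) * ffun a 0 ((x : ℂ) + (α : ℂ) * I)) (𝓝[>] 0) (𝓝 0)) := by
  obtain ⟨c₁, C, T, hc₁, hT, hg, hpos⟩ := gg_props D hd
  have hpi := Real.pi_pos
  set w : ℂ := 1 - (D.eta : ℂ) * I with hw
  set q₀ : ℝ := 2 * Real.pi * Real.exp (-D.ell) with hq₀
  have hq₀pos : 0 < q₀ := by positivity
  have hlq : Real.log q₀ = Real.log (2 * Real.pi) - D.ell := by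
    rw [hq₀, Real.log_mul (by positivity) (Real.exp_pos _).ne', Real.log_exp]
    ring
  have hiff : ∀ (α : ℝ) (m : ℝ), 0 < α → 0 < m →
      (D.ell + Real.log m - Real.log (2 * Real.pi * α) = 0 ↔ m = q₀ * α) := by
    intro α m hα hm
    have h1 : Real.log (2 * Real.pi * α) = Real.log (2 * Real.pi) + Real.log α :=
      Real.log_mul (by positivity) hα.ne'
    constructor
    · intro h2
      have h3 : Real.log m = Real.log (q₀ * α) := by
        rw [Real.log_mul hq₀pos.ne' hα.ne', hlq]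
        linarith
      exact Real.log_injOn_pos (Set.mem_Ioi.2 hm) (Set.mem_Ioi.2 (by positivity)) h3
    · intro h2
      rw [h2, Real.log_mul hq₀pos.ne' hα.ne', hlq, h1]
      ring
  have hΓ : Gamma w ≠ 0 := Complex.Gamma_ne_zero_of_re_pos (by simp [hw])
  refine ⟨(1 / (2 * Real.pi) : ℂ) * exp (((D.ell / 2 : ℝ) : ℂ) + ((Real.pi / 4 : ℝ) : ℂ) * I -
      w * (Real.log q₀ : ℂ)) * (c₁ * Gamma w), ?_, ?_, ?_⟩
  · refine mul_ne_zero (mul_ne_zero ?_ (exp_ne_zero _)) (mul_ne_zero hc₁ hΓ)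
    have : ((2 * Real.pi : ℝ) : ℂ) ≠ 0 := by exact_mod_cast (by positivity : (2 * Real.pi : ℝ) ≠ 0)
    push_cast at this
    exact one_div_ne_zero this
  · intro α n hα hn hnα
    have h1 := main_limit h hT hg hpos hα
    have hn0 : (0 : ℝ) < n := by exact_mod_cast hn
    have e1 : ∑' m : ℕ, bb a m *
        (if D.ell + Real.log ((m : ℝ) + 1) - Real.log (2 * Real.pi * α) = 0 then
          c₁ * Gamma w * (α : ℂ) ^ w else 0) = bb a (n - 1) * (c₁ * Gamma w * (α : ℂ) ^ w) := by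
      rw [tsum_eq_single (n - 1)]
      · rw [if_pos]
        rw [hiff α _ hα (by positivity), ← hnα]
        have : ((n - 1 : ℕ) : ℝ) + 1 = ((n - 1 + 1 : ℕ) : ℝ) := by push_cast; ring
        rw [this, Nat.sub_add_cancel hn]
      · intro m hm
        rw [if_neg, mul_zero]
        rw [hiff α _ hα (by positivity), ← hnα]
        intro h2
        apply hm
        have h3 : m + 1 = n := by exact_mod_cast h2
        omega
    rw [e1] at h1
    convert h1 using 2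
    have hα2 : α = n / q₀ := by rw [hnα]; field_simp
    have hlα : Real.log α = Real.log n - Real.log q₀ := by
      rw [hα2, Real.log_div hn0.ne' hq₀pos.ne']
    have hlz : lz ((α : ℂ) * I) = ((Real.log n + D.ell : ℝ) : ℂ) + ((Real.pi / 2 : ℝ) : ℂ) * I := by
      unfold lz
      have e2 : ((2 * Real.pi : ℝ) : ℂ) * ((α : ℂ) * I) = ((2 * Real.pi * α : ℝ) : ℂ) * I := by
        push_cast
        ring
      rw [e2, Complex.log_ofReal_mul (by positivity) I_ne_zero, Complex.log_I,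
        Real.log_mul (by positivity) hα.ne', hlα, hlq]
      push_cast
      ring
    have hαw : (α : ℂ) ^ w = exp (((Real.log n - Real.log q₀ : ℝ) : ℂ) * w) := by
      rw [Complex.cpow_def_of_ne_zero (by exact_mod_cast hα.ne'), ← Complex.ofReal_log hα.le, hlα]
    have hbb : bb a (n - 1) = (starRingEnd ℂ) (a n) *
        exp (-((1 + 1 / 2 : ℝ) : ℂ) * (Real.log n : ℂ)) := by
      unfold bb
      have : ((n - 1 : ℕ) : ℝ) + 1 = n := by
        have : ((n - 1 : ℕ) : ℝ) + 1 = ((n - 1 + 1 : ℕ) : ℝ) := by push_cast; ring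
        rw [this, Nat.sub_add_cancel hn]
      rw [this, Nat.sub_add_cancel hn]
    rw [hlz, hαw, hbb]
    have e9 : exp (((D.ell / 2 : ℝ) : ℂ) + ((Real.pi / 4 : ℝ) : ℂ) * I - w * (Real.log q₀ : ℂ)) *
        exp (-((D.eta : ℂ) * I * (Real.log n : ℂ))) =
        exp ((((Real.log n + D.ell : ℝ) : ℂ) + ((Real.pi / 2 : ℝ) : ℂ) * I) / 2) *
          exp (-((1 + 1 / 2 : ℝ) : ℂ) * (Real.log n : ℂ)) *
          exp (((Real.log n - Real.log q₀ : ℝ) : ℂ) * w) := by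
      rw [← exp_add, ← exp_add, ← exp_add]
      congr 1
      rw [hw]
      push_cast
      ring
    linear_combination ((1 / (2 * Real.pi) : ℂ) * (c₁ * Gamma w) * (starRingEnd ℂ) (a n)) * e9
  · intro α hα hne
    have h1 := main_limit h hT hg hpos hα
    have e1 : ∑' m : ℕ, bb a m *
        (if D.ell + Real.log ((m : ℝ) + 1) - Real.log (2 * Real.pi * α) = 0 then
          c₁ * Gamma w * (α : ℂ) ^ w else 0) = 0 := by
      refine (tsum_congr fun m => ?_).trans tsum_zero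
      rw [if_neg, mul_zero]
      rw [hiff α _ hα (by positivity)]
      have := hne (m + 1) (by omega)
      push_cast at this
      exact this
    rw [e1, mul_zero, mul_zero] at h1
    exact h1

end Pool.Agent.Helper19.BD
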