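import Pool.Agent.Helper97.BD.Base
import Pool.Agent.Helper94.BD.CpowGamma

/-!
Block BD-B3a (MP_bd232a_nt, part B, degree 1). Limit of an oscillatory integral.

Notation: `z = x + i α`, `x → 0+`, `log (2πz) = log(2π|z|) + i arg z`, `ε = π/2 - arg z = arctan (x/α)`, `w = 1 - i η`,
`exp (i t (μ - log(2πz))) = exp (i t (μ - log (2π|z|))) exp (t arg z)`.

PROOF of `osc_bound`: `‖g t‖ exp (t arg z) ≤ C exp(-ε t)` for `t ≥ T`, bounded on `[-1, T]`, `≤ C exp (-π|t|/2)` for `t ≤ -1` (`arg z ≥ 0`); so the integral is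
`≤ C' (1 + 1/ε)` and `ε = arctan(x/α) ≥ c x` for `0 < x ≤ 1`.
PROOF of `osc_limit`: the parts `t ≤ T` are bounded, times `x` tend to `0`. For `t ≥ T`: `g t = c₁ exp(iℓt - πt/2) t^{-iη} (1 + O(1/t))`; the `O(1/t)` part is
`≤ C x ∫_T^∞ t^{-1/2} exp(-εt) dt = O(x ε^{-1/2}) → 0`. The main part is `c₁ x^w ∫_T^∞ t^{w-1} exp(-r t) dt`, `r = ε - i θ_x`,
`θ_x = ℓ + μ - log(2π|z|)`; `∫_0^T` is bounded (times `x` → 0) and `∫_0^∞ t^{w-1} exp(-rt) dt = (1/r)^w Gamma w`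
(`Pool.Agent.Helper94.BD.laplace_cpow`).
`x^w (1/r)^w = (x/r)^w` (`x > 0` real). If `θ = ℓ + μ - log(2πα) ≠ 0` then `r → -iθ ≠ 0` and `(x/r)^w → 0`. If `θ = 0` then
`θ_x = - (1/2) log(1 + x²/α²) = O(x²)`, `ε/x → 1/α`, so `x/r → α` and `(x/r)^w → α^w`.
-/

open Complex MeasureTheory Filter Topology

namespace Pool.Agent.Helper19.BD

namespace B3a

/-- The logarithm `log (2π (x + i α))`. -/
noncomputable def LL (α x : ℝ) : ℂ := log (((2 * Real.pi : ℝ) : ℂ) * ((x : ℂ) + (α : ℂ) * I))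

theorem LL_im (α x : ℝ) : (LL α x).im = arg ((x : ℂ) + (α : ℂ) * I) := by
  unfold LL
  rw [Complex.log_im, Complex.arg_real_mul _ (by positivity)]

theorem im_nonneg {α : ℝ} (hα : 0 < α) (x : ℝ) : 0 ≤ (LL α x).im := by
  rw [LL_im, Complex.arg_nonneg_iff]
  simpa using hα.le

/-- `ε`. -/
noncomputable def ep (α x : ℝ) : ℝ := Real.pi / 2 - (LL α x).im

theorem ep_le {α : ℝ} (hα : 0 < α) (x : ℝ) : ep α x ≤ Real.pi / 2 := by
  have := im_nonneg hα x
  unfold ep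
  linarith

theorem ep_pos {α x : ℝ} (hx : 0 < x) : 0 < ep α x := by
  unfold ep
  rw [LL_im]
  have h : |arg ((x : ℂ) + (α : ℂ) * I)| < Real.pi / 2 := by
    rw [Complex.abs_arg_lt_pi_div_two_iff]
    left
    simpa using hx
  have := (abs_lt.mp h).2
  linarith

theorem x_le {α x : ℝ} (hα : 0 < α) (hx : 0 < x) : x ≤ ep α x * (x + α) := by
  set z : ℂ := (x : ℂ) + (α : ℂ) * I with hz
  have hzre : z.re = x := by simp [hz]
  have hz0 : z ≠ 0 := by
    intro h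
    rw [h] at hzre
    simp at hzre
    linarith
  have hn : 0 < ‖z‖ := norm_pos_iff.mpr hz0
  have hcos := Complex.cos_arg hz0
  have h1 : Real.sin (ep α x) = x / ‖z‖ := by
    unfold ep
    rw [LL_im, Real.sin_pi_div_two_sub, ← hz, hcos, hzre]
  have h2 : Real.sin (ep α x) ≤ ep α x := Real.sin_le (ep_pos hx).le
  have h3 : ‖z‖ ≤ x + α := by
    calc ‖z‖ ≤ ‖(x : ℂ)‖ + ‖(α : ℂ) * I‖ := norm_add_le _ _
      _ = x + α := by
        rw [norm_mul, Complex.norm_I, mul_one, Complex.norm_real, Complex.norm_real,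
          Real.norm_eq_abs, Real.norm_eq_abs, abs_of_pos hx, abs_of_pos hα]
  rw [h1, div_le_iff₀ hn] at h2
  exact h2.trans (mul_le_mul_of_nonneg_left h3 (ep_pos hx).le)

theorem norm_osc (α x μ t : ℝ) :
    ‖exp ((t : ℂ) * I * ((μ : ℂ) - LL α x))‖ = Real.exp (t * (LL α x).im) := by
  rw [Complex.norm_exp]
  congr 1
  simp only [mul_re, mul_im, ofReal_re, ofReal_im, I_re, I_im, sub_re, sub_im]
  ring

theorem int_exp_abs {δ : ℝ} (hδ : 0 < δ) : Integrable (fun t : ℝ => Real.exp (-(δ * |t|))) ∧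
    ∫ t : ℝ, Real.exp (-(δ * |t|)) = 2 / δ := by
  constructor
  · rw [← integrableOn_univ, ← Set.Iic_union_Ioi (a := (0:ℝ))]
    refine IntegrableOn.union ?_ ?_
    · refine (integrableOn_exp_mul_Iic hδ 0).congr_fun (fun t ht => ?_) measurableSet_Iic
      have ht' : t ≤ 0 := ht
      simp [abs_of_nonpos ht']
    · refine (integrableOn_exp_mul_Ioi (neg_lt_zero.mpr hδ) 0).congr_fun (fun t ht => ?_) measurableSet_Ioi
      have ht' : 0 < t := ht
      simp [abs_of_pos ht']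
  · have h1 := integral_comp_abs (f := fun t : ℝ => Real.exp (-(δ * t)))
    rw [h1]
    have h2 : ∫ t : ℝ in Set.Ioi 0, Real.exp (-(δ * t)) = 1 / δ := by
      have h3 := integral_exp_mul_Ioi (neg_lt_zero.mpr hδ) 0
      have h4 : ∫ t : ℝ in Set.Ioi 0, Real.exp (-(δ * t)) = ∫ t : ℝ in Set.Ioi 0, Real.exp (-δ * t) := by
        simp
      rw [h4, h3]
      field_simp
      simp
    rw [h2]
    ring

theorem C_nonneg {g : ℝ → ℂ} {C : ℝ}
    (hg : ∀ t : ℝ, 1 ≤ |t| → ‖g t‖ ≤ C * Real.exp (-(Real.pi * |t| / 2))) : 0 ≤ C := by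
  have h1 := (norm_nonneg _).trans (hg 1 (by simp))
  have h2 := Real.exp_pos (-(Real.pi * |(1 : ℝ)| / 2))
  by_contra hc
  push Not at hc
  have := mul_neg_of_neg_of_pos hc h2
  linarith

theorem bd1 {g : ℝ → ℂ} {C G : ℝ}
    (hg : ∀ t : ℝ, 1 ≤ |t| → ‖g t‖ ≤ C * Real.exp (-(Real.pi * |t| / 2)))
    (hG0 : 0 ≤ G) (hG : ∀ t : ℝ, |t| ≤ 1 → ‖g t‖ ≤ G) {α x : ℝ} (hα : 0 < α) (hx : 0 < x) (μ t : ℝ) :
    ‖g t * exp ((t : ℂ) * I * ((μ : ℂ) - LL α x))‖ ≤ (C + G * Real.exp Real.pi) * Real.exp (-(ep α x * |t|)) := by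
  have hC := C_nonneg hg
  rw [norm_mul, norm_osc]
  have h0 : t * (LL α x).im ≤ |t| * (LL α x).im := mul_le_mul_of_nonneg_right (le_abs_self t) (im_nonneg hα x)
  rcases le_total 1 |t| with ht | ht
  · calc ‖g t‖ * Real.exp (t * (LL α x).im)
        ≤ (C * Real.exp (-(Real.pi * |t| / 2))) * Real.exp (|t| * (LL α x).im) := by
          gcongr
          exact hg t ht
      _ = C * Real.exp (-(ep α x * |t|)) := by
          rw [mul_assoc, ← Real.exp_add]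
          congr 2
          unfold ep
          ring
      _ ≤ _ := by
          gcongr
          have : 0 ≤ G * Real.exp Real.pi := by positivity
          linarith
  · have h1 : |t| * (LL α x).im ≤ Real.pi / 2 := by
      have h2 := ep_pos (α := α) hx
      unfold ep at h2
      have h3 := im_nonneg hα x
      nlinarith [abs_nonneg t]
    have h4 : ep α x * |t| ≤ Real.pi / 2 := by
      have h2 := ep_pos (α := α) hx
      have h3 := ep_le hα x
      nlinarith [abs_nonneg t]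
    calc ‖g t‖ * Real.exp (t * (LL α x).im) ≤ G * Real.exp (Real.pi / 2) := by
          gcongr
          · exact hG t ht
          · linarith
      _ = G * Real.exp Real.pi * Real.exp (-(Real.pi / 2)) := by
          rw [mul_assoc, ← Real.exp_add]
          congr 2
          ring
      _ ≤ (C + G * Real.exp Real.pi) * Real.exp (-(ep α x * |t|)) := by
          gcongr
          linarith

theorem bd2 {g : ℝ → ℂ} {C G T : ℝ} (hT : 1 ≤ T)
    (hg : ∀ t : ℝ, 1 ≤ |t| → ‖g t‖ ≤ C * Real.exp (-(Real.pi * |t| / 2)))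
    (hG0 : 0 ≤ G) (hG : ∀ t : ℝ, |t| ≤ T → ‖g t‖ ≤ G) {α x : ℝ} (hα : 0 < α) (hx : 0 < x) (μ t : ℝ)
    (htT : t ≤ T) :
    ‖g t * exp ((t : ℂ) * I * ((μ : ℂ) - LL α x))‖ ≤
      (C + G * Real.exp (Real.pi * T)) * Real.exp (-(Real.pi / 2 * |t|)) := by
  have hC := C_nonneg hg
  rw [norm_mul, norm_osc]
  have h0 : t * (LL α x).im ≤ |t| * (LL α x).im := mul_le_mul_of_nonneg_right (le_abs_self t) (im_nonneg hα x)
  rcases le_total t (-1) with ht | ht
  · have h5 : |t| = -t := abs_of_nonpos (by linarith)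
    have h6 : t * (LL α x).im ≤ 0 := mul_nonpos_of_nonpos_of_nonneg (by linarith) (im_nonneg hα x)
    calc ‖g t‖ * Real.exp (t * (LL α x).im)
        ≤ (C * Real.exp (-(Real.pi * |t| / 2))) * Real.exp 0 := by
          gcongr
          exact hg t (by rw [h5]; linarith)
      _ = C * Real.exp (-(Real.pi / 2 * |t|)) := by
          rw [Real.exp_zero, mul_one]
          congr 2
          ring
      _ ≤ _ := by
          gcongr
          have : 0 ≤ G * Real.exp (Real.pi * T) := by positivity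
          linarith
  · have h7 : |t| ≤ T := abs_le.mpr ⟨by linarith, htT⟩
    have h1 : |t| * (LL α x).im ≤ T * (Real.pi / 2) := by
      have h2 := ep_pos (α := α) hx
      unfold ep at h2
      have h3 := im_nonneg hα x
      have h8 := abs_nonneg t
      calc |t| * (LL α x).im ≤ T * (LL α x).im := by gcongr
        _ ≤ T * (Real.pi / 2) := by
          gcongr
          linarith
    have h4 : Real.pi / 2 * |t| ≤ Real.pi / 2 * T := by
      have := Real.pi_pos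
      gcongr
    calc ‖g t‖ * Real.exp (t * (LL α x).im) ≤ G * Real.exp (T * (Real.pi / 2)) :=
          mul_le_mul (hG t h7) (Real.exp_le_exp.mpr (by linarith)) (Real.exp_pos _).le hG0
      _ = G * Real.exp (Real.pi * T) * Real.exp (-(Real.pi / 2 * T)) := by
          rw [mul_assoc, ← Real.exp_add]
          congr 2
          ring
      _ ≤ (C + G * Real.exp (Real.pi * T)) * Real.exp (-(Real.pi / 2 * |t|)) := by
          gcongr
          linarith

theorem exists_G {g : ℝ → ℂ} (hgc : Continuous g) (T : ℝ) : ∃ G : ℝ, 0 ≤ G ∧ ∀ t : ℝ, |t| ≤ T → ‖g t‖ ≤ G := by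
  obtain ⟨B, hB⟩ := (isCompact_Icc (a := -T) (b := T)).exists_bound_of_continuousOn hgc.continuousOn
  exact ⟨|B|, abs_nonneg B, fun t ht => (hB t (abs_le.mp ht)).trans (le_abs_self B)⟩

theorem osc_cont {g : ℝ → ℂ} (hgc : Continuous g) (α x μ : ℝ) :
    Continuous (fun t : ℝ => g t * exp ((t : ℂ) * I * ((μ : ℂ) - LL α x))) := by
  fun_prop

theorem bound' {g : ℝ → ℂ} (hgc : Continuous g) {C : ℝ}
    (hg : ∀ t : ℝ, 1 ≤ |t| → ‖g t‖ ≤ C * Real.exp (-(Real.pi * |t| / 2))) {α : ℝ} (hα : 0 < α) :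
    ∃ B : ℝ, ∀ x : ℝ, 0 < x → x ≤ 1 → ∀ μ : ℝ,
      Integrable (fun t : ℝ => g t * exp ((t : ℂ) * I * ((μ : ℂ) - LL α x))) ∧
      x * (∫ t : ℝ, ‖g t * exp ((t : ℂ) * I * ((μ : ℂ) - LL α x))‖) ≤ B := by
  obtain ⟨G, hG0, hG⟩ := exists_G hgc 1
  have hC := C_nonneg hg
  refine ⟨(C + G * Real.exp Real.pi) * (2 * (1 + α)), fun x hx hx1 μ => ?_⟩
  obtain ⟨hI, hIe⟩ := int_exp_abs (ep_pos (α := α) hx)
  have hI2 := hI.const_mul (C + G * Real.exp Real.pi)
  have hint : Integrable (fun t : ℝ => g t * exp ((t : ℂ) * I * ((μ : ℂ) - LL α x))) :=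
    hI2.mono' (osc_cont hgc α x μ).aestronglyMeasurable
      (Eventually.of_forall fun t => bd1 hg hG0 hG hα hx μ t)
  refine ⟨hint, ?_⟩
  have h1 : (∫ t : ℝ, ‖g t * exp ((t : ℂ) * I * ((μ : ℂ) - LL α x))‖) ≤
      (C + G * Real.exp Real.pi) * (2 / ep α x) := by
    rw [← hIe, ← integral_const_mul]
    exact integral_mono hint.norm hI2 (fun t => bd1 hg hG0 hG hα hx μ t)
  have h2 : x * (2 / ep α x) ≤ 2 * (1 + α) := by
    have h3 := x_le hα hx
    have h4 := ep_pos (α := α) hx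
    rw [mul_div_assoc', div_le_iff₀ h4]
    nlinarith
  calc x * (∫ t : ℝ, ‖g t * exp ((t : ℂ) * I * ((μ : ℂ) - LL α x))‖)
      ≤ x * ((C + G * Real.exp Real.pi) * (2 / ep α x)) := by gcongr
    _ = (C + G * Real.exp Real.pi) * (x * (2 / ep α x)) := by ring
    _ ≤ _ := by gcongr

/-- `r(x)`. -/
noncomputable def rr (α s x : ℝ) : ℂ := ((Real.pi / 2 : ℝ) : ℂ) - (s : ℂ) * I + I * LL α x

theorem rr_re (α s x : ℝ) : (rr α s x).re = ep α x := by
  unfold rr ep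
  simp only [add_re, sub_re, mul_re, ofReal_re, ofReal_im, I_re, I_im]
  ring

theorem rr_zero {α : ℝ} (hα : 0 < α) (s : ℝ) :
    rr α s 0 = -((s - Real.log (2 * Real.pi * α) : ℝ) : ℂ) * I := by
  have h1 : LL α 0 = (Real.log (2 * Real.pi * α) : ℂ) + ((Real.pi / 2 : ℝ) : ℂ) * I := by
    unfold LL
    have : ((2 * Real.pi : ℝ) : ℂ) * (((0 : ℝ) : ℂ) + (α : ℂ) * I) = ((2 * Real.pi * α : ℝ) : ℂ) * I := by
      push_cast; ring
    rw [this, Complex.log_ofReal_mul (by positivity) I_ne_zero, Complex.log_I]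
    push_cast
    ring
  unfold rr
  rw [h1]
  push_cast
  linear_combination (Real.pi / 2 : ℂ) * I_mul_I

theorem rr_deriv {α : ℝ} (hα : 0 < α) (s : ℝ) : HasDerivAt (rr α s) (1 / (α : ℂ)) 0 := by
  have hαc : (α : ℂ) ≠ 0 := by exact_mod_cast hα.ne'
  have hpi : ((2 * Real.pi : ℝ) : ℂ) ≠ 0 := by
    have : (2 * Real.pi : ℝ) ≠ 0 := by positivity
    exact_mod_cast this
  have h1 : HasDerivAt (fun x : ℝ => ((2 * Real.pi : ℝ) : ℂ) * ((x : ℂ) + (α : ℂ) * I)) (((2 * Real.pi : ℝ) : ℂ) * 1) 0 :=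
    ((Complex.ofRealCLM.hasDerivAt (x := (0:ℝ))).add_const ((α : ℂ) * I)).const_mul _
  have h2 : ((2 * Real.pi : ℝ) : ℂ) * (((0 : ℝ) : ℂ) + (α : ℂ) * I) ∈ slitPlane := by
    rw [Complex.mem_slitPlane_iff]
    right
    have : (((2 * Real.pi : ℝ) : ℂ) * (((0 : ℝ) : ℂ) + (α : ℂ) * I)).im = 2 * Real.pi * α := by
      simp
    rw [this]
    positivity
  have h3 := (h1.clog_real h2).const_mul I
  have h4 := h3.const_add (((Real.pi / 2 : ℝ) : ℂ) - (s : ℂ) * I)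
  refine HasDerivAt.congr_deriv h4 ?_
  rw [ofReal_zero, zero_add, mul_one]
  have hI : I ≠ 0 := I_ne_zero
  field_simp

theorem lim_quot {α : ℝ} (hα : 0 < α) (s : ℝ) :
    Tendsto (fun x : ℝ => (x : ℂ) / rr α s x) (𝓝[>] 0)
      (𝓝 (if s - Real.log (2 * Real.pi * α) = 0 then (α : ℂ) else 0)) := by
  have hαc : (α : ℂ) ≠ 0 := by exact_mod_cast hα.ne'
  split_ifs with h
  · have h0 : rr α s 0 = 0 := by rw [rr_zero hα, h]; simp
    have h1 := (rr_deriv hα s).tendsto_slope_zero_right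
    have h2 : Tendsto (fun t : ℝ => (t⁻¹ • (rr α s (0 + t) - rr α s 0))⁻¹) (𝓝[>] 0) (𝓝 (1 / (α : ℂ))⁻¹) :=
      h1.inv₀ (one_div_ne_zero hαc)
    rw [one_div, inv_inv] at h2
    refine h2.congr' ?_
    filter_upwards [self_mem_nhdsWithin] with x hx
    rw [zero_add, h0, sub_zero, Complex.real_smul, mul_inv, Complex.ofReal_inv, inv_inv]
    rfl
  · have h0 : rr α s 0 ≠ 0 := by
      rw [rr_zero hα]
      have : ((s - Real.log (2 * Real.pi * α) : ℝ) : ℂ) ≠ 0 := by exact_mod_cast h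
      exact mul_ne_zero (neg_ne_zero.mpr this) I_ne_zero
    have h1 : Tendsto (rr α s) (𝓝[>] 0) (𝓝 (rr α s 0)) :=
      (rr_deriv hα s).continuousAt.tendsto.mono_left nhdsWithin_le_nhds
    have h2 : Tendsto (fun x : ℝ => (x : ℂ)) (𝓝[>] 0) (𝓝 0) := by
      have : Tendsto (fun x : ℝ => (x : ℂ)) (𝓝 0) (𝓝 ((0 : ℝ) : ℂ)) :=
        Complex.continuous_ofReal.tendsto 0
      simpa using this.mono_left nhdsWithin_le_nhds
    have h3 := h2.div h1 h0
    rw [zero_div] at h3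
    exact h3

theorem lim_main {α : ℝ} (hα : 0 < α) (s : ℝ) (w : ℂ) (hw : 0 < w.re) :
    Tendsto (fun x : ℝ => ((x : ℂ) / rr α s x) ^ w) (𝓝[>] 0)
      (𝓝 (if s - Real.log (2 * Real.pi * α) = 0 then (α : ℂ) ^ w else 0)) := by
  have h1 := lim_quot hα s
  have hw0 : w ≠ 0 := by rintro rfl; simp at hw
  split_ifs at h1 ⊢ with h
  · exact (Complex.continuousAt_cpow_const_of_re_pos (z := (α : ℂ)) (Or.inl (by simpa using hα.le)) hw).tendsto.comp h1
  · have h2 := (Complex.continuousAt_cpow_const_of_re_pos (z := (0 : ℂ)) (Or.inl (by simp)) hw).tendsto.comp h1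
    rw [zero_cpow hw0] at h2
    exact h2

theorem cpow_mul_real {x : ℝ} (hx : 0 < x) {r : ℂ} (hr : r ≠ 0) (w : ℂ) :
    (x : ℂ) ^ w * (1 / r) ^ w = ((x : ℂ) / r) ^ w := by
  have hxc : (x : ℂ) ≠ 0 := by exact_mod_cast hx.ne'
  have h1 : (1 / r) ≠ 0 := one_div_ne_zero hr
  have h2 : (x : ℂ) / r = (x : ℂ) * (1 / r) := by ring
  rw [h2, cpow_def_of_ne_zero hxc, cpow_def_of_ne_zero h1, cpow_def_of_ne_zero (mul_ne_zero hxc h1),
    Complex.log_ofReal_mul hx h1, Complex.ofReal_log hx.le, ← Complex.exp_add]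
  congr 1
  ring

theorem decomp {g : ℝ → ℂ} (hgc : Continuous g) {c₁ : ℂ} {C T l η : ℝ} (hT : 1 ≤ T)
    (hg : ∀ t : ℝ, 1 ≤ |t| → ‖g t‖ ≤ C * Real.exp (-(Real.pi * |t| / 2)))
    (hpos : ∀ t : ℝ, T ≤ t → ∃ R : ℂ, ‖R‖ ≤ C / t ∧
      g t = c₁ * exp (((l * t : ℝ) : ℂ) * I - ((Real.pi * t / 2 : ℝ) : ℂ) - (η : ℂ) * I * (Real.log t : ℂ) + R))
    {α : ℝ} (hα : 0 < α) (μ : ℝ) :
    ∃ B : ℝ, 0 ≤ B ∧ ∀ x : ℝ, 0 < x → x ≤ 1 →
      ‖(∫ t : ℝ, g t * exp ((t : ℂ) * I * ((μ : ℂ) - LL α x))) -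
        c₁ * ((1 / rr α (l + μ) x) ^ (1 - (η : ℂ) * I) * Gamma (1 - (η : ℂ) * I))‖ ≤
        B + B * (1 / ep α x) ^ (1 / 2 : ℝ) := by
  obtain ⟨G, hG0, hG⟩ := exists_G hgc T
  have hC := C_nonneg hg
  have hT0 : 0 < T := by linarith
  set w : ℂ := 1 - (η : ℂ) * I with hw
  have hwre : w.re = 1 := by simp [hw]
  obtain ⟨_, hb⟩ := bound' hgc hg hα
  obtain ⟨hIpi, -⟩ := int_exp_abs (δ := Real.pi / 2) (by positivity)
  set G2 : ℝ := C + G * Real.exp (Real.pi * T) with hG2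
  have hG20 : 0 ≤ G2 := by positivity
  set B1 : ℝ := ∫ t in Set.Iic T, G2 * Real.exp (-(Real.pi / 2 * |t|)) with hB1
  have hB10 : 0 ≤ B1 := integral_nonneg fun t => by positivity
  set K1 : ℝ := ‖c₁‖ * (C * Real.exp C) with hK1
  have hK10 : 0 ≤ K1 := by positivity
  have hGam : 0 ≤ Real.Gamma (1 / 2) := (Real.Gamma_pos_of_pos (by norm_num)).le
  refine ⟨B1 + ‖c₁‖ * T + K1 * Real.Gamma (1 / 2), by positivity, fun x hx hx1 => ?_⟩
  have hint := (hb x hx hx1 μ).1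
  set h : ℝ → ℂ := fun t => g t * exp ((t : ℂ) * I * ((μ : ℂ) - LL α x)) with hh
  set r : ℂ := rr α (l + μ) x with hr
  have hrre : r.re = ep α x := rr_re α _ x
  have hep := ep_pos (α := α) hx
  have hrpos : 0 < r.re := by rw [hrre]; exact hep
  set m : ℝ → ℂ := fun t => (t : ℂ) ^ (w - 1) * exp (-(r * t)) with hm
  have hmint : IntegrableOn m (Set.Ioi 0) :=
    Pool.Agent.Helper94.BD.laplace_cpow_integrable (by rw [hwre]; norm_num) hrpos
  have hmval : ∫ t in Set.Ioi (0 : ℝ), m t = (1 / r) ^ w * Gamma w :=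
    Pool.Agent.Helper94.BD.laplace_cpow (by rw [hwre]; norm_num) hrpos
  have hmnorm : ∀ t : ℝ, 0 < t → ‖m t‖ = Real.exp (-(ep α x * t)) := by
    intro t ht
    simp only [hm]
    rw [norm_mul, Complex.norm_cpow_eq_rpow_re_of_pos ht, Complex.norm_exp]
    have : (w - 1).re = 0 := by simp [hwre]
    rw [this, Real.rpow_zero, one_mul, ← hrre]
    simp
  -- splitting
  have hsub : Set.Ioi T ⊆ Set.Ioi (0 : ℝ) := Set.Ioi_subset_Ioi hT0.le
  have e1 : (∫ t : ℝ, h t) = (∫ t in Set.Iic T, h t) + ∫ t in Set.Ioi T, h t :=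
    (intervalIntegral.integral_Iic_add_Ioi hint.integrableOn hint.integrableOn).symm
  have e2 : (∫ t in Set.Ioi (0 : ℝ), m t) = (∫ t in Set.Ioc 0 T, m t) + ∫ t in Set.Ioi T, m t := by
    rw [← setIntegral_union (Set.Ioc_disjoint_Ioi le_rfl) measurableSet_Ioi
      (hmint.mono_set Set.Ioc_subset_Ioi_self) (hmint.mono_set hsub), Set.Ioc_union_Ioi_eq_Ioi hT0.le]
  have e3 : (∫ t in Set.Ioi T, (h t - c₁ * m t)) = (∫ t in Set.Ioi T, h t) - c₁ * ∫ t in Set.Ioi T, m t := by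
    rw [integral_sub hint.integrableOn ((hmint.mono_set hsub).const_mul c₁), integral_const_mul]
  have e4 : (∫ t : ℝ, h t) - c₁ * ((1 / r) ^ w * Gamma w) =
      (∫ t in Set.Iic T, h t) + (∫ t in Set.Ioi T, (h t - c₁ * m t)) - c₁ * ∫ t in Set.Ioc 0 T, m t := by
    rw [← hmval, e1, e2, e3]
    ring
  rw [e4]
  -- first
  have n1 : ‖∫ t in Set.Iic T, h t‖ ≤ B1 := by
    refine norm_integral_le_of_norm_le (hIpi.const_mul G2).integrableOn ?_
    filter_upwards [ae_restrict_mem measurableSet_Iic] with t ht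
    exact bd2 hT hg hG0 hG hα hx μ t ht
  -- third
  have n3 : ‖∫ t in Set.Ioc 0 T, m t‖ ≤ T := by
    have := norm_setIntegral_le_of_norm_le_const (μ := volume) (s := Set.Ioc 0 T) (f := m) (C := 1)
      (by simp) (fun t ht => by
        rw [hmnorm t ht.1]
        apply Real.exp_le_one_iff.mpr
        have := mul_pos hep ht.1
        linarith)
    refine this.trans ?_
    simp [hT0.le]
  -- second
  have hbI : IntegrableOn (fun t : ℝ => K1 * (t ^ ((1 / 2 : ℝ) - 1) * Real.exp (-(ep α x * t)))) (Set.Ioi 0) :=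
    (Pool.Agent.Helper94.BD.int_rpow (by norm_num) hep).const_mul K1
  have n2 : ‖∫ t in Set.Ioi T, (h t - c₁ * m t)‖ ≤ K1 * Real.Gamma (1 / 2) * (1 / ep α x) ^ (1 / 2 : ℝ) := by
    have h1 : ‖∫ t in Set.Ioi T, (h t - c₁ * m t)‖ ≤
        ∫ t in Set.Ioi T, K1 * (t ^ ((1 / 2 : ℝ) - 1) * Real.exp (-(ep α x * t))) := by
      refine norm_integral_le_of_norm_le (hbI.mono_set hsub) ?_
      filter_upwards [ae_restrict_mem measurableSet_Ioi] with t ht
      have htT : T < t := ht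
      have ht1 : 1 ≤ t := by linarith
      have ht0 : 0 < t := by linarith
      obtain ⟨R, hR, hgt⟩ := hpos t htT.le
      have hm1 : h t = c₁ * m t * exp R := by
        simp only [hh, hm]
        rw [hgt, cpow_def_of_ne_zero (by exact_mod_cast ht0.ne'), ← Complex.ofReal_log ht0.le]
        rw [mul_assoc c₁ (cexp _) (cexp _), ← Complex.exp_add, mul_assoc c₁ (_ * _) (cexp R),
          ← Complex.exp_add, ← Complex.exp_add]
        congr 2
        rw [hr, hw]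
        unfold rr
        push_cast
        ring
      have hm2 : h t - c₁ * m t = c₁ * m t * (exp R - 1) := by rw [hm1]; ring
      rw [hm2, norm_mul, norm_mul, hmnorm t ht0]
      have hRC : ‖R‖ ≤ C := hR.trans (div_le_self hC ht1)
      have hR2 : ‖exp R - 1‖ ≤ ‖R‖ * Real.exp ‖R‖ := by
        have h3 := norm_exp_sub_sum_le_norm_mul_exp R 1
        simpa using h3
      have hR3 : ‖exp R - 1‖ ≤ C / t * Real.exp C := by
        refine hR2.trans ?_
        gcongr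
      have ht2 : 1 / t ≤ t ^ ((1 / 2 : ℝ) - 1) := by
        rw [one_div, ← Real.rpow_neg_one]
        exact Real.rpow_le_rpow_of_exponent_le ht1 (by norm_num)
      calc ‖c₁‖ * Real.exp (-(ep α x * t)) * ‖exp R - 1‖
          ≤ ‖c₁‖ * Real.exp (-(ep α x * t)) * (C / t * Real.exp C) := by gcongr
        _ = K1 * (1 / t * Real.exp (-(ep α x * t))) := by rw [hK1]; ring
        _ ≤ K1 * (t ^ ((1 / 2 : ℝ) - 1) * Real.exp (-(ep α x * t))) := by gcongr
    refine h1.trans ?_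
    have h2 : (∫ t in Set.Ioi T, K1 * (t ^ ((1 / 2 : ℝ) - 1) * Real.exp (-(ep α x * t)))) ≤
        ∫ t in Set.Ioi (0 : ℝ), K1 * (t ^ ((1 / 2 : ℝ) - 1) * Real.exp (-(ep α x * t))) := by
      refine setIntegral_mono_set hbI ?_ (Eventually.of_forall hsub)
      filter_upwards [ae_restrict_mem measurableSet_Ioi] with t ht
      have ht0 : (0 : ℝ) < t := ht
      positivity
    refine h2.trans ?_
    rw [integral_const_mul, Real.integral_rpow_mul_exp_neg_mul_Ioi (by norm_num) hep]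
    apply le_of_eq
    ring
  have hpow : 0 ≤ (1 / ep α x) ^ (1 / 2 : ℝ) := by positivity
  calc ‖(∫ t in Set.Iic T, h t) + (∫ t in Set.Ioi T, (h t - c₁ * m t)) - c₁ * ∫ t in Set.Ioc 0 T, m t‖
      ≤ ‖∫ t in Set.Iic T, h t‖ + ‖∫ t in Set.Ioi T, (h t - c₁ * m t)‖ + ‖c₁ * ∫ t in Set.Ioc 0 T, m t‖ :=
        (norm_sub_le _ _).trans (by gcongr; exact norm_add_le _ _)
    _ ≤ B1 + K1 * Real.Gamma (1 / 2) * (1 / ep α x) ^ (1 / 2 : ℝ) + ‖c₁‖ * T := by
        rw [norm_mul]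
        gcongr
    _ ≤ _ := by
        have q1 : 0 ≤ ‖c₁‖ * T := by positivity
        have q2 : 0 ≤ K1 * Real.Gamma (1 / 2) := by positivity
        nlinarith [mul_nonneg hB10 hpow, mul_nonneg q1 hpow, mul_nonneg q2 hpow]

end B3a

theorem osc_bound {g : ℝ → ℂ} (hgc : Continuous g) {C : ℝ}
    (hg : ∀ t : ℝ, 1 ≤ |t| → ‖g t‖ ≤ C * Real.exp (-(Real.pi * |t| / 2))) {α : ℝ} (hα : 0 < α) :
    ∃ B : ℝ, ∀ x : ℝ, 0 < x → x ≤ 1 → ∀ μ : ℝ,
      Integrable (fun t : ℝ => g t * exp ((t : ℂ) * I * ((μ : ℂ) - log (((2 * Real.pi : ℝ) : ℂ) * ((x : ℂ) + (α : ℂ) * I))))) ∧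
      x * (∫ t : ℝ, ‖g t * exp ((t : ℂ) * I * ((μ : ℂ) - log (((2 * Real.pi : ℝ) : ℂ) * ((x : ℂ) + (α : ℂ) * I))))‖) ≤ B :=
  B3a.bound' hgc hg hα

theorem osc_limit {g : ℝ → ℂ} (hgc : Continuous g) {c₁ : ℂ} {C T l η : ℝ} (hT : 1 ≤ T)
    (hg : ∀ t : ℝ, 1 ≤ |t| → ‖g t‖ ≤ C * Real.exp (-(Real.pi * |t| / 2)))
    (hpos : ∀ t : ℝ, T ≤ t → ∃ R : ℂ, ‖R‖ ≤ C / t ∧
      g t = c₁ * exp (((l * t : ℝ) : ℂ) * I - ((Real.pi * t / 2 : ℝ) : ℂ) - (η : ℂ) * I * (Real.log t : ℂ) + R))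
    {α : ℝ} (hα : 0 < α) (μ : ℝ) :
    Tendsto (fun x : ℝ => (x : ℂ) ^ (1 - (η : ℂ) * I) *
      ∫ t : ℝ, g t * exp ((t : ℂ) * I * ((μ : ℂ) - log (((2 * Real.pi : ℝ) : ℂ) * ((x : ℂ) + (α : ℂ) * I))))) (𝓝[>] 0)
      (𝓝 (if l + μ - Real.log (2 * Real.pi * α) = 0 then c₁ * Gamma (1 - (η : ℂ) * I) * (α : ℂ) ^ (1 - (η : ℂ) * I) else 0)) := by
  obtain ⟨B, hB0, hB⟩ := B3a.decomp hgc hT hg hpos hα μ
  set w : ℂ := 1 - (η : ℂ) * I with hw
  have hwre : w.re = 1 := by simp [hw]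
  have hlim : Tendsto (fun x : ℝ => c₁ * Gamma w * ((x : ℂ) / B3a.rr α (l + μ) x) ^ w) (𝓝[>] 0)
      (𝓝 (if l + μ - Real.log (2 * Real.pi * α) = 0 then c₁ * Gamma w * (α : ℂ) ^ w else 0)) := by
    have h1 := (B3a.lim_main hα (l + μ) w (by rw [hwre]; norm_num)).const_mul (c₁ * Gamma w)
    split_ifs at h1 ⊢ with h
    · exact h1
    · rw [mul_zero] at h1
      exact h1
  have hdiff : Tendsto (fun x : ℝ => (x : ℂ) ^ w *
      (∫ t : ℝ, g t * exp ((t : ℂ) * I * ((μ : ℂ) - B3a.LL α x))) -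
        c₁ * Gamma w * ((x : ℂ) / B3a.rr α (l + μ) x) ^ w) (𝓝[>] 0) (𝓝 0) := by
    have hz : Tendsto (fun x : ℝ => B * x + B * Real.sqrt (1 + α) * Real.sqrt x) (𝓝[>] 0) (𝓝 0) := by
      have hc : Continuous (fun x : ℝ => B * x + B * Real.sqrt (1 + α) * Real.sqrt x) := by fun_prop
      have := hc.tendsto 0
      simp only [mul_zero, Real.sqrt_zero, add_zero] at this
      exact this.mono_left nhdsWithin_le_nhds
    refine squeeze_zero_norm' ?_ hz
    have hI : ∀ᶠ x : ℝ in 𝓝[>] 0, x ∈ Set.Ioc (0 : ℝ) 1 := Ioc_mem_nhdsGT one_pos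
    filter_upwards [hI] with x hx
    have hx0 := hx.1
    have hep := B3a.ep_pos (α := α) hx0
    have hr0 : B3a.rr α (l + μ) x ≠ 0 := by
      intro h
      have h2 := B3a.rr_re α (l + μ) x
      rw [h] at h2
      simp at h2
      linarith
    have h1 := hB x hx0 hx.2
    rw [← B3a.cpow_mul_real hx0 hr0 w]
    have h2 : (x : ℂ) ^ w * (∫ t : ℝ, g t * exp ((t : ℂ) * I * ((μ : ℂ) - B3a.LL α x))) -
        c₁ * Gamma w * ((x : ℂ) ^ w * (1 / B3a.rr α (l + μ) x) ^ w) = (x : ℂ) ^ w *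
        ((∫ t : ℝ, g t * exp ((t : ℂ) * I * ((μ : ℂ) - B3a.LL α x))) -
        c₁ * ((1 / B3a.rr α (l + μ) x) ^ w * Gamma w)) := by ring
    rw [h2, norm_mul, Complex.norm_cpow_eq_rpow_re_of_pos hx0, hwre, Real.rpow_one]
    have h3 : x * (1 / B3a.ep α x) ^ (1 / 2 : ℝ) ≤ Real.sqrt (1 + α) * Real.sqrt x := by
      have h4 : 1 / B3a.ep α x ≤ (1 + α) / x := by
        have h5 := B3a.x_le hα hx0
        rw [div_le_div_iff₀ hep hx0]
        nlinarith [hx.2]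
      calc x * (1 / B3a.ep α x) ^ (1 / 2 : ℝ) ≤ x * ((1 + α) / x) ^ (1 / 2 : ℝ) := by gcongr
        _ = Real.sqrt (1 + α) * Real.sqrt x := by
          rw [← Real.sqrt_eq_rpow, Real.sqrt_div (by positivity)]
          have hs : Real.sqrt x ≠ 0 := (Real.sqrt_pos.mpr hx0).ne'
          field_simp
          rw [Real.sq_sqrt hx0.le]
    calc x * ‖(∫ t : ℝ, g t * exp ((t : ℂ) * I * ((μ : ℂ) - B3a.LL α x))) -
        c₁ * ((1 / B3a.rr α (l + μ) x) ^ w * Gamma w)‖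
        ≤ x * (B + B * (1 / B3a.ep α x) ^ (1 / 2 : ℝ)) := by gcongr
      _ = B * x + B * (x * (1 / B3a.ep α x) ^ (1 / 2 : ℝ)) := by ring
      _ ≤ B * x + B * (Real.sqrt (1 + α) * Real.sqrt x) := by gcongr
      _ = _ := by ring
  have := hdiff.add hlim
  simp only [sub_add_cancel, zero_add] at this
  exact this

end Pool.Agent.Helper19.BD
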