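import Pool.Agent.Helper97.BD.B4Defs

/-!
Block BD-B4A (MP_bd232a_nt, part B). Comparison of `Gamma(s) X(s)` with `Kfun` on the line `s = -1/4 + it`, for degree `1 + ρ`.

`GX_vs_K`: compare `GX_asymp` (XAsymp.lean; `k = 0`, `σ = -1/4`, `D.deg = 1+ρ`: exponent `ρ·3/4 - iη` of `t`, phase `-iρt(log t - 1) + iℓt - πt/2`) with `stirling_vert` for
`Gamma(Aex - ρs)`, `Aex - ρ s = conj(conj(Aex) + ρ/4 + iρt)`:
`conj(stL b τ) = -iτ(log τ - 1) - πτ/2 + (conj b - 1/2)(log τ - iπ/2) + (1/2)log 2π`, `τ = ρt`, `conj b = Aex + ρ/4`;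
`exp((l + i(π/2)(1-ρ))s)` with `l = ℓ + ρ log ρ`: `exp(i l t - (π/2)(1-ρ) t)` times a constant. The `t`-dependence agrees: `-iρt log ρ + i l t = iℓt`, `Aex + ρ/4 - 1/2 = 3ρ/4 - iη`.
So for a suitable constant `C₂ ≠ 0` the quotient of the two sides is `exp(O(1/t))` and `‖Kfun‖ ≤ C t^(3ρ/4) exp(-πt/2)`.
`K_neg`: for `t = -τ`, `τ ≥ 1`: `‖exp(...)‖ = const · exp((π/2)(1-ρ)τ)`, `‖Gamma(Aex - ρ s)‖ ≤ C τ^(3ρ/4) exp(-πρτ/2)` (`stirling_vert` for `ρτ` large, continuity otherwise: `Re(Aex - ρs) > 0`).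
-/

open Complex MeasureTheory

namespace Pool.Agent.Helper19.BD

namespace B4An1

/-- the common factor of the two sides -/
noncomputable def MM (ρ η ell t : ℝ) : ℂ :=
  exp (-((ρ * t * (Real.log t - 1) : ℝ) : ℂ) * I + ((ell * t : ℝ) : ℂ) * I - ((Real.pi * t / 2 : ℝ) : ℂ)
    + (((3 * ρ / 4 : ℝ) : ℂ) - (η : ℂ) * I) * (Real.log t : ℂ))

lemma norm_MM (ρ η ell : ℝ) {t : ℝ} (ht : 0 < t) :
    ‖MM ρ η ell t‖ = t ^ (3 * ρ / 4) * Real.exp (-(Real.pi * t / 2)) := by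
  unfold MM
  rw [norm_exp, Real.rpow_def_of_pos ht, ← Real.exp_add]
  congr 1
  simp only [add_re, neg_mul, neg_re, mul_re, ofReal_re, ofReal_im, I_re, I_im, sub_re, sub_im, mul_im]
  ring

/-- the base point for Stirling's formula -/
noncomputable def bb (ρ η : ℝ) : ℂ := (((1 + ρ) / 2 + ρ / 4 : ℝ) : ℂ) + (η : ℂ) * I

lemma K_asymp (ρ η ell : ℝ) (hρ : 0 < ρ) : ∃ (c : ℂ) (C T : ℝ), c ≠ 0 ∧ 0 < C ∧ 1 ≤ T ∧ ∀ t : ℝ, T ≤ t →
    ∃ R : ℂ, ‖R‖ ≤ C / t ∧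
      Kfun ρ η (ell + ρ * Real.log ρ) (((-(1 / 4) : ℝ) : ℂ) + (t : ℂ) * I) = c * (MM ρ η ell t * exp R) := by
  obtain ⟨C, T, hC, hT, h⟩ := stirling_vert ‖bb ρ η‖
  refine ⟨exp ((((3 * ρ / 4 : ℝ) : ℂ) - (η : ℂ) * I) * ((Real.log ρ : ℂ) - ((Real.pi / 2 : ℝ) : ℂ) * I)
      + ((Real.log (2 * Real.pi) / 2 : ℝ) : ℂ) - (((ell + ρ * Real.log ρ) / 4 : ℝ) : ℂ)
      - ((Real.pi / 8 * (1 - ρ) : ℝ) : ℂ) * I), C / ρ, max 1 (T / ρ), exp_ne_zero _, by positivity,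
      le_max_left _ _, fun t ht => ?_⟩
  have ht1 : 1 ≤ t := (le_max_left _ _).trans ht
  have ht0 : 0 < t := by linarith
  have hτ : T ≤ ρ * t := by
    have := (le_max_right _ _).trans ht
    rwa [div_le_iff₀' hρ] at this
  obtain ⟨R, hR, hG⟩ := h _ le_rfl _ hτ
  refine ⟨(starRingEnd ℂ) R, ?_, ?_⟩
  · rw [RCLike.norm_conj]
    refine hR.trans (le_of_eq ?_)
    field_simp
  · have e1 : Aex ρ η - (ρ : ℂ) * (((-(1 / 4) : ℝ) : ℂ) + (t : ℂ) * I) =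
        (starRingEnd ℂ) (bb ρ η + ((ρ * t : ℝ) : ℂ) * I) := by
      unfold Aex bb
      simp only [map_add, map_mul, conj_ofReal, conj_I]
      push_cast
      ring
    unfold Kfun MM
    rw [e1, Gamma_conj, hG, ← exp_conj, ← exp_add, ← exp_add, ← exp_add]
    congr 1
    unfold stL bb
    simp only [map_add, map_sub, map_mul, conj_ofReal, conj_I, map_div₀, map_one, map_ofNat]
    rw [Real.log_mul hρ.ne' ht0.ne']
    push_cast
    ring_nf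
    rw [I_sq]
    ring

end B4An1

open B4An1

theorem GX_vs_K (D : FE) {ρ : ℝ} (hρ : 0 < ρ) (hd : D.deg = 1 + ρ) :
    ∃ (C₂ : ℂ) (C T : ℝ), C₂ ≠ 0 ∧ 0 < C ∧ 1 ≤ T ∧ ∀ t : ℝ, T ≤ t →
      ‖Gamma (((-(1 / 4) : ℝ) : ℂ) + (t : ℂ) * I) * D.X (((-(1 / 4) : ℝ) : ℂ) + (t : ℂ) * I)
        - C₂ * Kfun ρ D.eta (D.ell + ρ * Real.log ρ) (((-(1 / 4) : ℝ) : ℂ) + (t : ℂ) * I)‖
        ≤ C * t ^ (3 * ρ / 4 - 1) * Real.exp (-(Real.pi * t / 2)) := by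
  obtain ⟨c₁, C, T, hc₁, hC, hT, h⟩ := D.GX_asymp 0 (-(1 / 4))
  obtain ⟨c, C', T', hc, hC', hT', h'⟩ := K_asymp ρ D.eta D.ell hρ
  refine ⟨c₁ / c, ‖c₁‖ * (2 * C + 2 * C'), max (max T T') (max C C'), div_ne_zero hc₁ hc,
    by have := norm_pos_iff.2 hc₁; positivity, hT.trans ((le_max_left _ _).trans (le_max_left _ _)), fun t ht => ?_⟩
  have htT : T ≤ t := ((le_max_left _ _).trans (le_max_left _ _)).trans ht
  have htT' : T' ≤ t := ((le_max_right _ _).trans (le_max_left _ _)).trans ht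
  have htC : C ≤ t := ((le_max_left _ _).trans (le_max_right _ _)).trans ht
  have htC' : C' ≤ t := ((le_max_right _ _).trans (le_max_right _ _)).trans ht
  have ht0 : 0 < t := by linarith
  obtain ⟨R, hR, hG⟩ := h t htT
  obtain ⟨R', hR', hK⟩ := h' t htT'
  have hG' : Gamma (((-(1 / 4) : ℝ) : ℂ) + (t : ℂ) * I) * D.X (((-(1 / 4) : ℝ) : ℂ) + (t : ℂ) * I)
      = c₁ * (MM ρ D.eta D.ell t * exp R) := by
    have e := hG
    rw [Nat.cast_zero, zero_add] at e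
    rw [e]
    unfold MM
    rw [← exp_add, hd]
    congr 2
    push_cast
    ring
  rw [hG', hK]
  have e2 : c₁ * (MM ρ D.eta D.ell t * exp R) - c₁ / c * (c * (MM ρ D.eta D.ell t * exp R'))
      = c₁ * (MM ρ D.eta D.ell t * ((exp R - 1) - (exp R' - 1))) := by
    field_simp
    ring
  rw [e2, norm_mul, norm_mul, norm_MM _ _ _ ht0]
  have hR1 : ‖R‖ ≤ 1 := hR.trans ((div_le_one ht0).2 htC)
  have hR1' : ‖R'‖ ≤ 1 := hR'.trans ((div_le_one ht0).2 htC')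
  have hb : ‖(exp R - 1) - (exp R' - 1)‖ ≤ (2 * C + 2 * C') / t := by
    calc ‖(exp R - 1) - (exp R' - 1)‖ ≤ ‖exp R - 1‖ + ‖exp R' - 1‖ := norm_sub_le _ _
      _ ≤ 2 * ‖R‖ + 2 * ‖R'‖ := add_le_add (norm_exp_sub_one_le hR1) (norm_exp_sub_one_le hR1')
      _ ≤ 2 * (C / t) + 2 * (C' / t) := by gcongr
      _ = (2 * C + 2 * C') / t := by ring
  have hp : t ^ (3 * ρ / 4 - 1) = t ^ (3 * ρ / 4) / t := by
    rw [Real.rpow_sub_one ht0.ne']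
  rw [hp]
  calc ‖c₁‖ * (t ^ (3 * ρ / 4) * Real.exp (-(Real.pi * t / 2)) * ‖(exp R - 1) - (exp R' - 1)‖)
      ≤ ‖c₁‖ * (t ^ (3 * ρ / 4) * Real.exp (-(Real.pi * t / 2)) * ((2 * C + 2 * C') / t)) := by gcongr
    _ = ‖c₁‖ * (2 * C + 2 * C') * (t ^ (3 * ρ / 4) / t) * Real.exp (-(Real.pi * t / 2)) := by ring

namespace B4An1

lemma K_neg_large (ρ η l : ℝ) (hρ : 0 < ρ) : ∃ C T : ℝ, 0 < C ∧ 1 ≤ T ∧ ∀ t : ℝ, T ≤ t →
    ‖Kfun ρ η l (((-(1 / 4) : ℝ) : ℂ) + ((-t : ℝ) : ℂ) * I)‖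
      ≤ C * (t ^ (3 * ρ / 4) * Real.exp ((Real.pi / 2 - Real.pi * ρ) * t)) := by
  obtain ⟨C, T, hC, hT, h⟩ := stirling_vert ‖(starRingEnd ℂ) (bb ρ η)‖
  refine ⟨Real.exp (-l / 4 + 3 * ρ / 4 * Real.log ρ + η * Real.pi / 2 + Real.log (2 * Real.pi) / 2 + C),
      max 1 (T / ρ), Real.exp_pos _, le_max_left _ _, fun t ht => ?_⟩
  have ht1 : 1 ≤ t := (le_max_left _ _).trans ht
  have ht0 : 0 < t := by linarith
  have hτ : T ≤ ρ * t := by
    have := (le_max_right _ _).trans ht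
    rwa [div_le_iff₀' hρ] at this
  obtain ⟨R, hR, hG⟩ := h _ le_rfl _ hτ
  have hR' : ‖R‖ ≤ C := hR.trans (div_le_self hC.le (hT.trans hτ))
  have hre := (abs_le.1 ((abs_re_le_norm R).trans hR')).2
  have e1 : Aex ρ η - (ρ : ℂ) * (((-(1 / 4) : ℝ) : ℂ) + ((-t : ℝ) : ℂ) * I) =
      (starRingEnd ℂ) (bb ρ η) + ((ρ * t : ℝ) : ℂ) * I := by
    unfold Aex bb
    simp only [map_add, map_mul, conj_ofReal, conj_I]
    push_cast
    ring
  unfold Kfun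
  rw [e1, hG, ← exp_add, norm_exp, Real.rpow_def_of_pos ht0, ← Real.exp_add, ← Real.exp_add]
  apply Real.exp_le_exp.2
  unfold stL bb
  simp only [map_add, map_mul, conj_ofReal, conj_I]
  rw [Real.log_mul hρ.ne' ht0.ne']
  simp only [add_re, sub_re, mul_re, ofReal_re, ofReal_im, I_re, I_im, add_im, sub_im, mul_im, neg_re, neg_im]
  norm_num
  ring_nf

  linarith

end B4An1

theorem K_neg (ρ η l : ℝ) (hρ : 0 < ρ) : ∃ C : ℝ, 0 < C ∧ ∀ t : ℝ, t ≤ -1 →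
    ‖Kfun ρ η l (((-(1 / 4) : ℝ) : ℂ) + (t : ℂ) * I)‖ ≤ C * |t| ^ (3 * ρ / 4) * Real.exp ((Real.pi / 2 - Real.pi * ρ) * |t|) := by
  obtain ⟨C, T, hC, hT, h⟩ := K_neg_large ρ η l hρ
  obtain ⟨C', hC', h'⟩ := ext_bound (fun t => ‖Kfun ρ η l (((-(1 / 4) : ℝ) : ℂ) + ((-|t| : ℝ) : ℂ) * I)‖)
    (fun t => |t| ^ (3 * ρ / 4) * Real.exp ((Real.pi / 2 - Real.pi * ρ) * |t|)) T C
    (by
      have hc : Continuous fun t : ℝ => (((-(1 / 4) : ℝ) : ℂ) + ((-|t| : ℝ) : ℂ) * I) := by fun_prop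
      unfold Kfun
      refine (Continuous.norm (Continuous.mul ?_ ?_)).continuousOn
      · exact (continuous_const.mul hc).cexp
      · rw [continuous_iff_continuousAt]
        intro t
        have hpos : 0 < (Aex ρ η - (ρ : ℂ) * (((-(1 / 4) : ℝ) : ℂ) + ((-|t| : ℝ) : ℂ) * I)).re := by
          unfold Aex
          simp only [add_re, mul_re, ofReal_re, sub_re, ofReal_im, I_re, I_im, add_im, mul_im]
          norm_num
          linarith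
        have hd : DifferentiableAt ℂ Gamma (Aex ρ η - (ρ : ℂ) * (((-(1 / 4) : ℝ) : ℂ) + ((-|t| : ℝ) : ℂ) * I)) := by
          apply differentiableAt_Gamma
          intro m hm
          rw [hm] at hpos
          simp at hpos
          have : (0 : ℝ) ≤ m := Nat.cast_nonneg m
          linarith
        exact ContinuousAt.comp (f := fun t : ℝ => Aex ρ η - (ρ : ℂ) * (((-(1 / 4) : ℝ) : ℂ) + ((-|t| : ℝ) : ℂ) * I))
          hd.continuousAt (by fun_prop))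
    (by
      intro t ht
      have ht' : |t| ≠ 0 := by
        have : (1 : ℝ) ≤ |t| := ht
        linarith
      exact (((continuous_abs.continuousAt).rpow_const (Or.inl ht')).mul
        (by fun_prop : Continuous fun t : ℝ => Real.exp ((Real.pi / 2 - Real.pi * ρ) * |t|)).continuousAt).continuousWithinAt)
    (fun t ht => mul_pos (Real.rpow_pos_of_pos (by linarith) _) (Real.exp_pos _))
    (fun t ht _ => h |t| ht)
  refine ⟨C', hC', fun t ht => ?_⟩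
  have h1 : |t| = -t := abs_of_nonpos (by linarith)
  have h2 := h' t (by rw [h1]; linarith)

  rw [h1, neg_neg] at h2
  rw [h1, mul_assoc]
  exact h2

end Pool.Agent.Helper19.BD
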