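import Pool.Agent.Helper97.BD.B4Defs

/-!
Block BD-B4V (MP_bd232a_nt, part B). The window: a vertical segment in the `G`-plane, `G = exp(zet l ρ z / ρ)`.

`geo_window`: given `G = r - iv`, `v = g₀ - u`, `g₀ = exp((l - log 2π)/ρ)`, `r < r₀`, put `z = i exp(-ρ log(iG/g₀))`, i.e. with `W = iG/g₀ = (v + ir)/g₀` (close to `1`):
`z = i W^(-ρ)`, `log z = iπ/2 - ρ log W`, `2πz = ...`, so `zet l ρ z = l + i(π/2)(1-ρ) - log 2π - iπ/2 + ρ log W = ρ (log g₀ + log W - iπ/2) = ρ log G` and `exp(zet/ρ) = G`.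
`Re z = ‖W‖^(-ρ) sin(ρ arg W)`, `Im z = ‖W‖^(-ρ) cos(ρ arg W)`, `arg W = arctan(r/v)`, `‖W‖ = sqrt(v²+r²)/g₀ = 1 - u/g₀ + O(r²)`; as `r² ≤ r ≤ ` small multiple of `U = r^(ρ/(1+ρ)+1/32)`
(the exponent is `≤ 1/3+1/32 < 1`) and `U ≤ u ≤ 3U`: `Re z ∈ [κ₁ r, κ₂ r]`, `Im z - 1 ∈ [κ₃ U, κ₄ U]` for `r < r₀`.
-/

open Complex

namespace Pool.Agent.Helper19.BD

namespace B4V

theorem zet_of_polar {ρ l N θ : ℝ} (hN : 0 < N) (hθ1 : -Real.pi < θ) (hθ2 : θ ≤ Real.pi) {x y : ℝ}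
    (hx : x = N * Real.cos θ) (hy : y = N * Real.sin θ) :
    zet l ρ ((x : ℂ) + (y : ℂ) * I) =
      ((l - Real.log (2 * Real.pi) - Real.log N : ℝ) : ℂ) + ((Real.pi / 2 * (1 - ρ) - θ : ℝ) : ℂ) * I := by
  have hpi := Real.pi_pos
  have h1 : ((2 * Real.pi : ℝ) : ℂ) * ((x : ℂ) + (y : ℂ) * I) =
      exp (((Real.log (2 * Real.pi) + Real.log N : ℝ) : ℂ) + (θ : ℂ) * I) := by
    rw [Complex.exp_add, ← Complex.ofReal_exp, Real.exp_add, Real.exp_log (by positivity), Real.exp_log hN,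
      Complex.exp_mul_I, ← Complex.ofReal_cos, ← Complex.ofReal_sin, hx, hy]
    push_cast
    ring
  unfold zet lz
  rw [h1, Complex.log_exp (by simpa using hθ1) (by simpa using hθ2)]
  push_cast
  ring

/-- the main estimate, with explicit smallness -/
theorem core {ρ l g₀ r u : ℝ} (hρ : 0 < ρ) (hρ2 : ρ ≤ 1 / 2) (hg : g₀ = Real.exp ((l - Real.log (2 * Real.pi)) / ρ))
    (hr : 0 < r) (hru : r ≤ u) (hrg : r ≤ ρ * g₀ / 4) (hu : u ≤ g₀ / 4) :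
    ∃ x y : ℝ, ρ / (2 * g₀) * r ≤ x ∧ x ≤ 4 * ρ / g₀ * r ∧ ρ / (4 * g₀) * u ≤ y ∧ y ≤ 4 / g₀ * u ∧
        exp (zet l ρ ((x : ℂ) + ((1 + y : ℝ) : ℂ) * I) / (ρ : ℂ)) =
          (r : ℂ) - ((g₀ - u : ℝ) : ℂ) * I := by
  have hpi := Real.pi_pos
  have hg0 : 0 < g₀ := by rw [hg]; exact Real.exp_pos _
  have hu0 : 0 < u := by linarith
  set v : ℝ := g₀ - u with hv
  have hv1 : g₀ / 2 ≤ v := by rw [hv]; linarith
  have hv2 : v ≤ g₀ := by rw [hv]; linarith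
  have hv0 : 0 < v := by linarith
  set W : ℂ := ((v / g₀ : ℝ) : ℂ) + ((r / g₀ : ℝ) : ℂ) * I with hW
  have hWre : W.re = v / g₀ := by simp [hW]
  have hWim : W.im = r / g₀ := by simp [hW]
  have hWre0 : 0 < W.re := by rw [hWre]; positivity
  have hWim0 : 0 < W.im := by rw [hWim]; positivity
  have hW0 : W ≠ 0 := by
    intro h
    rw [h] at hWre0
    simp at hWre0
  have hn : 0 < ‖W‖ := norm_pos_iff.mpr hW0
  set s : ℝ := 2 * u / g₀ - (u ^ 2 + r ^ 2) / g₀ ^ 2 with hs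
  have hn2 : ‖W‖ ^ 2 = 1 - s := by
    rw [← Complex.normSq_eq_norm_sq, Complex.normSq_apply, hWre, hWim, hs, hv]
    field_simp
    ring
  have hs1 : u / g₀ ≤ s := by
    rw [hs, div_le_iff₀ hg0]
    have e : (2 * u / g₀ - (u ^ 2 + r ^ 2) / g₀ ^ 2) * g₀ = 2 * u - (u ^ 2 + r ^ 2) / g₀ := by
      field_simp
    rw [e]
    have h2 : (u ^ 2 + r ^ 2) / g₀ ≤ u := by
      rw [div_le_iff₀ hg0]
      nlinarith
    linarith
  have hs2 : s ≤ 2 * u / g₀ := by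
    rw [hs]
    have : 0 ≤ (u ^ 2 + r ^ 2) / g₀ ^ 2 := by positivity
    linarith
  have hs3 : s ≤ 1 / 2 := by
    refine hs2.trans ?_
    rw [div_le_iff₀ hg0]
    linarith
  have hs0 : 0 < s := lt_of_lt_of_le (by positivity) hs1
  -- the modulus
  set P : ℝ := ‖W‖ ^ (-ρ) with hP
  have hPe : P = (1 - s) ^ (-(ρ / 2)) := by
    rw [hP, ← hn2, ← Real.rpow_natCast, ← Real.rpow_mul hn.le]
    congr 1
    push_cast
    ring
  have hP0 : 0 < P := by positivity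
  have hP1 : 1 + ρ / 2 * s ≤ P := by
    rw [hPe, Real.rpow_def_of_pos (by linarith)]
    have h1 : Real.log (1 - s) ≤ -s := by
      have := Real.log_le_sub_one_of_pos (show 0 < 1 - s by linarith)
      linarith
    have h2 := Real.add_one_le_exp (Real.log (1 - s) * -(ρ / 2))
    nlinarith
  have hP2 : P ≤ 1 + 2 * s := by
    rw [hPe]
    calc (1 - s) ^ (-(ρ / 2)) ≤ (1 - s) ^ (-1 : ℝ) :=
          Real.rpow_le_rpow_of_exponent_ge (by linarith) (by linarith) (by linarith)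
      _ = (1 - s)⁻¹ := by rw [Real.rpow_neg_one]
      _ ≤ 1 + 2 * s := by
          rw [inv_le_iff_one_le_mul₀ (by linarith)]
          nlinarith
  -- the angle
  have harg : |arg W| < Real.pi / 2 := by
    rw [Complex.abs_arg_lt_pi_div_two_iff]
    left
    exact hWre0
  have hsin := Complex.sin_arg W
  have hcos := Complex.cos_arg hW0
  set φ : ℝ := arg W with hφ
  have hφ0 : 0 < φ := by
    rcases (Complex.arg_nonneg_iff.mpr hWim0.le : 0 ≤ arg W).lt_or_eq with h | h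
    · exact h
    · exfalso
      rw [hφ, ← h, Real.sin_zero] at hsin
      have : 0 < W.im / ‖W‖ := by positivity
      linarith
  have hφ1 : φ < Real.pi / 2 := (abs_lt.mp harg).2
  have hnle : ‖W‖ ≤ 1 := by
    have : ‖W‖ ^ 2 ≤ 1 := by rw [hn2]; linarith
    nlinarith
  have hφlow : r / g₀ ≤ φ := by
    calc r / g₀ ≤ r / g₀ / ‖W‖ := by
          rw [le_div_iff₀ hn]
          have : 0 < r / g₀ := by positivity
          nlinarith
      _ = Real.sin φ := by rw [hsin, hWim]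
      _ ≤ φ := Real.sin_le hφ0.le
  have hφup : φ ≤ 2 * r / g₀ := by
    calc φ ≤ Real.tan φ := Real.le_tan hφ0.le hφ1
      _ = r / v := by
        rw [Real.tan_eq_sin_div_cos, hsin, hcos, hWre, hWim]
        field_simp
      _ ≤ r / (g₀ / 2) := by gcongr
      _ = 2 * r / g₀ := by field_simp
  have hψ0 : 0 < ρ * φ := by positivity
  have hψup : ρ * φ ≤ 2 * ρ * (r / g₀) := by
    calc ρ * φ ≤ ρ * (2 * r / g₀) := by gcongr
      _ = _ := by ring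
  have hrg1 : r / g₀ ≤ ρ / 4 := by
    rw [div_le_iff₀ hg0]
    linarith
  have hrg0 : 0 < r / g₀ := by positivity
  have hψ1 : ρ * φ ≤ 1 := by
    have h1 : ρ * (r / g₀) ≤ 1 / 2 * (ρ / 4) := mul_le_mul hρ2 hrg1 hrg0.le (by norm_num)
    linarith
  have hsin1 : 1 / 2 * ρ * (r / g₀) ≤ Real.sin (ρ * φ) := by
    have h1 := Real.mul_le_sin hψ0.le (by linarith [Real.pi_gt_three])
    have h2 : 1 / 2 * (ρ * φ) ≤ 2 / Real.pi * (ρ * φ) := by
      have h3 : (1 : ℝ) / 2 ≤ 2 / Real.pi := by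
        rw [div_le_div_iff₀ (by norm_num) hpi]
        linarith [Real.pi_le_four]
      gcongr
    calc 1 / 2 * ρ * (r / g₀) ≤ 1 / 2 * ρ * φ := by gcongr
      _ = 1 / 2 * (ρ * φ) := by ring
      _ ≤ _ := h2.trans h1
  have hsin2 : Real.sin (ρ * φ) ≤ 2 * ρ * (r / g₀) := (Real.sin_le hψ0.le).trans hψup
  have hcos2 : Real.cos (ρ * φ) ≤ 1 := Real.cos_le_one _
  have hcos1 : 1 - (ρ * φ) ^ 2 / 2 ≤ Real.cos (ρ * φ) := Real.one_sub_sq_div_two_le_cos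
  have hug : u / g₀ * g₀ = u := by field_simp
  -- definition of the point
  refine ⟨P * Real.sin (ρ * φ), P * Real.cos (ρ * φ) - 1, ?_, ?_, ?_, ?_, ?_⟩
  · have h1 : 1 ≤ P := by
      have : 0 < ρ / 2 * s := by positivity
      linarith
    calc ρ / (2 * g₀) * r = 1 * (1 / 2 * ρ * (r / g₀)) := by field_simp
      _ ≤ P * Real.sin (ρ * φ) := by gcongr
  · have h1 : P ≤ 2 := by linarith
    have h2 : 0 ≤ Real.sin (ρ * φ) := le_trans (by positivity) hsin1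
    calc P * Real.sin (ρ * φ) ≤ 2 * (2 * ρ * (r / g₀)) := by gcongr
      _ = 4 * ρ / g₀ * r := by ring
  · have h1 : (ρ * φ) ^ 2 ≤ (r / g₀) ^ 2 := by
      have : ρ * φ ≤ r / g₀ := by
        have h0 : ρ * (r / g₀) ≤ 1 / 2 * (r / g₀) := mul_le_mul_of_nonneg_right hρ2 hrg0.le
        linarith
      gcongr
    have h2 : (r / g₀) ^ 2 ≤ ρ / 4 * (u / g₀) := by
      have h3 : r / g₀ ≤ u / g₀ := by gcongr
      calc (r / g₀) ^ 2 = r / g₀ * (r / g₀) := by ring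
        _ ≤ ρ / 4 * (u / g₀) := mul_le_mul hrg1 h3 hrg0.le (by positivity)
    have h4 : 1 - (ρ * φ) ^ 2 / 2 ≤ Real.cos (ρ * φ) := hcos1
    have h5 : P * (1 - (ρ * φ) ^ 2 / 2) ≤ P * Real.cos (ρ * φ) := by gcongr
    have h6 : P ≤ 2 := by linarith
    have h7 : 0 ≤ (ρ * φ) ^ 2 := sq_nonneg _
    have h8 : ρ / 2 * (u / g₀) ≤ ρ / 2 * s := by gcongr
    have h9 : ρ / (4 * g₀) * u = ρ / 2 * (u / g₀) - ρ / 4 * (u / g₀) := by
      field_simp
      ring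
    rw [h9]
    have h10 := mul_le_mul_of_nonneg_right h6 h7
    linarith
  · calc P * Real.cos (ρ * φ) - 1 ≤ P * 1 - 1 := by gcongr
      _ ≤ 2 * s := by linarith
      _ ≤ 2 * (2 * u / g₀) := by gcongr
      _ = 4 / g₀ * u := by ring
  · have hθ : ((P * Real.sin (ρ * φ) : ℝ) : ℂ) + ((1 + (P * Real.cos (ρ * φ) - 1) : ℝ) : ℂ) * I =
        ((P * Real.sin (ρ * φ) : ℝ) : ℂ) + ((P * Real.cos (ρ * φ) : ℝ) : ℂ) * I := by
      push_cast
      ring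
    rw [hθ, zet_of_polar (ρ := ρ) (l := l) (N := P) (θ := Real.pi / 2 - ρ * φ) hP0
      (by linarith [Real.pi_gt_three]) (by linarith)
      (by rw [Real.cos_pi_div_two_sub]) (by rw [Real.sin_pi_div_two_sub])]
    have hlogP : Real.log P = -ρ * Real.log ‖W‖ := by rw [hP, Real.log_rpow hn]
    have e1 : (((l - Real.log (2 * Real.pi) - Real.log P : ℝ) : ℂ) +
        ((Real.pi / 2 * (1 - ρ) - (Real.pi / 2 - ρ * φ) : ℝ) : ℂ) * I) / (ρ : ℂ) =
        (((l - Real.log (2 * Real.pi)) / ρ : ℝ) : ℂ) + (Complex.log W + -(((Real.pi / 2 : ℝ) : ℂ) * I)) := by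
      have hρc : (ρ : ℂ) ≠ 0 := by exact_mod_cast hρ.ne'
      rw [hlogP]
      unfold Complex.log
      push_cast
      field_simp
      ring
    rw [e1, Complex.exp_add, Complex.exp_add, Complex.exp_log hW0, ← Complex.ofReal_exp, ← hg, Complex.exp_neg]
    have e2 : exp (((Real.pi / 2 : ℝ) : ℂ) * I) = I := by
      push_cast
      exact Complex.exp_pi_div_two_mul_I
    rw [e2, Complex.inv_I, hW]
    have hgc : (g₀ : ℂ) ≠ 0 := by exact_mod_cast hg0.ne'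
    push_cast
    field_simp
    linear_combination (-(r : ℂ)) * I_mul_I

end B4V

theorem geo_window (ρ l : ℝ) (hρ : 0 < ρ) (hρ2 : ρ ≤ 1 / 2) : ∃ κ₁ κ₂ κ₃ κ₄ r₀ : ℝ, 0 < κ₁ ∧ 0 < κ₂ ∧ 0 < κ₃ ∧ 0 < κ₄ ∧ 0 < r₀ ∧
    ∀ r : ℝ, 0 < r → r < r₀ → ∀ u : ℝ, r ^ (ρ / (1 + ρ) + 1 / 32) ≤ u → u ≤ 3 * r ^ (ρ / (1 + ρ) + 1 / 32) →
      ∃ x y : ℝ, κ₁ * r ≤ x ∧ x ≤ κ₂ * r ∧ κ₃ * r ^ (ρ / (1 + ρ) + 1 / 32) ≤ y ∧ y ≤ κ₄ * r ^ (ρ / (1 + ρ) + 1 / 32) ∧
        exp (zet l ρ ((x : ℂ) + ((1 + y : ℝ) : ℂ) * I) / (ρ : ℂ)) =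
          (r : ℂ) - ((Real.exp ((l - Real.log (2 * Real.pi)) / ρ) - u : ℝ) : ℂ) * I := by
  set g₀ : ℝ := Real.exp ((l - Real.log (2 * Real.pi)) / ρ) with hg
  have hg0 : 0 < g₀ := Real.exp_pos _
  set e : ℝ := ρ / (1 + ρ) + 1 / 32 with he
  have he0 : 0 < e := by positivity
  have he1 : e ≤ 1 := by
    have : ρ / (1 + ρ) ≤ 1 / 2 := by
      rw [div_le_iff₀ (by positivity)]
      linarith
    rw [he]; linarith
  set δ : ℝ := ρ * g₀ / 12 with hδ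
  have hδ0 : 0 < δ := by positivity
  refine ⟨ρ / (2 * g₀), 4 * ρ / g₀, ρ / (4 * g₀), 12 / g₀, min 1 (δ ^ (1 / e)), by positivity, by positivity,
    by positivity, by positivity, by positivity, fun r hr hr0 u hu1 hu2 => ?_⟩
  have hr1 : r < 1 := hr0.trans_le (min_le_left _ _)
  have hr2 : r < δ ^ (1 / e) := hr0.trans_le (min_le_right _ _)
  have hU : r ^ e < δ := by
    have h1 := Real.rpow_lt_rpow hr.le hr2 he0
    rwa [← Real.rpow_mul hδ0.le, one_div, inv_mul_cancel₀ he0.ne', Real.rpow_one] at h1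
  have hrU : r ≤ r ^ e := by
    have := Real.rpow_le_rpow_of_exponent_ge hr hr1.le he1
    rwa [Real.rpow_one] at this
  obtain ⟨x, y, h1, h2, h3, h4, h5⟩ := B4V.core (r := r) (u := u) hρ hρ2 hg hr (hrU.trans hu1)
    (by rw [hδ] at hU; nlinarith) (by rw [hδ] at hU; nlinarith)
  refine ⟨x, y, h1, h2, ?_, ?_, h5⟩
  · refine le_trans ?_ h3
    gcongr
  · refine h4.trans ?_
    calc 4 / g₀ * u ≤ 4 / g₀ * (3 * r ^ e) := by gcongr
      _ = 12 / g₀ * r ^ e := by ring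

end Pool.Agent.Helper19.BD
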