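import Pool.Agent.Helper97.BD.B4Gap
import Pool.Agent.Helper97.BD.B4Win

/-!
Block BD-B4P (MP_bd232a_nt, part B). Bound of the dual series `Dfun` on the window near `G = -i g₀` (periodicity + gap; from `geo_window`, `b4_gap`, `geo_norm`, may be sorried).

`b4_D`: for `u ∈ [U, 3U]` let `x, y` be as in `geo_window`. `app` at `x + (1+y)i` (δ = 1): `‖f(x+(1+y)i) - C₃ exp(A zet/ρ) Dfun(G)‖ ≤ C (1 + (2/x)^(3ρ/4)) ≤ C' (1 + r^(-3ρ/4))`; `f(x+(1+y)i) = f(x + yi)`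
(`ffun_periodic`), `‖f(x+yi)‖ ≤ C r^(-(ρ/(1+ρ)+1/16))` (`b4_gap`), `‖exp(A zet/ρ)‖ ≥ c (1+y)^(-(1+ρ)/(2ρ)) ≥ c'` (`geo_norm`).
-/

open Complex

namespace Pool.Agent.Helper19.BD

theorem b4_D {a : ℕ → ℂ} {ρ η l : ℝ} {C₃ : ℂ} (H : B4H a ρ η l C₃) : ∃ C r₀ : ℝ, 0 < C ∧ 0 < r₀ ∧
    ∀ r : ℝ, 0 < r → r < r₀ → ∀ u : ℝ, r ^ (ρ / (1 + ρ) + 1 / 32) ≤ u → u ≤ 3 * r ^ (ρ / (1 + ρ) + 1 / 32) →
      ‖Dfun a ρ η ((r : ℂ) - ((Real.exp ((l - Real.log (2 * Real.pi)) / ρ) - u : ℝ) : ℂ) * I)‖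
        ≤ C * (r ^ (-(ρ / (1 + ρ) + 1 / 16)) + r ^ (-(3 * ρ / 4))) := by
  have hρ := H.rho_pos
  have hρ2 := H.rho_le
  obtain ⟨κ₁, κ₂, κ₃, κ₄, r₁, hκ₁, hκ₂, hκ₃, hκ₄, hr₁, hwin⟩ := geo_window ρ l hρ hρ2
  obtain ⟨Cg, r₂, hCg, hr₂, hgap⟩ := b4_gap H hκ₁ hκ₂ hκ₃ hκ₄
  obtain ⟨cn', Cn', hcn, hCn, hnorm⟩ := geo_norm ρ η l hρ hρ2
  obtain ⟨Ca, hCa, happ⟩ := H.app 1 one_pos
  set e : ℝ := ρ / (1 + ρ) + 1 / 32 with he
  have hepos : 0 < e := by positivity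
  set E : ℝ := ρ / (1 + ρ) + 1 / 16 with hE
  have hEpos : 0 < E := by positivity
  set c' : ℝ := cn' * 2 ^ (-((1 + ρ) / (2 * ρ))) with hc'
  have hc'pos : 0 < c' := by positivity
  have hC₃ : 0 < ‖C₃‖ := norm_pos_iff.2 H.C_ne
  set K : ℝ := (2 / κ₁) ^ (3 * ρ / 4) with hK
  have hKpos : 0 < K := by positivity
  refine ⟨(Cg + Ca + Ca * K) / (‖C₃‖ * c'), min (min r₁ r₂) (min 1 (min (ρ / κ₂) ((1 / κ₄) ^ (1 / e)))), by positivity, by positivity, ?_⟩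
  intro r hr hr0 u hu1 hu2
  have ha1 : r < r₁ := hr0.trans_le ((min_le_left _ _).trans (min_le_left _ _))
  have ha2 : r < r₂ := hr0.trans_le ((min_le_left _ _).trans (min_le_right _ _))
  have ha3 : r < 1 := hr0.trans_le ((min_le_right _ _).trans (min_le_left _ _))
  have ha4 : r < ρ / κ₂ := hr0.trans_le ((min_le_right _ _).trans ((min_le_right _ _).trans (min_le_left _ _)))
  have ha5 : r < (1 / κ₄) ^ (1 / e) := hr0.trans_le ((min_le_right _ _).trans ((min_le_right _ _).trans (min_le_right _ _)))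
  obtain ⟨x, y, hx1, hx2, hy1, hy2, hG⟩ := hwin r hr ha1 u hu1 hu2
  have hx0 : 0 < x := lt_of_lt_of_le (by positivity) hx1
  have hy0 : 0 < y := lt_of_lt_of_le (by positivity) hy1
  have hU : r ^ e ≤ 1 / κ₄ := by
    have h1 : r ^ e ≤ ((1 / κ₄) ^ (1 / e)) ^ e := Real.rpow_le_rpow hr.le ha5.le hepos.le
    rw [← Real.rpow_mul (by positivity), one_div_mul_cancel hepos.ne', Real.rpow_one] at h1
    exact h1
  have hy3 : y ≤ 1 := by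
    refine hy2.trans ?_
    have := mul_le_mul_of_nonneg_left hU hκ₄.le
    rwa [mul_one_div_cancel hκ₄.ne'] at this
  have hxρ : x ≤ ρ * (1 + y) := by
    have h1 : κ₂ * r ≤ ρ := by
      rw [lt_div_iff₀ hκ₂] at ha4; linarith
    nlinarith
  have h1 := happ x (1 + y) hx0 hxρ (by linarith)
  have h2 := hgap r hr ha2 x y hx1 hx2 hy1 hy2
  have h3 := (hnorm x (1 + y) hx0 hxρ).1
  have hper : ffun a 0 ((x : ℂ) + ((1 + y : ℝ) : ℂ) * I) = ffun a 0 ((x : ℂ) + (y : ℂ) * I) := by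
    rw [← ffun_periodic a 0 ((x : ℂ) + (y : ℂ) * I)]
    congr 1
    push_cast; ring
  rw [hper] at h1
  have h4 : Mfun a ρ η l ((x : ℂ) + ((1 + y : ℝ) : ℂ) * I) =
      exp (Aex ρ η * zet l ρ ((x : ℂ) + ((1 + y : ℝ) : ℂ) * I) / (ρ : ℂ)) *
      Dfun a ρ η ((r : ℂ) - ((Real.exp ((l - Real.log (2 * Real.pi)) / ρ) - u : ℝ) : ℂ) * I) := by
    unfold Mfun
    rw [hG]
  set Dv := Dfun a ρ η ((r : ℂ) - ((Real.exp ((l - Real.log (2 * Real.pi)) / ρ) - u : ℝ) : ℂ) * I) with hDv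
  rw [h4] at h1
  have h5 : c' ≤ ‖exp (Aex ρ η * zet l ρ ((x : ℂ) + ((1 + y : ℝ) : ℂ) * I) / (ρ : ℂ))‖ := by
    refine le_trans ?_ h3
    refine mul_le_mul_of_nonneg_left ?_ hcn.le
    refine Real.rpow_le_rpow_of_nonpos (by positivity) (by linarith) ?_
    have : 0 < (1 + ρ) / (2 * ρ) := by positivity
    linarith
  have h6 : ‖C₃‖ * c' * ‖Dv‖ ≤ ‖C₃ * (exp (Aex ρ η * zet l ρ ((x : ℂ) + ((1 + y : ℝ) : ℂ) * I) / (ρ : ℂ)) * Dv)‖ := by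
    rw [norm_mul, norm_mul, mul_assoc]
    refine mul_le_mul_of_nonneg_left ?_ (norm_nonneg _)
    exact mul_le_mul_of_nonneg_right h5 (norm_nonneg _)
  have h7 : ‖C₃ * (exp (Aex ρ η * zet l ρ ((x : ℂ) + ((1 + y : ℝ) : ℂ) * I) / (ρ : ℂ)) * Dv)‖ ≤
      ‖ffun a 0 ((x : ℂ) + (y : ℂ) * I)‖ + Ca * ((1 + y) ^ (-(1 + 1) : ℝ) + ((1 + y) / x) ^ (3 * ρ / 4)) := by
    have := norm_le_norm_add_norm_sub' (C₃ * (exp (Aex ρ η * zet l ρ ((x : ℂ) + ((1 + y : ℝ) : ℂ) * I) / (ρ : ℂ)) * Dv)) (ffun a 0 ((x : ℂ) + (y : ℂ) * I))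
    rw [norm_sub_rev] at this
    linarith
  have h8 : (1 + y) ^ (-(1 + 1) : ℝ) ≤ r ^ (-E) := by
    have e1 : (1 + y) ^ (-(1 + 1) : ℝ) ≤ 1 := Real.rpow_le_one_of_one_le_of_nonpos (by linarith) (by norm_num)
    have e2 : 1 ≤ r ^ (-E) := Real.one_le_rpow_of_pos_of_le_one_of_nonpos hr ha3.le (by linarith)
    linarith
  have h9 : ((1 + y) / x) ^ (3 * ρ / 4) ≤ K * r ^ (-(3 * ρ / 4)) := by
    have e1 : (1 + y) / x ≤ (2 / κ₁) * r⁻¹ := by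
      rw [div_le_iff₀ hx0]
      have : (2 / κ₁) * r⁻¹ * x ≥ (2 / κ₁) * r⁻¹ * (κ₁ * r) := mul_le_mul_of_nonneg_left hx1 (by positivity)
      have e3 : (2 / κ₁) * r⁻¹ * (κ₁ * r) = 2 := by field_simp
      linarith
    have e2 : ((1 + y) / x) ^ (3 * ρ / 4) ≤ ((2 / κ₁) * r⁻¹) ^ (3 * ρ / 4) :=
      Real.rpow_le_rpow (by positivity) e1 (by positivity)
    rw [Real.mul_rpow (by positivity) (by positivity), Real.inv_rpow hr.le, ← Real.rpow_neg hr.le] at e2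
    exact e2
  have h10 : ‖C₃‖ * c' * ‖Dv‖ ≤ (Cg + Ca + Ca * K) * (r ^ (-E) + r ^ (-(3 * ρ / 4))) := by
    have p1 : 0 < r ^ (-E) := by positivity
    have p2 : 0 < r ^ (-(3 * ρ / 4)) := by positivity
    calc ‖C₃‖ * c' * ‖Dv‖ ≤ Cg * r ^ (-E) + Ca * (r ^ (-E) + K * r ^ (-(3 * ρ / 4))) := by
          refine h6.trans (h7.trans ?_)
          exact add_le_add h2 (mul_le_mul_of_nonneg_left (add_le_add h8 h9) hCa.le)
      _ ≤ (Cg + Ca + Ca * K) * (r ^ (-E) + r ^ (-(3 * ρ / 4))) := by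
          have q1 : 0 < Ca * K * r ^ (-E) := by positivity
          have q2 : 0 < (Cg + Ca) * r ^ (-(3 * ρ / 4)) := by positivity
          nlinarith
  rw [div_mul_eq_mul_div, le_div_iff₀ (by positivity)]
  linarith

end Pool.Agent.Helper19.BD
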