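import Pool.Agent.Helper97.BD.MR

/-!
MP_bd232a_nt, part B, no degree `1 < d ≤ 3/2`: definitions. `ρ = d - 1 ∈ (0, 1/2]`, `A = (1+ρ)/2 - iη`, `η = D.eta`, `l = D.ell + ρ log ρ`.

* `cn a ρ η n = conj(a_n) n^(A/ρ - 1)`
* `Dfun a ρ η G = ∑_{n≥1} cn n exp(-n^(1/ρ) G)`
* `zet l ρ z = l + i (π/2)(1-ρ) - log(2πz)`
* `Mfun = exp(A zet/ρ) Dfun(exp(zet/ρ))`
* `Kfun ρ η l s = exp((l + i(π/2)(1-ρ)) s) Gamma(A - ρ s)`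
* `B4H` : the hypotheses of the core argument (proved for elements of the class in `B4An.lean`).
* exponent `d/ρ = 1 + 1/ρ`, `ρ/d = ρ/(1+ρ)`.
-/

open Complex

namespace Pool.Agent.Helper19.BD

noncomputable def Aex (ρ η : ℝ) : ℂ := (((1 + ρ) / 2 : ℝ) : ℂ) - (η : ℂ) * I

noncomputable def cn (a : ℕ → ℂ) (ρ η : ℝ) (n : ℕ) : ℂ :=
  (starRingEnd ℂ) (a n) * exp ((Aex ρ η / (ρ : ℂ) - 1) * (Real.log n : ℂ))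

noncomputable def Dfun (a : ℕ → ℂ) (ρ η : ℝ) (G : ℂ) : ℂ :=
  ∑' n : ℕ, cn a ρ η (n + 1) * exp (-((((n : ℝ) + 1) ^ (1 / ρ) : ℝ) : ℂ) * G)

noncomputable def zet (l ρ : ℝ) (z : ℂ) : ℂ := (l : ℂ) + ((Real.pi / 2 * (1 - ρ) : ℝ) : ℂ) * I - lz z

noncomputable def Mfun (a : ℕ → ℂ) (ρ η l : ℝ) (z : ℂ) : ℂ :=
  exp (Aex ρ η * zet l ρ z / (ρ : ℂ)) * Dfun a ρ η (exp (zet l ρ z / (ρ : ℂ)))

noncomputable def Kfun (ρ η l : ℝ) (s : ℂ) : ℂ :=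
  exp (((l : ℂ) + ((Real.pi / 2 * (1 - ρ) : ℝ) : ℂ) * I) * s) * Gamma (Aex ρ η - (ρ : ℂ) * s)

structure B4H (a : ℕ → ℂ) (ρ η l : ℝ) (C₃ : ℂ) : Prop where
  a1 : a 1 = 1
  ram : ∀ ε : ℝ, 0 < ε → ∃ C : ℝ, ∀ n : ℕ, 1 ≤ n → ‖a n‖ ≤ C * (n : ℝ) ^ ε
  rho_pos : 0 < ρ
  rho_le : ρ ≤ 1 / 2
  C_ne : C₃ ≠ 0
  app : ∀ δ : ℝ, 0 < δ → ∃ C : ℝ, 0 < C ∧ ∀ x y : ℝ, 0 < x → x ≤ ρ * y → y ≤ 2 →
    ‖ffun a 0 ((x : ℂ) + (y : ℂ) * I) - C₃ * Mfun a ρ η l ((x : ℂ) + (y : ℂ) * I)‖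
      ≤ C * (y ^ (-(1 + δ)) + (y / x) ^ (3 * ρ / 4))

theorem ffun_periodic (a : ℕ → ℂ) (k : ℕ) (z : ℂ) : ffun a k (z + I) = ffun a k z := by
  unfold ffun
  refine tsum_congr fun n => ?_
  congr 1
  rw [exp_eq_exp_iff_exists_int]
  exact ⟨-((n : ℤ) + 1), by push_cast; ring⟩

/-- norm of the dual coefficients -/
theorem norm_cn (a : ℕ → ℂ) {ρ : ℝ} (hρ : 0 < ρ) (η : ℝ) (n : ℕ) :
    ‖cn a ρ η (n + 1)‖ = ‖a (n + 1)‖ * ((n : ℝ) + 1) ^ ((1 / ρ - 1) / 2) := by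
  unfold cn
  rw [norm_mul, RCLike.norm_conj, norm_exp]
  congr 1
  have h1 : (0 : ℝ) < (n : ℝ) + 1 := by positivity
  rw [Real.rpow_def_of_pos h1]
  congr 1
  have h2 : (((n + 1 : ℕ) : ℝ)) = (n : ℝ) + 1 := by push_cast; ring
  rw [h2, re_mul_ofReal, mul_comm]
  congr 1
  unfold Aex
  rw [sub_re, ← ofReal_one, ofReal_re, div_ofReal_re]
  simp
  field_simp
  ring

end Pool.Agent.Helper19.BD
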