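import Pool.Agent.Helper97.BD.B4Geo
import Pool.Agent.Helper97.BD.B4Dfun

/-!
Block BD-B4W (MP_bd232a_nt, part B). The gap: upper bound for `f` at `y ≍ r^(ρ/(1+ρ)+1/32)`.

`b4_gap`: `U = r^(ρ/(1+ρ)+1/32)`, `x ≍ r`, `y ≍ U`. `x y^(-(1+1/ρ)) ≥ c r^(1 - (ρ/(1+ρ)+1/32)(1+1/ρ)) = c r^(-(1+1/ρ)/32) → ∞` (`(ρ/(1+ρ))(1+1/ρ) = 1`), so by `geo_re` `g := Re G ≥ c r^(-3/32)`, and
`‖Dfun G‖ ≤ C exp(-g)` for `g ≥ 1` (`Dfun_approx`, may be sorried), `‖exp(A zet/ρ)‖ ≤ C y^(-(1+ρ)/(2ρ)) ≤ C r^(-const)`: so `‖Mfun‖ ≤ C` for `r < r₀`.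
`app` with `δ = 1/16`: `y^(-(17/16)) ≤ C r^(-(17/16)(ρ/(1+ρ)+1/32)) ≤ C r^(-(ρ/(1+ρ)+1/16))` since `(1/16)(1/3) + 17/512 ≤ 1/16`; `(y/x)^(3ρ/4) ≤ C r^(-(3ρ/4)(1/(1+ρ))) ≤ C r^(-ρ/(1+ρ))`.
(`x ≤ ρ y`, `y ≤ 2` for `r < r₀`, the exponent of `U` is `≤ 1/3 + 1/32 < 1`.)
-/

open Complex

namespace Pool.Agent.Helper19.BD

theorem b4_gap {a : ℕ → ℂ} {ρ η l : ℝ} {C₃ : ℂ} (H : B4H a ρ η l C₃) {κ₁ κ₂ κ₃ κ₄ : ℝ} (h1 : 0 < κ₁) (h2 : 0 < κ₂) (h3 : 0 < κ₃)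
    (h4 : 0 < κ₄) : ∃ C r₀ : ℝ, 0 < C ∧ 0 < r₀ ∧ ∀ r : ℝ, 0 < r → r < r₀ → ∀ x y : ℝ, κ₁ * r ≤ x → x ≤ κ₂ * r →
      κ₃ * r ^ (ρ / (1 + ρ) + 1 / 32) ≤ y → y ≤ κ₄ * r ^ (ρ / (1 + ρ) + 1 / 32) →
      ‖ffun a 0 ((x : ℂ) + (y : ℂ) * I)‖ ≤ C * r ^ (-(ρ / (1 + ρ) + 1 / 16)) := by
  have hρ := H.rho_pos
  have hρ2 := H.rho_le
  obtain ⟨cG, CG, hcG, hCG, hG⟩ := geo_re ρ l hρ hρ2
  obtain ⟨cN, CN, hcN, hCN, hN⟩ := geo_norm ρ η l hρ hρ2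
  obtain ⟨CD, hCD, hD⟩ := Dfun_approx (η := η) hρ hρ2 H.ram
  obtain ⟨CA, hCA, hA⟩ := H.app (1 / 16) (by norm_num)
  set e : ℝ := ρ / (1 + ρ) + 1 / 32 with he
  set p : ℝ := 1 + 1 / ρ with hp
  have hq0 : 0 < ρ / (1 + ρ) := by positivity
  have hq1 : ρ / (1 + ρ) ≤ 1 / 3 := by
    rw [div_le_div_iff₀ (by linarith) (by norm_num)]; linarith
  have he0 : 0 < e := by linarith
  have he1 : e < 1 := by linarith
  have hp0 : 0 < p := by positivity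
  have hep : e * p = 1 + p / 32 := by
    rw [he, hp]; field_simp; ring
  set c' : ℝ := cG * (κ₁ * κ₄ ^ (-p)) with hc'
  have hc'0 : 0 < c' := by positivity
  set s : ℝ := ((1 + p / 32) / 2) * (32 / p) with hs
  -- eventual facts
  have T : Filter.Tendsto (fun r : ℝ => r ^ (-(p / 32))) (nhdsWithin 0 (Set.Ioi 0)) Filter.atTop :=
    tendsto_rpow_neg_nhdsGT_zero (by have : 0 < p / 32 := by positivity
                                     linarith)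
  have T1 : Filter.Tendsto (fun r : ℝ => r ^ (-(1 - e))) (nhdsWithin 0 (Set.Ioi 0)) Filter.atTop :=
    tendsto_rpow_neg_nhdsGT_zero (by linarith)
  have T2 : Filter.Tendsto (fun r : ℝ => r ^ (-e)) (nhdsWithin 0 (Set.Ioi 0)) Filter.atTop :=
    tendsto_rpow_neg_nhdsGT_zero (by linarith)
  have E1 := T1.eventually_ge_atTop (κ₂ / (ρ * κ₃))
  have E2 := T2.eventually_ge_atTop (κ₄ / 2)
  have E3 := T.eventually_ge_atTop (1 / c')
  have E4 := T.eventually (((tendsto_rpow_mul_exp_neg_mul_atTop_nhds_zero s c' hc'0).eventually_le_const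
    (show (0:ℝ) < 1 by norm_num)))
  have E5 : ∀ᶠ r : ℝ in nhdsWithin 0 (Set.Ioi 0), r < 1 :=
    nhdsWithin_le_nhds (Iio_mem_nhds (by norm_num))
  have E := E1.and (E2.and (E3.and (E4.and E5)))
  rw [Filter.Eventually, mem_nhdsGT_iff_exists_Ioo_subset] at E
  obtain ⟨r₀, hr₀, hE⟩ := E
  have hr₀' : 0 < r₀ := hr₀
  set CM : ℝ := CN * κ₃ ^ (-(p / 2)) * (1 + CD) with hCM
  set C1 : ℝ := κ₃ ^ (-(1 + 1 / 16 : ℝ)) with hC1
  set C2 : ℝ := (κ₄ / κ₁) ^ (3 * ρ / 4) with hC2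
  refine ⟨‖C₃‖ * CM + CA * (C1 + C2), r₀, by positivity, hr₀', ?_⟩
  intro r hr0 hr1 x y hx1 hx2 hy1 hy2
  obtain ⟨e1, e2, e3, e4, e5⟩ := hE ⟨hr0, hr1⟩
  have hre : 0 < r ^ e := Real.rpow_pos_of_pos hr0 _
  have hx0 : 0 < x := lt_of_lt_of_le (by positivity) hx1
  have hy0 : 0 < y := lt_of_lt_of_le (by positivity) hy1
  have hr1' : r ≤ 1 := e5.le
  -- x ≤ ρ y
  have hxy : x ≤ ρ * y := by
    have k1 : κ₂ / (ρ * κ₃) * r ≤ r ^ (-(1 - e)) * r := mul_le_mul_of_nonneg_right e1 hr0.le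
    have k2 : r ^ (-(1 - e)) * r = r ^ e := by
      rw [← Real.rpow_add_one hr0.ne']; congr 1; ring
    rw [k2] at k1
    calc x ≤ κ₂ * r := hx2
      _ = ρ * (κ₃ * (κ₂ / (ρ * κ₃) * r)) := by field_simp
      _ ≤ ρ * (κ₃ * r ^ e) := by gcongr
      _ ≤ ρ * y := by gcongr
  have hy2' : y ≤ 2 := by
    have k1 : κ₄ / 2 * r ^ e ≤ r ^ (-e) * r ^ e := mul_le_mul_of_nonneg_right e2 hre.le
    rw [← Real.rpow_add hr0, neg_add_cancel, Real.rpow_zero] at k1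
    linarith
  set z : ℂ := (x : ℂ) + (y : ℂ) * I with hz
  set G : ℂ := exp (zet l ρ z / (ρ : ℂ)) with hGd
  have g1 : c' * r ^ (-(p / 32)) ≤ G.re := by
    refine le_trans ?_ (hG x y hx0 hxy).1
    rw [hc', mul_assoc]
    refine mul_le_mul_of_nonneg_left ?_ hcG.le
    have k1 : (κ₄ * r ^ e) ^ (-p) ≤ y ^ (-p) :=
      Real.rpow_le_rpow_of_nonpos hy0 hy2 (by linarith)
    rw [Real.mul_rpow h4.le hre.le, ← Real.rpow_mul hr0.le] at k1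
    calc κ₁ * κ₄ ^ (-p) * r ^ (-(p / 32)) = (κ₁ * r) * (κ₄ ^ (-p) * r ^ (e * -p)) := by
          have : r ^ (-(p / 32)) = r * r ^ (e * -p) := by
            rw [← Real.rpow_one_add' hr0.le (by rw [mul_neg, hep]; have : 0 < p / 32 := by positivity
                                                intro h; linarith)]
            congr 1; rw [mul_neg, hep]; ring
          rw [this]; ring
      _ ≤ x * y ^ (-p) := by
          apply mul_le_mul hx1 k1 (by positivity) hx0.le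
  have g2 : 1 ≤ G.re := by
    refine le_trans ?_ g1
    calc (1:ℝ) = c' * (1 / c') := by field_simp
      _ ≤ _ := by gcongr
  have hDn : ‖Dfun a ρ η G‖ ≤ (1 + CD) * Real.exp (-(c' * r ^ (-(p / 32)))) := by
    have k1 := hD G g2
    have k2 : ‖cn a ρ η 1 * exp (-G)‖ = Real.exp (-G.re) := by
      have k3 : cn a ρ η 1 = 1 := by
        unfold cn; rw [H.a1]; simp
      rw [k3, one_mul, norm_exp]; simp
    have k3 : ‖Dfun a ρ η G‖ ≤ Real.exp (-G.re) + CD * Real.exp (-(2 * G.re)) := by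
      calc ‖Dfun a ρ η G‖ = ‖cn a ρ η 1 * exp (-G) + (Dfun a ρ η G - cn a ρ η 1 * exp (-G))‖ := by congr 1; ring
        _ ≤ _ := (norm_add_le _ _).trans (by rw [k2]; gcongr)
    have k4 : Real.exp (-(2 * G.re)) ≤ Real.exp (-G.re) := Real.exp_le_exp.mpr (by linarith)
    have k5 : Real.exp (-G.re) ≤ Real.exp (-(c' * r ^ (-(p / 32)))) := Real.exp_le_exp.mpr (by linarith)
    calc ‖Dfun a ρ η G‖ ≤ Real.exp (-G.re) + CD * Real.exp (-(2 * G.re)) := k3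
      _ ≤ Real.exp (-G.re) + CD * Real.exp (-G.re) := by gcongr
      _ = (1 + CD) * Real.exp (-G.re) := by ring
      _ ≤ _ := by gcongr
  have hMn : ‖Mfun a ρ η l z‖ ≤ CM := by
    unfold Mfun
    rw [norm_mul]
    have k1 := (hN x y hx0 hxy).2
    have hpp : (1 + ρ) / (2 * ρ) = p / 2 := by rw [hp]; field_simp; ring
    rw [hpp] at k1
    have k2 : y ^ (-(p / 2)) ≤ (κ₃ * r ^ e) ^ (-(p / 2)) :=
      Real.rpow_le_rpow_of_nonpos (by positivity) hy1 (by linarith)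
    rw [Real.mul_rpow h3.le hre.le, ← Real.rpow_mul hr0.le] at k2
    have k3 : r ^ (e * -(p / 2)) = (r ^ (-(p / 32))) ^ s := by
      rw [← Real.rpow_mul hr0.le]
      congr 1
      have : e * -(p / 2) = -(e * p) / 2 := by ring
      rw [this, hep, hs]
      field_simp
    rw [k3] at k2
    have e4' : (r ^ (-(p / 32))) ^ s * Real.exp (-(c' * r ^ (-(p / 32)))) ≤ 1 := by
      have := e4
      simpa [neg_mul] using this
    calc ‖exp (Aex ρ η * zet l ρ z / ↑ρ)‖ * ‖Dfun a ρ η (exp (zet l ρ z / ↑ρ))‖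
        ≤ (CN * (κ₃ ^ (-(p / 2)) * (r ^ (-(p / 32))) ^ s)) * ((1 + CD) * Real.exp (-(c' * r ^ (-(p / 32))))) := by
          apply mul_le_mul (k1.trans (by gcongr)) hDn (norm_nonneg _) (by positivity)
      _ = CM * ((r ^ (-(p / 32))) ^ s * Real.exp (-(c' * r ^ (-(p / 32))))) := by rw [hCM]; ring
      _ ≤ CM * 1 := by gcongr
      _ = CM := mul_one _
  have hB : 1 ≤ r ^ (-(ρ / (1 + ρ) + 1 / 16)) :=
    Real.one_le_rpow_of_pos_of_le_one_of_nonpos hr0 hr1' (by linarith)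
  have hb1 : y ^ (-(1 + 1 / 16 : ℝ)) ≤ C1 * r ^ (-(ρ / (1 + ρ) + 1 / 16)) := by
    have k2 : y ^ (-(1 + 1 / 16 : ℝ)) ≤ (κ₃ * r ^ e) ^ (-(1 + 1 / 16 : ℝ)) :=
      Real.rpow_le_rpow_of_nonpos (by positivity) hy1 (by norm_num)
    rw [Real.mul_rpow h3.le hre.le, ← Real.rpow_mul hr0.le] at k2
    refine k2.trans ?_
    refine mul_le_mul_of_nonneg_left ?_ (by positivity)
    apply Real.rpow_le_rpow_of_exponent_ge hr0 hr1'
    rw [he]; linarith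
  have hb2 : (y / x) ^ (3 * ρ / 4) ≤ C2 * r ^ (-(ρ / (1 + ρ) + 1 / 16)) := by
    have k1 : y / x ≤ (κ₄ / κ₁) * r ^ (e - 1) := by
      calc y / x ≤ (κ₄ * r ^ e) / (κ₁ * r) := by gcongr
        _ = (κ₄ / κ₁) * (r ^ e / r) := by field_simp
        _ = (κ₄ / κ₁) * r ^ (e - 1) := by rw [Real.rpow_sub_one hr0.ne']
    have k2 : (y / x) ^ (3 * ρ / 4) ≤ ((κ₄ / κ₁) * r ^ (e - 1)) ^ (3 * ρ / 4) :=
      Real.rpow_le_rpow (by positivity) k1 (by positivity)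
    rw [Real.mul_rpow (by positivity) (by positivity), ← Real.rpow_mul hr0.le] at k2
    refine k2.trans ?_
    refine mul_le_mul_of_nonneg_left ?_ (by positivity)
    apply Real.rpow_le_rpow_of_exponent_ge hr0 hr1'
    have k3 : (1 - ρ / (1 + ρ)) * ρ = ρ / (1 + ρ) := by field_simp; ring
    have k4 : (e - 1) * (3 * ρ / 4) = -(3 / 4 * ((1 - ρ / (1 + ρ)) * ρ)) + 3 * ρ / 128 := by rw [he]; ring
    rw [k4, k3]; linarith
  have hf := hA x y hx0 hxy hy2'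
  have hfin : ‖ffun a 0 z‖ ≤ ‖C₃‖ * CM + CA * (y ^ (-(1 + 1 / 16 : ℝ)) + (y / x) ^ (3 * ρ / 4)) := by
    calc ‖ffun a 0 z‖ = ‖C₃ * Mfun a ρ η l z + (ffun a 0 z - C₃ * Mfun a ρ η l z)‖ := by congr 1; ring
      _ ≤ ‖C₃ * Mfun a ρ η l z‖ + ‖ffun a 0 z - C₃ * Mfun a ρ η l z‖ := norm_add_le _ _
      _ ≤ _ := by
          refine add_le_add ?_ hf
          rw [norm_mul]; gcongr
  calc ‖ffun a 0 z‖ ≤ ‖C₃‖ * CM + CA * (y ^ (-(1 + 1 / 16 : ℝ)) + (y / x) ^ (3 * ρ / 4)) := hfin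
    _ ≤ ‖C₃‖ * CM * r ^ (-(ρ / (1 + ρ) + 1 / 16)) + CA * (C1 * r ^ (-(ρ / (1 + ρ) + 1 / 16)) + C2 * r ^ (-(ρ / (1 + ρ) + 1 / 16))) := by
        refine add_le_add ?_ (mul_le_mul_of_nonneg_left (add_le_add hb1 hb2) hCA.le)
        exact le_mul_of_one_le_right (by positivity) hB
    _ = _ := by ring

end Pool.Agent.Helper19.BD
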