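import Mathlib
import Pool.Agent.Helper95.BD.Fub

/-!
Block BD-B4M (MP_bd232a_nt, part B; pure analysis, independent of everything else). Mean value inequality for generalized Dirichlet series.

`mean_square_ineq`: `S(v) = ∑ c_n exp(-λ_n (r - iv)) = ∑ c_n e^(-λ_n r) e^(iλ_n v)`, `‖S(v)‖ ≤ B` on `[v₀, v₀+2L]`, so `∫_0^L ∫_0^L ‖S(v₀+s+t)‖² ds dt ≤ L² B²`. Expand
`‖S‖² = ∑_{n,m} c_n conj(c_m) e^(-(λ_n+λ_m)r) e^(i(λ_n-λ_m)v)` (absolutely summable) and integrate termwise: the diagonal gives `L² ∑ ‖c_n‖² e^(-2λ_n r)`, and for `n ≠ m`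
`‖∫∫ e^(iΔ(v₀+s+t))‖ = ‖∫_0^L e^(iΔs) ds‖² ≤ 4/Δ²`. Divide by `L²`.
-/

open Complex

namespace Pool.Agent.Helper19.BD

/-- the off-diagonal summand -/
noncomputable def offT (c : ℕ → ℂ) (lam : ℕ → ℝ) (r : ℝ) (p : ℕ × ℕ) : ℝ :=
  if p.1 = p.2 then 0 else ‖c p.1‖ * ‖c p.2‖ * Real.exp (-((lam p.1 + lam p.2) * r)) / (lam p.1 - lam p.2) ^ 2

/-- unimodular exponential -/
noncomputable def uexp (t : ℝ) : ℂ := exp ((t : ℂ) * I)

theorem norm_uexp (t : ℝ) : ‖uexp t‖ = 1 := norm_exp_ofReal_mul_I t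

theorem uexp_add (s t : ℝ) : uexp (s + t) = uexp s * uexp t := by
  unfold uexp; rw [← exp_add]; congr 1; push_cast; ring

theorem uexp_zero : uexp 0 = 1 := by simp [uexp]

theorem conj_uexp (t : ℝ) : (starRingEnd ℂ) (uexp t) = uexp (-t) := by
  unfold uexp; rw [← exp_conj]; congr 1; simp

theorem continuous_uexp : Continuous uexp := by unfold uexp; fun_prop

/-- `∫_0^L e^(iΔs) ds` -/
noncomputable def Jint (L Δ : ℝ) : ℂ := ∫ s in (0 : ℝ)..L, uexp (Δ * s)

theorem Jint_zero (L : ℝ) : Jint L 0 = L := by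
  unfold Jint; simp [uexp_zero]

theorem norm_Jint_le {L Δ : ℝ} (hL : 0 < L) : ‖Jint L Δ‖ ≤ L := by
  unfold Jint
  have := intervalIntegral.norm_integral_le_of_norm_le_const (a := 0) (b := L) (C := 1)
    (f := fun s => uexp (Δ * s)) (fun s _ => (norm_uexp _).le)
  simpa [abs_of_pos hL] using this

theorem norm_Jint_le' {L Δ : ℝ} (hΔ : Δ ≠ 0) : ‖Jint L Δ‖ ≤ 2 / |Δ| := by
  have hc : ((Δ : ℂ) * I) ≠ 0 := by simp [hΔ]
  have h : Jint L Δ = (uexp (Δ * L) - 1) / ((Δ : ℂ) * I) := by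
    unfold Jint uexp
    have := integral_exp_mul_complex (a := 0) (b := L) hc
    rw [show (fun s : ℝ => exp (((Δ * s : ℝ) : ℂ) * I)) = fun s : ℝ => exp ((Δ : ℂ) * I * s) by
      ext s; congr 1; push_cast; ring]
    rw [this]
    congr 2
    · congr 1; push_cast; ring
    · simp
  rw [h, norm_div, norm_mul, norm_I, mul_one, norm_real, Real.norm_eq_abs]
  gcongr
  calc ‖uexp (Δ * L) - 1‖ ≤ ‖uexp (Δ * L)‖ + ‖(1 : ℂ)‖ := norm_sub_le _ _
    _ = 2 := by rw [norm_uexp, norm_one]; norm_num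

theorem mean_square_ineq {c : ℕ → ℂ} {lam : ℕ → ℝ} {r : ℝ} (hs : Summable fun n => ‖c n‖ * Real.exp (-(lam n * r)))
    (hinj : Function.Injective lam) (hoff : Summable (offT c lam r)) {L v₀ B : ℝ} (hL : 0 < L)
    (hB : ∀ v : ℝ, v₀ ≤ v → v ≤ v₀ + 2 * L → ‖∑' n, c n * exp (-(lam n : ℂ) * ((r : ℂ) - (v : ℂ) * I))‖ ≤ B) :
    ∑' n, ‖c n‖ ^ 2 * Real.exp (-(2 * lam n * r)) ≤ B ^ 2 + 4 / L ^ 2 * ∑' p, offT c lam r p := by
  -- the coefficients
  set w : ℕ → ℂ := fun n => c n * ((Real.exp (-(lam n * r)) : ℝ) : ℂ) with hw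
  have hwn : ∀ n, ‖w n‖ = ‖c n‖ * Real.exp (-(lam n * r)) := by
    intro n
    rw [hw]
    simp only [norm_mul, norm_real, Real.norm_eq_abs, Real.abs_exp]
  have hws : Summable fun n => ‖w n‖ := by simpa only [hwn] using hs
  have hS : ∀ v : ℝ, ∑' n, c n * exp (-(lam n : ℂ) * ((r : ℂ) - (v : ℂ) * I)) =
      ∑' n, w n * uexp (lam n * v) := by
    intro v
    refine tsum_congr fun n => ?_
    rw [hw]
    simp only
    rw [ofReal_exp, uexp, mul_assoc (c n), ← exp_add]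
    congr 2
    push_cast
    ring
  set W : ℕ × ℕ → ℂ := fun p => w p.1 * (starRingEnd ℂ) (w p.2) with hWdef
  have hW : Summable fun p => ‖W p‖ := Helper95.BD.summable_prod_conj hws
  have hsq : ∀ v : ℝ, ((‖∑' n, w n * uexp (lam n * v)‖ ^ 2 : ℝ) : ℂ) =
      ∑' p : ℕ × ℕ, W p * uexp ((lam p.1 - lam p.2) * v) := by
    intro v
    have hz : Summable fun n => ‖w n * uexp (lam n * v)‖ := by
      simpa only [norm_mul, norm_uexp, mul_one] using hws
    rw [Helper95.BD.normSq_tsum hz]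
    refine tsum_congr fun p => ?_
    rw [map_mul, mul_mul_mul_comm, conj_uexp, ← uexp_add]
    congr 2
    ring
  -- inner integral
  have hin : ∀ t : ℝ, HasSum (fun p : ℕ × ℕ => W p * Jint L (lam p.1 - lam p.2) *
      uexp ((lam p.1 - lam p.2) * (v₀ + t)))
      (∫ s in (0 : ℝ)..L, ((‖∑' n, w n * uexp (lam n * (v₀ + s + t))‖ ^ 2 : ℝ) : ℂ)) := by
    intro t
    have h := Helper95.BD.hasSum_integral_bdd hW
      (g := fun (p : ℕ × ℕ) s => uexp ((lam p.1 - lam p.2) * (v₀ + s + t)))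
      (fun p => continuous_uexp.comp (by fun_prop)) (fun p s => (norm_uexp _).le) 0 L
    simp_rw [hsq]
    convert h using 2 with p
    have : (fun s : ℝ => uexp ((lam p.1 - lam p.2) * (v₀ + s + t))) =
        fun s : ℝ => uexp ((lam p.1 - lam p.2) * s) * uexp ((lam p.1 - lam p.2) * (v₀ + t)) := by
      ext s
      rw [← uexp_add]
      congr 1
      ring
    rw [this, intervalIntegral.integral_mul_const, Jint]
    ring
  -- outer integral
  have hWJ : Summable fun p : ℕ × ℕ => ‖W p * Jint L (lam p.1 - lam p.2)‖ := by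
    refine Summable.of_nonneg_of_le (fun _ => norm_nonneg _) (fun p => ?_) (hW.mul_right L)
    rw [norm_mul]
    exact mul_le_mul_of_nonneg_left (norm_Jint_le hL) (norm_nonneg _)
  have hout : HasSum (fun p : ℕ × ℕ => W p * Jint L (lam p.1 - lam p.2) ^ 2 *
      uexp ((lam p.1 - lam p.2) * v₀))
      (∫ t in (0 : ℝ)..L, ∫ s in (0 : ℝ)..L,
        ((‖∑' n, w n * uexp (lam n * (v₀ + s + t))‖ ^ 2 : ℝ) : ℂ)) := by
    have h := Helper95.BD.hasSum_integral_bdd hWJ
      (g := fun (p : ℕ × ℕ) t => uexp ((lam p.1 - lam p.2) * (v₀ + t)))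
      (fun p => continuous_uexp.comp (by fun_prop)) (fun p s => (norm_uexp _).le) 0 L
    have e : ∀ t : ℝ, (∫ s in (0 : ℝ)..L, ((‖∑' n, w n * uexp (lam n * (v₀ + s + t))‖ ^ 2 : ℝ) : ℂ)) =
        ∑' p : ℕ × ℕ, W p * Jint L (lam p.1 - lam p.2) * uexp ((lam p.1 - lam p.2) * (v₀ + t)) :=
      fun t => (hin t).tsum_eq.symm
    simp_rw [e]
    convert h using 2 with p
    have : (fun t : ℝ => uexp ((lam p.1 - lam p.2) * (v₀ + t))) =
        fun t : ℝ => uexp ((lam p.1 - lam p.2) * t) * uexp ((lam p.1 - lam p.2) * v₀) := by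
      ext s
      rw [← uexp_add]
      congr 1
      ring
    rw [this, intervalIntegral.integral_mul_const, Jint]
    ring
  -- the double integral is at most L² B²
  have hB0 : 0 ≤ B := (norm_nonneg _).trans (hB v₀ le_rfl (by linarith))
  have hdouble : ‖∫ t in (0 : ℝ)..L, ∫ s in (0 : ℝ)..L,
        ((‖∑' n, w n * uexp (lam n * (v₀ + s + t))‖ ^ 2 : ℝ) : ℂ)‖ ≤ L ^ 2 * B ^ 2 := by
    have hinner : ∀ t ∈ Set.uIoc 0 L, ‖∫ s in (0 : ℝ)..L,
        ((‖∑' n, w n * uexp (lam n * (v₀ + s + t))‖ ^ 2 : ℝ) : ℂ)‖ ≤ B ^ 2 * L := by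
      intro t ht
      rw [Set.uIoc_of_le hL.le] at ht
      have := intervalIntegral.norm_integral_le_of_norm_le_const (a := 0) (b := L) (C := B ^ 2)
        (f := fun s : ℝ => ((‖∑' n, w n * uexp (lam n * (v₀ + s + t))‖ ^ 2 : ℝ) : ℂ))
        (fun s hs => by
          rw [Set.uIoc_of_le hL.le] at hs
          have h1 := hB (v₀ + s + t) (by linarith [hs.1, ht.1]) (by linarith [hs.2, ht.2])
          rw [hS] at h1
          rw [norm_real, Real.norm_eq_abs, abs_of_nonneg (by positivity)]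
          gcongr)
      simpa [abs_of_pos hL] using this
    have := intervalIntegral.norm_integral_le_of_norm_le_const (a := 0) (b := L) (C := B ^ 2 * L)
      (f := fun t : ℝ => ∫ s in (0 : ℝ)..L,
        ((‖∑' n, w n * uexp (lam n * (v₀ + s + t))‖ ^ 2 : ℝ) : ℂ)) hinner
    calc _ ≤ _ := this
      _ = L ^ 2 * B ^ 2 := by rw [sub_zero, abs_of_pos hL]; ring
  -- split the sum
  set T : ℕ × ℕ → ℂ := fun p => W p * Jint L (lam p.1 - lam p.2) ^ 2 * uexp ((lam p.1 - lam p.2) * v₀) with hT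
  set Dg : ℕ × ℕ → ℂ := fun p => if p.1 = p.2 then T p else 0 with hDg
  have hTs : Summable T := hout.summable
  have hTn : Summable fun p => ‖T p‖ := hTs.norm
  have hDs : Summable Dg := by
    refine Summable.of_norm_bounded hTn fun p => ?_
    rw [hDg]; simp only
    split_ifs
    · exact le_rfl
    · simp
  have hDval : ∑' p, Dg p = ((L ^ 2 * ∑' n, ‖c n‖ ^ 2 * Real.exp (-(2 * lam n * r)) : ℝ) : ℂ) := by
    rw [hDs.tsum_prod]
    push_cast
    rw [← tsum_mul_left]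
    refine tsum_congr fun n => ?_
    rw [tsum_eq_single n]
    · rw [hDg]
      simp only [if_true]
      rw [hT]
      simp only [sub_self, Jint_zero, zero_mul, uexp_zero, mul_one]
      rw [hWdef]
      simp only
      rw [mul_conj', hwn]
      push_cast
      rw [mul_pow, ← exp_nat_mul, mul_comm]
      congr 3
      push_cast
      ring
    · intro m hm
      rw [hDg]
      simp only
      rw [if_neg (Ne.symm hm)]
  have hoffle : ∀ p, ‖T p - Dg p‖ ≤ 4 * offT c lam r p := by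
    intro p
    rw [hDg]
    simp only
    unfold offT
    split_ifs with h
    · simp
    · rw [sub_zero, hT]
      simp only
      rw [norm_mul, norm_uexp, mul_one, norm_mul, norm_pow, hWdef]
      simp only
      rw [norm_mul, RCLike.norm_conj, hwn, hwn]
      have hne : lam p.1 - lam p.2 ≠ 0 := sub_ne_zero.mpr (hinj.ne h)
      have hJ := norm_Jint_le' (L := L) hne
      have hJ2 : ‖Jint L (lam p.1 - lam p.2)‖ ^ 2 ≤ 4 / (lam p.1 - lam p.2) ^ 2 := by
        calc _ ≤ (2 / |lam p.1 - lam p.2|) ^ 2 := by gcongr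
          _ = _ := by rw [div_pow, sq_abs]; norm_num
      calc _ ≤ ‖c p.1‖ * Real.exp (-(lam p.1 * r)) * (‖c p.2‖ * Real.exp (-(lam p.2 * r))) *
          (4 / (lam p.1 - lam p.2) ^ 2) := by gcongr
        _ = _ := by
          rw [show -((lam p.1 + lam p.2) * r) = -(lam p.1 * r) + -(lam p.2 * r) by ring, Real.exp_add]
          ring
  have hoffsum : ‖∑' p, (T p - Dg p)‖ ≤ 4 * ∑' p, offT c lam r p := by
    rw [← tsum_mul_left]
    exact tsum_of_norm_bounded (hoff.mul_left 4).hasSum hoffle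
  have hfin : L ^ 2 * ∑' n, ‖c n‖ ^ 2 * Real.exp (-(2 * lam n * r)) ≤
      L ^ 2 * B ^ 2 + 4 * ∑' p, offT c lam r p := by
    have h1 : ((L ^ 2 * ∑' n, ‖c n‖ ^ 2 * Real.exp (-(2 * lam n * r)) : ℝ) : ℂ) =
        ∑' p, T p - ∑' p, (T p - Dg p) := by
      rw [hTs.tsum_sub hDs, hDval]; ring
    have h2 : ‖((L ^ 2 * ∑' n, ‖c n‖ ^ 2 * Real.exp (-(2 * lam n * r)) : ℝ) : ℂ)‖ ≤
        L ^ 2 * B ^ 2 + 4 * ∑' p, offT c lam r p := by
      rw [h1]
      refine (norm_sub_le _ _).trans (add_le_add ?_ hoffsum)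
      rw [hout.tsum_eq]
      exact hdouble
    rw [norm_real] at h2
    exact (le_abs_self _).trans h2
  have hL2 : 0 < L ^ 2 := by positivity
  rw [← mul_le_mul_iff_right₀ hL2]
  calc _ ≤ _ := hfin
    _ = _ := by field_simp

end Pool.Agent.Helper19.BD
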