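import Pool.Agent.Helper97.BD.Base

/-!
Block BD-S1 (MP_bd232a_nt, part B). Complex Stirling formula in the closed right half plane.

PROOF (Gudermann's series). For `Re z ≥ 0`, `z ≠ 0` put
  `L z = (z - 1/2) log z - z + (1/2) log (2π)`,  `h z = (z + 1/2) (log (z+1) - log z) - 1 = L (z+1) - L z - log z`.
(1) `‖h z‖ ≤ 1 / ‖z‖ ^ 2` for `Re z ≥ 0`, `‖z‖ ≥ 1`: `log(z+1) - log z = ∫_0^1 dt/(z+t)`, hence
    `h z = ∫_0^1 (1/2 - t)/(z+t) dt = ∫_0^1 (1/2 - t) (1/(z+t) - 1/(z+1/2)) dt = ∫_0^1 (1/2-t)^2/((z+t)(z+1/2)) dt`,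
    and `‖z + t‖ ≥ ‖z‖` for `t ≥ 0`.   (Any other proof of `‖h z‖ ≤ C/‖z‖^2` is fine.)
(2) `R z := ∑_{k ≥ 0} h (z + k)`; `‖z + k‖^2 ≥ ‖z‖^2 + k^2`, so `‖R z‖ ≤ ∑_k C/(‖z‖^2 + k^2) ≤ C'/‖z‖` (for `‖z‖ ≥ 1`; e.g. split at
    `k ≤ ‖z‖` or compare with `∫ du/(‖z‖^2+u^2) = π/(2‖z‖)`).
(3) `GammaSeq z n = n^z n! / ∏_{j=0}^n (z+j)` tends to `Gamma z` (`Complex.GammaSeq_tendsto_Gamma`), and
    `∏_{j=0}^n (z+j) = exp (∑_{j≤n} log (z+j)) = exp (L (z+n+1) - L z - ∑_{j≤n} h (z+j))`, so it remains to see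
    `n^z n! exp (- L (z+n+1)) → 1`. Use Mathlib's real Stirling (`Stirling.tendsto_stirlingSeq_sqrt_pi` or
    `Stirling.factorial_isEquivalent_stirling`): `n! ~ sqrt(2 π n) (n/e)^n`, and
    `(z+n+1/2) log(z+n+1) - (z+n+1) - (n+1/2) log n + n - z log n → 0`, because
    `log (z+n+1) = log n + log (1 + (z+1)/n)` and `(z+n+1/2) log (1+(z+1)/n) → z + 1`.
-/

open Complex

namespace Pool.Agent.Helper19.BD

namespace Stir1

/-- `L z = (z - 1/2) log z - z + (1/2) log (2 pi)`. -/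
noncomputable def Lf (z : ℂ) : ℂ :=
  (z - 1 / 2) * log z - z + ((Real.log (2 * Real.pi) / 2 : ℝ) : ℂ)

/-- `h z = (z + 1/2) (log (z+1) - log z) - 1`. -/
noncomputable def hf (z : ℂ) : ℂ := (z + 1 / 2) * (log (z + 1) - log z) - 1

theorem Lf_succ (z : ℂ) : Lf (z + 1) - Lf z - log z = hf z := by
  unfold Lf hf; ring

theorem mem_slit {z : ℂ} (h0 : 0 ≤ z.re) (hz : z ≠ 0) : z ∈ slitPlane := by
  rw [mem_slitPlane_iff]
  by_cases h : 0 < z.re
  · exact Or.inl h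
  · right
    intro hi
    apply hz
    apply Complex.ext
    · simp; linarith [le_antisymm (not_lt.mp h) h0]
    · simpa using hi

theorem norm_add_ge {z : ℂ} (h0 : 0 ≤ z.re) {t : ℝ} (ht : 0 ≤ t) :
    ‖z‖ ^ 2 + t ^ 2 ≤ ‖z + t‖ ^ 2 := by
  rw [← Complex.normSq_eq_norm_sq, ← Complex.normSq_eq_norm_sq, Complex.normSq_apply,
    Complex.normSq_apply]
  simp only [add_re, ofReal_re, add_im, ofReal_im, add_zero]
  nlinarith [mul_nonneg h0 ht]

theorem norm_add_ge' {z : ℂ} (h0 : 0 ≤ z.re) {t : ℝ} (ht : 0 ≤ t) : ‖z‖ ≤ ‖z + t‖ := by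
  have h := norm_add_ge h0 ht
  have h2 : ‖z‖ ^ 2 ≤ ‖z + t‖ ^ 2 := by nlinarith [sq_nonneg t]
  exact (sq_le_sq₀ (norm_nonneg _) (norm_nonneg _)).mp h2

theorem add_ne {z : ℂ} (h0 : 0 ≤ z.re) (hz : z ≠ 0) {t : ℝ} (ht : 0 ≤ t) : z + t ≠ 0 := by
  intro h
  have h1 := norm_add_ge' h0 ht
  rw [h, norm_zero] at h1
  exact hz (norm_le_zero_iff.mp h1)

theorem norm_hf {z : ℂ} (h0 : 0 ≤ z.re) (hz : z ≠ 0) : ‖hf z‖ ≤ 1 / (4 * ‖z‖ ^ 2) := by
  have hzn : 0 < ‖z‖ := norm_pos_iff.mpr hz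
  set w : ℂ := z + ((1 / 2 : ℝ) : ℂ) with hw
  have hw0 : w ≠ 0 := add_ne h0 hz (by norm_num)
  have hwn : ‖z‖ ≤ ‖w‖ := norm_add_ge' h0 (by norm_num)
  let F : ℝ → ℂ := fun t => w * log (z + t) - t - ((t : ℂ) / 2 - (t : ℂ) ^ 2 / 2) / w
  have hd : ∀ t ∈ Set.Icc (0 : ℝ) 1, HasDerivWithinAt F
      ((1 / 2 - (t : ℂ)) ^ 2 / ((z + t) * w)) (Set.Icc (0 : ℝ) 1) t := by
    intro t ht
    have ht0 : 0 ≤ t := ht.1
    have hzt : z + t ≠ 0 := add_ne h0 hz ht0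
    have hsl : z + t ∈ slitPlane := by
      apply mem_slit _ hzt
      simp only [add_re, ofReal_re]; linarith
    apply HasDerivAt.hasDerivWithinAt
    have h1 : HasDerivAt (fun t : ℝ => (t : ℂ)) 1 t := Complex.ofRealCLM.hasDerivAt
    have h2 : HasDerivAt (fun t : ℝ => z + (t : ℂ)) 1 t := by
      simpa using h1.const_add z
    have h3 : HasDerivAt (fun t : ℝ => log (z + (t : ℂ))) (1 / (z + t)) t := h2.clog_real hsl
    have h4 := ((h3.const_mul w).sub h1).sub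
      ((((h1.div_const 2).sub ((h1.pow 2).div_const 2))).div_const w)
    refine HasDerivAt.congr_deriv (f := F) h4 ?_
    have e0 : ∀ v : ℂ, v ≠ 0 → (w - v) ^ 2 / (v * w) = w * (1 / v) - 1 - (w - v) / w := by
      intro v hv
      field_simp
    have e1 : (1 / 2 - (t : ℂ)) = w - (z + t) := by rw [hw]; push_cast; ring
    have e2 : ((1 : ℂ) / 2 - ((2 : ℕ) : ℂ) * (t : ℂ) ^ (2 - 1) * 1 / 2) = w - (z + t) := by
      rw [hw]; push_cast; norm_num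
    rw [e1, e2]
    exact (e0 _ hzt).symm
  have hb : ∀ t ∈ Set.Ico (0 : ℝ) 1,
      ‖(1 / 2 - (t : ℂ)) ^ 2 / ((z + t) * w)‖ ≤ 1 / (4 * ‖z‖ ^ 2) := by
    intro t ht
    rw [norm_div, norm_mul, norm_pow]
    have e1 : ‖(1 / 2 - (t : ℂ))‖ ≤ 1 / 2 := by
      have : (1 / 2 - (t : ℂ)) = ((1 / 2 - t : ℝ) : ℂ) := by push_cast; ring
      rw [this, Complex.norm_real, Real.norm_eq_abs, abs_le]
      constructor <;> linarith [ht.1, ht.2]
    have e2 : ‖z‖ ≤ ‖z + t‖ := norm_add_ge' h0 ht.1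
    calc ‖(1 / 2 - (t : ℂ))‖ ^ 2 / (‖z + t‖ * ‖w‖) ≤ (1 / 2) ^ 2 / (‖z‖ * ‖z‖) := by
          gcongr
      _ = 1 / (4 * ‖z‖ ^ 2) := by field_simp; norm_num
  have key := norm_image_sub_le_of_norm_deriv_le_segment_01' hd hb
  have e : F 1 - F 0 = hf z := by
    simp only [F, hf]
    push_cast
    rw [hw]
    simp
    ring
  rwa [e] at key

theorem norm_hf_le (z : ℂ) (h0 : 0 ≤ z.re) (h1 : 1 ≤ ‖z‖) (k : ℕ) :
    ‖hf (z + k)‖ ≤ 1 / 2 * (1 / (‖z‖ + k - 1 / 2) - 1 / (‖z‖ + ((k + 1 : ℕ) : ℝ) - 1 / 2)) := by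
  have hz : z ≠ 0 := by intro h; rw [h, norm_zero] at h1; linarith
  have hk : (0 : ℝ) ≤ k := Nat.cast_nonneg k
  have hzk : z + ((k : ℝ) : ℂ) ≠ 0 := add_ne h0 hz hk
  have h2 : ‖hf (z + ((k : ℝ) : ℂ))‖ ≤ 1 / (4 * ‖z + ((k : ℝ) : ℂ)‖ ^ 2) := by
    apply norm_hf _ hzk
    simp only [add_re, ofReal_re]; linarith
  have h3 := norm_add_ge h0 hk
  have h4 : (1 / (4 * ‖z + ((k : ℝ) : ℂ)‖ ^ 2)) ≤ 1 / (2 * (‖z‖ + k) ^ 2) := by
    apply one_div_le_one_div_of_le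
    · positivity
    · nlinarith [sq_nonneg (‖z‖ - k)]
  have h5 : 1 / (2 * (‖z‖ + k) ^ 2) ≤
      1 / 2 * (1 / (‖z‖ + k - 1 / 2) - 1 / (‖z‖ + ((k + 1 : ℕ) : ℝ) - 1 / 2)) := by
    push_cast
    have a1 : 0 < ‖z‖ + k - 1 / 2 := by linarith
    have a2 : 0 < ‖z‖ + (k + 1) - 1 / 2 := by linarith
    have a3 : 0 < ‖z‖ + k := by linarith
    have e0 : ∀ a : ℝ, 0 < a → 1 / 2 * (1 / a - 1 / (a + 1)) = 1 / (2 * (a * (a + 1))) := by
      intro a ha
      have : a + 1 ≠ 0 := by linarith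
      field_simp
      ring
    have e : 1 / 2 * (1 / (‖z‖ + k - 1 / 2) - 1 / (‖z‖ + (k + 1) - 1 / 2)) =
        1 / (2 * ((‖z‖ + k - 1 / 2) * (‖z‖ + (k + 1) - 1 / 2))) := by
      have h := e0 _ a1
      have e2 : ‖z‖ + (k : ℝ) - 1 / 2 + 1 = ‖z‖ + (k + 1) - 1 / 2 := by ring
      rwa [e2] at h
    rw [e]
    apply one_div_le_one_div_of_le
    · positivity
    · nlinarith
  calc ‖hf (z + k)‖ = ‖hf (z + ((k : ℝ) : ℂ))‖ := by simp
    _ ≤ _ := h2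
    _ ≤ _ := h4
    _ ≤ _ := h5

theorem sum_norm_hf (z : ℂ) (h0 : 0 ≤ z.re) (h1 : 1 ≤ ‖z‖) (n : ℕ) :
    ∑ k ∈ Finset.range n, ‖hf (z + k)‖ ≤ 1 / ‖z‖ := by
  have a : ∑ k ∈ Finset.range n, ‖hf (z + k)‖ ≤ ∑ k ∈ Finset.range n,
      1 / 2 * (1 / (‖z‖ + k - 1 / 2) - 1 / (‖z‖ + ((k + 1 : ℕ) : ℝ) - 1 / 2)) :=
    Finset.sum_le_sum fun k _ => norm_hf_le z h0 h1 k
  rw [← Finset.mul_sum, Finset.sum_range_sub' (fun k : ℕ => 1 / (‖z‖ + (k : ℝ) - 1 / 2))] at a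
  have hn : (0 : ℝ) ≤ n := Nat.cast_nonneg n
  have b : 0 ≤ 1 / (‖z‖ + (n : ℝ) - 1 / 2) := by
    apply one_div_nonneg.mpr; linarith
  have c : 1 / (‖z‖ + ((0 : ℕ) : ℝ) - 1 / 2) ≤ 2 / ‖z‖ := by
    rw [Nat.cast_zero, add_zero, div_le_div_iff₀ (by linarith) (by linarith)]
    linarith
  have d : (1 : ℝ) / 2 * (2 / ‖z‖) = 1 / ‖z‖ := by ring
  linarith

theorem summable_hf (z : ℂ) (h0 : 0 ≤ z.re) (h1 : 1 ≤ ‖z‖) :
    Summable (fun k : ℕ => ‖hf (z + k)‖) :=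
  summable_of_sum_range_le (fun _ => norm_nonneg _) (sum_norm_hf z h0 h1)

theorem sum_log (z : ℂ) (n : ℕ) :
    ∑ j ∈ Finset.range n, log (z + j) = Lf (z + n) - Lf z - ∑ j ∈ Finset.range n, hf (z + j) := by
  induction n with
  | zero => simp
  | succ n ih =>
    rw [Finset.sum_range_succ, Finset.sum_range_succ, ih, ← Lf_succ (z + n)]
    push_cast
    rw [add_assoc z (n : ℂ) 1]
    ring

theorem prod_eq (z : ℂ) (h0 : 0 ≤ z.re) (hz : z ≠ 0) (n : ℕ) :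
    ∏ j ∈ Finset.range n, (z + j) =
      exp (Lf (z + n) - Lf z - ∑ j ∈ Finset.range n, hf (z + j)) := by
  rw [← sum_log, exp_sum]
  refine Finset.prod_congr rfl fun j _ => ?_
  rw [exp_log]
  have := add_ne h0 hz (Nat.cast_nonneg j : (0 : ℝ) ≤ j)
  simpa using this

/-- the factor `n^z n! exp (-L (z+n+1))`. -/
noncomputable def Gn (z : ℂ) (n : ℕ) : ℂ := (n : ℂ) ^ z * (n.factorial : ℂ) * exp (-Lf (z + n + 1))

theorem GammaSeq_eq (z : ℂ) (h0 : 0 ≤ z.re) (hz : z ≠ 0) (n : ℕ) :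
    GammaSeq z n = Gn z n * exp (Lf z + ∑ j ∈ Finset.range (n + 1), hf (z + j)) := by
  rw [GammaSeq, prod_eq z h0 hz, Gn, div_eq_mul_inv, ← exp_neg, mul_assoc (_ * _), ← exp_add]
  congr 2
  push_cast
  rw [add_assoc z (n : ℂ) 1]
  ring

theorem tendsto_log_part (z : ℂ) :
    Filter.Tendsto (fun n : ℕ => z + 1 - (z + n + 1 / 2) * log (1 + (z + 1) / n)) Filter.atTop
      (nhds 0) := by
  have h1 : Filter.Tendsto (fun n : ℕ => (n : ℂ) * ((z + 1) / n)) Filter.atTop (nhds (z + 1)) := by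
    apply tendsto_const_nhds.congr'
    filter_upwards [Filter.eventually_ne_atTop 0] with n hn
    have : (n : ℂ) ≠ 0 := Nat.cast_ne_zero.mpr hn
    field_simp
  have h2 := tendsto_nat_mul_log_one_add_of_tendsto h1
  have h3 : Filter.Tendsto (fun n : ℕ => log (1 + (z + 1) / n)) Filter.atTop (nhds 0) := by
    have hi : Filter.Tendsto (fun n : ℕ => ((n : ℂ))⁻¹) Filter.atTop (nhds 0) :=
      tendsto_inv_atTop_nhds_zero_nat (𝕜 := ℂ)
    have h4 := hi.mul h2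
    rw [zero_mul] at h4
    refine h4.congr' ?_
    filter_upwards [Filter.eventually_ne_atTop 0] with n hn
    have : (n : ℂ) ≠ 0 := Nat.cast_ne_zero.mpr hn
    field_simp
  have h5 : Filter.Tendsto (fun n : ℕ => z + 1 - ((z + 1 / 2) * log (1 + (z + 1) / n) +
      n * log (1 + (z + 1) / n))) Filter.atTop
      (nhds (z + 1 - ((z + 1 / 2) * 0 + (z + 1)))) :=
    tendsto_const_nhds.sub ((h3.const_mul _).add h2)
  have e : z + 1 - ((z + 1 / 2) * 0 + (z + 1)) = 0 := by ring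
  rw [e] at h5
  refine h5.congr fun n => ?_
  ring

theorem Gn_eq (z : ℂ) (h0 : 0 ≤ z.re) (n : ℕ) (hn : n ≠ 0) :
    Gn z n = ((Stirling.stirlingSeq n : ℝ) : ℂ) * exp (-((Real.log Real.pi / 2 : ℝ) : ℂ)) *
      exp (z + 1 - (z + n + 1 / 2) * log (1 + (z + 1) / n)) := by
  have hnr : (0 : ℝ) < n := Nat.cast_pos.mpr (Nat.pos_of_ne_zero hn)
  have hnc : (n : ℂ) ≠ 0 := Nat.cast_ne_zero.mpr hn
  have hfac : ((n.factorial : ℝ) : ℂ) = ((Stirling.stirlingSeq n : ℝ) : ℂ) *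
      exp (((Real.log 2 / 2 + Real.log n / 2 + n * Real.log n - n : ℝ)) : ℂ) := by
    rw [← ofReal_exp, ← ofReal_mul]
    congr 1
    unfold Stirling.stirlingSeq
    have e1 : √(2 * n : ℝ) = Real.exp (Real.log 2 / 2 + Real.log n / 2) := by
      rw [← add_div, ← Real.log_mul (by norm_num) hnr.ne', Real.sqrt_eq_rpow,
        Real.rpow_def_of_pos (by positivity)]
      congr 1
      ring
    have e2 : ((n : ℝ) / Real.exp 1) ^ n = Real.exp (n * Real.log n - n) := by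
      have : (n : ℝ) / Real.exp 1 = Real.exp (Real.log n - 1) := by
        rw [Real.exp_sub, Real.exp_log hnr]
      rw [this, ← Real.exp_nat_mul]
      congr 1
      ring
    rw [e1, e2, ← Real.exp_add]
    have e3 : Real.log 2 / 2 + Real.log n / 2 + (n * Real.log n - n) =
        Real.log 2 / 2 + Real.log n / 2 + n * Real.log n - n := by ring
    rw [e3]
    field_simp
  have hlog : log (z + n + 1) = (Real.log n : ℂ) + log (1 + (z + 1) / n) := by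
    have hne : 1 + (z + 1) / n ≠ 0 := by
      intro h
      have h2 : (n : ℂ) + (z + 1) = 0 := by
        have := congrArg (fun w => (n : ℂ) * w) h
        simp only [mul_zero] at this
        rw [← this]
        field_simp
      have h3 := congrArg Complex.re h2
      simp at h3
      linarith
    have e : z + n + 1 = ((n : ℝ) : ℂ) * (1 + (z + 1) / n) := by
      push_cast
      field_simp
      ring
    rw [e, log_ofReal_mul hnr hne]
  have hpow : (n : ℂ) ^ z = exp (z * (Real.log n : ℂ)) := by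
    rw [cpow_def_of_ne_zero hnc]
    congr 1
    have : log (n : ℂ) = (Real.log n : ℂ) := by
      rw [← Complex.ofReal_natCast, Complex.ofReal_log hnr.le]
    rw [this, mul_comm]
  have hc : Real.log (2 * Real.pi) / 2 = Real.log 2 / 2 + Real.log Real.pi / 2 := by
    rw [Real.log_mul (by norm_num) Real.pi_pos.ne']; ring
  rw [Gn, Lf, hlog, hpow]
  have hf' : (n.factorial : ℂ) = ((n.factorial : ℝ) : ℂ) := by push_cast; rfl
  rw [hf', hfac, hc]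
  rw [mul_assoc, mul_assoc, mul_assoc, ← exp_add, ← exp_add, mul_left_comm, ← exp_add]
  congr 2
  push_cast
  ring

theorem tendsto_Gn (z : ℂ) (h0 : 0 ≤ z.re) :
    Filter.Tendsto (fun n : ℕ => Gn z n) Filter.atTop (nhds 1) := by
  have h1 : Filter.Tendsto (fun n : ℕ => ((Stirling.stirlingSeq n : ℝ) : ℂ)) Filter.atTop
      (nhds ((√Real.pi : ℝ) : ℂ)) :=
    (Complex.continuous_ofReal.tendsto _).comp Stirling.tendsto_stirlingSeq_sqrt_pi
  have h2 : Filter.Tendsto (fun n : ℕ => exp (z + 1 - (z + n + 1 / 2) * log (1 + (z + 1) / n)))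
      Filter.atTop (nhds (exp 0)) := (continuous_exp.tendsto _).comp (tendsto_log_part z)
  have h3 := (h1.mul_const (exp (-((Real.log Real.pi / 2 : ℝ) : ℂ)))).mul h2
  have e : ((√Real.pi : ℝ) : ℂ) * exp (-((Real.log Real.pi / 2 : ℝ) : ℂ)) * exp 0 = 1 := by
    rw [exp_zero, mul_one, ← ofReal_neg, ← ofReal_exp, ← ofReal_mul]
    have : √Real.pi = Real.exp (Real.log Real.pi / 2) := by
      rw [Real.sqrt_eq_rpow, Real.rpow_def_of_pos Real.pi_pos]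
      congr 1
      ring
    rw [this, ← Real.exp_add]
    simp
  rw [e] at h3
  refine h3.congr' ?_
  filter_upwards [Filter.eventually_ne_atTop 0] with n hn
  rw [Gn_eq z h0 n hn]

end Stir1

open Stir1 in
theorem stirling_rhp : ∃ C : ℝ, 0 < C ∧ ∀ z : ℂ, 0 ≤ z.re → 1 ≤ ‖z‖ →
    ∃ R : ℂ, ‖R‖ ≤ C / ‖z‖ ∧
      Gamma z = exp ((z - 1 / 2) * log z - z + ((Real.log (2 * Real.pi) / 2 : ℝ) : ℂ) + R) := by
  refine ⟨1, one_pos, fun z h0 h1 => ?_⟩
  have hz : z ≠ 0 := by intro h; rw [h, norm_zero] at h1; linarith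
  have hs := summable_hf z h0 h1
  refine ⟨∑' k : ℕ, hf (z + k), ?_, ?_⟩
  · refine (norm_tsum_le_tsum_norm hs).trans ?_
    exact hs.tsum_le_of_sum_range_le (fun n => sum_norm_hf z h0 h1 n)
  · have hsum : Filter.Tendsto (fun n : ℕ => ∑ j ∈ Finset.range (n + 1), hf (z + j)) Filter.atTop
        (nhds (∑' k : ℕ, hf (z + k))) :=
      (hs.of_norm.hasSum.tendsto_sum_nat).comp (Filter.tendsto_add_atTop_nat 1)
    have h2 : Filter.Tendsto (fun n : ℕ =>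
        Gn z n * exp (Lf z + ∑ j ∈ Finset.range (n + 1), hf (z + j))) Filter.atTop
        (nhds (1 * exp (Lf z + ∑' k : ℕ, hf (z + k)))) :=
      (tendsto_Gn z h0).mul ((continuous_exp.tendsto _).comp (tendsto_const_nhds.add hsum))
    have h3 := GammaSeq_tendsto_Gamma z
    have h4 : Filter.Tendsto (GammaSeq z) Filter.atTop
        (nhds (1 * exp (Lf z + ∑' k : ℕ, hf (z + k)))) := by
      refine h2.congr fun n => ?_
      rw [GammaSeq_eq z h0 hz n]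
    have h5 := tendsto_nhds_unique h3 h4
    rw [h5, one_mul]
    rfl

end Pool.Agent.Helper19.BD
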